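import Mathlib

set_option autoImplicit false
set_option linter.unusedSectionVars false

open Filter Topology Finset

namespace Pool.Agent.Lib.MP_e5885b_co

section span

variable {V : Type*} [NormedAddCommGroup V] [NormedSpace ℝ V] [FiniteDimensional ℝ V]

lemma span_bound (L : Finset V) : ∃ C : ℝ, 0 ≤ C ∧ ∀ (ψ : V →ₗ[ℝ] ℝ) (δ : ℝ), 0 ≤ δ →
    (∀ w ∈ L, |ψ w| ≤ δ) → ∀ e ∈ Submodule.span ℝ (L : Set V), |ψ e| ≤ C * δ * ‖e‖ := by
  classical
  let Φ : (L → ℝ) →ₗ[ℝ] V := Fintype.linearCombination ℝ (fun w : L => (w : V))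
  have hr : LinearMap.range Φ = Submodule.span ℝ (L : Set V) := by
    rw [Fintype.range_linearCombination]; congr 1; ext v; simp
  obtain ⟨S, hS⟩ := Φ.rangeRestrict.exists_rightInverse_of_surjective Φ.range_rangeRestrict
  let S' := LinearMap.toContinuousLinearMap S
  refine ⟨L.card * ‖S'‖, by positivity, fun ψ δ hδ hψ e he => ?_⟩
  rw [← hr] at he
  have h1 : Φ (S ⟨e, he⟩) = e := congrArg Subtype.val (LinearMap.congr_fun hS ⟨e, he⟩)
  have h2 : ‖S ⟨e, he⟩‖ ≤ ‖S'‖ * ‖e‖ := S'.le_opNorm ⟨e, he⟩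
  rw [← h1, Fintype.linearCombination_apply, map_sum]
  refine (abs_sum_le_sum_abs _ _).trans ?_
  rw [← Fintype.linearCombination_apply, h1]
  calc ∑ w : L, |ψ (S ⟨e, he⟩ w • (w : V))| ≤ ∑ _w : L, ‖S'‖ * ‖e‖ * δ := by
        refine sum_le_sum fun w _ => ?_
        rw [map_smul, smul_eq_mul, abs_mul]
        exact mul_le_mul ((norm_le_pi_norm (S ⟨e, he⟩) w).trans h2) (hψ w w.2) (abs_nonneg _)
          (by positivity)
    _ = _ := by simp; ring

lemma mem_span_of_approx {ι : Type*} {U : Filter ι} [U.NeBot] (P : Submodule ℝ V) (t : V)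
    (s : ι → V) (N : ι → ℝ) (hN : ∀ ν, 0 < N ν) (hs : ∀ᶠ ν in U, s ν ∈ P)
    (he : ∀ η > 0, ∀ᶠ ν in U, ‖s ν - N ν • t‖ ≤ η * N ν) : t ∈ P := by
  have hc : IsClosed (P : Set V) := P.closed_of_finiteDimensional
  refine hc.mem_of_tendsto (f := fun ν => (N ν)⁻¹ • s ν) (b := U) ?_
    (hs.mono fun ν h => P.smul_mem _ h)
  rw [Metric.tendsto_nhds]
  intro η hη
  filter_upwards [he (η / 2) (by positivity)] with ν h
  have h0 := hN ν
  have : (N ν)⁻¹ • s ν - t = (N ν)⁻¹ • (s ν - N ν • t) := by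
    rw [smul_sub, smul_smul, inv_mul_cancel₀ h0.ne', one_smul]
  rw [dist_eq_norm, this, norm_smul, Real.norm_of_nonneg (by positivity), inv_mul_lt_iff₀ h0]
  nlinarith

end span

variable {J : Type} [Fintype J] [DecidableEq J] {Ω : Type} [DecidableEq Ω]

/-- combinatorial data of a tiling -/
structure Dat (J Ω : Type) [Fintype J] [DecidableEq J] (h C0 δ : ℝ) where
  N : ℕ
  a : J → ℝ
  X : Finset Ω
  m : Ω → J → ℕ
  σ : Ω → ℝ
  hN : 1 / δ ≤ N
  ha : ∀ j, 0 < a j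
  hsum : ∑ j, a j = h + 2 / N
  hσ : ∀ x ∈ X, σ x = 1 / 2 ∨ σ x = 1
  hv : ∀ x ∈ X, ∑ j, (m x j : ℝ) * a j = σ x
  hm : ∀ j, ∑ x ∈ X, m x j = N
  hG : ∀ x ∈ X, ∀ A : Finset J, (∀ l ∉ A, a l ≤ 1 / (δ * N)) →
    ∑ l ∈ Aᶜ, (m x l : ℝ) ≤ C0 * (1 + ∑ l ∈ A, (m x l : ℝ))

noncomputable def WW (J : Type) [Fintype J] [DecidableEq J] (M : ℕ) : Finset ((J → ℝ) × ℝ) := by
  classical
  exact (Fintype.piFinset fun _ => (range (M + 1)).image (fun n : ℕ => (n : ℝ))) ×ˢ {1 / 2, 1}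

namespace Dat

variable {h C0 δ : ℝ} (D : Dat J Ω h C0 δ)

def w (A : Finset J) (x : Ω) : (J → ℝ) × ℝ := (fun j => if j ∈ A then D.m x j else 0, D.σ x)

noncomputable def ψ : ((J → ℝ) × ℝ) →ₗ[ℝ] ℝ where
  toFun v := v.2 - ∑ j, v.1 j * D.a j
  map_add' u v := by simp [add_mul, sum_add_distrib]; ring
  map_smul' c v := by simp [mul_sub, mul_sum, mul_assoc]

def β (A : Finset J) (x : Ω) : ℝ := 1 + ∑ l ∈ A, (D.m x l : ℝ)

lemma one_le_β (A : Finset J) (x : Ω) : 1 ≤ D.β A x :=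
  le_add_of_nonneg_right (sum_nonneg fun _ _ => Nat.cast_nonneg _)

lemma ψ_w (A : Finset J) {x : Ω} (hx : x ∈ D.X) :
    D.ψ (D.w A x) = ∑ l ∈ Aᶜ, (D.m x l : ℝ) * D.a l := by
  have h1 := D.hv x hx
  rw [← sum_add_sum_compl A] at h1
  simp only [ψ, w, LinearMap.coe_mk, AddHom.coe_mk, ite_mul, zero_mul, sum_ite_mem, univ_inter]
  linarith

lemma ψ_w_nonneg (A : Finset J) {x : Ω} (hx : x ∈ D.X) : 0 ≤ D.ψ (D.w A x) := by
  rw [D.ψ_w A hx]
  exact sum_nonneg fun l _ => mul_nonneg (Nat.cast_nonneg _) (D.ha l).le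

lemma norm_w (A : Finset J) {x : Ω} (hx : x ∈ D.X) : ‖D.w A x‖ ≤ D.β A x := by
  have h1 := D.one_le_β A x
  rw [Prod.norm_def, max_le_iff]
  constructor
  · rw [pi_norm_le_iff_of_nonneg (by linarith)]
    intro j
    simp only [w]
    split_ifs with hj
    · rw [Real.norm_of_nonneg (Nat.cast_nonneg _)]
      have := single_le_sum (f := fun l => (D.m x l : ℝ)) (fun _ _ => Nat.cast_nonneg _) hj
      unfold β; linarith
    · simp; linarith
  · simp only [w]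
    rcases D.hσ x hx with e | e <;> rw [e, Real.norm_of_nonneg (by norm_num)] <;> linarith

lemma w_mem (A : Finset J) {x : Ω} (hx : x ∈ D.X) {M : ℕ} (hM : ∀ l ∈ A, D.m x l ≤ M) :
    D.w A x ∈ WW J M := by
  classical
  unfold WW
  simp only [mem_product, Fintype.mem_piFinset, mem_image, mem_range, mem_insert, mem_singleton]
  refine ⟨fun j => ?_, D.hσ x hx⟩
  simp only [w]
  split_ifs with hj
  · exact ⟨_, Nat.lt_succ_of_le (hM j hj), rfl⟩
  · exact ⟨0, by omega, by simp⟩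

def tt (h : ℝ) (A : Finset J) : (J → ℝ) × ℝ := (fun j => if j ∈ A then 1 else 0, h)

lemma sum_w (hN : 0 < D.N) (A : Finset J) :
    ∑ x ∈ D.X, D.w A x = (D.N : ℝ) • tt h A + (0, 2) := by
  have hN' : (D.N : ℝ) ≠ 0 := by positivity
  have hm : ∀ j, ∑ x ∈ D.X, (D.m x j : ℝ) = D.N := fun j => by exact_mod_cast D.hm j
  ext j
  · simp only [Prod.fst_sum, Finset.sum_apply, w, tt, Prod.fst_add, Prod.smul_fst, Pi.add_apply,
      Pi.smul_apply, smul_eq_mul, Pi.zero_apply]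
    split_ifs <;> simp [hm]
  · simp only [Prod.snd_sum, w, tt, Prod.snd_add, Prod.smul_snd, smul_eq_mul]
    rw [← sum_congr rfl D.hv, sum_comm]
    simp only [← sum_mul, hm]
    rw [← mul_sum, D.hsum]; field_simp

lemma err_eq (hN : 0 < D.N) (A : Finset J) {Z : Finset Ω} (hZ : Z ⊆ D.X) :
    ∑ x ∈ D.X \ Z, D.w A x - (D.N : ℝ) • tt h A = (0, 2) - ∑ x ∈ Z, D.w A x := by
  have := D.sum_w hN A
  rw [← sum_sdiff hZ] at this
  linear_combination (exp := 1) this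

lemma err_norm (hN : 0 < D.N) (A : Finset J) {Z : Finset Ω} (hZ : Z ⊆ D.X) :
    ‖∑ x ∈ D.X \ Z, D.w A x - (D.N : ℝ) • tt h A‖ ≤ 2 + ∑ x ∈ Z, D.β A x := by
  rw [D.err_eq hN A hZ]
  refine (norm_sub_le _ _).trans (add_le_add (by simp [Prod.norm_def]) ?_)
  exact (norm_sum_le _ _).trans (sum_le_sum fun x hx => D.norm_w A (hZ hx))

lemma err_ψ (hN : 0 < D.N) (A : Finset J) {Z : Finset Ω} (hZ : Z ⊆ D.X) :
    D.ψ (∑ x ∈ D.X \ Z, D.w A x - (D.N : ℝ) • tt h A) = 2 - ∑ x ∈ Z, D.ψ (D.w A x) := by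
  rw [D.err_eq hN A hZ, map_sub, map_sum]; simp [ψ]

lemma total_ψ (A : Finset J) {s : ℝ} (hs : ∀ l ∉ A, D.a l ≤ s) (hs0 : 0 ≤ s) :
    ∑ x ∈ D.X, D.ψ (D.w A x) ≤ D.N * (Fintype.card J * s) := by
  have hm : ∀ j, ∑ x ∈ D.X, (D.m x j : ℝ) = D.N := fun j => by exact_mod_cast D.hm j
  rw [sum_congr rfl fun x hx => D.ψ_w A hx, sum_comm]
  simp only [← sum_mul, hm]
  rw [← mul_sum]
  refine mul_le_mul_of_nonneg_left ?_ (Nat.cast_nonneg _)
  calc ∑ l ∈ Aᶜ, D.a l ≤ ∑ _l ∈ Aᶜ, s := sum_le_sum fun l hl => hs l (mem_compl.1 hl)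
    _ = (Aᶜ).card * s := by simp
    _ ≤ _ := by gcongr; exact card_le_univ _

end Dat

section seq

variable {h C0 : ℝ} (D : ∀ ν : ℕ, Dat J Ω h C0 (1 / (ν + 1)))

lemma N_ge (ν : ℕ) : (ν : ℝ) + 1 ≤ (D ν).N := by simpa using (D ν).hN

lemma N_pos (ν : ℕ) : 0 < (D ν).N := by
  have := N_ge D ν
  have : (0 : ℝ) < (D ν).N := by have : (0 : ℝ) ≤ ν := Nat.cast_nonneg _; linarith
  exact_mod_cast this

lemma ev_ge (K : ℝ) : ∀ᶠ ν : ℕ in (hyperfilter ℕ : Filter ℕ), K ≤ (ν : ℝ) + 1 := by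
  have : ∀ᶠ ν : ℕ in atTop, K ≤ (ν : ℝ) + 1 := by
    filter_upwards [tendsto_natCast_atTop_atTop.eventually_ge_atTop K] with ν hν
    linarith
  exact Nat.hyperfilter_le_atTop this

def Hyp (A : Finset J) : Prop :=
  ∃ (M : ℕ) (Z : ℕ → Finset Ω), (∀ ν, Z ν ⊆ (D ν).X) ∧
    (∀ᶠ ν in (hyperfilter ℕ : Filter ℕ), ∀ x ∈ (D ν).X \ Z ν, ∀ l ∈ A, (D ν).m x l ≤ M) ∧
    (∀ η > 0, ∀ᶠ ν in (hyperfilter ℕ : Filter ℕ), ∑ x ∈ Z ν, (D ν).β A x ≤ η * (D ν).N) ∧
    ∃ C : ℝ, 0 ≤ C ∧ ∀ᶠ ν in (hyperfilter ℕ : Filter ℕ),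
      ∀ l ∉ A, (∑ x ∈ Z ν, (D ν).β A x) * (D ν).a l ≤ C

lemma hyp_empty : Hyp D ∅ :=
  ⟨0, fun _ => ∅, fun _ => empty_subset _, by simp,
    fun η hη => Eventually.of_forall fun ν => by simp; positivity, 0, le_rfl, by simp⟩

lemma hyp_final (hC0 : 0 ≤ C0) {A : Finset J} (H : Hyp D A)
    (ht : ∀ l ∉ A, ∃ K : ℝ, ∀ᶠ ν in (hyperfilter ℕ : Filter ℕ), (D ν).N * (D ν).a l ≤ K) :
    False := by
  classical
  obtain ⟨M, Z, hZ, h1, h2, -⟩ := H
  have hG : ∀ᶠ ν in (hyperfilter ℕ : Filter ℕ), ∀ x ∈ (D ν).X,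
      ∑ l ∈ Aᶜ, ((D ν).m x l : ℝ) ≤ C0 * (D ν).β A x := by
    have : ∀ᶠ ν in (hyperfilter ℕ : Filter ℕ), ∀ l ∈ Aᶜ,
        (D ν).a l ≤ 1 / (1 / ((ν : ℝ) + 1) * (D ν).N) := by
      rw [eventually_all_finset]
      intro l hl
      obtain ⟨K, hK⟩ := ht l (mem_compl.1 hl)
      filter_upwards [hK, ev_ge K] with ν a b
      have h0 : (0 : ℝ) < (D ν).N := by exact_mod_cast N_pos D ν
      have e : (D ν).a l * (1 / ((ν : ℝ) + 1) * (D ν).N) = ((D ν).N * (D ν).a l) / (ν + 1) := by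
        field_simp
      rw [le_div_iff₀ (by positivity), e, div_le_one (by positivity)]
      linarith
    filter_upwards [this] with ν a x hx
    exact (D ν).hG x hx A fun l hl => a l (mem_compl.2 hl)
  have hβ : ∀ᶠ ν in (hyperfilter ℕ : Filter ℕ), ∀ x ∈ (D ν).X,
      (D ν).β univ x ≤ (1 + C0) * (D ν).β A x := by
    filter_upwards [hG] with ν a x hx
    have := a x hx
    have e : (D ν).β univ x = (D ν).β A x + ∑ l ∈ Aᶜ, ((D ν).m x l : ℝ) := by
      unfold Dat.β; rw [← sum_add_sum_compl A]; ring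
    rw [e]; linarith
  obtain ⟨M', hM'⟩ := exists_nat_ge ((1 + C0) * (1 + Fintype.card J * M))
  set L := (WW J M').filter fun w => ∀ᶠ ν in (hyperfilter ℕ : Filter ℕ), (D ν).ψ w = 0 with hL
  have hL0 : ∀ᶠ ν in (hyperfilter ℕ : Filter ℕ), ∀ w ∈ L, (D ν).ψ w = 0 := by
    rw [eventually_all_finset]; intro w hw; exact (mem_filter.1 hw).2
  have hL1 : ∀ᶠ ν in (hyperfilter ℕ : Filter ℕ), ∀ w ∈ WW J M', (D ν).ψ w = 0 → w ∈ L := by
    rw [eventually_all_finset]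
    intro w hw
    by_cases hh : w ∈ L
    · exact Eventually.of_forall fun _ _ => hh
    · have : ¬ ∀ᶠ ν in (hyperfilter ℕ : Filter ℕ), (D ν).ψ w = 0 := fun h' =>
        hh (mem_filter.2 ⟨hw, h'⟩)
      filter_upwards [Ultrafilter.eventually_not.2 this] with ν a b
      exact absurd b a
  have hmem : Dat.tt h (univ : Finset J) ∈ Submodule.span ℝ (L : Set ((J → ℝ) × ℝ)) := by
    refine mem_span_of_approx (U := (hyperfilter ℕ : Filter ℕ)) _ _
      (fun ν => ∑ x ∈ (D ν).X \ Z ν, (D ν).w univ x) (fun ν => (D ν).N)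
      (fun ν => by exact_mod_cast N_pos D ν) ?_ fun η hη => ?_
    · filter_upwards [h1, hβ, hL1] with ν a b c
      refine Submodule.sum_mem _ fun x hx => Submodule.subset_span (c _ ?_ ?_)
      · refine (D ν).w_mem _ (mem_sdiff.1 hx).1 fun l _ => ?_
        have e1 := b x (mem_sdiff.1 hx).1
        have e2 : (D ν).β A x ≤ 1 + Fintype.card J * M := by
          unfold Dat.β
          have : ∑ l ∈ A, ((D ν).m x l : ℝ) ≤ ∑ _l ∈ A, (M : ℝ) :=
            sum_le_sum fun l hl => by exact_mod_cast a x hx l hl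
          have h3 : (A.card : ℝ) ≤ Fintype.card J := by exact_mod_cast card_le_univ A
          simp only [sum_const, nsmul_eq_mul] at this
          nlinarith [(Nat.cast_nonneg M : (0 : ℝ) ≤ M)]
        have e3 : ((D ν).m x l : ℝ) ≤ (D ν).β univ x := by
          have := single_le_sum (f := fun l => ((D ν).m x l : ℝ)) (fun _ _ => Nat.cast_nonneg _)
            (mem_univ l)
          unfold Dat.β; linarith
        have : ((D ν).m x l : ℝ) ≤ M' := by nlinarith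
        exact_mod_cast this
      · rw [(D ν).ψ_w _ (mem_sdiff.1 hx).1]; simp
    · filter_upwards [h2 (η / 2 / (1 + C0)) (by positivity), hβ, ev_ge (4 / η)] with ν a b c
      refine ((D ν).err_norm (N_pos D ν) univ (hZ ν)).trans ?_
      have e1 : ∑ x ∈ Z ν, (D ν).β univ x ≤ (1 + C0) * ∑ x ∈ Z ν, (D ν).β A x := by
        rw [mul_sum]; exact sum_le_sum fun x hx => b x (hZ ν hx)
      have e2 : (1 + C0) * ∑ x ∈ Z ν, (D ν).β A x ≤ η / 2 * (D ν).N := by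
        calc _ ≤ (1 + C0) * (η / 2 / (1 + C0) * (D ν).N) := by gcongr
          _ = _ := by field_simp
      have e3 := N_ge D ν
      rw [div_le_iff₀ hη] at c
      nlinarith
  obtain ⟨ν, hν⟩ := hL0.exists
  have h0 : (D ν).ψ (Dat.tt h univ) = 0 := by
    have : Submodule.span ℝ (L : Set ((J → ℝ) × ℝ)) ≤ LinearMap.ker (D ν).ψ :=
      Submodule.span_le.2 fun w hw => hν w hw
    exact this hmem
  simp only [Dat.ψ, Dat.tt, LinearMap.coe_mk, AddHom.coe_mk, mem_univ, if_true, one_mul,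
    (D ν).hsum] at h0
  have h3 : (0 : ℝ) < 2 / (D ν).N := by have := N_pos D ν; positivity
  linarith

lemma hyp_step {A : Finset J} (H : Hyp D A) {j : J} (hj : j ∉ A)
    (hmax : ∀ᶠ ν in (hyperfilter ℕ : Filter ℕ), ∀ l ∉ A, (D ν).a l ≤ (D ν).a j)
    (hbig : ∀ K : ℝ, ∀ᶠ ν in (hyperfilter ℕ : Filter ℕ), K ≤ (D ν).N * (D ν).a j) :
    Hyp D (insert j A) := by
  classical
  obtain ⟨M, Z, hZ, h1, h2, CB, hCB, h3⟩ := H
  set L := (WW J M).filter fun w => ∃ K : ℝ, ∀ᶠ ν in (hyperfilter ℕ : Filter ℕ),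
    |(D ν).ψ w| ≤ K * (D ν).a j with hL
  obtain ⟨lam, hlam0, hlam⟩ : ∃ lam : ℝ, 0 ≤ lam ∧ ∀ᶠ ν in (hyperfilter ℕ : Filter ℕ),
      ∀ w ∈ L, |(D ν).ψ w| ≤ lam * (D ν).a j := by
    have : ∀ w ∈ L, ∃ K : ℝ, ∀ᶠ ν in (hyperfilter ℕ : Filter ℕ),
      |(D ν).ψ w| ≤ K * (D ν).a j := fun w hw => (mem_filter.1 hw).2
    choose! K hK using this
    refine ⟨∑ w ∈ L, |K w|, sum_nonneg fun _ _ => abs_nonneg _, ?_⟩
    rw [eventually_all_finset]
    intro w hw
    filter_upwards [hK w hw] with ν a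
    refine a.trans (mul_le_mul_of_nonneg_right ((le_abs_self _).trans ?_) ((D ν).ha j).le)
    exact single_le_sum (f := fun w => |K w|) (fun _ _ => abs_nonneg _) hw
  have hhi : ∀ Λ : ℝ, ∀ᶠ ν in (hyperfilter ℕ : Filter ℕ), ∀ w ∈ WW J M, w ∉ L →
      Λ * (D ν).a j ≤ |(D ν).ψ w| := by
    intro Λ
    rw [eventually_all_finset]
    intro w hw
    by_cases hh : w ∈ L
    · exact Eventually.of_forall fun _ h' => absurd hh h'
    · have : ¬ ∀ᶠ ν in (hyperfilter ℕ : Filter ℕ), |(D ν).ψ w| ≤ Λ * (D ν).a j := fun h' =>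
        hh (mem_filter.2 ⟨hw, Λ, h'⟩)
      filter_upwards [Ultrafilter.eventually_not.2 this] with ν a _
      exact (not_le.1 a).le
  let Hi : ℕ → Finset Ω := fun ν => ((D ν).X \ Z ν).filter fun x => (D ν).w A x ∉ L
  have hZ' : ∀ ν, Z ν ∪ Hi ν ⊆ (D ν).X := fun ν =>
    union_subset (hZ ν) ((filter_subset _ _).trans sdiff_subset)
  have hdis : ∀ ν, Disjoint (Z ν) (Hi ν) := fun ν =>
    disjoint_left.2 fun x a b => (mem_sdiff.1 (mem_filter.1 b).1).2 a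
  have hlow : ∀ ν, ∀ x ∈ (D ν).X \ (Z ν ∪ Hi ν), x ∈ (D ν).X \ Z ν ∧ (D ν).w A x ∈ L := by
    intro ν x hx
    obtain ⟨p1, p2⟩ := mem_sdiff.1 hx
    have p3 : x ∈ (D ν).X \ Z ν := mem_sdiff.2 ⟨p1, fun q => p2 (mem_union_left _ q)⟩
    refine ⟨p3, ?_⟩
    by_contra q
    exact p2 (mem_union_right _ (mem_filter.2 ⟨p3, q⟩))
  set M' : ℝ := 1 + Fintype.card J * M with hM'
  have hM'1 : 1 ≤ M' := le_add_of_nonneg_right (by positivity)
  have hβ : ∀ᶠ ν in (hyperfilter ℕ : Filter ℕ), ∑ x ∈ Hi ν, (D ν).β A x ≤ M' * (Hi ν).card := by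
    filter_upwards [h1] with ν a
    calc ∑ x ∈ Hi ν, (D ν).β A x ≤ ∑ _x ∈ Hi ν, M' := by
          refine sum_le_sum fun x hx => ?_
          unfold Dat.β
          have : ∑ l ∈ A, ((D ν).m x l : ℝ) ≤ ∑ _l ∈ A, (M : ℝ) :=
            sum_le_sum fun l hl => by exact_mod_cast a x (mem_filter.1 hx).1 l hl
          have h3 : (A.card : ℝ) ≤ Fintype.card J := by exact_mod_cast card_le_univ A
          simp only [sum_const, nsmul_eq_mul] at this
          nlinarith [(Nat.cast_nonneg M : (0 : ℝ) ≤ M)]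
      _ = _ := by simp [mul_comm]
  have hcnt : ∀ Λ : ℝ, ∀ᶠ ν in (hyperfilter ℕ : Filter ℕ),
      (Hi ν).card * (Λ * (D ν).a j) ≤ ∑ x ∈ Hi ν, (D ν).ψ ((D ν).w A x) := by
    intro Λ
    filter_upwards [h1, hhi Λ] with ν a b
    calc ((Hi ν).card : ℝ) * (Λ * (D ν).a j) = ∑ _x ∈ Hi ν, Λ * (D ν).a j := by simp
      _ ≤ _ := by
          refine sum_le_sum fun x hx => ?_
          have hx' := mem_filter.1 hx
          have hxX := (mem_sdiff.1 hx'.1).1
          have := b _ ((D ν).w_mem A hxX (a x hx'.1)) hx'.2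
          rwa [abs_of_nonneg ((D ν).ψ_w_nonneg A hxX)] at this
  have hspan : ∀ ν, ∑ x ∈ (D ν).X \ (Z ν ∪ Hi ν), (D ν).w A x ∈
      Submodule.span ℝ (L : Set ((J → ℝ) × ℝ)) := fun ν =>
    Submodule.sum_mem _ fun x hx => Submodule.subset_span (hlow ν x hx).2
  have hmem : Dat.tt h A ∈ Submodule.span ℝ (L : Set ((J → ℝ) × ℝ)) := by
    refine mem_span_of_approx (U := (hyperfilter ℕ : Filter ℕ)) _ _
      (fun ν => ∑ x ∈ (D ν).X \ (Z ν ∪ Hi ν), (D ν).w A x) (fun ν => (D ν).N)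
      (fun ν => by exact_mod_cast N_pos D ν) (Eventually.of_forall hspan) fun η hη => ?_
    filter_upwards [h2 (η / 3) (by positivity), hβ, ev_ge (6 / η),
      hcnt (3 * M' * (Fintype.card J + 1) / η), hmax] with ν a b c d e
    refine ((D ν).err_norm (N_pos D ν) A (hZ' ν)).trans ?_
    rw [sum_union (hdis ν)]
    have e3 := N_ge D ν
    rw [div_le_iff₀ hη] at c
    have e4 : ∑ x ∈ Hi ν, (D ν).ψ ((D ν).w A x) ≤ (D ν).N * (Fintype.card J * (D ν).a j) :=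
      (sum_le_sum_of_subset_of_nonneg (subset_union_right.trans (hZ' ν))
        fun x hx _ => (D ν).ψ_w_nonneg A hx).trans ((D ν).total_ψ A e ((D ν).ha j).le)
    have e5 := (D ν).ha j
    have e6 : ((Hi ν).card : ℝ) * (3 * M' * (Fintype.card J + 1) / η) ≤
        (D ν).N * Fintype.card J := by
      have := d.trans e4
      rw [← mul_assoc, ← mul_assoc] at this
      exact le_of_mul_le_mul_right this e5
    rw [← mul_div_assoc, div_le_iff₀ hη] at e6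
    have e7 : 3 * (M' * (Hi ν).card) ≤ η * (D ν).N := by
      have p1 : (0 : ℝ) < Fintype.card J + 1 := by positivity
      refine le_of_mul_le_mul_right ?_ p1
      have p2 : (0 : ℝ) ≤ η * (D ν).N := by positivity
      nlinarith
    nlinarith
  obtain ⟨C, hC, hCb⟩ := span_bound L
  set C' : ℝ := 2 * (2 + C * lam * (2 * (|h| + 2) + CB)) with hC'
  have hC'0 : 0 ≤ C' := by positivity
  have hD : ∀ᶠ ν in (hyperfilter ℕ : Filter ℕ),
      ∑ x ∈ Z ν ∪ Hi ν, (D ν).ψ ((D ν).w A x) ≤ C' := by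
    filter_upwards [hlam, hβ, hcnt (2 * C * lam * M'), h3] with ν a b c d
    have e5 := (D ν).ha j
    have k1 := hCb (D ν).ψ (lam * (D ν).a j) (by positivity) a _
      (Submodule.sub_mem _ (hspan ν) (Submodule.smul_mem _ ((D ν).N : ℝ) hmem))
    rw [(D ν).err_ψ (N_pos D ν) A (hZ' ν)] at k1
    have k2 := (D ν).err_norm (N_pos D ν) A (hZ' ν)
    rw [sum_union (hdis ν)] at k2
    have k3 := (neg_le_of_abs_le k1)
    have k4 : C * (lam * (D ν).a j) * ‖∑ x ∈ (D ν).X \ (Z ν ∪ Hi ν), (D ν).w A x -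
        ((D ν).N : ℝ) • Dat.tt h A‖ ≤ C * (lam * (D ν).a j) *
          (2 + (∑ x ∈ Z ν, (D ν).β A x + M' * (Hi ν).card)) := by
      gcongr; linarith
    have k5 := d j hj
    have k6 : (D ν).a j ≤ |h| + 2 := by
      have p1 := single_le_sum (f := (D ν).a) (fun l _ => ((D ν).ha l).le) (mem_univ j)
      rw [(D ν).hsum] at p1
      have p2 : (1 : ℝ) ≤ (D ν).N := by exact_mod_cast N_pos D ν
      have p3 : (2 : ℝ) / (D ν).N ≤ 2 := div_le_self (by norm_num) p2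
      linarith [le_abs_self h]
    have k7 : 0 ≤ ∑ x ∈ Z ν, (D ν).ψ ((D ν).w A x) :=
      sum_nonneg fun x hx => (D ν).ψ_w_nonneg A (hZ ν hx)
    rw [sum_union (hdis ν)] at k3 ⊢
    have k8 : 0 ≤ C * lam := by positivity
    have k9 := mul_le_mul_of_nonneg_left k5 k8
    have k10 := mul_le_mul_of_nonneg_left k6 k8
    nlinarith
  have hB : ∀ᶠ ν in (hyperfilter ℕ : Filter ℕ),
      (∑ x ∈ Z ν ∪ Hi ν, (D ν).β (insert j A) x) * (D ν).a j ≤ CB + M' * C' + C' := by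
    filter_upwards [hD, hβ, hcnt 1, h3] with ν a b c d
    have e5 := (D ν).ha j
    have k1 : ∀ x, (D ν).β (insert j A) x = (D ν).β A x + (D ν).m x j := fun x => by
      unfold Dat.β; rw [sum_insert hj]; ring
    have k2 : (∑ x ∈ Z ν ∪ Hi ν, ((D ν).m x j : ℝ)) * (D ν).a j ≤
        ∑ x ∈ Z ν ∪ Hi ν, (D ν).ψ ((D ν).w A x) := by
      rw [sum_mul]
      refine sum_le_sum fun x hx => ?_
      rw [(D ν).ψ_w A (hZ' ν hx)]
      exact single_le_sum (f := fun l => ((D ν).m x l : ℝ) * (D ν).a l)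
        (fun l _ => mul_nonneg (Nat.cast_nonneg _) ((D ν).ha l).le) (mem_compl.2 hj)
    have k3 : ∑ x ∈ Hi ν, (D ν).ψ ((D ν).w A x) ≤ C' :=
      (sum_le_sum_of_subset_of_nonneg subset_union_right
        fun x hx _ => (D ν).ψ_w_nonneg A (hZ' ν hx)).trans a
    simp only [k1]
    rw [sum_add_distrib, sum_union (hdis ν)]
    have k5 := d j hj
    have k6 := mul_le_mul_of_nonneg_right b e5.le
    have k7 := mul_le_mul_of_nonneg_left (c.trans k3) (by linarith : 0 ≤ M')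
    nlinarith
  refine ⟨max M ⌈lam⌉₊, fun ν => Z ν ∪ Hi ν, hZ', ?_, fun η hη => ?_, CB + M' * C' + C',
    by positivity, ?_⟩
  · filter_upwards [h1, hlam] with ν a b x hx l hl
    obtain ⟨p1, p2⟩ := hlow ν x hx
    rcases mem_insert.1 hl with rfl | hl
    · refine le_max_of_le_right ?_
      have hxX := (mem_sdiff.1 p1).1
      have k1 := b _ p2
      rw [abs_of_nonneg ((D ν).ψ_w_nonneg A hxX), (D ν).ψ_w A hxX] at k1
      have k2 := single_le_sum (f := fun l => ((D ν).m x l : ℝ) * (D ν).a l)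
        (fun l _ => mul_nonneg (Nat.cast_nonneg _) ((D ν).ha l).le) (mem_compl.2 hj)
      have k3 : ((D ν).m x l : ℝ) ≤ lam := le_of_mul_le_mul_right (k2.trans k1) ((D ν).ha l)
      exact_mod_cast k3.trans (Nat.le_ceil lam)
    · exact le_max_of_le_left (a x p1 l hl)
  · filter_upwards [hB, hbig ((CB + M' * C' + C') / η)] with ν a b
    rw [div_le_iff₀ hη] at b
    refine le_of_mul_le_mul_right (a.trans ?_) ((D ν).ha j)
    linarith
  · filter_upwards [hB, hmax] with ν a b l hl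
    refine le_trans (mul_le_mul_of_nonneg_left (b l fun hh => hl (mem_insert_of_mem hh)) ?_) a
    exact sum_nonneg fun x _ => zero_le_one.trans ((D ν).one_le_β _ x)

lemma hyp_false (hC0 : 0 ≤ C0) (k : ℕ) : ∀ A : Finset J, Aᶜ.card = k → Hyp D A → False := by
  induction k with
  | zero =>
    intro A hA H
    refine hyp_final D hC0 H fun l hl => ?_
    rw [card_eq_zero] at hA
    exact absurd (mem_compl.2 hl) (by rw [hA]; simp)
  | succ k ih =>
    intro A hA H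
    by_cases ht : ∀ l ∉ A, ∃ K : ℝ, ∀ᶠ ν in (hyperfilter ℕ : Filter ℕ), (D ν).N * (D ν).a l ≤ K
    · exact hyp_final D hC0 H ht
    · push Not at ht
      obtain ⟨l0, hl0, hb⟩ := ht
      have hex : ∀ᶠ ν in (hyperfilter ℕ : Filter ℕ), ∃ j ∈ (Aᶜ : Finset J),
          ∀ l ∉ A, (D ν).a l ≤ (D ν).a j := Eventually.of_forall fun ν => by
        obtain ⟨j, hj, h'⟩ := exists_max_image Aᶜ (D ν).a ⟨l0, mem_compl.2 hl0⟩
        exact ⟨j, hj, fun l hl => h' l (mem_compl.2 hl)⟩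
      obtain ⟨j, hj, hmax⟩ := (Ultrafilter.eventually_exists_mem_iff (Aᶜ).finite_toSet).1 hex
      have hj' : j ∉ A := mem_compl.1 hj
      refine ih (insert j A) ?_ (hyp_step D H hj' hmax fun K => ?_)
      · rw [compl_insert, card_erase_of_mem hj, hA]; rfl
      · filter_upwards [hb K, hmax] with ν a b
        exact a.le.trans (mul_le_mul_of_nonneg_left (b l0 hl0) (Nat.cast_nonneg _))

end seq

theorem arith (J Ω : Type) [Fintype J] [DecidableEq J] [DecidableEq Ω] (h C0 : ℝ) (hC0 : 0 ≤ C0) :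
    ∃ δ > 0, IsEmpty (Dat J Ω h C0 δ) := by
  by_contra hn
  push Not at hn
  have : ∀ ν : ℕ, Nonempty (Dat J Ω h C0 (1 / (ν + 1))) := fun ν => hn _ (by positivity)
  exact hyp_false (fun ν => (this ν).some) hC0 _ ∅ rfl (hyp_empty _)

end Pool.Agent.Lib.MP_e5885b_co
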