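import Pool.Agent.Lib.MP_e5885b_co.Fold

set_option autoImplicit false
set_option linter.unusedSectionVars false

open Finset

namespace Pool.Agent.Lib.MP_e5885b_co.Fold

variable {S Λ ι : Type} [Fintype S] [DecidableEq S]

structure Rd (σ : Equiv.Perm S) (ℓ : S → Λ) (ι : Type) where
  w : ι → ℤ → S
  u : ι → ℤ → Prop
  hw : ∀ r k, w r (k + 1) = σ (w r k)
  run : ∀ r a b, a < b → (∀ k, a ≤ k → k < b → ¬u r k) → ∃ r',
    (∀ k, a ≤ k → k < b → ¬u r' k ∧ ℓ (w r k) = ℓ (w r' k)) ∧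
    (u r (a - 1) → u r' (a - 1) ∧ ℓ (w r (a - 1)) ≠ ℓ (w r' (a - 1))) ∧
    (u r b → u r' b ∧ ℓ (w r b) ≠ ℓ (w r' b))

variable {σ : Equiv.Perm S} {ℓ : S → Λ}

namespace Rd

variable (R : Rd σ ℓ ι)

def Free (r : ι) (a b : ℤ) : Prop := ∀ k, a ≤ k → k < b → ¬R.u r k

def LA (A : St σ ℓ) (r : ι) (k : ℤ) : Prop := ∃ y, A.v (R.w r k) = A.v y ∧ ℓ (R.w r k) ≠ ℓ y

def RA (A : St σ ℓ) (r : ι) (k : ℤ) : Prop :=
  ∃ y, A.v (R.w r (k + 1)) = A.v (σ y) ∧ ℓ (R.w r k) ≠ ℓ y

def Abs (A : St σ ℓ) (M : ℕ) : Prop := ∀ r k, R.u r k →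
  (R.Free r (k - M) k → R.LA A r k) ∧ (R.Free r (k + 1) (k + 1 + M) → R.RA A r k)

def Den (r : ι) (M : ℕ) (s e : ℤ) : Prop := ∀ k, s ≤ k → k + M ≤ e + 1 → ¬R.Free r k (k + M)

open Classical in
noncomputable def cnt (r : ι) (s e : ℤ) : ℕ := ((Icc s e).filter (R.u r)).card

def Cov (j M : ℕ) (y : S) : Prop := ∃ r s e k, s ≤ k ∧ k ≤ e ∧ R.w r k = y ∧ R.u r s ∧ R.u r e ∧
  R.Den r M s e ∧ j ≤ R.cnt r s e

variable {R}

lemma w_add (r : ι) (s : ℤ) (i : ℕ) : R.w r (s + i) = σ^[i] (R.w r s) := by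
  induction i with
  | zero => simp
  | succ i ih => rw [Function.iterate_succ_apply', ← ih, ← R.hw]; congr 1; push_cast; ring

lemma use {B : St σ ℓ} {D : Finset S} {M : ℕ} (hB : ∀ p q m, Mt σ ℓ D p q m → M ≤ m →
      B.v (p 0) = B.v (q 0) ∧ B.v (p m) = B.v (q m)) (hM : 0 < M) {r : ι} {a b : ℤ}
    (hab : a + M ≤ b) (hf : R.Free r a b)
    (hD : ∀ r', (R.u r (a - 1) → R.u r' (a - 1)) → (R.u r b → R.u r' b) →
      ∀ k, a ≤ k → k < b → R.w r' k ∈ D) :
    (R.u r b → R.LA B r b) ∧ (R.u r (a - 1) → R.RA B r (a - 1)) := by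
  obtain ⟨r', h1, h2, h3⟩ := R.run r a b (by omega) hf
  obtain ⟨m, rfl⟩ : ∃ m : ℕ, b = a + m := ⟨(b - a).toNat, by omega⟩
  have st : ∀ (t : ι) (i : ℕ), R.w t (a + (i + 1 : ℕ)) = σ (R.w t (a + i)) := fun t i => by
    rw [← R.hw]; congr 1; push_cast; ring
  have := hB (fun i => R.w r (a + i)) (fun i => R.w r' (a + i)) m ⟨st r, st r', fun i hi =>
    ⟨hD r id id _ (by omega) (by omega), hD r' (fun h => (h2 h).1) (fun h => (h3 h).1) _ (by omega)
      (by omega), (h1 _ (by omega) (by omega)).2⟩⟩ (by omega)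
  refine ⟨fun h => ⟨_, this.2, (h3 h).2⟩, fun h => ⟨_, ?_, (h2 h).2⟩⟩
  rw [← R.hw]
  simpa using this.1

lemma cnt_mono {r : ι} {s e s' e' : ℤ} (h : s' ≤ s) (h' : e ≤ e') : R.cnt r s e ≤ R.cnt r s' e' := by
  classical
  exact card_le_card (filter_subset_filter _ (Icc_subset_Icc h h'))

lemma cnt_lt {r : ι} {s e s' e' c : ℤ} (h : s' ≤ s) (h' : e ≤ e') (hc : R.u r c) (c1 : s' ≤ c)
    (c2 : c ≤ e') (c3 : c < s ∨ e < c) : R.cnt r s e < R.cnt r s' e' := by
  classical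
  refine card_lt_card ⟨filter_subset_filter _ (Icc_subset_Icc h h'), fun k => ?_⟩
  have := mem_Icc.1 (mem_filter.1 (k (mem_filter.2 ⟨mem_Icc.2 ⟨c1, c2⟩, hc⟩))).1
  omega

lemma len {r : ι} {M : ℕ} {s e : ℤ} (hs : R.u r s) (hd : R.Den r M s e) (hM : 0 < M) :
    (e + 1 - s).toNat ≤ R.cnt r s e * M := by
  classical
  rw [← Int.card_Icc]
  refine (card_le_card (t := ((Icc s e).filter (R.u r)).biUnion fun c => Ico c (c + M))
    fun k hk => ?_).trans (card_biUnion_le_card_mul _ _ _ fun c _ => by simp)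
  obtain ⟨k1, k2⟩ := mem_Icc.1 hk
  by_cases h : k < s + M
  · exact mem_biUnion.2 ⟨s, mem_filter.2 ⟨mem_Icc.2 ⟨le_rfl, by omega⟩, hs⟩, mem_Ico.2 ⟨k1, h⟩⟩
  · have := hd (k + 1 - M) (by omega) (by omega)
    simp only [Free, not_forall, not_not] at this
    obtain ⟨c, c1, c2, c3⟩ := this
    exact mem_biUnion.2 ⟨c, mem_filter.2 ⟨mem_Icc.2 ⟨by omega, by omega⟩, c3⟩,
      mem_Ico.2 ⟨by omega, by omega⟩⟩

lemma den_mono {r : ι} {M M' : ℕ} {s e : ℤ} (h : M' ≤ M) (hd : R.Den r M' s e) : R.Den r M s e :=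
  fun k a b f => hd k a (by omega) fun t p q => f t p (by omega)

lemma cov_gap {r : ι} {M : ℕ} {c k i : ℤ} (hM : 0 < M) (hc : R.u r c) (hk : R.u r k)
    (h : k ≤ c + M) (h1 : c ≤ i) (h2 : i ≤ k) : R.Cov 1 M (R.w r i) := by
  refine ⟨r, c, k, i, h1, h2, rfl, hc, hk, fun t a b f => ?_, ?_⟩
  · by_cases e : t = c
    · exact f c (by omega) (by omega) hc
    · exact f k (by omega) (by omega) hk
  · classical
    exact card_pos.2 ⟨c, mem_filter.2 ⟨mem_Icc.2 ⟨le_rfl, by omega⟩, hc⟩⟩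

lemma base {A : St σ ℓ} {D : Finset S} {M M' a : ℕ} (hA : R.Abs A M) (h0 : 0 < M') (h1 : M' ≤ M)
    (hD : nc A.e D ≤ a * M') (hc : ∀ y, R.Cov 1 M y → y ∈ D) :
    ∃ B : St σ ℓ, A.Le B ∧ B.rk ≤ A.rk + a ∧ R.Abs B M' := by
  obtain ⟨B, b1, b2, b3⟩ := win A D h0 hD
  have key : ∀ r c k, R.u r c → R.u r k → R.Free r (c + 1) k → c + 1 + M' ≤ k → k ≤ c + M →
      R.LA B r k ∧ R.RA B r c := by
    intro r c k p q f g1 g2
    have := use b3 h0 g1 f fun r' x y i i1 i2 => hc _ (cov_gap (by omega)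
      (by simpa using x (by simpa using p)) (y q) g2 (by omega) (by omega))
    exact ⟨this.1 q, by simpa using this.2 (by simpa using p)⟩
  refine ⟨B, b1, b2, fun r k hk => ⟨fun f => ?_, fun f => ?_⟩⟩
  · by_cases g : R.Free r (k - M) k
    · obtain ⟨y, p, q⟩ := (hA r k hk).1 g
      exact ⟨y, b1.2 _ _ p, q⟩
    · simp only [Free, not_forall, not_not] at g
      obtain ⟨c0, g1, g2, g3⟩ := g
      obtain ⟨c, ⟨c1, c2⟩, c3⟩ := Int.exists_greatest_of_bdd (P := fun c => c < k ∧ R.u r c)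
        ⟨k, fun z hz => hz.1.le⟩ ⟨c0, g2, g3⟩
      have c4 := c3 c0 ⟨g2, g3⟩
      have c5 : ¬k - M' ≤ c := fun n => f c n c1 c2
      exact (key r c k c2 hk (fun t t1 t2 t3 => by have := c3 t ⟨t2, t3⟩; omega) (by omega)
        (by omega)).1
  · by_cases g : R.Free r (k + 1) (k + 1 + M)
    · obtain ⟨y, p, q⟩ := (hA r k hk).2 g
      exact ⟨y, b1.2 _ _ p, q⟩
    · simp only [Free, not_forall, not_not] at g
      obtain ⟨c0, g1, g2, g3⟩ := g
      obtain ⟨c, ⟨c1, c2⟩, c3⟩ := Int.exists_least_of_bdd (P := fun c => k < c ∧ R.u r c)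
        ⟨k, fun z hz => hz.1.le⟩ ⟨c0, g1, g3⟩
      have c4 := c3 c0 ⟨g1, g3⟩
      have c5 : ¬c < k + 1 + M' := fun n => f c c1 n c2
      exact (key r k c hk c2 (fun t t1 t2 t3 => by have := c3 t ⟨t1, t3⟩; omega) (by omega)
        (by omega)).2

lemma anchor {A : St σ ℓ} {M M' j L : ℕ} (hA : R.Abs A M) (h0 : 0 < M') (h1 : M' ≤ M) {y : S}
    (hy : R.Cov j M' y) (hn : ¬R.Cov (j + 1) M y) (hL : j * M' ≤ L) : y ∈ A.Seg L := by
  obtain ⟨r, s, e, k, k1, k2, rfl, us, ue, hd, hj⟩ := hy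
  have hd' := den_mono h1 hd
  have c1 : R.cnt r s e ≤ j := by
    by_contra n
    exact hn ⟨r, s, e, k, k1, k2, rfl, us, ue, hd', by omega⟩
  have c2 : R.Free r (s - M) s := fun c p q uc => by
    have := cnt_lt (s := s) (e := e) q.le le_rfl uc le_rfl (by omega) (Or.inl q)
    refine hn ⟨r, c, e, k, by omega, k2, rfl, uc, ue, fun t t1 t2 f => ?_, by omega⟩
    by_cases a : s ≤ t
    · exact hd' t a t2 f
    · by_cases b : t = c
      · exact f c (by omega) (by omega) uc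
      · exact f s (by omega) (by omega) us
  have c3 : R.Free r (e + 1) (e + 1 + M) := fun c p q uc => by
    have := cnt_lt (s := s) (e := e) (e' := c) le_rfl (by omega) uc (by omega) le_rfl (Or.inr p)
    refine hn ⟨r, s, c, k, k1, by omega, rfl, us, uc, fun t t1 t2 f => ?_, by omega⟩
    by_cases a : t + M ≤ e + 1
    · exact hd' t t1 a f
    · by_cases b : t + M = c + 1
      · exact f c (by omega) (by omega) uc
      · exact f e (by omega) (by omega) ue
  obtain ⟨y, p, q⟩ := (hA r s us).1 c2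
  obtain ⟨y', p', q'⟩ := (hA r e ue).2 c3
  have c4 := (len us hd h0).trans (Nat.mul_le_mul_right _ c1)
  have := St.mem_Seg (A := A) (L := L) (e + 1 - s).toNat (R.w r s) (k - s).toNat
    (Or.inl ⟨y, p, fun n => q (A.h3 _ _ n)⟩) (by
      rw [← w_add, show s + ((e + 1 - s).toNat : ℕ) = e + 1 by omega]
      exact Or.inr ⟨y', p', fun n => q' (by simpa [R.hw] using A.h3 _ _ n)⟩) (by omega) (by omega)
  rwa [← w_add, show s + ((k - s).toNat : ℕ) = k by omega] at this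

end Rd

def FF : ℕ → ℕ → ℕ → ℕ
  | 0, ρ, a => ρ + a
  | j + 1, ρ, a => (fun r => FF j r (a + 8 * ρ * (j + 1)))^[4 * ρ + 1] ρ

lemma le_FF : ∀ j ρ a, ρ ≤ FF j ρ a
  | 0, _, _ => Nat.le_add_right _ _
  | j + 1, ρ, _ => Function.id_le_iterate_of_id_le (fun r => le_FF j r _) _ ρ

lemma main (R : Rd σ ℓ ι) (j : ℕ) : ∀ (ρ a : ℕ) (A : St σ ℓ) (D : Finset S) (M M' : ℕ),
    A.rk ≤ ρ → R.Abs A M → 0 < M' → M' ≤ M → nc A.e D ≤ a * M' →
    (∀ y, R.Cov (j + 1) M y → y ∈ D) →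
    ∃ B : St σ ℓ, A.Le B ∧ B.rk ≤ FF j ρ a ∧ R.Abs B M' := by
  induction j with
  | zero =>
    intro ρ a A D M M' h1 h2 h3 h4 h5 h6
    obtain ⟨B, b1, b2, b3⟩ := Rd.base h2 h3 h4 h5 h6
    exact ⟨B, b1, by simp only [FF]; push_cast; omega, b3⟩
  | succ j ih =>
    intro ρ a A D M M' h1 h2 h3 h4 h5 h6
    set G := fun r => FF j r (a + 8 * ρ * (j + 1)) with hG
    have step : ∀ (P r : ℕ) (B : St σ ℓ), M' ≤ P → P ≤ M → A.Le B → B.rk ≤ r → R.Abs B P →
        ∃ P', P' ≤ P ∧ (P' = M' ∨ M' ≤ P' ∧ (A.Z ((j + 1) * P')).card < (A.Z ((j + 1) * P)).card) ∧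
          ∃ C : St σ ℓ, A.Le C ∧ C.rk ≤ G r ∧ R.Abs C P' := by
      intro P r B p1 p2 b1 b2 b3
      set z := (A.Z ((j + 1) * P)).sup id with hz
      have z1 : z ≤ (j + 1) * P := Finset.sup_le fun x hx => by
        classical
        have := mem_range.1 (mem_filter.1 hx).1
        simp only [id]; omega
      have z2 := Nat.div_add_mod (z - 1) (j + 1)
      have z3 : (z - 1) % (j + 1) < j + 1 := Nat.mod_lt _ j.succ_pos
      set m := (z - 1) / (j + 1) with hm
      have z4 : m ≤ P := by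
        by_contra n
        have := Nat.mul_le_mul_left (j + 1) (not_le.1 n).le
        have := Nat.mul_le_mul_left (j + 1) (show P + 1 ≤ m by omega)
        rw [mul_add] at this
        omega
      obtain ⟨C, c1, c2, c3⟩ := ih r (a + 8 * ρ * (j + 1)) B (D ∪ A.Seg ((j + 1) * P)) P (max M' m)
        b2 b3 (by omega) (by omega) (by
          have e1 := (nc_ref b1.1 _).trans (nc_union A.e D (A.Seg ((j + 1) * P)))
          have e2 := St.Seg_card h1 ((j + 1) * P)
          have e3 := Nat.mul_le_mul_left a (le_max_left M' m)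
          have e4 : z ≤ 2 * ((j + 1) * max M' m) := by
            have := Nat.mul_le_mul_left (j + 1) (le_max_right M' m)
            have := Nat.mul_le_mul_left (j + 1) (show 1 ≤ max M' m by omega)
            omega
          have e5 := Nat.mul_le_mul_left (4 * ρ) e4
          rw [← hz] at e2
          calc _ ≤ a * max M' m + 4 * ρ * (2 * ((j + 1) * max M' m)) := by omega
            _ = _ := by ring) fun y hy => by
          by_cases q : R.Cov (j + 1 + 1) M y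
          · exact mem_union_left _ (h6 y q)
          · exact mem_union_right _ (Rd.anchor h2 (by omega) p2 hy q le_rfl)
      refine ⟨max M' m, by omega, ?_, C, b1.trans c1, c2, c3⟩
      by_cases q : m ≤ M'
      · exact Or.inl (max_eq_left q)
      · classical
        rw [max_eq_right (not_le.1 q).le]
        have z5 : 0 < z := by
          by_contra n
          have : z = 0 := by omega
          simp [hm, this] at q
        obtain ⟨x, hx, e⟩ := exists_mem_eq_sup (A.Z ((j + 1) * P)) (by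
          by_contra n
          rw [not_nonempty_iff_eq_empty] at n
          simp [hz, n] at z5) id
        refine Or.inr ⟨by omega, card_lt_card ⟨filter_subset_filter _ (range_mono ?_), fun k => ?_⟩⟩
        · exact Nat.succ_le_succ (Nat.mul_le_mul_left _ z4)
        · have := mem_range.1 (mem_filter.1 (k hx)).1
          simp only [id] at e
          omega
    have inner : ∀ (t P r : ℕ) (B : St σ ℓ), M' ≤ P → P ≤ M → A.Le B → B.rk ≤ r → R.Abs B P →
        (A.Z ((j + 1) * P)).card ≤ t → ∃ C : St σ ℓ, A.Le C ∧ C.rk ≤ G^[t + 1] r ∧ R.Abs C M' := by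
      intro t
      induction t with
      | zero =>
        intro P r B p1 p2 b1 b2 b3 b4
        obtain ⟨P', -, rfl | q, c⟩ := step P r B p1 p2 b1 b2 b3
        · exact c
        · omega
      | succ t iht =>
        intro P r B p1 p2 b1 b2 b3 b4
        obtain ⟨P', q0, rfl | q, C, c1, c2, c3⟩ := step P r B p1 p2 b1 b2 b3
        · refine ⟨C, c1, c2.trans ?_, c3⟩
          rw [Function.iterate_succ_apply]
          exact_mod_cast Function.id_le_iterate_of_id_le (f := G) (fun r => le_FF j r _) _ (G r)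
        · rw [Function.iterate_succ_apply]
          exact iht P' _ C q.1 (by omega) c1 c2 c3 (by omega)
    exact inner _ M ρ A h4 le_rfl A.lrefl h1 h2 (St.Z_card h1 _)

theorem fold (K c : ℕ) : ∃ C : ℕ, ∀ (S Λ ι : Type) [Fintype S] [DecidableEq S] (σ : Equiv.Perm S)
    (ℓ : S → Λ) (R : Rd σ ℓ ι) (n : ℕ), Fintype.card S ≤ c * n →
    (∀ r s, R.cnt r s (s + n - 1) ≤ K) →
    ∃ F : Finset Λ, F.card ≤ C ∧ ∀ r k, R.u r k → ℓ (R.w r k) ∈ F := by
  classical
  refine ⟨c * K + 4 * FF K (2 * c * (K + 1)) 0 * K, fun S Λ ι _ _ σ ℓ R n hS hK => ?_⟩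
  by_cases hn : n ≤ K
  · refine ⟨univ.image ℓ, card_image_le.trans (hS.trans ?_), fun _ _ _ => by simp⟩
    exact (Nat.mul_le_mul_left c hn).trans (Nat.le_add_right _ _)
  have z2 := Nat.div_add_mod n (K + 1)
  have z3 : n % (K + 1) < K + 1 := Nat.mod_lt _ K.succ_pos
  set M := n / (K + 1) with hM
  have M0 : 0 < M := Nat.div_pos (by omega) K.succ_pos
  let e : S → ℕ := fun x => Fintype.equivFin S x
  have he : ∀ {α : Type} (f : S → α), Ref e f := fun f x y h => by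
    rw [(Fintype.equivFin S).injective (Fin.ext h)]
  obtain ⟨A, -, a2, a3⟩ := win (⟨e, e, he _, he _, he _⟩ : St σ ℓ) univ (a := 2 * c * (K + 1)) M0
    (card_image_le.trans (hS.trans (by
      have := Nat.mul_le_mul_left (K + 1) (show 1 ≤ M from M0)
      calc c * n ≤ c * (2 * ((K + 1) * M)) := Nat.mul_le_mul_left _ (by omega)
        _ = _ := by ring)))
  have a4 : R.Abs A M := fun r k hk => ⟨fun f => (Rd.use a3 M0 (by omega) f (by simp)).1 hk,
    fun f => by simpa using (Rd.use a3 M0 le_rfl f (by simp)).2 (by simpa using hk)⟩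
  have a5 : ∀ y, ¬R.Cov (K + 1) M y := by
    rintro y ⟨r, s, t, k, -, -, -, us, -, hd, hj⟩
    have h1 := hK r s
    by_cases q : t ≤ s + n - 1
    · have := Rd.cnt_mono (R := R) (r := r) (le_refl s) q
      omega
    · have h2 := (Rd.len (e := s + n - 1) us (fun k a b => hd k a (by omega)) M0).trans
        (Nat.mul_le_mul_right _ h1)
      rw [add_mul] at z2
      omega
  obtain ⟨B, -, b2, b3⟩ := main R K (2 * c * (K + 1)) 0 A ∅ M 1 (by simpa [St.rk] using a2) a4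
    one_pos M0 (by simp [nc]) fun y hy => absurd hy (a5 y)
  refine ⟨(B.Seg K).image ℓ, ?_, fun r k hk => mem_image_of_mem _ ?_⟩
  · have h1 := (det (B.Seg K) B.e ℓ fun x _ y _ => B.h3 x y).trans (St.Seg_card b2 K)
    have h2 : (B.Z K).sup id ≤ K := Finset.sup_le fun x hx => by
      have := mem_range.1 (mem_filter.1 hx).1
      simp only [id]; omega
    exact (h1.trans (Nat.mul_le_mul_left _ h2)).trans (Nat.le_add_left _ _)
  · have : ∀ d j, j + d = K + 1 → R.Cov j 1 (R.w r k) → R.w r k ∈ B.Seg K := by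
      intro d
      induction d with
      | zero =>
        rintro j hj ⟨r, s, t, k, p1, p2, p3, p4, p5, hd, p6⟩
        exact absurd ⟨r, s, t, k, p1, p2, p3, p4, p5, Rd.den_mono M0 hd, by omega⟩ (a5 _)
      | succ d ih =>
        intro j hj h
        by_cases q : R.Cov (j + 1) 1 (R.w r k)
        · exact ih _ (by omega) q
        · exact Rd.anchor b3 one_pos le_rfl h q (by omega)
    exact this K 1 (by omega) (Rd.cov_gap one_pos hk hk (by omega) le_rfl le_rfl)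

theorem fold' (K c : ℕ) : ∃ C : ℕ, ∀ (S Λ I : Type) [Fintype S] [DecidableEq S]
    (σ : Equiv.Perm S) (ℓ : S → Λ) (U : I → S → Prop) (Rel : I → S → I → S → Prop) (n : ℕ),
    Fintype.card S ≤ c * n → (∀ y (a b : ℤ), (σ ^ a) y = (σ ^ b) y → (n : ℤ) ∣ a - b) →
    (∀ i, ∃ W : Finset S, W.card ≤ K ∧ ∀ y, U i y → y ∈ W) →
    (∀ i y, ¬U i y → ∃ i' y', Rel i y i' y') →
    (∀ i y i' y', Rel i y i' y' → (¬U i' y' ∧ ℓ y = ℓ y') ∧
      (¬U i (σ y) → Rel i (σ y) i' (σ y')) ∧ (U i (σ y) → U i' (σ y') ∧ ℓ (σ y) ≠ ℓ (σ y')) ∧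
      (U i (σ.symm y) → U i' (σ.symm y') ∧ ℓ (σ.symm y) ≠ ℓ (σ.symm y'))) →
    ∃ F : Finset Λ, F.card ≤ C ∧ ∀ i y, U i y → ℓ y ∈ F := by
  classical
  obtain ⟨C, H⟩ := fold K c
  refine ⟨C, fun S Λ I _ _ σ ℓ U Rel n h1 h2 h3 r1 r2 => ?_⟩
  have up : ∀ (k : ℤ) y, (σ ^ (k + 1)) y = σ ((σ ^ k) y) := fun k y => by
    rw [add_comm, zpow_add, zpow_one]; rfl
  have dn : ∀ (k : ℤ) y, (σ ^ (k - 1)) y = σ.symm ((σ ^ k) y) := fun k y => by
    rw [Equiv.eq_symm_apply, ← up, sub_add_cancel]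
  obtain ⟨F, f1, f2⟩ := H S Λ (I × S) σ ℓ
    { w := fun r k => (σ ^ k) r.2, u := fun r k => U r.1 ((σ ^ k) r.2), hw := fun r k => up k _
      run := fun r a b hab hf => by
        obtain ⟨i', y', h⟩ := r1 _ _ (hf a le_rfl hab)
        obtain ⟨y', rfl⟩ := (σ ^ a).surjective y'
        have key : ∀ k, a ≤ k → k < b → Rel r.1 ((σ ^ k) r.2) i' ((σ ^ k) y') := by
          intro k hk
          induction k, hk using Int.le_induction with
          | base => exact fun _ => h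
          | succ k hk ih =>
            intro q
            rw [up, up]
            exact (r2 _ _ _ _ (ih (by omega))).2.1 (by rw [← up]; exact hf _ (by omega) q)
        refine ⟨(i', y'), fun k p q => (r2 _ _ _ _ (key k p q)).1, ?_, ?_⟩
        · simp only [dn]; exact (r2 _ _ _ _ h).2.2.2
        · obtain ⟨b, rfl⟩ : ∃ b', b = b' + 1 := ⟨b - 1, by omega⟩
          simp only [up]; exact (r2 _ _ _ _ (key b (by omega) (by omega))).2.2.1 } n h1
    fun r s => by
      obtain ⟨W, w1, w2⟩ := h3 r.1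
      refine le_trans (card_le_card_of_injOn (fun k => (σ ^ k) r.2) (fun k hk => ?_)
        fun a ha b hb e => ?_) w1
      · exact w2 _ (mem_filter.1 hk).2
      · have p := mem_Icc.1 (mem_filter.1 ha).1
        have q := mem_Icc.1 (mem_filter.1 hb).1
        have := Int.eq_zero_of_abs_lt_dvd (h2 _ a b e) (abs_lt.2 ⟨by omega, by omega⟩)
        omega
  exact ⟨F, f1, fun i y h => by simpa using f2 (i, y) 0 (by simpa using h)⟩

theorem rat (M K : ℕ) : ∃ D : ℕ, 0 < D ∧ ∀ F : Finset ℝ, F.card ≤ M → ∃ y : ℝ → ℤ,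
    ∀ (ι : Type) (s : Finset ι) (f : ι → ℝ), s.card ≤ K → (∀ i ∈ s, f i ∈ F) → ∑ i ∈ s, f i = 1 →
      ∑ i ∈ s, y (f i) = D := by
  classical
  have : ∀ R : Finset (Fin M → Fin (K + 1)), ∃ q : Fin M → ℚ,
      (∃ p : Fin M → ℚ, ∀ m ∈ R, ∑ j, ((m j : ℕ) : ℚ) * p j = 1) →
        ∀ m ∈ R, ∑ j, ((m j : ℕ) : ℚ) * q j = 1 := fun R => by
    by_cases h : ∃ p : Fin M → ℚ, ∀ m ∈ R, ∑ j, ((m j : ℕ) : ℚ) * p j = 1
    · exact ⟨h.choose, fun _ => h.choose_spec⟩
    · exact ⟨0, fun k => absurd k h⟩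
  choose q hq using this
  refine ⟨∏ p : Finset (Fin M → Fin (K + 1)) × Fin M, (q p.1 p.2).den,
    prod_pos fun p _ => (q p.1 p.2).den_pos, fun F hF => ?_⟩
  set D := ∏ p : Finset (Fin M → Fin (K + 1)) × Fin M, (q p.1 p.2).den with hD
  have hz : ∀ R j, ∃ z : ℤ, (z : ℚ) = q R j * D := fun R j => by
    obtain ⟨c, hc⟩ : (q R j).den ∣ D := dvd_prod_of_mem
      (fun p : Finset (Fin M → Fin (K + 1)) × Fin M => (q p.1 p.2).den) (mem_univ (R, j))
    exact ⟨(q R j).num * c, by rw [hc]; push_cast; rw [← mul_assoc, Rat.mul_den_eq_num]⟩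
  choose z hz using hz
  let ix : F → Fin M := fun x => Fin.castLE hF (F.equivFin x)
  have hix : Function.Injective ix := (Fin.castLE_injective hF).comp F.equivFin.injective
  let a : Fin M → ℝ := Function.extend ix (fun x => x) 0
  obtain ⟨φ, hφ⟩ := (Algebra.linearMap ℚ ℝ).exists_leftInverse_of_injective
    (LinearMap.ker_eq_bot.2 (algebraMap ℚ ℝ).injective)
  have φ1 : φ 1 = 1 := by simpa using LinearMap.congr_fun hφ 1
  set R := univ.filter fun m : Fin M → Fin (K + 1) => ∑ j, ((m j : ℕ) : ℝ) * a j = 1 with hR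
  have k := hq R ⟨fun j => φ (a j), fun m hm => by
    rw [← φ1, ← (mem_filter.1 hm).2, map_sum]
    refine sum_congr rfl fun j _ => ?_
    rw [← nsmul_eq_mul, ← nsmul_eq_mul, map_nsmul]⟩
  refine ⟨fun x => if h : x ∈ F then z R (ix ⟨x, h⟩) else 0, fun ι s f h1 h2 h3 => ?_⟩
  let g : s → Fin M := fun i => ix ⟨f i, h2 i i.2⟩
  have cv : ∀ {α : Type} [Semiring α] (b : Fin M → α),
      ∑ j, (((univ.filter fun i => g i = j).card : ℕ) : α) * b j = ∑ i, b (g i) := fun b => by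
    rw [← sum_fiberwise univ g]
    refine sum_congr rfl fun j _ => ?_
    rw [sum_congr rfl fun i hi => congrArg b (mem_filter.1 hi).2, sum_const, nsmul_eq_mul]
  have := k (fun j => ⟨(univ.filter fun i => g i = j).card,
    Nat.lt_succ_of_le ((card_le_univ _).trans (by simpa using h1))⟩) (mem_filter.2 ⟨mem_univ _, by
      rw [cv, ← h3, ← sum_coe_sort s]
      exact sum_congr rfl fun i _ => hix.extend_apply _ _ _⟩)
  rw [cv] at this
  rw [← sum_coe_sort s, sum_congr rfl fun (i : s) _ => dif_pos (h2 i i.2)]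
  have e : ((∑ i, z R (g i) : ℤ) : ℚ) = (D : ℤ) := by
    push_cast
    simp only [hz]
    rw [← sum_mul, this, one_mul]
  exact_mod_cast e

end Pool.Agent.Lib.MP_e5885b_co.Fold
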