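import Pool.Agent.Lib.MP_e5885b_co.Thin
import Pool.Agent.Lib.MP_e5885b_co.Fold2

set_option autoImplicit false
set_option linter.unusedSectionVars false

open Set Filter Topology
open scoped RealInnerProductSpace

namespace Pool.Agent.Lib.MP_e5885b_co

def Cn (a b : E) : Set E := {z | ∃ s t : ℝ, 0 ≤ s ∧ 0 ≤ t ∧ z = s • a + t • b}

lemma Cn_smul {a b z : E} (h : z ∈ Cn a b) {c : ℝ} (hc : 0 ≤ c) : c • z ∈ Cn a b := by
  obtain ⟨s, t, p, q, rfl⟩ := h
  exact ⟨c * s, c * t, by positivity, by positivity, by module⟩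

lemma Cn_comm (a b : E) : Cn a b = Cn b a := by
  ext z; exact ⟨fun ⟨s, t, p, q, e⟩ => ⟨t, s, q, p, e.trans (add_comm _ _)⟩,
    fun ⟨s, t, p, q, e⟩ => ⟨t, s, q, p, e.trans (add_comm _ _)⟩⟩

lemma Cn_left (a b : E) : a ∈ Cn a b := ⟨1, 0, zero_le_one, le_rfl, by simp⟩

lemma Cn_perp {a b z e : E} (h : z ∈ Cn a b) (p : ⟪a, e⟫ = 0) (q : ⟪b, e⟫ = 0) : ⟪z, e⟫ = 0 := by
  obtain ⟨s, t, -, -, rfl⟩ := h
  simp [inner_add_left, inner_smul_left, p, q]

lemma Cn_closed {a b : E} (h : ∀ α β : ℝ, α • a + β • b = 0 → α = 0 ∧ β = 0) :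
    IsClosed (Cn a b) := by
  let f : ℝ × ℝ →ₗ[ℝ] E := (LinearMap.toSpanSingleton ℝ E a).coprod (LinearMap.toSpanSingleton ℝ E b)
  have := (LinearMap.isClosedEmbedding_of_injective (f := f) (LinearMap.ker_eq_bot'.2
    fun m hm => Prod.ext (h _ _ hm).1 (h _ _ hm).2)).isClosedMap _
    ((isClosed_Ici (a := (0 : ℝ))).prod (isClosed_Ici (a := (0 : ℝ))))
  convert this using 1
  ext z
  exact ⟨fun ⟨s, t, p, q, e⟩ => ⟨(s, t), ⟨p, q⟩, e.symm⟩, fun ⟨m, ⟨p, q⟩, e⟩ => ⟨_, _, p, q, e.symm⟩⟩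

def Al (x d b : E) : Prop := ∃ α β : ℝ, 0 < β ∧ d = α • x + β • b

lemma al_eq {x d b : S} (h : Al x d b) (e : ⟪(x : E), (d : E)⟫ = ⟪(x : E), (b : E)⟫)
    (k : ∀ α β : ℝ, α • (x : E) + β • (b : E) = 0 → α = 0 ∧ β = 0) : d = b := by
  obtain ⟨α, β, p, q⟩ := h
  have x1 := inner_one (norm_eq_of_mem_sphere x)
  have b1 := inner_one (norm_eq_of_mem_sphere b)
  have d1 := inner_one (norm_eq_of_mem_sphere d)
  rw [q] at e d1
  simp only [inner_add_left, inner_add_right, inner_smul_left, inner_smul_right, x1, b1,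
    conj_trivial, real_inner_comm (x : E) b] at e d1
  set c := ⟪(x : E), (b : E)⟫ with hc
  have c1 : 1 - c ^ 2 ≠ 0 := fun n => by
    refine one_ne_zero (k (-c) 1 (inner_self_eq_zero (𝕜 := ℝ).1 ?_)).2
    simp only [inner_add_left, inner_add_right, inner_smul_left, inner_smul_right, x1, b1,
      conj_trivial, real_inner_comm (x : E) b, ← hc]
    linarith
  have a1 : α = c * (1 - β) := by linarith
  have : (β - 1) * ((β + 1) * (1 - c ^ 2)) = 0 := by rw [a1] at d1; linear_combination d1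
  have : β = 1 := sub_eq_zero.1 ((mul_eq_zero.1 this).resolve_right (mul_ne_zero (by linarith) c1))
  exact Subtype.ext (by rw [q, a1, this]; simp)

def dd {n : ℕ} (ε : Bool) : ZMod n := if ε then 1 else -1

lemma dd_not {n : ℕ} (j : ZMod n) (ε : Bool) : j + dd ε + dd (!ε) = j := by cases ε <;> simp [dd]

structure Pol (I : Type) [Fintype I] (n : ℕ) where
  T : I → Set S
  V : I → ZMod n → S
  cov : ∀ x, ∃ i, x ∈ T i
  cl : ∀ i, IsClosed (T i)
  dis : Pairwise fun i j => Disjoint (interior (T i)) (interior (T j))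
  reg : ∀ i, T i ⊆ closure (interior (T i))
  inj : ∀ i, Function.Injective (V i)
  li : ∀ i j, LinearIndependent ℝ ![(V i (j - 1) : E), V i j, V i (j + 1)]
  sim : ∀ i j k, j ≠ k → ∀ x : S, (x : E) ∈ Cn (V i j) (V i (j + 1)) →
    (x : E) ∈ Cn (V i k) (V i (k + 1)) → x = V i j ∨ x = V i (j + 1)
  fr : ∀ i (x : S), x ∈ frontier (T i) ↔ ∃ j, (x : E) ∈ Cn (V i j) (V i (j + 1))
  θ : ZMod n → ℝ
  lam : ZMod n → ZMod n → ℝ
  hlam : ∀ i j k, ⟪(V i j : E), (V i k : E)⟫ = lam j k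
  τ : I → S → ℝ
  τpos : ∀ i x, x ∈ T i → 0 < τ i x
  τzero : ∀ i x, x ∉ T i → τ i x = 0
  τsum : ∀ x, ∑ i, τ i x = 1
  τV : ∀ i j, τ i (V i j) = θ j

namespace Pol

variable {I : Type} [Fintype I] {n : ℕ} [NeZero n] (P : Pol I n)

def Tr (x : S) : Prop := ∃ a b c, a ≠ b ∧ a ≠ c ∧ b ≠ c ∧ x ∈ P.T a ∧ x ∈ P.T b ∧ x ∈ P.T c

def Ed (i : I) (j : ZMod n) (ε : Bool) : Set E := Cn (P.V i j) (P.V i (j + dd ε))

def Fr (i : I) (z : E) : Prop := ∃ j, z ∈ Cn (P.V i j) (P.V i (j + 1))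

variable {P} {i i' : I} {x : S} {j k : ZMod n} {ε ε' : Bool}

lemma nperp (i : I) (j : ZMod n) (ε : Bool) {e : E} (he : ‖e‖ = 1) (a : ⟪(P.V i j : E), e⟫ = 0)
    (b : ⟪(P.V i (j + dd ε) : E), e⟫ = 0) (c : ⟪(P.V i (j + dd (!ε)) : E), e⟫ = 0) : False := by
  have h := det_ne (P.li i j)
  have : ⟪(P.V i (j - 1) : E), e⟫ = 0 ∧ ⟪(P.V i (j + 1) : E), e⟫ = 0 := by
    rw [sub_eq_add_neg]
    cases ε
    · exact ⟨b, c⟩
    · exact ⟨c, b⟩
  have k := expand (P.V i (j - 1) : E) (P.V i j) e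
  rw [real_inner_comm _ e, real_inner_comm _ e, real_inner_comm _ e, a, this.1, zero_smul, zero_smul,
    add_zero, add_zero] at k
  have k2 := congrArg (fun z => ⟪z, (P.V i (j + 1) : E)⟫) k
  simp only [inner_smul_left, conj_trivial, real_inner_comm _ e, this.2, mul_zero] at k2
  rw [(mul_eq_zero.1 k2.symm).resolve_right h, zero_smul, smul_eq_zero, inner_self_eq_zero] at k
  rcases k with k | k
  · rw [k] at h; simp at h
  · rw [k] at he; simp at he

lemma li2 (i : I) (j : ZMod n) (ε : Bool) (α β : ℝ)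
    (h : α • (P.V i j : E) + β • (P.V i (j + dd ε) : E) = 0) : α = 0 ∧ β = 0 := by
  obtain ⟨e, he, a, c⟩ := exists_perp (P.V i j : E) (P.V i (j + dd (!ε)))
  have k := congrArg (fun z => ⟪z, e⟫) h
  simp only [inner_add_left, inner_smul_left, conj_trivial, a, mul_zero, zero_add,
    inner_zero_left] at k
  have b := (mul_eq_zero.1 k).resolve_right fun b => nperp i j ε he a b c
  rw [b, zero_smul, add_zero, smul_eq_zero] at h
  exact ⟨h.resolve_right (S_ne _), b⟩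

lemma ne1 (i : I) (j : ZMod n) (ε : Bool) : P.V i (j + dd ε) ≠ P.V i j := fun e => by
  simpa using (li2 i j ε 1 (-1) (by rw [e]; simp)).1

lemma ne2 (i : I) (j : ZMod n) (ε : Bool) : P.V i (j + dd ε) ≠ P.V i (j + dd (!ε)) := fun e => by
  obtain ⟨f, he, a, c⟩ := exists_perp (P.V i j : E) (P.V i (j + dd (!ε)))
  exact nperp i j ε he a (e ▸ c) c

lemma Ed_eq (i : I) (j : ZMod n) (ε : Bool) :
    P.Ed i j ε = Cn (P.V i (if ε then j else j - 1)) (P.V i ((if ε then j else j - 1) + 1)) := by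
  cases ε
  · simp [Ed, dd, Cn_comm (P.V i j : E), sub_eq_add_neg]
  · simp [Ed, dd]

lemma Ed_fr {z : E} (h : z ∈ P.Ed i j ε) : P.Fr i z := ⟨_, Ed_eq i j ε ▸ h⟩

lemma Ed_T (h : (x : E) ∈ P.Ed i j ε) : x ∈ P.T i :=
  (P.cl i).frontier_subset ((P.fr i x).2 (Ed_fr h))

lemma V_T (i : I) (j : ZMod n) : P.V i j ∈ P.T i := Ed_T (ε := true) (Cn_left _ _)

lemma vtx {m : ZMod n} (h : (P.V i m : E) ∈ P.Ed i j ε) :
    P.V i m = P.V i j ∨ P.V i m = P.V i (j + dd ε) := by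
  rw [Ed_eq] at h
  have : P.V i m = P.V i (if ε then j else j - 1) ∨
      P.V i m = P.V i ((if ε then j else j - 1) + 1) := by
    by_cases e : (if ε then j else j - 1) = m
    · exact Or.inl (by rw [e])
    · exact P.sim i _ m e _ h (Cn_left _ _)
  cases ε
  · simpa [dd, sub_eq_add_neg, or_comm] using this
  · simpa [dd] using this

lemma two {l : I} (h : ¬P.Tr x) (hi : i ≠ i') (a : x ∈ P.T i) (b : x ∈ P.T i') (c : x ∈ P.T l) :
    l = i ∨ l = i' := by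
  by_contra k
  push Not at k
  exact h ⟨i, i', l, hi, k.1.symm, k.2.symm, a, b, c⟩

lemma fr_two (hi : i ≠ i') (a : x ∈ P.T i) (b : x ∈ P.T i') : x ∈ frontier (P.T i) := by
  refine ⟨subset_closure a, fun k => ?_⟩
  obtain ⟨y, p, q⟩ := mem_closure_iff.1 (P.reg i' b) _ isOpen_interior k
  exact disjoint_left.1 (P.dis hi) p q

lemma nbhd (x : S) : IsOpen {y | ∀ l, x ∉ P.T l → y ∉ P.T l} := by
  simp only [ofPred_forall]
  exact isOpen_iInter_of_finite fun l => isOpen_iInter_of_finite fun _ => (P.cl l).isOpen_compl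

lemma other (h : x ∈ frontier (P.T i)) : ∃ l, l ≠ i ∧ x ∈ P.T l := by
  by_contra k
  push Not at k
  refine h.2 (interior_maximal (fun y hy => ?_) (nbhd (P := P) x) fun l a => a)
  obtain ⟨l, hl⟩ := P.cov y
  by_cases e : l = i
  · exact e ▸ hl
  · exact absurd hl (hy l (k l e))

lemma fr_nz {z : E} (h : z ≠ 0) : nz z h ∈ frontier (P.T i) ↔ P.Fr i z := by
  rw [P.fr]
  refine exists_congr fun j => ⟨fun k => ?_, fun k => Cn_smul k (by positivity)⟩
  have := Cn_smul k (norm_nonneg z)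
  rwa [nz, smul_inv_smul₀ (norm_ne_zero_iff.2 h)] at this

lemma K1 (h : ¬P.Tr x) (hi : i ≠ i') (a : x ∈ P.T i) (b : x ∈ P.T i') {d : E}
    (hd : ∀ s : ℝ, 0 ≤ s → P.Fr i (x + s • d)) :
    ∃ k, (x : E) ∈ P.Ed i' k true ∧ ∃ s : ℝ, 0 < s ∧ x + s • d ∈ P.Ed i' k true := by
  have t : Tendsto (fun s : ℝ => (x : E) + s • d) (𝓝[>] 0) (𝓝 x) := by
    have : ContinuousAt (fun s : ℝ => (x : E) + s • d) 0 := by fun_prop
    simpa using this.tendsto.mono_left nhdsWithin_le_nhds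
  have e : ∀ᶠ s in 𝓝[>] (0 : ℝ), ∃ k, (x : E) + s • d ∈ P.Ed i' k true := by
    filter_upwards [t.eventually ((open_cone (nbhd (P := P) x)).mem_nhds
      ⟨S_ne x, by rw [nz_unit]; exact fun l a => a⟩), self_mem_nhdsWithin] with s ⟨p, q⟩ r
    have f := (fr_nz p).2 (hd s (le_of_lt r))
    obtain ⟨l, l1, l2⟩ := other f
    obtain rfl := (two h hi a b (by_contra fun c => q l c l2)).resolve_left l1
    exact (fr_nz p).1 (fr_two l1 l2 ((P.cl i).frontier_subset f))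
  obtain ⟨k, hk⟩ := frequently_exists.1 e.frequently
  obtain ⟨s, p, q⟩ := (hk.and_eventually self_mem_nhdsWithin).exists
  exact ⟨k, (Cn_closed (li2 i' k true)).mem_of_frequently_of_tendsto hk t, s, q, p⟩

lemma L1 (h : ¬P.Tr (P.V i j)) (hi : i ≠ i') (b : P.V i j ∈ P.T i') (ε : Bool) :
    ∃ k ε', P.V i j = P.V i' k ∧ Al (P.V i j) (P.V i (j + dd ε)) (P.V i' (k + dd ε')) := by
  have K := fun ε => K1 h hi (V_T i j) b (d := P.V i (j + dd ε)) fun s hs =>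
    Ed_fr (j := j) (ε := ε) ⟨1, s, zero_le_one, hs, by simp⟩
  obtain ⟨k, a1, s, s0, a2⟩ := K ε
  obtain ⟨k', b1, t, t0, b2⟩ := K (!ε)
  have hk : k ≠ k' := by
    rintro rfl
    obtain ⟨e, he, p, q⟩ := exists_perp (P.V i' k : E) (P.V i' (k + dd true))
    have c0 := Cn_perp a1 p q
    have c1 := Cn_perp a2 p q
    have c2 := Cn_perp b2 p q
    simp only [inner_add_left, inner_smul_left, conj_trivial, c0, zero_add] at c1 c2
    exact nperp i j ε he c0 ((mul_eq_zero.1 c1).resolve_left s0.ne')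
      ((mul_eq_zero.1 c2).resolve_left t0.ne')
  have fin : ∀ c : E, (P.V i j : E) + s • (P.V i (j + dd ε) : E) ∈ Cn (P.V i j) c →
      Al (P.V i j) (P.V i (j + dd ε)) c := by
    rintro c ⟨α, β, -, q, e⟩
    refine ⟨s⁻¹ * (α - 1), s⁻¹ * β, mul_pos (inv_pos.2 s0) (q.lt_of_ne ?_), ?_⟩
    · rintro rfl
      exact s0.ne' (li2 i j ε (1 - α) s (by linear_combination (norm := module) e)).2
    · rw [mul_smul, mul_smul, ← smul_add, eq_inv_smul_iff₀ s0.ne']
      linear_combination (norm := module) e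
  rcases P.sim i' k k' hk _ a1 b1 with e | e
  · exact ⟨k, true, e, fin _ (by rw [e] at a2 ⊢; exact a2)⟩
  · refine ⟨k + 1, false, e, fin _ ?_⟩
    rw [e] at a2 ⊢
    simpa [Ed, dd, Cn_comm (P.V i' k : E)] using a2

lemma KA (h : ¬P.Tr (P.V i j)) (hi : i ≠ i') (e : P.V i j = P.V i' k)
    (f : P.V i (j + dd ε) = P.V i' (k + dd ε')) (g : P.lam j (j + dd (!ε)) = P.lam k (k + dd (!ε'))) :
    P.V i (j + dd (!ε)) = P.V i' (k + dd (!ε')) := by
  obtain ⟨k', η, p, q⟩ := L1 h hi (e ▸ V_T i' k) (!ε)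
  obtain rfl := P.inj i' (e.symm.trans p)
  by_cases c : η = ε'
  · obtain ⟨α, β, -, r⟩ := q
    obtain ⟨u, he, a, b⟩ := exists_perp (P.V i j : E) (P.V i (j + dd ε))
    exact (nperp i j ε he a b (by
      rw [r, c, ← f]; simp [inner_add_left, inner_smul_left, a, b])).elim
  · obtain rfl : η = !ε' := by cases η <;> cases ε' <;> simp_all
    exact al_eq q (by rw [P.hlam, g, e, P.hlam]) (e ▸ li2 i' k _)

variable (P)

def Full (i : I) (j : ZMod n) (ε : Bool) : Prop :=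
  ∃ i' k ε', i ≠ i' ∧ P.V i j = P.V i' k ∧ P.V i (j + dd ε) = P.V i' (k + dd ε')

variable {P}

lemma full_uniq (h : ¬P.Tr (P.V i j)) (hi : i ≠ i') (e : P.V i j = P.V i' k)
    (f : P.V i (j + dd ε) = P.V i' (k + dd ε')) (g : P.Full i j (!ε)) :
    P.V i (j + dd (!ε)) = P.V i' (k + dd (!ε')) := by
  obtain ⟨l, m, η, g1, g2, g3⟩ := g
  obtain rfl := (two h hi (V_T i j) (e ▸ V_T i' k) (g2 ▸ V_T l m)).resolve_left g1.symm
  obtain rfl := P.inj l (e.symm.trans g2)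
  by_cases c : η = ε'
  · exact absurd (f.trans (c ▸ g3.symm)) (ne2 i j ε)
  · obtain rfl : η = !ε' := by cases η <;> cases ε' <;> simp_all
    exact g3

lemma full_rev (h : P.Full i j ε) : P.Full i (j + dd ε) (!ε) := by
  obtain ⟨l, m, η, g1, g2, g3⟩ := h
  exact ⟨l, m + dd η, !η, g1, g3, by rw [dd_not, dd_not, g2]⟩

lemma L3 (h : ∀ x : S, (x : E) ∈ P.Ed i j ε → ¬P.Tr x) : P.Full i j ε := by
  obtain ⟨l, l1, l2⟩ := other ((P.fr i (P.V i j)).2 ⟨j, Cn_left _ _⟩)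
  obtain ⟨k, η, p, α, β, q, r⟩ := L1 (h _ (Cn_left _ _)) l1.symm l2 ε
  refine ⟨l, k, η, l1.symm, p, ?_⟩
  rcases le_or_gt 0 α with c | c
  · have m : (P.V i (j + dd ε) : E) ∈ P.Ed l k η := ⟨α, β, c, q.le, p ▸ r⟩
    obtain ⟨k', -, t, -⟩ := L1 (h _ (by rw [Ed, Cn_comm]; exact Cn_left _ _)) l1.symm (Ed_T m) ε
    rw [t] at m ⊢
    exact (vtx m).resolve_left fun u => ne1 i j ε (t.trans (u.trans p.symm))
  · have m : (P.V l (k + dd η) : E) ∈ P.Ed i j ε := ⟨β⁻¹ * -α, β⁻¹ * 1, by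
      have := neg_pos.2 c; positivity, by positivity, by
      rw [mul_smul, mul_smul, ← smul_add, eq_inv_smul_iff₀ q.ne', r]; module⟩
    obtain ⟨k', -, t, -⟩ := L1 (h _ m) l1 (Ed_T m) ε
    rw [t] at m ⊢
    exact ((vtx m).resolve_left fun u => ne1 l k η (t.trans (u.trans p))).symm

lemma τ_two (h : ¬P.Tr x) (hi : i ≠ i') (a : x ∈ P.T i) (b : x ∈ P.T i') :
    P.τ i x + P.τ i' x = 1 := by
  classical
  rw [← P.τsum x, ← Finset.sum_pair (f := fun l => P.τ l x) hi]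
  refine Finset.sum_subset (Finset.subset_univ _) fun l _ hl => P.τzero _ _ fun c => hl ?_
  simpa using two h hi a b c

lemma τ_nonneg (i : I) (x : S) : 0 ≤ P.τ i x := by
  by_cases h : x ∈ P.T i
  · exact (P.τpos _ _ h).le
  · exact (P.τzero _ _ h).ge

lemma τ_three (h : P.Tr x) (hi : i ≠ i') : P.τ i x + P.τ i' x < 1 := by
  classical
  obtain ⟨l, l1, l2⟩ : ∃ l, l ∉ ({i, i'} : Finset I) ∧ x ∈ P.T l := by
    obtain ⟨a, b, c, p, q, r, h⟩ := h
    by_contra k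
    push Not at k
    have := fun l (hl : x ∈ P.T l) => (by_contra fun n => k l n hl : l ∈ ({i, i'} : Finset I))
    have h1 := this a h.1
    have h2 := this b h.2.1
    have h3 := this c h.2.2
    simp only [Finset.mem_insert, Finset.mem_singleton] at h1 h2 h3
    grind
  rw [← P.τsum x, ← Finset.sum_pair (f := fun l => P.τ l x) hi]
  exact Finset.sum_lt_sum_of_subset (Finset.subset_univ _) (Finset.mem_univ l) l1 (P.τpos _ _ l2)
    fun l _ _ => τ_nonneg l x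

end Pol

end Pool.Agent.Lib.MP_e5885b_co
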