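import Pool.Agent.Lib.MP_e5885b_co.Vec

set_option autoImplicit false
set_option linter.unusedSectionVars false

open MeasureTheory Set Filter Topology
open scoped RealInnerProductSpace

namespace Pool.Agent.Lib.MP_e5885b_co

variable {τ : Type} [Fintype τ]

def Kc (ℓ : τ → E) : Set E := {x | ∀ t, 0 ≤ ⟪ℓ t, x⟫}
def Ko (ℓ : τ → E) : Set E := {x | ∀ t, 0 < ⟪ℓ t, x⟫}
def Tc (ℓ : τ → E) (x : E) : Set E := {z | ∀ t, ⟪ℓ t, x⟫ = 0 → 0 ≤ ⟪ℓ t, z⟫}
def To (ℓ : τ → E) (x : E) : Set E := {z | ∀ t, ⟪ℓ t, x⟫ = 0 → 0 < ⟪ℓ t, z⟫}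
def IsV (ℓ : τ → E) (x : E) : Prop :=
  ‖x‖ = 1 ∧ x ∈ Kc ℓ ∧ ∃ s t, ⟪ℓ s, x⟫ = 0 ∧ ⟪ℓ t, x⟫ = 0 ∧
    ⟪ℓ s, ℓ s⟫ * ⟪ℓ t, ℓ t⟫ - ⟪ℓ s, ℓ t⟫ ^ 2 ≠ 0

variable {ℓ : τ → E}

lemma isClosed_Kc : IsClosed (Kc ℓ) := by
  unfold Kc; simp only [ofPred_forall]
  exact isClosed_iInter fun t => isClosed_le continuous_const (by fun_prop)

lemma isOpen_Ko : IsOpen (Ko ℓ) := by
  unfold Ko; simp only [ofPred_forall]
  exact isOpen_iInter_of_finite fun t => isOpen_lt continuous_const (by fun_prop)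

lemma isClosed_Tc (x : E) : IsClosed (Tc ℓ x) := by
  unfold Tc; simp only [ofPred_forall]
  exact isClosed_iInter fun t => isClosed_iInter fun _ =>
    isClosed_le continuous_const (by fun_prop)

lemma isOpen_To (x : E) : IsOpen (To ℓ x) := by
  unfold To; simp only [ofPred_forall]
  exact isOpen_iInter_of_finite fun t => isOpen_iInter_of_finite fun _ =>
    isOpen_lt continuous_const (by fun_prop)

lemma Ko_sub : Ko ℓ ⊆ Kc ℓ := fun _ h t => (h t).le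
lemma To_sub (x : E) : To ℓ x ⊆ Tc ℓ x := fun _ h t ht => (h t ht).le
lemma Kc_Tc (x : E) : Kc ℓ ⊆ Tc ℓ x := fun _ h t _ => h t
lemma Ko_To (x : E) : Ko ℓ ⊆ To ℓ x := fun _ h t _ => h t

lemma Kc_smul {x : E} (h : x ∈ Kc ℓ) {a : ℝ} (ha : 0 ≤ a) : a • x ∈ Kc ℓ := fun t => by
  rw [inner_smul_right]; exact mul_nonneg ha (h t)

lemma Ko_smul {x : E} (h : x ∈ Ko ℓ) {a : ℝ} (ha : 0 < a) : a • x ∈ Ko ℓ := fun t => by
  rw [inner_smul_right]; exact mul_pos ha (h t)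

lemma To_smul {x z : E} (h : z ∈ To ℓ x) {a : ℝ} (ha : 0 < a) : a • z ∈ To ℓ x := fun t ht => by
  rw [inner_smul_right]; exact mul_pos ha (h t ht)

lemma convex_Ko : Convex ℝ (Ko ℓ) := fun x hx y hy a b ha hb hab t => by
  rw [inner_add_right, inner_smul_right, inner_smul_right]
  have := hx t; have := hy t
  rcases ha.eq_or_lt with rfl | ha'
  · rw [zero_add] at hab; rw [hab]; linarith
  · positivity

lemma ev_pos {a b : ℝ} (ha : 0 < a) : ∀ᶠ s in 𝓝[>] (0 : ℝ), 0 < a + s * b := by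
  have : ContinuousAt (fun s : ℝ => a + s * b) 0 := by fun_prop
  exact nhdsWithin_le_nhds (this.eventually (lt_mem_nhds (by simpa using ha)))

lemma step_Kc {x z : E} (hx : x ∈ Kc ℓ) (hz : z ∈ Tc ℓ x) :
    ∀ᶠ s in 𝓝[>] (0 : ℝ), x + s • z ∈ Kc ℓ := by
  simp only [Kc, mem_ofPred_eq, eventually_all, inner_add_right, inner_smul_right]
  intro t
  rcases (hx t).eq_or_lt with h | h
  · filter_upwards [self_mem_nhdsWithin] with s hs
    rw [← h, zero_add]; exact mul_nonneg (le_of_lt hs) (hz t h.symm)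
  · exact (ev_pos h).mono fun s hs => hs.le

lemma step_Ko {x z : E} (hx : x ∈ Kc ℓ) (hz : z ∈ To ℓ x) :
    ∀ᶠ s in 𝓝[>] (0 : ℝ), x + s • z ∈ Ko ℓ := by
  simp only [Ko, mem_ofPred_eq, eventually_all, inner_add_right, inner_smul_right]
  intro t
  rcases (hx t).eq_or_lt with h | h
  · filter_upwards [self_mem_nhdsWithin] with s hs
    rw [← h, zero_add]; exact mul_pos hs (hz t h.symm)
  · exact ev_pos h

lemma step_back {x z : E} (h : ∃ᶠ s in 𝓝[>] (0 : ℝ), x + s • z ∈ Kc ℓ) :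
    x ∈ Kc ℓ ∧ z ∈ Tc ℓ x := by
  constructor
  · have : Tendsto (fun s : ℝ => x + s • z) (𝓝[>] 0) (𝓝 x) := by
      have : ContinuousAt (fun s : ℝ => x + s • z) 0 := by fun_prop
      simpa using this.tendsto.mono_left nhdsWithin_le_nhds
    exact isClosed_Kc.mem_of_frequently_of_tendsto h this
  · intro t ht
    obtain ⟨s, h1, h2⟩ := (h.and_eventually self_mem_nhdsWithin).exists
    have := h1 t
    rw [inner_add_right, inner_smul_right, ht, zero_add] at this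
    exact nonneg_of_mul_nonneg_right this h2 |> fun h => by
      by_contra hn
      have := mul_neg_of_pos_of_neg h2 (not_le.1 hn)
      linarith

lemma Kc_closure (hne : (Ko ℓ).Nonempty) : Kc ℓ ⊆ closure (Ko ℓ) := by
  obtain ⟨w, hw⟩ := hne
  intro x hx
  have : Tendsto (fun s : ℝ => x + s • w) (𝓝[>] 0) (𝓝 x) := by
    have : ContinuousAt (fun s : ℝ => x + s • w) 0 := by fun_prop
    simpa using this.tendsto.mono_left nhdsWithin_le_nhds
  exact mem_closure_of_tendsto this (step_Ko hx (Ko_To x hw))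

lemma Tc_ae (h : ∀ t, ℓ t ≠ 0) (x : E) : To ℓ x =ᵐ[μ] Tc ℓ x := by
  filter_upwards [ae_generic' ℓ h] with z hz
  exact propext ⟨fun a => To_sub x a, fun a t ht => (a t ht).lt_of_ne (hz t).symm⟩

lemma Kc_ae (h : ∀ t, ℓ t ≠ 0) : Ko ℓ =ᵐ[μ] Kc ℓ := by
  filter_upwards [ae_generic' ℓ h] with z hz
  exact propext ⟨fun a => Ko_sub a, fun a t => (a t).lt_of_ne (hz t).symm⟩

lemma zero_of_open {f : E} {U : Set E} (hU : IsOpen U) {y : E} (hy : y ∈ U) (h0 : ⟪f, y⟫ = 0)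
    (h : ∀ z ∈ U, 0 ≤ ⟪f, z⟫) : f = 0 := by
  have : Tendsto (fun s : ℝ => y + s • (-f)) (𝓝[>] 0) (𝓝 y) := by
    have : ContinuousAt (fun s : ℝ => y + s • (-f)) 0 := by fun_prop
    simpa using this.tendsto.mono_left nhdsWithin_le_nhds
  obtain ⟨s, h1, h2⟩ := ((this.eventually (hU.mem_nhds hy)).and self_mem_nhdsWithin).exists
  have h3 := h _ h1
  rw [inner_add_right, inner_smul_right, h0, inner_neg_right, zero_add] at h3
  have h4 : (0 : ℝ) < s := h2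
  have h5 : ⟪f, f⟫ ≤ 0 := by nlinarith
  exact real_inner_self_nonpos.1 h5

lemma V_eq {x : E} (hx : ‖x‖ = 1) {a b : E} (ha : ⟪a, x⟫ = 0) (hb : ⟪b, x⟫ = 0)
    (h : ⟪a, a⟫ * ⟪b, b⟫ - ⟪a, b⟫ ^ 2 ≠ 0) :
    x = ‖cr a b‖⁻¹ • cr a b ∨ x = -(‖cr a b‖⁻¹ • cr a b) := by
  have e := expand a b x
  rw [real_inner_comm a x, real_inner_comm b x, ha, hb, zero_smul, zero_smul, add_zero, add_zero,
    real_inner_self_eq_norm_sq] at e
  rw [← lagr, real_inner_self_eq_norm_sq] at h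
  have h0 : 0 < ‖cr a b‖ := (norm_nonneg _).lt_of_ne fun k => h (by rw [← k]; simp)
  have n := congrArg norm e
  rw [norm_smul, norm_smul, hx, mul_one, Real.norm_of_nonneg (by positivity), Real.norm_eq_abs,
    sq, mul_left_inj' h0.ne', eq_comm, abs_eq h0.le] at n
  have e' : x = (‖cr a b‖ ^ 2)⁻¹ • (⟪x, cr a b⟫ • cr a b) := by
    rw [← e, smul_smul, inv_mul_cancel₀ h, one_smul]
  rcases n with n | n <;> rw [n, smul_smul] at e'
  · left; rw [e']; congr 1; field_simp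
  · right; rw [e', ← neg_smul]; congr 1; field_simp

noncomputable def cand (ℓ : τ → E) : Finset E := by
  classical
  exact Finset.univ.image fun p : τ × τ × Bool =>
    if p.2.2 then ‖cr (ℓ p.1) (ℓ p.2.1)‖⁻¹ • cr (ℓ p.1) (ℓ p.2.1)
    else -(‖cr (ℓ p.1) (ℓ p.2.1)‖⁻¹ • cr (ℓ p.1) (ℓ p.2.1))

noncomputable def Vs (ℓ : τ → E) : Finset E := by
  classical
  exact (cand ℓ).filter (IsV ℓ)

lemma mem_Vs {x : E} : x ∈ Vs ℓ ↔ IsV ℓ x := by
  classical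
  unfold Vs cand
  simp only [Finset.mem_filter, Finset.mem_image, Finset.mem_univ, true_and, and_iff_right_iff_imp]
  rintro ⟨h1, -, s, t, h2, h3, h4⟩
  rcases V_eq h1 h2 h3 h4 with e | e
  · exact ⟨(s, t, true), by simp [← e]⟩
  · exact ⟨(s, t, false), by simp [← e]⟩

lemma card_Vs : (Vs ℓ).card ≤ 2 * Fintype.card τ ^ 2 := by
  classical
  unfold Vs cand
  refine (Finset.card_filter_le _ _).trans (Finset.card_image_le.trans ?_)
  simp; ring_nf; rfl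

lemma not_V (h : ∀ t, ℓ t ≠ 0) (hne : (Ko ℓ).Nonempty) {x : E} (h1 : ‖x‖ = 1) (h2 : x ∈ Kc ℓ)
    (hv : ¬IsV ℓ x) : To ℓ x = univ ∨ ∃ f : E, f ≠ 0 ∧ To ℓ x = {z | 0 < ⟪f, z⟫} := by
  by_cases ha : ∃ s, ⟪ℓ s, x⟫ = 0
  · obtain ⟨s, hs⟩ := ha
    refine Or.inr ⟨ℓ s, h s, Subset.antisymm (fun z hz => hz s hs) fun z hz t ht => ?_⟩
    have h3 : ⟪ℓ s, ℓ s⟫ * ⟪ℓ t, ℓ t⟫ - ⟪ℓ s, ℓ t⟫ ^ 2 = 0 := by
      by_contra k; exact hv ⟨h1, h2, s, t, hs, ht, k⟩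
    have h4 : ⟪ℓ s, ℓ s⟫ • ℓ t = ⟪ℓ s, ℓ t⟫ • ℓ s := by
      rw [← sub_eq_zero, ← inner_self_eq_zero (𝕜 := ℝ)]
      simp only [inner_sub_left, inner_sub_right, inner_smul_left, inner_smul_right,
        real_inner_comm (ℓ s) (ℓ t), conj_trivial]
      linear_combination ⟪ℓ s, ℓ s⟫ * h3
    have h5 : ∀ w : E, ⟪ℓ s, ℓ s⟫ * ⟪ℓ t, w⟫ = ⟪ℓ s, ℓ t⟫ * ⟪ℓ s, w⟫ := fun w => by
      have := congrArg (fun a => ⟪a, w⟫) h4
      simpa [inner_smul_left] using this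
    obtain ⟨w, hw⟩ := hne
    have p0 : 0 < ⟪ℓ s, ℓ s⟫ := real_inner_self_pos.2 (h s)
    have p1 : 0 < ⟪ℓ s, ℓ t⟫ := by
      have := mul_pos p0 (hw t)
      rw [h5] at this
      exact (mul_pos_iff_of_pos_right (hw s)).1 this
    have := mul_pos p1 hz
    rw [← h5] at this
    exact (mul_pos_iff_of_pos_left p0).1 this
  · left
    exact eq_univ_of_forall fun z t ht => absurd ⟨t, ht⟩ ha

lemma μ_neg {S : Set E} (hS : MeasurableSet S) : μ.real {z | -z ∈ S} = μ.real S :=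
  μ_iso (LinearIsometryEquiv.neg ℝ) hS

lemma μ_two {S : Set E} (hS : MeasurableSet S) (hd : ∀ᵐ z ∂μ, z ∈ S → -z ∉ S) :
    μ.real {z | z ∉ S ∧ -z ∉ S} = v0 - 2 * μ.real S := by
  have hS' : MeasurableSet {z | -z ∈ S} := measurable_neg hS
  have e1 : {z | z ∉ S ∧ -z ∉ S} = (S ∪ {z | -z ∈ S})ᶜ := by ext z; simp
  have e2 : μ.real (S ∪ {z | -z ∈ S}) = μ.real S + μ.real {z | -z ∈ S} := by
    refine measureReal_union₀ hS'.nullMeasurableSet ?_
    rw [AEDisjoint, measure_eq_zero_iff_ae_notMem]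
    filter_upwards [hd] with z hz k
    exact hz k.1 k.2
  rw [e1, measureReal_compl (hS.union hS'), e2, μ_neg hS, v0]; ring

lemma μ_half {f : E} (hf : f ≠ 0) : μ.real {z | 0 < ⟪f, z⟫} = v0 / 2 := by
  have hS : MeasurableSet {z : E | 0 < ⟪f, z⟫} :=
    (isOpen_lt continuous_const (by fun_prop)).measurableSet
  have := μ_two hS (Eventually.of_forall fun z hz => by
    simp only [mem_ofPred_eq, inner_neg_right] at hz ⊢; linarith)
  have e : μ.real {z : E | z ∉ {z : E | 0 < ⟪f, z⟫} ∧ -z ∉ {z : E | 0 < ⟪f, z⟫}} = 0 := by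
    rw [measureReal_eq_zero_iff, measure_eq_zero_iff_ae_notMem]
    filter_upwards [ae_generic' (fun _ : Unit => f) fun _ => hf] with z hz k
    simp only [inner_neg_right, not_lt] at k
    exact hz () (by linarith)
  linarith

end Pool.Agent.Lib.MP_e5885b_co
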