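import Pool.Agent.Lib.MP_e5885b_co.Til

set_option autoImplicit false
set_option linter.unusedSectionVars false

open MeasureTheory Set Filter Topology
open scoped RealInnerProductSpace

namespace Pool.Agent.Lib.MP_e5885b_co

namespace Til

variable {I C τ : Type} [Fintype I] [Fintype C] [Fintype τ] {ε : ℝ} (T : Til I C τ ε)

lemma perp_small (hε : 0 ≤ ε) {c c' : C} {v z e : E} (hv : v ∈ Kc (T.ℓ c)) (hv1 : ‖v‖ = 1)
    (hz : z ∈ Kc (T.ℓ c')) (hz1 : ‖z‖ < 1) (he : ‖e‖ = 1) (hve : ⟪v, e⟫ = 0) : |⟪z, e⟫| ≤ ε := by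
  by_cases h0 : z = 0
  · simpa [h0]
  have n1 : ‖‖z‖⁻¹ • z‖ = 1 := norm_smul_inv_norm h0
  have h1 := T.hd c' c _ _ (Kc_smul hz (a := ‖z‖⁻¹) (by positivity)) hv n1 hv1
  have h2 := abs_real_inner_le_norm (‖z‖⁻¹ • z - v) e
  rw [inner_sub_left, hve, sub_zero, he, mul_one, inner_smul_left, conj_trivial, abs_mul,
    abs_of_pos (by positivity)] at h2
  have h3 := h2.trans h1
  rw [inv_mul_le_iff₀ (by positivity)] at h3
  nlinarith

lemma abs_le_one {z e : E} (hz1 : ‖z‖ < 1) (he : ‖e‖ = 1) : |⟪z, e⟫| ≤ 1 := by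
  have := abs_real_inner_le_norm z e
  rw [he] at this; linarith

lemma cell_le (hε : 0 ≤ ε) (c : C) : μ.real (Kc (T.ℓ c)) ≤ 8 * ε ^ 2 := by
  obtain ⟨w, hw⟩ := (dense_compl_singleton (0 : E)).inter_open_nonempty _ isOpen_Ko (T.hne c)
  have n1 : ‖‖w‖⁻¹ • w‖ = 1 := norm_smul_inv_norm hw.2
  have hv := Kc_smul (Ko_sub hw.1) (a := ‖w‖⁻¹) (by positivity)
  obtain ⟨e, he, hve, -⟩ := exists_perp (‖w‖⁻¹ • w) 0
  refine (μ_le_box n1 he hve (p := -1) (p' := 1) (q := -ε) (q' := ε) (r := -ε) (r' := ε)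
    (by norm_num) (by linarith) (by linarith) fun z hz hz1 => ⟨abs_le.1 (abs_le_one hz1 n1),
      abs_le.1 (T.perp_small hε hv n1 hz hz1 he hve), abs_le.1 (T.perp_small hε hv n1 hz hz1
        (by rw [norm_cr n1 hve, he]) (by rw [real_inner_comm, cr_left]))⟩).trans (le_of_eq ?_)
  ring

lemma exists_dir (j : T.J) : ∃ u : E, ‖u‖ = 1 ∧ ⟪(j.2 : E), u⟫ = 0 ∧ u ∈ To (T.ℓ j.1) j.2 := by
  obtain ⟨c, v, hv⟩ := j
  obtain ⟨h1, -, s, -, hs, -⟩ := mem_Vs.1 hv
  obtain ⟨w, hw⟩ := T.hne c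
  have k : w - ⟪v, w⟫ • v ∈ To (T.ℓ c) v := fun t ht => by
    rw [inner_sub_right, inner_smul_right, ht]; simpa using hw t
  have k0 : w - ⟪v, w⟫ • v ≠ 0 := fun e => by simpa [e] using k s hs
  refine ⟨_, norm_smul_inv_norm (𝕜 := ℝ) k0, ?_, To_smul k (by simpa using k0)⟩
  simp only [inner_smul_right, inner_sub_right, inner_one h1]; ring

noncomputable def u (j : T.J) : E := (T.exists_dir j).choose

lemma u_spec (j : T.J) : ‖T.u j‖ = 1 ∧ ⟪(j.2 : E), T.u j⟫ = 0 ∧ T.u j ∈ To (T.ℓ j.1) j.2 :=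
  (T.exists_dir j).choose_spec

lemma gap (hε : 0 ≤ ε) {x : E} {i i' : I} {j : T.J} (hi : T.g i x = j.2) (hi' : T.g i' x = j.2)
    (hne : i ≠ i') {σ : ℝ} (hσ : |σ| = 1)
    (o1 : (T.g i).symm (cr j.2 (T.u j)) = σ • cr x ((T.g i).symm (T.u j)))
    (o2 : (T.g i').symm (cr j.2 (T.u j)) = σ • cr x ((T.g i').symm (T.u j))) (c : C) :
    μ.real (Kc (T.ℓ c)) ≤ 8 * ε ^ 2 * ‖(T.g i).symm (T.u j) - (T.g i').symm (T.u j)‖ := by
  obtain ⟨u1, u2, -⟩ := T.u_spec j
  obtain ⟨v1, v2, -⟩ := mem_Vs.1 j.2.2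
  set D := ‖(T.g i).symm (T.u j) - (T.g i').symm (T.u j)‖ with hD
  have hD0 : 0 ≤ D := norm_nonneg _
  have x1 : (T.g i).symm j.2 = x := by rw [← hi]; simp
  have x2 : (T.g i').symm j.2 = x := by rw [← hi']; simp
  have hx : ‖x‖ = 1 := by rw [← x1, LinearIsometryEquiv.norm_map, v1]
  have pre : ∀ k : I, IsOpen (T.g k ⁻¹' Ko (T.ℓ c)) ∧ Convex ℝ (T.g k ⁻¹' Ko (T.ℓ c)) ∧
      (T.g k ⁻¹' Ko (T.ℓ c)).Nonempty ∧
      ∀ z ∈ T.g k ⁻¹' Ko (T.ℓ c), ∀ t : ℝ, 0 < t → t • z ∈ T.g k ⁻¹' Ko (T.ℓ c) := fun k =>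
    ⟨isOpen_Ko.preimage (T.g k).continuous,
      convex_Ko.linear_preimage (T.g k).toLinearEquiv.toLinearMap,
      (T.hne c).preimage (T.g k).surjective, fun z hz t ht => by
        simpa using Ko_smul hz ht⟩
  obtain ⟨φ, p1, p2, p3⟩ := sep_cones (pre i).1 (pre i').1 (pre i).2.1 (pre i').2.1 (pre i).2.2.1
    (pre i').2.2.1 (pre i).2.2.2 (pre i').2.2.2
    (disjoint_left.2 fun z h1 h2 => hne (T.hdis _ _ _ _ z h1 h2).1)
  have p4 : ‖T.g i' φ‖ = 1 := by rw [LinearIsometryEquiv.norm_map, p1]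
  obtain ⟨e, he, e1, e2⟩ := exists_perp (T.g i' φ) j.2
  rw [← measureReal_congr (Kc_ae (T.hl c))]
  refine (μ_le_box p4 he e1 (p := 0) (p' := 2 * ε * D) (q := -ε) (q' := ε) (r := -1) (r' := 1)
    (by positivity) (by linarith) (by norm_num) fun z hz hz1 => ⟨?_,
      abs_le.1 (T.perp_small hε v2 v1 (Ko_sub hz) hz1 he e2),
      abs_le.1 (abs_le_one hz1 (by rw [norm_cr p4 e1, he]))⟩).trans (le_of_eq (by ring))
  have q1 := p2 ((T.g i).symm z) (by simpa using hz)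
  have q2 := p3 ((T.g i').symm z) (by simpa using hz)
  have q3 : ⟪z, T.g i' φ⟫ = ⟪φ, (T.g i').symm z⟫ := by
    rw [← (T.g i').inner_map_map φ, LinearIsometryEquiv.apply_symm_apply, real_inner_comm]
  have q4 : ‖(T.g i').symm z - (T.g i).symm z‖ ≤ 2 * ε * D := by
    have b1 := T.perp_small hε v2 v1 (Ko_sub hz) hz1 u1 u2
    have b2 := T.perp_small hε v2 v1 (Ko_sub hz) hz1 (e := cr j.2 (T.u j))
      (by rw [norm_cr v1 u2, u1]) (by rw [real_inner_comm, cr_left])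
    have b3 : (T.g i').symm z - (T.g i).symm z =
        ⟪z, T.u j⟫ • ((T.g i').symm (T.u j) - (T.g i).symm (T.u j)) +
        (⟪z, cr j.2 (T.u j)⟫ * σ) • cr x ((T.g i').symm (T.u j) - (T.g i).symm (T.u j)) := by
      conv_lhs => rw [expand_on v1 u1 u2 z]
      simp only [map_add, map_smul, x1, x2, o1, o2, ← cr_sub]
      module
    have b4 : ⟪x, (T.g i').symm (T.u j) - (T.g i).symm (T.u j)⟫ = 0 := by
      rw [inner_sub_right]
      nth_rewrite 1 [← x2]
      nth_rewrite 1 [← x1]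
      rw [LinearIsometryEquiv.inner_map_map, LinearIsometryEquiv.inner_map_map, sub_self]
    rw [b3]
    refine (norm_add_le _ _).trans ?_
    rw [norm_smul, norm_smul, norm_cr hx b4, norm_sub_rev, ← hD, Real.norm_eq_abs,
      Real.norm_eq_abs, abs_mul, hσ]
    nlinarith
  have q5 := real_inner_le_norm φ ((T.g i').symm z - (T.g i).symm z)
  rw [inner_sub_right, p1] at q5
  rw [q3]
  constructor <;> linarith

include T in
lemma N_ge (hε : 0 ≤ ε) {k : ℝ} (hk : (Fintype.card C : ℝ) ≤ k) :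
    v0 ≤ Fintype.card I * (k * (8 * ε ^ 2)) := by
  rw [← T.total]
  refine mul_le_mul_of_nonneg_left ?_ (Nat.cast_nonneg _)
  refine (Finset.sum_le_sum fun c _ => T.cell_le hε c).trans ?_
  rw [Finset.sum_const, nsmul_eq_mul, Finset.card_univ]
  gcongr

lemma hG (hε : 0 ≤ ε) {k r δ : ℝ} (hk : (Fintype.card C : ℝ) ≤ k)
    (hr : (Fintype.card T.J : ℝ) ≤ r) (hr0 : 0 < r) (hδ : 0 < δ) (hs : 8192 * r * k * ε ^ 2 ≤ δ)
    {x : E} (hx : x ∈ T.X) (A : Finset T.J) (hA : ∀ l ∉ A, T.a l ≤ 1 / (δ * Fintype.card I)) :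
    ∑ l ∈ Aᶜ, (T.m x l : ℝ) ≤ 16 * r * (1 + ∑ l ∈ A, (T.m x l : ℝ)) := by
  classical
  have hN : (0 : ℝ) < Fintype.card I := by exact_mod_cast T.N_pos
  have hv := v0_pos
  have hx1 := (T.norm_X hx).1
  set δ1 : ℝ := 1024 * r * v0 / (δ * Fintype.card I) with hδ1
  have hmain : ∀ D : ℝ, 0 ≤ D → v0 ≤ Fintype.card I * (k * (8 * ε ^ 2 * D)) → δ1 ≤ D := by
    intro D hD h
    rw [hδ1, div_le_iff₀ (by positivity)]
    have h1 := mul_le_mul_of_nonneg_left h (by positivity : 0 ≤ 1024 * r)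
    have h2 := mul_le_mul_of_nonneg_left hs (by positivity : 0 ≤ D * Fintype.card I)
    nlinarith
  set S := (T.P x).filter fun q => ∀ p ∈ T.Cor x Aᶜ, (p.1, p.2.1) ≠ q with hS
  have hcard : (S.card : ℝ) ≤ 1 + ∑ l ∈ A, (T.m x l : ℝ) := by
    have : S ⊆ T.NV x ∪ (T.Cor x A).image fun p => (p.1, p.2.1) := by
      intro q hq
      obtain ⟨q1, q2⟩ := Finset.mem_filter.1 hq
      by_cases hV : IsV (T.ℓ q.2) (T.g q.1 x)
      · refine Finset.mem_union_right _ (Finset.mem_image.2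
          ⟨(q.1, ⟨q.2, _, mem_Vs.2 hV⟩), T.mem_Cor.2 ⟨rfl, ?_⟩, rfl⟩)
        by_contra hn
        exact q2 (q.1, ⟨q.2, _, mem_Vs.2 hV⟩) (T.mem_Cor.2 ⟨rfl, Finset.mem_compl.2 hn⟩) rfl
      · refine Finset.mem_union_left _ ?_
        unfold NV
        rw [Finset.mem_filter]
        exact ⟨q1, hV⟩
    have h2 := (Finset.card_le_card this).trans ((Finset.card_union_le _ _).trans
      (add_le_add (T.sig hx).1 Finset.card_image_le))
    rw [← T.card_Cor]
    exact_mod_cast h2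
  have hc := count (γ := T.J × Bool) hx1 (T.Cor x Aᶜ) S
    (fun p => T.g p.1 ⁻¹' To (T.ℓ p.2.1) p.2.2) (fun q => T.g q.1 ⁻¹' To (T.ℓ q.2) (T.g q.1 x))
    (fun p => (T.g p.1).symm (T.u p.2))
    (fun p => (p.2, decide ((T.g p.1).symm (cr p.2.2 (T.u p.2)) =
      cr x ((T.g p.1).symm (T.u p.2)))))
    (M := 2 * r) (τ := v0 / (δ * Fintype.card I)) (δ := δ1)
    (by rw [Fintype.card_prod, Fintype.card_bool]; push_cast; linarith) (by positivity)
    (hmain 1 zero_le_one (by simpa using T.N_ge hε hk)) (le_of_eq (by rw [hδ1]; ring))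
    ?_ ?_ ?_ ?_ ?_
  · rw [T.card_Cor] at hc
    nlinarith
  · intro p hp
    have p1 := (T.mem_Cor.1 hp).1
    obtain ⟨u1, u2, u3⟩ := T.u_spec p.2
    refine ⟨by rw [LinearIsometryEquiv.norm_map, u1], ?_, fun q hq k => ?_⟩
    · rw [← (T.g p.1).inner_map_map, p1, LinearIsometryEquiv.apply_symm_apply, u2]
    · obtain ⟨q1, q2⟩ := Finset.mem_filter.1 hq
      have := T.loc_dis (i := p.1) (c := p.2.1) (by rw [p1]; exact (mem_Vs.1 p.2.2.2).2.1)
        (T.mem_P.1 q1) (by rw [p1]; simpa using u3) k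
      exact q2 p hp (Prod.ext this.1 this.2)
  · intro q _ z hz z' hz' w R A B C r1 r2 r3 r4 t ht
    have := congrArg (fun a => ⟪T.ℓ q.2 t, T.g q.1 a⟫) r4
    simp only [map_add, map_smul, inner_add_right, inner_smul_right, ht] at this
    have a1 := mul_pos r2 (hz t ht)
    have a2 := mul_pos r3 (hz' t ht)
    exact (mul_pos_iff_of_pos_left r1).1 (by linarith)
  · filter_upwards [T.gen] with z hz
    obtain ⟨i, c, h1, h2⟩ := T.loc_cov x z
    have h3 : T.g i z ∈ To (T.ℓ c) (T.g i x) := fun t ht => (h2 t ht).lt_of_ne (hz _ _ _).symm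
    by_cases hq : (i, c) ∈ S
    · exact Or.inr ⟨_, hq, h3⟩
    · left
      by_contra hn
      refine hq (Finset.mem_filter.2 ⟨T.mem_P.2 h1, fun p hp e => hn ⟨p, hp, ?_⟩⟩)
      simp only [Prod.mk.injEq] at e
      rw [mem_preimage, ← (T.mem_Cor.1 hp).1, e.1, e.2]
      exact h3
  · intro p hp
    rw [μ_iso _ (isOpen_To _).measurableSet, measureReal_congr (Tc_ae (T.hl _) _)]
    have := hA p.2 (Finset.mem_compl.1 (T.mem_Cor.1 hp).2)
    rw [a, div_le_iff₀ hv] at this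
    exact this.trans (le_of_eq (by ring))
  · rintro ⟨i, j⟩ hp ⟨i', j'⟩ hp' hne hcl
    simp only [Prod.mk.injEq, decide_eq_decide] at hcl
    obtain ⟨rfl, hcl⟩ := hcl
    have p1 := (T.mem_Cor.1 hp).1
    have p2 := (T.mem_Cor.1 hp').1
    have hne' : i ≠ i' := fun e => hne (by rw [e])
    obtain ⟨u1, u2, -⟩ := T.u_spec j
    have v1 := (mem_Vs.1 j.2.2).1
    have x1 : (T.g i).symm j.2 = x := by rw [← p1]; simp
    have x2 : (T.g i').symm j.2 = x := by rw [← p2]; simp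
    have o1 := iso_cr (T.g i).symm v1 u1 u2
    have o2 := iso_cr (T.g i').symm v1 u1 u2
    rw [x1] at o1
    rw [x2] at o2
    have fin : ∀ c, μ.real (Kc (T.ℓ c)) ≤
        8 * ε ^ 2 * ‖(T.g i).symm (T.u j) - (T.g i').symm (T.u j)‖ := by
      by_cases o : (T.g i).symm (cr j.2 (T.u j)) = cr x ((T.g i).symm (T.u j))
      · exact T.gap hε p1 p2 hne' (σ := 1) abs_one (by rw [o, one_smul])
          (by rw [hcl.1 o, one_smul])
      · exact T.gap hε p1 p2 hne' (σ := -1) (by simp) (by rw [o1.resolve_left o, neg_one_smul])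
          (by rw [o2.resolve_left fun k => o (hcl.2 k), neg_one_smul])
    refine hmain _ (norm_nonneg _) ?_
    rw [← T.total]
    refine mul_le_mul_of_nonneg_left ?_ (Nat.cast_nonneg _)
    refine (Finset.sum_le_sum fun c _ => fin c).trans ?_
    rw [Finset.sum_const, nsmul_eq_mul, Finset.card_univ]
    gcongr

lemma six (hε : ε < 2) : Fintype.card T.J ≤ 6 * Fintype.card C := by
  have hN : (0 : ℝ) < Fintype.card I := by exact_mod_cast T.N_pos
  have h1 : ∀ x ∈ T.X, 3 * ∑ j, (T.m x j : ℝ) * T.a j ≤ ∑ j, (T.m x j : ℝ) := by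
    intro x hx
    obtain ⟨j, hj⟩ := (T.norm_X hx).2
    have h2 : ∑ j, (T.m x j : ℝ) * T.a j < ∑ j, (T.m x j : ℝ) * (1 / 2) :=
      Finset.sum_lt_sum (fun l _ => mul_le_mul_of_nonneg_left (T.a_lt l).le (Nat.cast_nonneg _))
        ⟨j, Finset.mem_univ _, mul_lt_mul_of_pos_left (T.a_lt j) (by exact_mod_cast hj)⟩
    rw [← Finset.sum_mul, ← Nat.cast_sum] at h2
    rw [← Nat.cast_sum]
    rcases (T.sig hx).2 with e | e <;> rw [e] at h2 ⊢
    · have : (1 : ℝ) < (∑ j, T.m x j : ℕ) := by linarith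
      have : 2 ≤ ∑ j, T.m x j := by exact_mod_cast this
      have : (2 : ℝ) ≤ (∑ j, T.m x j : ℕ) := by exact_mod_cast this
      linarith
    · have : (2 : ℝ) < (∑ j, T.m x j : ℕ) := by linarith
      have : 3 ≤ ∑ j, T.m x j := by exact_mod_cast this
      have : (3 : ℝ) ≤ (∑ j, T.m x j : ℕ) := by exact_mod_cast this
      linarith
  have h2 := Finset.sum_le_sum h1
  have hm : ∀ j, ∑ x ∈ T.X, (T.m x j : ℝ) = Fintype.card I := fun j => by exact_mod_cast T.sum_m j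
  rw [← Finset.mul_sum, Finset.sum_comm, Finset.sum_comm (s := T.X)] at h2
  simp only [← Finset.sum_mul, hm] at h2
  rw [← Finset.mul_sum, T.sum_a hε, Finset.sum_const, Finset.card_univ, nsmul_eq_mul,
    mul_add, mul_div_cancel₀ _ hN.ne'] at h2
  have h3 : (Fintype.card T.J : ℝ) ≤ 6 * Fintype.card C := by
    by_contra k
    push Not at k
    nlinarith
  exact_mod_cast h3

end Til

def Dat.tr {J J' Ω : Type} [Fintype J] [DecidableEq J] [Fintype J'] [DecidableEq J']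
    {h C0 δ δ' : ℝ} (D : Dat J Ω h C0 δ) (e : J' ≃ J) (h0 : 0 < δ) (h1 : δ ≤ δ') :
    Dat J' Ω h C0 δ' where
  N := D.N
  a := fun j => D.a (e j)
  X := D.X
  m := fun x j => D.m x (e j)
  σ := D.σ
  hN := (one_div_le_one_div_of_le h0 h1).trans D.hN
  ha := fun _ => D.ha _
  hsum := by rw [← D.hsum]; exact e.sum_comp D.a
  hσ := D.hσ
  hv := fun x hx => by rw [← D.hv x hx]; exact e.sum_comp fun j => (D.m x j : ℝ) * D.a j
  hm := fun _ => D.hm _
  hG := fun x hx A hA => by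
    have hN : (0 : ℝ) < D.N := lt_of_lt_of_le (by positivity) D.hN
    have := D.hG x hx (A.map e.toEmbedding) fun l hl => by
      have := hA (e.symm l) (by simpa [Finset.mem_map_equiv] using hl)
      rw [e.apply_symm_apply] at this
      exact this.trans (one_div_le_one_div_of_le (by positivity) (by gcongr))
    have e2 : (A.map e.toEmbedding)ᶜ = Aᶜ.map e.toEmbedding := by
      ext l; simp [Finset.mem_map_equiv]
    rw [e2, Finset.sum_map, Finset.sum_map] at this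
    exact this

theorem core (k r : ℕ) : ∃ ε : ℝ, 0 < ε ∧ ε ≤ 1 ∧ ∀ (I C τ : Type) [Fintype I] [Fintype C]
    [Fintype τ] (T : Til I C τ ε), Fintype.card C ≤ k → Fintype.card T.J ≤ r → False := by
  classical
  choose f hf0 hf using fun p : ℕ × ℕ =>
    arith (Fin p.1) E (p.1 / 2 - p.2) (16 * (r + 1)) (by positivity)
  obtain ⟨p0, -, hp0⟩ := Finset.exists_min_image (Finset.range (r + 1) ×ˢ Finset.range (k + 1)) f
    ⟨(0, 0), by simp⟩
  set δ := f p0 with hδ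
  have h0 : 0 < δ := hf0 p0
  have hv := v0_pos
  set η := min 1 (min (δ / (8192 * (r + 1) * (k + 1))) (δ * v0 / (8 * (k + 1)))) with hη
  have η0 : 0 < η := by positivity
  have η1 : η ≤ 1 := min_le_left _ _
  have η2 : η ≤ δ / (8192 * (r + 1) * (k + 1)) := (min_le_right _ _).trans (min_le_left _ _)
  have η3 : η ≤ δ * v0 / (8 * (k + 1)) := (min_le_right _ _).trans (min_le_right _ _)
  rw [le_div_iff₀ (by positivity)] at η2 η3
  have η4 : η ^ 2 ≤ η := by nlinarith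
  refine ⟨η, η0, η1, fun I C τ _ _ _ T hk hr => ?_⟩
  have hk' : (Fintype.card C : ℝ) ≤ k + 1 := by exact_mod_cast hk.trans (Nat.le_succ k)
  have hr' : (Fintype.card T.J : ℝ) ≤ r + 1 := by exact_mod_cast hr.trans (Nat.le_succ r)
  let D : Dat T.J E (Fintype.card T.J / 2 - Fintype.card C) (16 * (r + 1)) δ :=
    { N := Fintype.card I
      a := T.a
      X := T.X
      m := T.m
      σ := fun x => ∑ j, (T.m x j : ℝ) * T.a j
      hN := by
        have h1 := T.N_ge η0.le hk'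
        have h2 : (k + 1 : ℝ) * (8 * η ^ 2) ≤ δ * v0 := by nlinarith
        have h3 := h1.trans (mul_le_mul_of_nonneg_left h2 (Nat.cast_nonneg _))
        rw [div_le_iff₀ h0]
        exact le_of_mul_le_mul_right (by linarith) hv
      ha := T.a_pos
      hsum := T.sum_a (by linarith)
      hσ := fun x hx => (T.sig hx).2
      hv := fun _ _ => rfl
      hm := T.sum_m
      hG := fun x hx A hA => T.hG η0.le hk' hr' (by positivity) h0 (by
        have := mul_le_mul_of_nonneg_left η4 (by positivity : (0 : ℝ) ≤ 8192 * (r + 1) * (k + 1))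
        linarith) hx A hA }
  exact (hf (Fintype.card T.J, Fintype.card C)).false (D.tr (Fintype.equivFin T.J).symm h0
    (hp0 _ (Finset.mem_product.2 ⟨Finset.mem_range.2 (Nat.lt_succ_of_le hr),
      Finset.mem_range.2 (Nat.lt_succ_of_le hk)⟩)))

end Pool.Agent.Lib.MP_e5885b_co
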