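import Pool.Agent.Lib.MP_e5885b_co.Vec

set_option autoImplicit false
set_option linter.unusedSectionVars false

open MeasureTheory Set Filter Topology
open scoped RealInnerProductSpace

namespace Pool.Agent.Lib.MP_e5885b_co

lemma inner_on {a b : E} (ha : ‖a‖ = 1) (hb : ‖b‖ = 1) (hab : ⟪a, b⟫ = 0) (w w' : E) :
    ⟪w, w'⟫ = ⟪w, a⟫ * ⟪w', a⟫ + ⟪w, b⟫ * ⟪w', b⟫ + ⟪w, cr a b⟫ * ⟪w', cr a b⟫ := by
  conv_lhs => rw [expand_on ha hb hab w]
  simp only [inner_add_right, inner_smul_right, real_inner_comm w']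

def Bx (x d : E) (δ : ℝ) : Set E :=
  {z | ⟪z, x⟫ ∈ Ioo (-1 / 2 : ℝ) (1 / 2) ∧ ⟪z, d⟫ ∈ Ioo (1 / 4 : ℝ) (1 / 2) ∧
    ⟪z, cr x d⟫ ∈ Ioo 0 (δ / 16)}

lemma meas_Bx (x d : E) (δ : ℝ) : MeasurableSet (Bx x d δ) := by
  refine IsOpen.measurableSet ?_
  refine IsOpen.inter (isOpen_Ioo.preimage (f := fun z : E => ⟪z, x⟫) (by fun_prop))
    (IsOpen.inter (isOpen_Ioo.preimage (f := fun z : E => ⟪z, d⟫) (by fun_prop))
      (isOpen_Ioo.preimage (f := fun z : E => ⟪z, cr x d⟫) (by fun_prop)))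

lemma μ_Bx {x d : E} (hx : ‖x‖ = 1) (hd : ‖d‖ = 1) (hxd : ⟪x, d⟫ = 0) {δ : ℝ} (h0 : 0 < δ)
    (h1 : δ ≤ 1) : μ.real (Bx x d δ) = δ / 64 := by
  unfold Measure.real μ
  rw [Measure.restrict_apply (meas_Bx x d δ), inter_eq_left.2, Bx,
    vol_box hx hd hxd _ _ _ measurableSet_Ioo measurableSet_Ioo measurableSet_Ioo]
  · simp only [Real.volume_Ioo, ENNReal.toReal_mul]
    rw [ENNReal.toReal_ofReal (by norm_num), ENNReal.toReal_ofReal (by norm_num),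
      ENNReal.toReal_ofReal (by linarith)]
    ring
  · rintro z ⟨⟨a1, a2⟩, ⟨b1, b2⟩, c1, c2⟩
    rw [mem_ball_zero_iff]
    have := inner_on hx hd hxd z z
    rw [real_inner_self_eq_norm_sq] at this
    have : ‖z‖ ^ 2 < 1 := by nlinarith
    nlinarith [norm_nonneg z]

lemma between {x d d' z z' : E} {δ : ℝ} (hx : ‖x‖ = 1) (hd : ‖d‖ = 1) (hxd : ⟪x, d⟫ = 0)
    (hd' : ‖d'‖ = 1) (hxd' : ⟪x, d'⟫ = 0) (h0 : 0 < δ) (hc : 0 ≤ ⟪d, d'⟫)
    (hs : 0 ≤ ⟪d', cr x d⟫) (hdd : δ ≤ ‖d - d'‖) (hz : z ∈ Bx x d δ) (hz' : z' ∈ Bx x d' δ) :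
    ∃ R A B C : ℝ, 0 < R ∧ 0 < A ∧ 0 < B ∧ R • d' = A • z + B • z' + C • x := by
  obtain ⟨-, ⟨b1, -⟩, c1, c2⟩ := hz
  obtain ⟨-, ⟨b1', -⟩, c1', -⟩ := hz'
  have e1 := inner_on hx hd hxd d' d'
  have e2 := inner_on hx hd hxd z d'
  have e3 := inner_on hx hd hxd z (cr x d')
  have e4 : ⟪cr x d', d⟫ = -⟪d', cr x d⟫ := by simp only [inn, cr0, cr1, cr2]; ring
  have e5 : ⟪cr x d', cr x d⟫ = ⟪x, x⟫ * ⟪d, d'⟫ - ⟪x, d⟫ * ⟪x, d'⟫ := by
    simp only [inn, cr0, cr1, cr2]; ring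
  rw [real_inner_comm x d', hxd', real_inner_comm d d'] at e1 e2
  rw [inner_one hd'] at e1
  rw [cr_left, e4, e5, inner_one hx, hxd] at e3
  have e6 : δ ^ 2 ≤ 2 - 2 * ⟪d, d'⟫ := by
    have := norm_sub_sq_real d d'
    rw [hd, hd'] at this
    nlinarith
  set c := ⟪d, d'⟫
  set s := ⟪d', cr x d⟫
  have e7 : δ / 2 ≤ s := by
    by_contra k
    push Not at k
    nlinarith
  have e8 : c ≤ 1 := by nlinarith
  have hP : 0 < ⟪z, d'⟫ := by nlinarith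
  have hQ : 0 < -⟪z, cr x d'⟫ := by nlinarith
  refine ⟨⟪z', cr x d'⟫ * ⟪z, d'⟫ + -⟪z, cr x d'⟫ * ⟪z', d'⟫, ⟪z', cr x d'⟫, -⟪z, cr x d'⟫,
    -(⟪z', cr x d'⟫ * ⟪z, x⟫ + -⟪z, cr x d'⟫ * ⟪z', x⟫), by nlinarith, c1', hQ, ?_⟩
  have k1 := expand_on hx hd' hxd' z
  have k2 := expand_on hx hd' hxd' z'
  generalize ⟪z', cr x d'⟫ = r1 at *
  generalize ⟪z, cr x d'⟫ = r2 at *
  generalize ⟪z', d'⟫ = r3 at *
  generalize ⟪z, d'⟫ = r4 at *
  generalize ⟪z', x⟫ = r5 at *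
  generalize ⟪z, x⟫ = r6 at *
  rw [k1, k2]
  module

lemma count {α β γ : Type} [Fintype γ] {x : E} (hx : ‖x‖ = 1) (T : Finset α) (S : Finset β)
    (Wt : α → Set E) (Ws : β → Set E) (d : α → E) (cls : α → γ) {M τ δ : ℝ}
    (hM : (Fintype.card γ : ℝ) ≤ M) (h0 : 0 < δ) (h1 : δ ≤ 1) (hτ : 512 * M * τ ≤ δ)
    (hd : ∀ p ∈ T, ‖d p‖ = 1 ∧ ⟪x, d p⟫ = 0 ∧ ∀ q ∈ S, d p ∉ Ws q)
    (hW : ∀ q ∈ S, ∀ z ∈ Ws q, ∀ z' ∈ Ws q, ∀ (w : E) (R A B C : ℝ), 0 < R → 0 < A → 0 < B →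
      R • w = A • z + B • z' + C • x → w ∈ Ws q)
    (hcov : ∀ᵐ z ∂μ, (∃ p ∈ T, z ∈ Wt p) ∨ ∃ q ∈ S, z ∈ Ws q)
    (hμ : ∀ p ∈ T, μ.real (Wt p) ≤ τ)
    (hsep : ∀ p ∈ T, ∀ p' ∈ T, p ≠ p' → cls p = cls p' → δ ≤ ‖d p - d p'‖) :
    (T.card : ℝ) ≤ 8 * M * S.card := by
  classical
  obtain ⟨e, he, hxe, -⟩ := exists_perp x x
  let κ : α → γ × Bool × Bool := fun p =>
    (cls p, decide (0 ≤ ⟪d p, e⟫), decide (0 ≤ ⟪d p, cr x e⟫))
  have key : ∀ p ∈ T, ∀ p' ∈ T, p ≠ p' → κ p = κ p' → ∀ z ∈ Bx x (d p) δ, ∀ z' ∈ Bx x (d p') δ,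
      ∃ p'' ∈ T, (z' ∈ Bx x (d p'') δ ∨ z ∈ Bx x (d p'') δ) ∧
      ∃ R A B C : ℝ, 0 < R ∧ 0 < A ∧ 0 < B ∧ R • d p'' = A • z + B • z' + C • x := by
    intro p hp p' hp' hne hκ z hz z' hz'
    obtain ⟨a1, a2, -⟩ := hd p hp
    obtain ⟨b1, b2, -⟩ := hd p' hp'
    simp only [κ, Prod.mk.injEq, decide_eq_decide] at hκ
    have hc : 0 ≤ ⟪d p, d p'⟫ := by
      rw [inner_on hx he hxe, real_inner_comm x (d p), a2, zero_mul, zero_add]
      refine add_nonneg ?_ ?_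
      · by_cases k : 0 ≤ ⟪d p, e⟫
        · exact mul_nonneg k (hκ.2.1.1 k)
        · exact mul_nonneg_of_nonpos_of_nonpos (not_le.1 k).le
            (not_le.1 fun k' => k (hκ.2.1.2 k')).le
      · by_cases k : 0 ≤ ⟪d p, cr x e⟫
        · exact mul_nonneg k (hκ.2.2.1 k)
        · exact mul_nonneg_of_nonpos_of_nonpos (not_le.1 k).le
            (not_le.1 fun k' => k (hκ.2.2.2 k')).le
    have hs := hsep p hp p' hp' hne hκ.1
    by_cases k : 0 ≤ ⟪d p', cr x (d p)⟫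
    · exact ⟨p', hp', Or.inl hz', between hx a1 a2 b1 b2 h0 hc k hs hz hz'⟩
    · have e4 : ⟪d p, cr x (d p')⟫ = -⟪d p', cr x (d p)⟫ := by
        simp only [inn, cr0, cr1, cr2]; ring
      obtain ⟨R, A, B, C, r1, r2, r3, r4⟩ := between hx b1 b2 a1 a2 h0 (by rwa [real_inner_comm])
        (by rw [e4]; linarith) (by rwa [norm_sub_rev]) hz' hz
      exact ⟨p, hp, Or.inr hz, R, B, A, C, r1, r3, r2, by rw [r4]; abel⟩
  have hτ0 : ∀ p ∈ T, 0 ≤ τ := fun p hp => measureReal_nonneg.trans (hμ p hp)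
  have cl : ∀ k : γ × Bool × Bool,
      ((T.filter fun p => κ p = k).card : ℝ) * δ ≤ S.card * δ + 64 * (T.card * τ) := by
    intro k
    set F := T.filter fun p => κ p = k with hF
    have hF1 : ∀ p ∈ F, p ∈ T ∧ κ p = k := fun p hp => Finset.mem_filter.1 hp
    rw [← Finset.card_filter_add_card_filter_not (s := F)
      (fun p => ∃ q ∈ S, (Bx x (d p) δ ∩ Ws q).Nonempty), Nat.cast_add, add_mul]
    refine add_le_add (mul_le_mul_of_nonneg_right ?_ h0.le) ?_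
    · norm_cast
      refine Finset.card_le_card_of_forall_subsingleton
        (fun p q => (Bx x (d p) δ ∩ Ws q).Nonempty) (fun p hp => (Finset.mem_filter.1 hp).2) ?_
      rintro q hq p ⟨hp, z, hz1, hz2⟩ p' ⟨hp', z', hz1', hz2'⟩
      by_contra hne
      have u1 := hF1 p (Finset.mem_filter.1 hp).1
      have u2 := hF1 p' (Finset.mem_filter.1 hp').1
      obtain ⟨p'', v1, -, R, A, B, C, r1, r2, r3, r4⟩ :=
        key p u1.1 p' u2.1 hne (u1.2.trans u2.2.symm) z hz1 z' hz1'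
      exact (hd p'' v1).2.2 q hq (hW q hq z hz2 z' hz2' _ R A B C r1 r2 r3 r4)
    · set U := F.filter fun p => ¬∃ q ∈ S, (Bx x (d p) δ ∩ Ws q).Nonempty with hU
      have hU1 : ∀ p ∈ U, p ∈ T ∧ κ p = k := fun p hp => hF1 p (Finset.mem_filter.1 hp).1
      have e1 : μ.real (⋃ p ∈ U, Bx x (d p) δ) = ∑ p ∈ U, μ.real (Bx x (d p) δ) := by
        refine measureReal_biUnion_finset ?_ fun p _ => meas_Bx _ _ _
        intro p hp p' hp' hne
        refine disjoint_left.2 fun z hz hz' => ?_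
        obtain ⟨p'', v1, v2, R, A, B, C, r1, r2, r3, r4⟩ :=
          key p (hU1 p hp).1 p' (hU1 p' hp').1 hne ((hU1 p hp).2.trans (hU1 p' hp').2.symm) z hz z hz'
        have v3 : 0 < ⟪z, cr x (d p'')⟫ := by rcases v2 with v | v <;> exact v.2.2.1
        have := congrArg (fun a => ⟪a, cr x (d p'')⟫) r4
        simp only [inner_add_left, inner_smul_left, conj_trivial, real_inner_comm (cr x (d p'')) x,
          real_inner_comm (cr x (d p'')) (d p''), cr_left, cr_right] at this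
        nlinarith
      rw [Finset.sum_congr rfl fun p hp => μ_Bx hx (hd p (hU1 p hp).1).1 (hd p (hU1 p hp).1).2.1 h0 h1,
        Finset.sum_const, nsmul_eq_mul] at e1
      have e2 : μ.real (⋃ p ∈ U, Bx x (d p) δ) ≤ μ.real (⋃ p ∈ T, Wt p) := by
        refine ENNReal.toReal_mono (measure_ne_top _ _) (measure_mono_ae ?_)
        filter_upwards [hcov] with z hz hz'
        obtain ⟨p, hp, hzp⟩ := mem_iUnion₂.1 hz'
        rcases hz with ⟨p', a, b⟩ | ⟨q, a, b⟩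
        · exact mem_iUnion₂.2 ⟨p', a, b⟩
        · exact absurd ⟨q, a, z, hzp, b⟩ (Finset.mem_filter.1 hp).2
      have e3 : μ.real (⋃ p ∈ T, Wt p) ≤ T.card * τ :=
        (measureReal_biUnion_finset_le _ _).trans
          ((Finset.sum_le_sum hμ).trans (by rw [Finset.sum_const, nsmul_eq_mul]))
      linarith
  have tot : (T.card : ℝ) = ∑ k : γ × Bool × Bool, ((T.filter fun p => κ p = k).card : ℝ) := by
    exact_mod_cast Finset.card_eq_sum_card_fiberwise (f := κ) (t := Finset.univ)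
      fun _ _ => Finset.mem_univ _
  have tot2 : (T.card : ℝ) * δ ≤ 4 * Fintype.card γ * (S.card * δ + 64 * (T.card * τ)) := by
    rw [tot, Finset.sum_mul, ← tot]
    refine (Finset.sum_le_sum fun k _ => cl k).trans (le_of_eq ?_)
    simp only [Finset.sum_const, Finset.card_univ, Fintype.card_prod, Fintype.card_bool,
      nsmul_eq_mul]
    push_cast; ring
  rcases T.eq_empty_or_nonempty with rfl | ⟨p, hp⟩
  · have : (0 : ℝ) ≤ M := (Nat.cast_nonneg _).trans hM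
    simp; positivity
  have t0 := hτ0 p hp
  have t1 : 4 * (Fintype.card γ : ℝ) * (S.card * δ + 64 * (T.card * τ)) ≤
      4 * M * (S.card * δ + 64 * (T.card * τ)) := by gcongr
  have t2 := mul_le_mul_of_nonneg_left hτ (Nat.cast_nonneg T.card : (0 : ℝ) ≤ _)
  refine le_of_mul_le_mul_right ?_ h0
  nlinarith

lemma sep_cones {U V : Set E} (hU : IsOpen U) (hV : IsOpen V) (cU : Convex ℝ U) (cV : Convex ℝ V)
    (nU : U.Nonempty) (nV : V.Nonempty) (sU : ∀ z ∈ U, ∀ t : ℝ, 0 < t → t • z ∈ U)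
    (sV : ∀ z ∈ V, ∀ t : ℝ, 0 < t → t • z ∈ V) (hd : Disjoint U V) :
    ∃ φ : E, ‖φ‖ = 1 ∧ (∀ a ∈ U, ⟪φ, a⟫ ≤ 0) ∧ ∀ b ∈ V, 0 ≤ ⟪φ, b⟫ := by
  obtain ⟨f, u, h1, h2⟩ := geometric_hahn_banach_open_open cU hU cV hV hd
  set ψ := (InnerProductSpace.toDual ℝ E).symm f with hψ
  have e : ∀ z, ⟪ψ, z⟫ = f z := fun z => InnerProductSpace.toDual_symm_apply
  have h0 : ψ ≠ 0 := fun k => by
    obtain ⟨a, ha⟩ := nU
    obtain ⟨b, hb⟩ := nV
    have := h1 a ha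
    have := h2 b hb
    rw [← e, k, inner_zero_left] at *
    linarith
  refine ⟨‖ψ‖⁻¹ • ψ, norm_smul_inv_norm h0, fun a ha => ?_, fun b hb => ?_⟩
  · rw [inner_smul_left, e]
    refine mul_nonpos_of_nonneg_of_nonpos (by simp) (not_lt.1 fun k => ?_)
    have := h1 _ (sU a ha ((|u| + 1) / f a) (by positivity))
    rw [map_smul, smul_eq_mul, div_mul_cancel₀ _ k.ne'] at this
    linarith [le_abs_self u]
  · rw [inner_smul_left, e]
    refine mul_nonneg (by simp) (not_lt.1 fun k => ?_)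
    have := h2 _ (sV b hb ((|u| + 1) / -f b) (div_pos (by positivity) (by linarith)))
    rw [map_smul, smul_eq_mul, div_neg, neg_mul, div_mul_cancel₀ _ k.ne] at this
    linarith [neg_abs_le u]

end Pool.Agent.Lib.MP_e5885b_co
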