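import Pool.Agent.Lib.MP_e5885b_co.Lev

set_option autoImplicit false
set_option linter.unusedSectionVars false

open Finset

namespace Pool.Agent.Lib.MP_e5885b_co.Lev

open Fold hiding Rd FF le_FF main fold fold'

theorem fold2 (K c : ℕ) : ∃ C t : ℕ, ∀ (S Λ ι : Type) [Fintype S] [DecidableEq S]
    (σ : Equiv.Perm S) (ℓ : S → Λ) (R : Rd σ ℓ ι) (L : S → ℕ), (∀ y, 0 < L y) →
    (∀ y, L (σ y) = L y) → (∀ r k, R.u r k → R.u r (k + L (R.w r k)) ∧ R.u r (k - L (R.w r k))) →
    (univ.image L).card ≤ c → (∀ m, (univ.filter fun y => L y ≤ m).card ≤ c * m) →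
    (∀ r, R.G 0 r → ∀ s, R.cnt r s (s + L (R.w r s) - 1) ≤ K) →
    ∃ F : Finset Λ, F.card ≤ C ∧ ∀ r, R.G t r → ∀ k, R.u r k → ℓ (R.w r k) ∈ F := by
  classical
  set G := fun r => FF K r (2 * c * (K + 1)) with hG
  refine ⟨4 * G^[c + 1] 0 * K + c * K, G^[c + 1] 0, fun S Λ ι _ _ σ ℓ R L h0 hL hp h1 h2 hK => ?_⟩
  have a5 : ∀ P t y, 0 < P → R.Cov (K + 1) P t y → L y ≤ K * P := by
    rintro P t' y P0 ⟨r, g, s, t, k, p, -, rfl, us, -, hd, hj⟩
    have e : L (R.w r k) = L (R.w r s) := by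
      obtain ⟨i, rfl⟩ : ∃ i : ℕ, k = s + i := ⟨(k - s).toNat, by omega⟩
      rw [Rd.w_add]
      exact congrFun (Function.iterate_invariant (funext hL) i) _
    have h1 := hK r (Rd.G_mono (Nat.zero_le _) g) s
    by_cases q : t ≤ s + L (R.w r s) - 1
    · have := Rd.cnt_mono (R := R) (r := r) (le_refl s) q
      omega
    · have h2 := (Rd.len (e := s + L (R.w r s) - 1) us (fun k a b => hd k a (by omega)) P0).trans
        (Nat.mul_le_mul_right _ h1)
      omega
  let Z : ℕ → Finset ℕ := fun m => (univ.image L).filter (· ≤ m)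
  have step : ∀ (P ρ : ℕ) (A : St σ ℓ), 0 < P → A.rk ≤ ρ → R.Abs A P ρ → ∃ P', 0 < P' ∧
      (P' = 1 ∨ (Z (K * P')).card < (Z (K * P)).card) ∧
      ∃ B : St σ ℓ, B.rk ≤ G ρ ∧ R.Abs B P' (G ρ) := by
    intro P ρ A P0 a1 a2
    set z := (Z (K * P)).sup id with hz
    have z1 : z ≤ K * P := Finset.sup_le fun x hx => (mem_filter.1 hx).2
    have z2 := Nat.div_add_mod (z - 1) (K + 1)
    have z3 : (z - 1) % (K + 1) < K + 1 := Nat.mod_lt _ K.succ_pos
    set m := (z - 1) / (K + 1) with hm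
    rw [add_mul] at z2
    have z4 : m ≤ P := by
      by_contra n
      have := Nat.mul_le_mul_left K (not_le.1 n).le
      omega
    obtain ⟨B, -, b⟩ := main R K ρ (2 * c * (K + 1)) A (univ.filter fun y => L y ≤ z) P (max 1 m)
      a1 a2 (by omega) (by omega) (card_image_le.trans ((h2 z).trans (by
        have := Nat.mul_le_mul_left K (le_max_right 1 m)
        have := Nat.mul_le_mul_left K (le_max_left 1 m)
        calc c * z ≤ c * (2 * (K * max 1 m + max 1 m)) := Nat.mul_le_mul_left _ (by omega)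
          _ = _ := by ring))) fun y hy => mem_filter.2 ⟨mem_univ _, le_sup (f := id)
        (mem_filter.2 ⟨mem_image_of_mem _ (mem_univ y), a5 _ _ _ P0 hy⟩)⟩
    refine ⟨max 1 m, by omega, ?_, B, b⟩
    by_cases q : m ≤ 1
    · exact Or.inl (max_eq_left q)
    · rw [max_eq_right (not_le.1 q).le]
      obtain ⟨x, hx, e⟩ := exists_mem_eq_sup (Z (K * P)) (by
        by_contra n
        rw [not_nonempty_iff_eq_empty] at n
        simp [hm, hz, n] at q) id
      refine Or.inr (card_lt_card ⟨fun a ha => mem_filter.2 ⟨(mem_filter.1 ha).1,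
        (mem_filter.1 ha).2.trans (Nat.mul_le_mul_left _ z4)⟩, fun k => ?_⟩)
      have := (mem_filter.1 (k hx)).2
      simp only [id] at e
      omega
  have inner : ∀ (t P ρ : ℕ) (A : St σ ℓ), 0 < P → A.rk ≤ ρ → R.Abs A P ρ →
      (Z (K * P)).card ≤ t → ∃ B : St σ ℓ, B.rk ≤ G^[t + 1] ρ ∧ R.Abs B 1 (G^[t + 1] ρ) := by
    intro t
    induction t with
    | zero =>
      intro P ρ A p a1 a2 a3
      obtain ⟨P', -, rfl | q, c⟩ := step P ρ A p a1 a2
      · exact c
      · omega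
    | succ t ih =>
      intro P ρ A p a1 a2 a3
      obtain ⟨P', q0, rfl | q, B, c2, c3⟩ := step P ρ A p a1 a2
      · have : G ρ ≤ G^[t + 1 + 1] ρ := by
          rw [Function.iterate_succ_apply]
          exact Function.id_le_iterate_of_id_le (f := G) (fun r => le_FF K r _) _ (G ρ)
        exact ⟨B, c2.trans (by exact_mod_cast this), Rd.abs_mono this c3⟩
      · rw [Function.iterate_succ_apply]
        exact ih P' _ B q0 c2 c3 (by omega)
  let e : S → ℕ := fun x => Fintype.equivFin S x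
  have he : ∀ {α : Type} (f : S → α), Ref e f := fun f x y h => by
    rw [(Fintype.equivFin S).injective (Fin.ext h)]
  obtain ⟨B, b2, b3⟩ := inner c (univ.sup L + 1) 0 ⟨e, e, he _, he _, he _⟩ (by omega)
    (by simp [St.rk]) (fun r _ k hk => by
      have := h0 (R.w r k)
      have : L (R.w r k) ≤ univ.sup L := le_sup (mem_univ _)
      exact ⟨fun f => absurd (hp r k hk).2 (f _ (by omega) (by omega)),
        fun f => absurd (hp r k hk).1 (f _ (by omega) (by omega))⟩)
    ((card_filter_le _ _).trans h1)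
  refine ⟨(B.Seg K ∪ univ.filter fun y => L y ≤ K).image ℓ, ?_,
    fun r g k hk => mem_image_of_mem _ ?_⟩
  · have h1 := (det (B.Seg K) B.e ℓ fun x _ y _ => B.h3 x y).trans (St.Seg_card b2 K)
    have h3 : (B.Z K).sup id ≤ K := Finset.sup_le fun x hx => by
      have := mem_range.1 (mem_filter.1 hx).1
      simp only [id]; omega
    rw [image_union]
    exact (card_union_le _ _).trans (add_le_add (h1.trans (Nat.mul_le_mul_left _ h3))
      (card_image_le.trans (h2 K)))
  · have : ∀ d j, j + d = K + 1 → R.Cov j 1 (G^[c + 1] 0) (R.w r k) →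
        R.w r k ∈ B.Seg K ∪ univ.filter fun y => L y ≤ K := by
      intro d
      induction d with
      | zero =>
        intro j hj h
        obtain rfl : j = K + 1 := hj
        exact mem_union_right _ (by simpa using a5 _ _ _ one_pos h)
      | succ d ih =>
        intro j hj h
        by_cases q : R.Cov (j + 1) 1 (G^[c + 1] 0) (R.w r k)
        · exact ih _ (by omega) q
        · exact mem_union_left _ (Rd.anchor b3 one_pos le_rfl h q (by omega))
    exact this K 1 (by omega) (Rd.cov_gap g one_pos hk hk (by omega) le_rfl le_rfl)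

theorem fold2' (K c : ℕ) : ∃ C t : ℕ, ∀ (S Λ I : Type) [Fintype S] [DecidableEq S]
    (σ : Equiv.Perm S) (ℓ : S → Λ) (U : I → S → Prop) (Rel : I → S → I → S → Prop)
    (G : ℕ → I → Prop), (∀ t i, G (t + 1) i → G t i ∧ ∀ y i' y', Rel i y i' y' → G t i') →
    ∀ R0 : Finset S, R0.card ≤ c → (∀ y, ∃ r ∈ R0, ∃ m : ℤ, (σ ^ m) r = y) →
    (∀ i, G 0 i → ∃ W : Finset S, W.card ≤ K ∧ ∀ y, U i y → y ∈ W) →
    (∀ i y, ¬U i y → ∃ i' y', Rel i y i' y') →
    (∀ i y i' y', Rel i y i' y' → (¬U i' y' ∧ ℓ y = ℓ y') ∧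
      (¬U i (σ y) → Rel i (σ y) i' (σ y')) ∧ (U i (σ y) → U i' (σ y') ∧ ℓ (σ y) ≠ ℓ (σ y')) ∧
      (U i (σ.symm y) → U i' (σ.symm y') ∧ ℓ (σ.symm y) ≠ ℓ (σ.symm y'))) →
    ∃ F : Finset Λ, F.card ≤ C ∧ ∀ i, G t i → ∀ y, U i y → ℓ y ∈ F := by
  classical
  obtain ⟨C, t, H⟩ := fold2 K c
  refine ⟨C, t, fun S Λ I _ _ σ ℓ U Rel G hG R0 h1 h2 h3 r1 r2 => ?_⟩
  have up : ∀ (k : ℤ) y, (σ ^ (k + 1)) y = σ ((σ ^ k) y) := fun k y => by
    rw [add_comm, zpow_add, zpow_one]; rfl
  have dn : ∀ (k : ℤ) y, (σ ^ (k - 1)) y = σ.symm ((σ ^ k) y) := fun k y => by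
    rw [Equiv.eq_symm_apply, ← up, sub_add_cancel]
  have ad : ∀ (a b : ℤ) y, (σ ^ (a + b)) y = (σ ^ a) ((σ ^ b) y) := fun a b y => by
    rw [zpow_add]; rfl
  have dv : ∀ (a : ℤ) (y : S), (σ ^ a) y = y ↔ (MulAction.period σ y : ℤ) ∣ a := fun a y =>
    MulAction.zpow_smul_eq_iff_period_dvd (g := σ) (a := y)
  have iv : ∀ (m : ℤ) (y : S), MulAction.period σ ((σ ^ m) y) = MulAction.period σ y := fun m y => by
    have : ∀ a : ℤ, (σ ^ a) ((σ ^ m) y) = (σ ^ m) y ↔ (σ ^ a) y = y := fun a => by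
      rw [← ad, add_comm, ad, (σ ^ m).injective.eq_iff]
    exact Nat.dvd_antisymm (Int.natCast_dvd_natCast.1 ((dv _ _).1 ((this _).2 ((dv _ _).2 dvd_rfl))))
      (Int.natCast_dvd_natCast.1 ((dv _ _).1 ((this _).1 ((dv _ _).2 dvd_rfl))))
  have ps : ∀ y : S, 0 < MulAction.period σ y := fun y =>
    MulAction.period_pos_of_orderOf_pos (orderOf_pos σ) y
  obtain ⟨F, f1, f2⟩ := H S Λ (I × S) σ ℓ
    { w := fun r k => (σ ^ k) r.2, u := fun r k => U r.1 ((σ ^ k) r.2), hw := fun r k => up k _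
      G := fun t r => G t r.1, mono := fun t r g => (hG t _ g).1
      run := fun r a b hab hf => by
        obtain ⟨i', y', h⟩ := r1 _ _ (hf a le_rfl hab)
        obtain ⟨y', rfl⟩ := (σ ^ a).surjective y'
        have key : ∀ k, a ≤ k → k < b → Rel r.1 ((σ ^ k) r.2) i' ((σ ^ k) y') := by
          intro k hk
          induction k, hk using Int.le_induction with
          | base => exact fun _ => h
          | succ k hk ih =>
            intro q
            rw [up, up]
            exact (r2 _ _ _ _ (ih (by omega))).2.1 (by rw [← up]; exact hf _ (by omega) q)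
        refine ⟨(i', y'), fun t g => (hG t _ g).2 _ _ _ h, fun k p q => (r2 _ _ _ _ (key k p q)).1,
          ?_, ?_⟩
        · simp only [dn]; exact (r2 _ _ _ _ h).2.2.2
        · obtain ⟨b, rfl⟩ : ∃ b', b = b' + 1 := ⟨b - 1, by omega⟩
          simp only [up]; exact (r2 _ _ _ _ (key b (by omega) (by omega))).2.2.1 }
    (MulAction.period σ) ps (fun y => by simpa using iv 1 y) (fun r k hk => by
      simp only at hk ⊢
      rw [add_comm, sub_eq_neg_add, ad, ad, (dv _ _).2 dvd_rfl, (dv _ _).2 (dvd_neg.2 dvd_rfl)]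
      exact ⟨hk, hk⟩)
    (le_trans (card_le_card (t := R0.image (MulAction.period σ)) fun a ha => by
      obtain ⟨y, -, rfl⟩ := mem_image.1 ha
      obtain ⟨r, p, m, rfl⟩ := h2 y
      exact mem_image.2 ⟨r, p, (iv m r).symm⟩) (card_image_le.trans h1))
    (fun m => le_trans (card_le_card (t := R0.biUnion fun r => (Ico (0 : ℤ) m).image
      fun i => (σ ^ i) r) fun y hy => by
        obtain ⟨r, p, a, rfl⟩ := h2 y
        have q := (mem_filter.1 hy).2
        rw [iv] at q
        have := ps r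
        refine mem_biUnion.2 ⟨r, p, mem_image.2 ⟨a % MulAction.period σ r, mem_Ico.2
          ⟨Int.emod_nonneg _ (by omega), (Int.emod_lt_of_pos _ (by omega)).trans_le (by omega)⟩,
          MulAction.zpow_mod_period_smul (g := σ) (a := r) a⟩⟩)
      ((card_biUnion_le_card_mul _ _ m fun r _ => card_image_le.trans (by simp)).trans
        (Nat.mul_le_mul_right _ h1)))
    fun r g s => by
      obtain ⟨W, w1, w2⟩ := h3 r.1 g
      refine le_trans (card_le_card_of_injOn (fun k => (σ ^ k) r.2) (fun k hk => ?_)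
        fun a ha b hb e => ?_) w1
      · exact w2 _ (mem_filter.1 hk).2
      · have p := mem_Icc.1 (mem_filter.1 ha).1
        have q := mem_Icc.1 (mem_filter.1 hb).1
        simp only [iv] at p q e
        have : (σ ^ (a - b)) r.2 = r.2 := (σ ^ b).injective (by rw [← ad, add_sub_cancel, e])
        have := Int.eq_zero_of_abs_lt_dvd ((dv _ _).1 this) (abs_lt.2 ⟨by omega, by omega⟩)
        omega
  exact ⟨F, f1, fun i g y h => by simpa using f2 (i, y) g 0 (by simpa using h)⟩

end Pool.Agent.Lib.MP_e5885b_co.Lev
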