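import Pool.Agent.Lib.MP_e5885b_co.Thin

set_option autoImplicit false
set_option linter.unusedSectionVars false

open Set
open scoped RealInnerProductSpace

namespace Pool.Agent.Lib.MP_e5885b_co

namespace Arr

variable {τ : Type} [Fintype τ] {C : Type} [Fintype C] (A : Arr C τ)

def res (p : C → Prop) : Arr {c // p c} τ :=
  { ℓ := fun c => A.ℓ c.1, hl := fun c => A.hl c.1, hne := fun c => A.hne c.1
    sgn := fun c c' => A.sgn c.1 c'.1
    dif := fun c c' h => A.dif c.1 c'.1 fun e => h (Subtype.ext e)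
    o := A.o, s := A.s, y := A.y, ho := fun c => A.ho c.1, os := A.os, oy := A.oy, sy := A.sy
    ss := A.ss, span := A.span, gen := fun c => A.gen c.1 }

def ConnP (p : C → Prop) (R : Finset C) : Prop :=
  ∀ ψ : C → ℚ, (∀ z, z ≠ 0 → (∀ d, ∃ c, p c ∧ A.At c z d) → ∀ c c', p c → p c' →
    z ∈ Kc (A.ℓ c) → z ∈ Kc (A.ℓ c') → ψ c = ψ c') → ∀ c, p c → ∃ r ∈ R, p r ∧ ψ c = ψ r

open Classical in
lemma euler_res (p : C → Prop) (R : Finset C) (h : A.ConnP p R) :
    (A.V.filter fun v => ∃ c, p c ∧ v ∈ Kc (A.ℓ c)).card +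
      (A.V.filter fun v => ∀ d, ∃ c, p c ∧ A.At c v d).card + 2 * (Finset.univ.filter p).card ≤
      ∑ c ∈ Finset.univ.filter p, (Vs (A.ℓ c)).card + 2 * R.card := by
  by_cases hp : ∃ c, p c
  swap
  · rw [Finset.filter_false_of_mem fun v _ ⟨c, a, _⟩ => hp ⟨c, a⟩,
      Finset.filter_false_of_mem fun v _ k => (k 0).elim fun c a => hp ⟨c, a.1⟩,
      Finset.filter_false_of_mem fun c _ k => hp ⟨c, k⟩]
    simp
  obtain ⟨c0, h0⟩ := hp
  have : Nonempty {c // p c} := ⟨⟨c0, h0⟩⟩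
  have he := (A.res p).euler (R := R.subtype p) fun ψ hψ c => by
    obtain ⟨r, r1, r2, r3⟩ := h (fun c => if k : p c then ψ ⟨c, k⟩ else 0) (fun z hz hT e e' a b x y => by
      simp only [dif_pos a, dif_pos b]
      exact hψ z hz (fun d => (hT d).elim fun c k => ⟨⟨c, k.1⟩, k.2⟩) ⟨e, a⟩ ⟨e', b⟩ x y) c.1 c.2
    simp only [dif_pos c.2, dif_pos r2] at r3
    exact ⟨⟨r, r2⟩, Finset.mem_subtype.2 r1, r3⟩
  have e1 : (A.V.filter fun v => ∃ c, p c ∧ v ∈ Kc (A.ℓ c)) ⊆ (A.res p).V := fun v hv => by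
    obtain ⟨a, c, b, k⟩ := Finset.mem_filter.1 hv
    exact (A.res p).memV (c := ⟨c, b⟩) (A.isV a k)
  have e2 : (A.V.filter fun v => ∀ d, ∃ c, p c ∧ A.At c v d) ⊆ (A.res p).VI := fun v hv => by
    obtain ⟨a, b⟩ := Finset.mem_filter.1 hv
    obtain ⟨c, k, q⟩ := b 0
    exact Finset.mem_filter.2 ⟨(A.res p).memV (c := ⟨c, k⟩) (A.isV a q.1),
      fun d => (b d).elim fun c k => ⟨⟨c, k.1⟩, k.2⟩⟩
  have e3 : Fintype.card {c // p c} = (Finset.univ.filter p).card := Fintype.card_subtype p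
  have e4 : ∑ c : {c // p c}, (Vs ((A.res p).ℓ c)).card =
      ∑ c ∈ Finset.univ.filter p, (Vs (A.ℓ c)).card :=
    (Finset.sum_subtype _ (by simp) fun c => (Vs (A.ℓ c)).card).symm
  have e5 : (R.subtype p).card ≤ R.card := by
    rw [Finset.card_subtype]; exact Finset.card_filter_le _ _
  have e6 := Finset.card_le_card e1
  have e7 := Finset.card_le_card e2
  omega

open Classical in
lemma count [Nonempty C] {P : Type} [Fintype P] (π : C → P) (R : P → Finset C)
    (h : ∀ k, A.ConnP (fun c => π c = k) (R k))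
    (hconv : ∀ v ∈ A.V, A.Tan v A.y → A.Tan v (-A.y) → ∀ d, A.Tan v d) (W : Finset E)
    (hW : ∀ w ∈ W, w ∈ A.V ∧
      3 ≤ (Finset.univ.filter fun k => ∃ c, π c = k ∧ w ∈ Kc (A.ℓ c)).card) :
    W.card ≤ 2 * ∑ k, (R k).card := by
  have h1 := Finset.sum_le_sum (s := Finset.univ) fun k _ => A.euler_res _ _ (h k)
  have h4 := Finset.sum_congr (rfl : (Finset.univ : Finset C) = _) fun c _ => A.cell_count c
  rw [Finset.sum_add_distrib, Finset.sum_add_distrib, A.dir_count A.gen, A.dir_count A.gen',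
    Finset.sum_const, Finset.card_univ, smul_eq_mul] at h4
  have fb : ∀ f : C → ℕ, ∑ k, ∑ c ∈ @Finset.filter _ (fun c => π c = k)
      (fun _ => propDecidable _) Finset.univ, f c = ∑ c, f c := fun f => by
    convert Finset.sum_fiberwise Finset.univ π f
  have fc := fb fun _ => 1
  simp only [← Finset.card_eq_sum_ones, Finset.card_univ] at fc
  rw [Finset.sum_add_distrib, Finset.sum_add_distrib, Finset.sum_add_distrib, ← Finset.mul_sum,
    ← Finset.mul_sum, fb, fc] at h1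
  have sw : ∀ (q : P → E → Prop) [∀ k v, Decidable (q k v)], ∑ k, (A.V.filter (q k)).card =
      ∑ v ∈ A.V, (Finset.univ.filter fun k => q k v).card := fun q _ => by
    simp only [Finset.card_filter]
    exact Finset.sum_comm
  rw [sw fun k v => ∃ c, π c = k ∧ v ∈ Kc (A.ℓ c), sw, ← Finset.sum_add_distrib] at h1
  have h2 : W.card = (A.V.filter fun v => v ∈ W).card := by
    congr 1; ext v
    simp only [Finset.mem_filter]
    exact ⟨fun k => ⟨(hW v k).1, k⟩, fun k => k.2⟩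
  have h3 : (A.V.filter fun v => A.Tan v A.y).card + (A.V.filter fun v => A.Tan v (-A.y)).card +
      (A.V.filter fun v => v ∈ W).card ≤ ∑ v ∈ A.V,
        ((Finset.univ.filter fun k => ∃ c, π c = k ∧ v ∈ Kc (A.ℓ c)).card +
        (Finset.univ.filter fun k => ∀ d, ∃ c, π c = k ∧ A.At c v d).card) := by
    rw [Finset.card_filter, Finset.card_filter, Finset.card_filter, ← Finset.sum_add_distrib,
      ← Finset.sum_add_distrib]
    refine Finset.sum_le_sum fun v hv => ?_
    by_cases k : v ∈ W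
    · have := (hW v k).2
      split_ifs <;> omega
    obtain ⟨c, -, hc⟩ := Finset.mem_biUnion.1 hv
    have m : π c ∈ Finset.univ.filter fun k => ∃ c, π c = k ∧ v ∈ Kc (A.ℓ c) :=
      Finset.mem_filter.2 ⟨Finset.mem_univ _, c, rfl, (mem_Vs.1 hc).2.1⟩
    have m1 := Finset.card_pos.2 ⟨_, m⟩
    rw [if_neg k]
    split_ifs with a b
    · by_contra q
      have m2 := Finset.card_le_one.1 (show (Finset.univ.filter fun k => ∃ c, π c = k ∧
        v ∈ Kc (A.ℓ c)).card ≤ 1 by omega)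
      have m3 : π c ∈ Finset.univ.filter fun k => ∀ d, ∃ c, π c = k ∧ A.At c v d :=
        Finset.mem_filter.2 ⟨Finset.mem_univ _, fun d => (hconv v hv a b d).elim fun e he =>
          ⟨e, m2 _ (Finset.mem_filter.2 ⟨Finset.mem_univ _, e, rfl, he.1⟩) _ m, he⟩⟩
      have := Finset.card_pos.2 ⟨_, m3⟩
      omega
    all_goals omega
  omega

end Arr

lemma delta (x : S) : ∃ f : Fin 4 → E, (∀ z : S, dist z x < 1 / 10 → (z : E) ∈ Ko f) ∧
    ∀ z : S, (z : E) ∈ Kc f → dist z x ≤ 2 / 5 := by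
  obtain ⟨e, e1, e2, -⟩ := exists_perp (x : E) x
  have x1 : ‖(x : E)‖ = 1 := norm_eq_of_mem_sphere x
  have n1 : ‖cr x e‖ = 1 := by rw [norm_cr x1 e2, e1]
  have hd : ∀ z : S, dist z x ^ 2 = 2 - 2 * ⟪(z : E), (x : E)⟫ := fun z => by
    rw [Subtype.dist_eq, dist_eq_norm, norm_sub_sq_real, x1, norm_eq_of_mem_sphere z]; ring
  refine ⟨![(1 / 4 : ℝ) • (x : E) + e, (1 / 4 : ℝ) • (x : E) - e, (1 / 4 : ℝ) • (x : E) + cr x e,
    (1 / 4 : ℝ) • (x : E) - cr x e], fun z hz t => ?_, fun z hz => ?_⟩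
  · have a : ∀ g : E, ‖g‖ = 1 → ⟪g, (x : E)⟫ = 0 → |⟪g, (z : E)⟫| ≤ 1 / 10 := fun g g1 g2 => by
      have := abs_real_inner_le_norm g ((z : E) - x)
      rw [inner_sub_right, g2, sub_zero, g1, one_mul, ← dist_eq_norm, ← Subtype.dist_eq] at this
      linarith
    have a1 := abs_le.1 (a e e1 (by rw [real_inner_comm, e2]))
    have a2 := abs_le.1 (a _ n1 (cr_left _ _))
    have a3 : 9 / 10 ≤ ⟪(x : E), (z : E)⟫ := by
      have := hd z
      rw [real_inner_comm] at this
      nlinarith [dist_nonneg (x := z) (y := x)]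
    fin_cases t <;> simp only [Fin.zero_eta, Fin.mk_one, Fin.reduceFinMk, Matrix.cons_val_zero,
      Matrix.cons_val_one, Matrix.cons_val, inner_add_left, inner_sub_left, inner_smul_left,
      conj_trivial] <;> linarith [a1.1, a1.2, a2.1, a2.2]
  · have k := inner_on x1 e1 e2 z z
    rw [inner_one (norm_eq_of_mem_sphere z)] at k
    have b0 := hz 0
    have b1 := hz 1
    have b2 := hz 2
    have b3 := hz 3
    simp only [Matrix.cons_val_zero, Matrix.cons_val_one, Matrix.cons_val, inner_add_right,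
      inner_sub_right, inner_smul_right, ← real_inner_comm _ (z : E)] at b0 b1 b2 b3
    have b4 : 92 / 100 ≤ ⟪(z : E), (x : E)⟫ := by
      by_contra q
      push Not at q
      nlinarith [mul_nonneg b0 b1, mul_nonneg b2 b3]
    have := hd z
    nlinarith [dist_nonneg (x := z) (y := x)]

theorem few_vertices (K : ℕ) : ∃ K' : ℕ, ∀ (N : ℕ) (T : Fin N → Set S), (⋃ i, T i) = univ →
    (∀ i, IsClosed (T i)) → (∀ i, Metric.diam (T i) < 1 / 100) →
    (Pairwise fun i j => Disjoint (interior (T i)) (interior (T j))) →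
    (∀ i, ∃ (n : ℕ) (u : Fin n → E), (∀ t, u t ≠ 0) ∧
      frontier (T i) ⊆ {x | ∃ t, ⟪u t, (x : E)⟫ = 0}) →
    (∀ i, T i ⊆ closure (interior (T i))) → (∀ i, IsPreconnected (interior (T i))) →
    (∀ j, {l | (T j ∩ T l).Nonempty}.ncard ≤ K) →
    ∀ j (W : Finset S), (∀ x ∈ W, x ∈ T j ∧ 3 ≤ {l | x ∈ T l}.ncard) → W.card ≤ K' := by
  classical
  refine ⟨2 * (K * K + K), fun N T hcov hcl hd hdis hfr hreg hcon hK j W hW => ?_⟩
  rcases W.eq_empty_or_nonempty with rfl | ⟨x0, hx0⟩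
  · simp
  have j0 := (hW x0 hx0).1
  obtain ⟨f, f1, f2⟩ := delta x0
  choose n u0 hu0 hf0 using hfr
  choose g g1 g2 g3 using fun w : S => exists_perp (w : E) w
  let u : (Σ i, Fin (n i)) ⊕ Fin 4 ⊕ W × Bool → E :=
    Sum.elim (fun p => u0 p.1 p.2) (Sum.elim f fun p => if p.2 then g p.1 else cr p.1.1 (g p.1))
  have gn : ∀ w : S, ‖cr w (g w)‖ = 1 := fun w => by
    rw [norm_cr (norm_eq_of_mem_sphere w) (g2 w), g1]
  have hu : ∀ t, u t ≠ 0 := by
    rintro (p | t | ⟨w, _ | _⟩)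
    · exact hu0 _ _
    · intro e
      have := f1 x0 (by simp) t
      rw [show f t = 0 from e] at this
      simp at this
    · exact norm_ne_zero_iff.1 (by rw [show u _ = cr w.1 (g w) from rfl, gn]; simp)
    · exact norm_ne_zero_iff.1 (by rw [show u _ = g w from rfl, g1]; simp)
  have hf : ∀ i, frontier (T i) ⊆ {x | ∃ t, ⟪u t, (x : E)⟫ = 0} := fun i x hx =>
    (hf0 i hx).elim fun t ht => ⟨Sum.inl ⟨i, t⟩, ht⟩
  let D : Set S := {z | (z : E) ∈ Kc f}
  have Dc : IsClosed D := isClosed_Kc.preimage continuous_subtype_val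
  have Di : {z : S | (z : E) ∈ Ko f} ⊆ interior D :=
    interior_maximal (fun z hz => Ko_sub hz) (isOpen_Ko.preimage continuous_subtype_val)
  have Df : frontier D ⊆ {x | ∃ t, ⟪u t, (x : E)⟫ = 0} := fun x hx => by
    by_contra k
    have m : x ∈ D := Dc.closure_subset hx.1
    exact hx.2 (Di fun t => (m t).lt_of_ne fun e => k ⟨Sum.inr (Sum.inl t), e.symm⟩)
  have Dd : Metric.diam D < 1 := (Metric.diam_le_of_forall_dist_le (C := 4 / 5) (by norm_num)
    fun a ha b hb => by linarith [dist_triangle_right a b x0, f2 a ha, f2 b hb]).trans_lt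
      (by norm_num)
  obtain ⟨A, hA⟩ := mk_arr hu Dc Dd (o := x0) (Ko_sub (f1 x0 (by simp)))
  have hA' : ∀ c, A.ℓ c = sg u c.1 := fun c => by rw [hA]
  have tan : ∀ z : S, (z : E) ∈ Ko f → ∀ d, ∃ c, A.At c z d := fun z hz d => by
    have : ContinuousAt (fun s : ℝ => (z : E) + s • d) 0 := by fun_prop
    obtain ⟨c, p⟩ := cel_tan hu Dc Df (v := z) (d := d) (nhdsWithin_le_nhds (this.eventually
      ((open_cone (W := interior D) isOpen_interior).mem_nhds
        ⟨by simpa using S_ne z, by simpa [nz_unit] using Di hz⟩)))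
    exact ⟨c, by simpa [Arr.At, hA] using p⟩
  have pt : ∀ c : Cel u D, ∃ x : S, (x : E) ∈ Ko (sg u c.1) := fun c =>
    c.2.1.elim fun w hw => ⟨nz w (Ko_ne hw), Ko_smul hw (by simpa using Ko_ne hw)⟩
  choose pt hpt using pt
  have tl : ∀ c : Cel u D, ∃ l, ∀ y : S, (y : E) ∈ Ko (sg u c.1) → y ∈ T l := fun c => by
    obtain ⟨l, hl⟩ := mem_iUnion.1 (hcov.symm ▸ mem_univ (pt c))
    obtain ⟨c', h'⟩ := cel_gen (hcl l) (hf l) hl fun t e => by
      have := hpt c t
      unfold sg at this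
      split_ifs at this <;> simp [e] at this
    have : c'.1 = c.1 := funext fun t => by
      have p := hpt c t
      have q := h' t
      simp only [sg] at p q
      cases e : c.1 t <;> cases e' : c'.1 t <;> simp [e, e'] at p q ⊢ <;> linarith
    exact ⟨l, this ▸ c'.2.2⟩
  choose tl htl using tl
  have clos : ∀ (c : Cel u D) (z : S), (z : E) ∈ Kc (A.ℓ c) → z ∈ closure (interior (T (tl c))) :=
    fun c z hz => cel_clos (P := T (tl c)) ⟨c.1, c.2.1, htl c⟩ (hA' c ▸ hz)
  have inT : ∀ (c : Cel u D) (z : S), (z : E) ∈ Kc (A.ℓ c) → z ∈ T (tl c) := fun c z hz =>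
    closure_minimal interior_subset (hcl _) (clos c z hz)
  have uniq : ∀ (c : Cel u D) (z : S) l, (z : E) ∈ Kc (A.ℓ c) → z ∈ interior (T l) → tl c = l :=
    fun c z l hz hl => by
      by_contra k
      obtain ⟨y, a, b⟩ := mem_closure_iff.1 (clos c z hz) _ isOpen_interior hl
      exact disjoint_left.1 (hdis k) b a
  have ptK : ∀ c, (pt c : E) ∈ Kc (A.ℓ c) := fun c => hA' c ▸ Ko_sub (hpt c)
  have ptI : ∀ c, pt c ∈ interior (T (tl c)) := fun c => by
    have := cel_int (P := T (tl c)) ⟨c.1, c.2.1, htl c⟩ (S_ne _) (hpt c)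
    rwa [nz_unit] at this
  have sf : ∀ (c : Cel u D) t, A.ℓ c (Sum.inr (Sum.inl t)) = f t := fun c t => by
    have p := hpt c (Sum.inr (Sum.inl t))
    have q := c.2.2 _ (hpt c) t
    rw [hA']
    unfold sg at p ⊢
    split_ifs at p ⊢
    · rfl
    · rw [inner_neg_left, show u (Sum.inr (Sum.inl t)) = f t from rfl] at p
      linarith
  have ex : ∀ l, (∀ z ∈ T l, (z : E) ∈ Ko f) → ∀ w ∈ T l, ∃ c, tl c = l ∧ (w : E) ∈ Kc (A.ℓ c) :=
    fun l hl w hw => by
      obtain ⟨c, hc⟩ := mem_iUnion.1 (closure_minimal (t := ⋃ c : {c // tl c = l},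
        {z : S | (z : E) ∈ Kc (A.ℓ c.1)}) (fun z hz => by
          obtain ⟨c, hc⟩ := tan z (hl z (interior_subset hz)) 0
          exact mem_iUnion.2 ⟨⟨c, uniq c z l hc.1 hz⟩, hc.1⟩)
        (isClosed_iUnion_of_finite fun c => isClosed_Kc.preimage continuous_subtype_val) (hreg l hw))
      exact ⟨c.1, c.2, hc⟩
  let Nb : Fin N → Finset (Fin N) := fun l => Finset.univ.filter fun l' => (T l ∩ T l').Nonempty
  have Nc : ∀ l, (Nb l).card ≤ K := fun l => by
    have := hK l
    rwa [← Set.ncard_coe_finset, Finset.coe_filter_univ]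
  have mN : ∀ l l', l' ∈ Nb l ↔ (T l ∩ T l').Nonempty := fun l l' => by simp [Nb]
  have dd : ∀ l, ∀ a ∈ T l, ∀ b ∈ T l, dist a b < 1 / 100 := fun l a ha b hb =>
    (Metric.dist_le_diam_of_mem Metric.isBounded_of_compactSpace ha hb).trans_lt (hd l)
  have near : ∀ l ∈ Nb j, ∀ l' ∈ Nb l, ∀ z ∈ T l', (z : E) ∈ Ko f := fun l hl l' hl' z hz => by
    obtain ⟨a, a1, a2⟩ := (mN _ _).1 hl
    obtain ⟨b, b1, b2⟩ := (mN _ _).1 hl'
    exact f1 z (by
      linarith [dist_triangle4 z b a x0, dd _ z hz b b2, dd _ b b1 a a2, dd _ a a1 x0 j0])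
  have self : ∀ l ∈ Nb j, l ∈ Nb l := fun l hl =>
    ((mN _ _).1 hl).elim fun a ha => (mN _ _).2 ⟨a, ha.2, ha.2⟩
  have jj : j ∈ Nb j := (mN _ _).2 ⟨x0, j0, j0⟩
  obtain ⟨c0, t0, k0⟩ := ex j (near j jj j jj) x0 j0
  have : Nonempty (Cel u D) := ⟨c0⟩
  have hr : ∀ l, ∃ r, (∃ c, tl c = l) → tl r = l := fun l => by
    by_cases k : ∃ c, tl c = l
    · exact k.imp fun c hc _ => hc
    · exact ⟨c0, fun q => absurd q k⟩
  choose r hr using hr
  let π : Cel u D → Option (Fin N) := fun c => if tl c ∈ Nb j then some (tl c) else none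
  have πe : ∀ c c', tl c = tl c' → π c = π c' := fun c c' e => by simp only [π, e]
  have tile : ∀ (c : Cel u D) (ψ : Cel u D → ℚ), (∀ z ∈ T (tl c), (z : E) ∈ Ko f) →
      (∀ z, z ≠ 0 → (∀ d, ∃ e, π e = π c ∧ A.At e z d) → ∀ e e', π e = π c → π e' = π c →
        z ∈ Kc (A.ℓ e) → z ∈ Kc (A.ℓ e') → ψ e = ψ e') →
      π (r (tl c)) = π c ∧ ψ c = ψ (r (tl c)) := fun c ψ hl hψ => by
    have q := hr (tl c) ⟨c, rfl⟩
    refine ⟨πe _ _ q, cover (hcon (tl c)) (fun e => {z : S | (z : E) ∈ Kc (A.ℓ e)})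
      (fun e => isClosed_Kc.preimage continuous_subtype_val)
      (fun z hz => (tan z (hl z (interior_subset hz)) 0).imp fun e he => he.1) ψ
      (fun z hz e e' a b => hψ z (S_ne z) (fun d => (tan z (hl z (interior_subset hz)) d).imp
        fun e he => ⟨πe _ _ (uniq e z _ he.1 hz), he⟩) e e' (πe _ _ (uniq e z _ a hz))
        (πe _ _ (uniq e' z _ b hz)) a b) (ptI c) (by simpa only [q] using ptI (r (tl c))) (ptK c)
      (ptK _)⟩
  let R : Option (Fin N) → Finset (Cel u D) := fun k =>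
    k.elim (((Nb j).biUnion Nb).image r) fun l => if l ∈ Nb j then {r l} else ∅
  have key := A.count π R ?_ ?_ (W.image Subtype.val) ?_
  · rw [Finset.card_image_of_injective _ Subtype.val_injective, Fintype.sum_option] at key
    have a : (R none).card ≤ K * K := Finset.card_image_le.trans (Finset.card_biUnion_le.trans
      ((Finset.sum_le_card_nsmul _ _ K fun l _ => Nc l).trans (Nat.mul_le_mul_right _ (Nc j))))
    have b : ∑ l, (R (some l)).card ≤ K := by
      refine le_trans (le_of_eq ?_) (Nc j)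
      simp [R, apply_ite Finset.card]
    omega
  · rintro (_ | l) ψ hψ c hc
    · let φ : Cel u D → ℚ := fun e =>
        if π e = none ∧ ¬∃ r ∈ R none, π r = none ∧ ψ e = ψ r then 1 else 0
      have one : ∀ z : S, (z : E) ∈ Ko f → ∀ e e', (z : E) ∈ Kc (A.ℓ e) → (z : E) ∈ Kc (A.ℓ e') →
          (π e = none ∧ ¬∃ r ∈ R none, π r = none ∧ ψ e = ψ r) →
          π e' = none ∧ ¬∃ r ∈ R none, π r = none ∧ ψ e' = ψ r := fun z hz e e' a b ⟨p, q⟩ => by
        have far : ∀ e'', (z : E) ∈ Kc (A.ℓ e'') → π e'' = none := fun e'' k => by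
          refine if_neg fun m => q ?_
          have m2 := (mN _ _).2 ⟨z, inT _ _ k, inT _ _ a⟩
          have := tile e ψ (near _ m _ m2) (by rw [p]; exact hψ)
          exact ⟨_, Finset.mem_image_of_mem _ (Finset.mem_biUnion.2 ⟨_, m, m2⟩), this.1.trans p,
            this.2⟩
        refine ⟨far _ b, ?_⟩
        rwa [← hψ z (S_ne z) (fun d => (tan z hz d).imp fun e he => ⟨far _ he.1, he⟩) e e' p
          (far _ b) a b]
      have := cover (precon f) (fun e => {z : S | (z : E) ∈ Kc (A.ℓ e)})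
        (fun e => isClosed_Kc.preimage continuous_subtype_val)
        (fun z hz => (tan z hz 0).imp fun e he => he.1) φ
        (fun z hz e e' a b => if_congr ⟨one z hz e e' a b, one z hz e' e b a⟩ rfl rfl)
        (x := pt c) (fun t => by rw [← sf c t, hA']; exact hpt c _) (f1 x0 (by simp)) (ptK c) k0
      by_contra k
      simp only [φ] at this
      rw [if_pos ⟨hc, k⟩, if_neg fun q => by simp [π, t0, jj] at q] at this
      exact one_ne_zero this
    · have m : tl c ∈ Nb j ∧ tl c = l := by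
        simp only [π] at hc
        split_ifs at hc with m
        exact ⟨m, Option.some.inj hc⟩
      have := tile c ψ (near _ m.1 _ (self _ m.1)) (by rw [show π c = some l from hc]; exact hψ)
      refine ⟨r (tl c), ?_, this.1.trans hc, this.2⟩
      simp [R, ← m.2, m.1]
  · rintro v hv ⟨c, a⟩ ⟨c', b⟩
    refine tan ⟨v, by simpa using (A.isV hv a.1).1⟩ fun t => ?_
    have p := a.1 (Sum.inr (Sum.inl t))
    rw [sf] at p
    refine p.lt_of_ne fun e => A.gen c (Sum.inr (Sum.inl t)) ?_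
    have q := a.2 (Sum.inr (Sum.inl t)) (by rw [sf]; exact e.symm)
    have q' := b.2 (Sum.inr (Sum.inl t)) (by rw [sf]; exact e.symm)
    rw [sf] at q q' ⊢
    rw [inner_neg_right] at q'
    linarith
  · intro v hv
    obtain ⟨w, hw, rfl⟩ := Finset.mem_image.1 hv
    obtain ⟨w1, w2⟩ := hW w hw
    constructor
    · obtain ⟨c, -, hc⟩ := ex j (near j jj j jj) w w1
      have a1 := g2 w
      have a2 := cr_left w (g w)
      have a3 := cr_right w (g w)
      rw [real_inner_comm] at a1 a3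
      refine A.memV (c := c) ⟨norm_eq_of_mem_sphere w, hc, Sum.inr (Sum.inr (⟨w, hw⟩, true)),
        Sum.inr (Sum.inr (⟨w, hw⟩, false)), ?_, ?_, ?_⟩ <;> rw [hA'] <;> unfold sg <;>
        split_ifs <;> simp [u, a1, a2, a3, g1, gn]
    · refine w2.trans ?_
      rw [← Set.ncard_coe_finset]
      refine Set.ncard_le_ncard_of_injOn some (fun l hl => ?_) (fun _ _ _ _ e => Option.some.inj e)
      have m := (mN _ _).2 ⟨w, w1, hl⟩
      obtain ⟨c, a, b⟩ := ex l (near _ m _ (self _ m)) w hl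
      simp only [Finset.coe_filter_univ, mem_ofPred_eq]
      exact ⟨c, by simp [π, a, m], b⟩

end Pool.Agent.Lib.MP_e5885b_co
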