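import Pool.Agent.Lib.MP_e5885b_co.Match
import Pool.Agent.Lib.MP_e5885b_co.LocE

set_option autoImplicit false
set_option linter.unusedSectionVars false

open MeasureTheory Set Filter Topology
open scoped RealInnerProductSpace

namespace Pool.Agent.Lib.MP_e5885b_co

theorem deg_core (M K : ℕ) : ∃ D : ℕ, ∀ (I C τ : Type) [Fintype I] [Fintype C] [Nonempty C]
    [Fintype τ] (T : Til I C τ 1) (A : Arr C τ), A.ℓ = T.ℓ → ∀ F : Finset ℝ, F.card ≤ M →
    (∀ (x : S) (s : Finset I), (∀ i ∈ s, T.th (T.g i x) ≠ 0) → s.card ≤ 2 ∨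
      s.card ≤ K ∧ ∀ i ∈ s, T.th (T.g i x) = 1 / 2 ∨ T.th (T.g i x) ∈ F) → Fintype.card I ≤ D := by
  classical
  obtain ⟨D, D0, H⟩ := Fold.rat (M + M + 2) (K + 2)
  refine ⟨4 * D, fun I C τ _ _ _ _ T A hA F hF h => ?_⟩
  set G : Finset ℝ := F ∪ F.image (1 - ·) ∪ {1 / 2, 1} with hG
  obtain ⟨y, hy⟩ := H G ((Finset.card_union_le _ _).trans (add_le_add ((Finset.card_union_le _ _).trans
    (add_le_add hF (Finset.card_image_le.trans hF))) Finset.card_le_two))
  have sy : ∀ a b : ℝ, a + b = 1 → b ≠ 0 → a ∈ G → b ∈ G := fun a b e b0 k => by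
    simp only [hG, Finset.mem_union, Finset.mem_image, Finset.mem_insert, Finset.mem_singleton] at k ⊢
    rcases k with (k | ⟨c, k, q⟩) | k | k
    · exact Or.inl (Or.inr ⟨a, k, by linarith⟩)
    · exact Or.inl (Or.inl (by rwa [show b = c by linarith]))
    · exact Or.inr (Or.inl (by linarith))
    · exact absurd (by linarith) b0
  let ψ : ℝ → ℤ := fun s => if s = 0 then 0 else if s ∈ G then 2 * y s else D
  let δ : E → ℝ := fun w => 2 * D * T.th w - ψ (T.th w)
  have d1 : ∀ x : E, ‖x‖ = 1 → ∑ i, δ (T.g i x) = 0 := fun x hx => by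
    set s := Finset.univ.filter fun i => T.th (T.g i x) ≠ 0 with hs
    have s0 : ∀ i ∈ s, T.th (T.g i x) ≠ 0 := fun i hi => (Finset.mem_filter.1 hi).2
    have s1 : ∑ i ∈ s, T.th (T.g i x) = 1 := by rw [Finset.sum_filter_ne_zero, T.loc3]
    have s2 : s.card ≤ K + 2 → (∀ i ∈ s, T.th (T.g i x) ∈ G) → ∑ i ∈ s, ψ (T.th (T.g i x)) = 2 * D :=
      fun a b => by
        rw [← hy I s _ a b s1, Finset.mul_sum]
        exact Finset.sum_congr rfl fun i hi => by simp only [ψ, if_neg (s0 i hi), if_pos (b i hi)]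
    have s3 : ∑ i ∈ s, ψ (T.th (T.g i x)) = 2 * D := by
      rcases h ⟨x, by simpa using hx⟩ s s0 with k | ⟨k, q⟩
      · obtain k | k | k : s.card = 0 ∨ s.card = 1 ∨ s.card = 2 := by omega
        · simp [Finset.card_eq_zero.1 k] at s1
        · refine s2 (by omega) fun i hi => ?_
          obtain ⟨a, e⟩ := Finset.card_eq_one.1 k
          rw [e] at s1 hi
          rw [Finset.mem_singleton.1 hi, show T.th (T.g a x) = 1 by simpa using s1]
          simp [hG]
        · obtain ⟨a, b, n, e⟩ := Finset.card_eq_two.1 k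
          have a0 := s0 a (by simp [e])
          have b0 := s0 b (by simp [e])
          have s4 := s1
          rw [e, Finset.sum_pair n] at s4
          by_cases c : T.th (T.g a x) ∈ G
          · refine s2 (by omega) fun i hi => ?_
            rw [e, Finset.mem_insert, Finset.mem_singleton] at hi
            rcases hi with rfl | rfl
            exacts [c, sy _ _ s4 b0 c]
          · have c' : T.th (T.g b x) ∉ G := fun q => c (sy _ _ (by linarith) a0 q)
            rw [e, Finset.sum_pair n]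
            simp only [ψ, if_neg a0, if_neg b0, if_neg c, if_neg c']
            ring
      · refine s2 (by omega) fun i hi => ?_
        rcases q i hi with e | e
        · rw [e]; simp [hG]
        · simp [hG, e]
    have s5 : ∑ i ∈ s, ψ (T.th (T.g i x)) = ∑ i, ψ (T.th (T.g i x)) :=
      Finset.sum_subset (Finset.subset_univ _) fun i _ hi => by
        have : T.th (T.g i x) = 0 := by simpa [hs] using hi
        simp [ψ, this]
    simp only [δ]
    rw [Finset.sum_sub_distrib, ← Finset.mul_sum, T.loc3, ← Int.cast_sum, ← s5, s3]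
    simp
  obtain ⟨i0, -⟩ := T.hcov 0
  have d2 : ∀ w : E, ‖w‖ = 1 → w ∉ A.V → δ w = 0 := fun w hw k => by
    obtain ⟨n, e⟩ := T.th_half hw fun c hc => k (A.memV (c := c) (hA ▸ hc))
    have h1 := Finset.single_le_sum (f := fun j => T.th (T.g j ((T.g i0).symm w)))
      (fun j _ => T.th_nonneg _) (Finset.mem_univ i0)
    simp only [LinearIsometryEquiv.apply_symm_apply, T.loc3, e] at h1
    have e5 : n ≤ 2 := by
      have : (n : ℝ) ≤ 2 := by linarith
      exact_mod_cast this
    have y1 := hy Unit Finset.univ (fun _ => 1) (by simp) (by simp [hG]) (by simp)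
    have y2 := hy Bool Finset.univ (fun _ => 1 / 2) (by simp) (by simp [hG]) (by simp)
    simp only [δ, e, ψ]
    interval_cases n
    · simp
    · have : (2 * y (1 / 2) : ℤ) = D := by simpa using y2
      simp only [Nat.cast_one]
      rw [if_neg (by norm_num), if_pos (by simp [hG]), this]
      push_cast; ring
    · have : y 1 = D := by simpa using y1
      simp [hG, this]
  have n1 : ∀ v ∈ A.V, ‖v‖ = 1 := fun v hv => by
    obtain ⟨c, -, hc⟩ := Finset.mem_biUnion.1 hv
    exact (mem_Vs.1 hc).1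
  set X := Finset.univ.biUnion fun i => A.V.image (T.g i).symm with hX
  have n2 : ∀ x ∈ X, ‖x‖ = 1 := fun x hx => by
    obtain ⟨i, -, hi⟩ := Finset.mem_biUnion.1 hx
    obtain ⟨v, hv, rfl⟩ := Finset.mem_image.1 hi
    rw [LinearIsometryEquiv.norm_map, n1 v hv]
  have d3 : ∀ i, ∑ x ∈ X, δ (T.g i x) = ∑ v ∈ A.V, δ v := fun i => by
    rw [← Finset.sum_subset (s₁ := A.V.image (T.g i).symm)
      (Finset.subset_biUnion_of_mem (fun i => A.V.image (T.g i).symm) (Finset.mem_univ i))
      fun x hx k => d2 _ (by rw [LinearIsometryEquiv.norm_map, n2 x hx]) fun q =>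
        k (Finset.mem_image.2 ⟨_, q, by simp⟩), Finset.sum_image (T.g i).symm.injective.injOn]
    simp
  have d4 := Finset.sum_eq_zero fun x hx => d1 x (n2 x hx)
  have N0 : (0 : ℝ) < Fintype.card I := by exact_mod_cast T.N_pos
  rw [Finset.sum_comm, Finset.sum_congr rfl fun i _ => d3 i, Finset.sum_const, nsmul_eq_mul,
    Finset.card_univ, mul_eq_zero, or_iff_right N0.ne'] at d4
  have s1 := T.sum_a (by norm_num)
  have s2 : ∑ j, T.a j = ∑ v ∈ A.V, T.th v := by
    rw [Fintype.sum_sigma]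
    simp only [Til.th, Til.a, Finset.sum_filter]
    rw [Finset.sum_comm]
    refine Finset.sum_congr rfl fun c _ => ?_
    rw [Finset.sum_coe_sort (Vs (T.ℓ c)) fun v => μ.real (Tc (T.ℓ c) v) / v0, ← Finset.sum_filter]
    refine Finset.sum_congr ?_ fun _ _ => rfl
    ext v
    rw [Finset.mem_filter, mem_Vs, ← hA]
    exact ⟨fun q => ⟨A.memV q, q.2.1⟩, fun q => A.isV q.1 q.2⟩
  simp only [δ] at d4
  rw [Finset.sum_sub_distrib, ← Finset.mul_sum, ← s2, s1, ← Int.cast_sum] at d4
  have e : ((∑ v ∈ A.V, ψ (T.th v) - D * Fintype.card T.J + 2 * D * Fintype.card C) *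
      Fintype.card I : ℤ) = (4 * D : ℕ) := by
    have : (2 : ℝ) / Fintype.card I * Fintype.card I = 2 := by field_simp
    apply Int.cast_injective (α := ℝ)
    push_cast at d4 ⊢
    linear_combination -(Fintype.card I : ℝ) * d4 + 2 * D * this
  exact Nat.le_of_dvd (by omega) (Int.natCast_dvd_natCast.1 ⟨_, by rw [← e, mul_comm]⟩)

section

variable {τ I : Type} [Fintype τ] [Nonempty τ] [Fintype I] {u : τ → E} {P : Set S}

lemma th_edge (hu : ∀ t, u t ≠ 0) (hc : IsClosed P) (hf : frontier P ⊆ {x | ∃ t, ⟪u t, (x : E)⟫ = 0})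
    (hr : P ⊆ closure (interior P)) (T : Til I (Cel u P) τ 1) (hT : T.ℓ = fun c => sg u c.1) {x : S}
    (hx : x ∈ frontier P) {f : E} (f0 : f ≠ 0) (fx : ⟪f, (x : E)⟫ = 0)
    (ev : ∀ᶠ z in 𝓝 (x : E), ∀ h : z ≠ 0, nz z h ∈ frontier P → ⟪f, z⟫ = 0) : T.th x = 1 / 2 := by
  classical
  obtain ⟨r, r0, hb⟩ := Metric.eventually_nhds_iff_ball.1 (ev.and (eventually_ne_nhds (S_ne x)))
  set Oi := {z : E | ∃ h : z ≠ 0, nz z h ∈ interior P} with hi
  set Oo := {z : E | ∃ h : z ≠ 0, nz z h ∈ Pᶜ} with ho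
  have oi : IsOpen Oi := open_cone isOpen_interior
  have oo : IsOpen Oo := open_cone hc.isOpen_compl
  have dj : Disjoint Oi Oo := disjoint_left.2 fun z ⟨_, a⟩ ⟨_, b⟩ => b (interior_subset a)
  let B : E → Set E := fun g => Metric.ball (x : E) r ∩ {z | 0 < ⟪g, z⟫}
  have side : ∀ g, g = f ∨ g = -f → B g ⊆ Oi ∨ B g ⊆ Oo := fun g hg => by
    refine ((convex_ball _ _).inter (convex_halfSpace_gt (innerSL ℝ g).toLinearMap.isLinear
      0)).isPreconnected.subset_or_subset oi oo dj fun z ⟨a, b⟩ => ?_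
    obtain ⟨p, q⟩ := hb z a
    by_cases e : nz z q ∈ P
    · refine Or.inl ⟨q, by_contra fun k => ?_⟩
      have := p q ⟨subset_closure e, k⟩
      rcases hg with rfl | rfl <;> simp [this] at b
    · exact Or.inr ⟨q, e⟩
  have both : ∀ O O' : Set E, IsOpen O → Disjoint O O' → B f ⊆ O' → B (-f) ⊆ O' →
      ∀ z ∈ Metric.ball (x : E) r, z ∉ O := fun O O' a b c d z p q => by
    obtain ⟨w, ⟨w1, w2⟩, w3⟩ := (Measure.dense_of_ae (ae_generic (fun _ : Unit => f)
      fun _ => f0)).inter_open_nonempty _ (Metric.isOpen_ball.inter a) ⟨z, p, q⟩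
    rcases (w3 ()).lt_or_gt with e | e
    · exact disjoint_left.1 b w2 (d ⟨w1, by simpa using e⟩)
    · exact disjoint_left.1 b w2 (c ⟨w1, e⟩)
  have ob : IsOpen {y : S | (y : E) ∈ Metric.ball (x : E) r} :=
    Metric.isOpen_ball.preimage continuous_subtype_val
  have main : ∀ g, g ≠ 0 → ⟪g, (x : E)⟫ = 0 → B g ⊆ Oi → B (-g) ⊆ Oo → T.th x = 1 / 2 := by
    intro g g0 gx a b
    have st : ∀ g d : E, ⟪g, (x : E)⟫ = 0 → 0 < ⟪g, d⟫ →
        ∀ᶠ s in 𝓝[>] (0 : ℝ), (x : E) + s • d ∈ B g := fun g d p q => by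
      have : ContinuousAt (fun s : ℝ => (x : E) + s • d) 0 := by fun_prop
      filter_upwards [nhdsWithin_le_nhds (this.eventually ((Metric.isOpen_ball (x := (x : E))
        (ε := r)).mem_nhds (by simpa using r0))), self_mem_nhdsWithin] with s s1 s2
      exact ⟨s1, by simpa [inner_add_right, inner_smul_right, p] using mul_pos s2 q⟩
    have h1 := T.th_tri (v := x) (U := {z | 0 < ⟪g, z⟫}) fun d hd => by
      rw [hT]; exact cel_tan hu hc hf ((st g d gx hd).mono fun s hs => a hs)
    obtain ⟨i, -⟩ := T.hcov 0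
    set s := Finset.univ.filter fun c => (x : E) ∈ Kc (T.ℓ c) with hs
    have h2 : T.th x * v0 = μ.real (⋃ c ∈ s, To (T.ℓ c) x) := by
      rw [Til.th, ← Finset.sum_div, div_mul_cancel₀ _ v0_pos.ne', measureReal_biUnion_finset
        (fun c hc c' hc' n => disjoint_left.2 fun z p q => n ?_) fun c _ => (isOpen_To _).measurableSet]
      · exact Finset.sum_congr rfl fun c _ => (measureReal_congr (Tc_ae (T.hl c) _)).symm
      · exact (T.loc_dis (x := (T.g i).symm x) (z := (T.g i).symm z) (i := i) (i' := i)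
          (by simpa [hs] using hc) (by simpa [hs] using hc') (by simpa using p) (by simpa using q)).2
    have h3 : Disjoint (⋃ c ∈ s, To (T.ℓ c) x) {z | 0 < ⟪-g, z⟫} := disjoint_left.2 fun d p q => by
      obtain ⟨c, c1, c2⟩ := mem_iUnion₂.1 p
      obtain ⟨t, t1, t2⟩ := ((step_Ko (Finset.mem_filter.1 c1).2 c2).and
        (st (-g) d (by simpa using gx) q)).exists
      rw [hT] at t1
      exact disjoint_left.1 dj ⟨_, cel_int c (Ko_ne t1) t1⟩ (b t2)
    have h4 := measureReal_union (μ := μ) h3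
      (isOpen_lt (g := fun z : E => ⟪-g, z⟫) continuous_const (by fun_prop)).measurableSet
      (measure_ne_top _ _) (measure_ne_top _ _)
    have h5 : μ.real (_ ∪ _) ≤ v0 := measureReal_mono
      (subset_univ ((⋃ c ∈ s, To (T.ℓ c) x) ∪ {z | 0 < ⟪-g, z⟫}))
    rw [μ_half g0] at h1
    rw [h4, μ_half (neg_ne_zero.2 g0), ← h2] at h5
    exact mul_right_cancel₀ v0_pos.ne' (by linarith)
  rcases side f (Or.inl rfl) with a | a <;> rcases side (-f) (Or.inr rfl) with b | b
  · refine absurd (interior_maximal (fun y hy => by_contra fun k => ?_) ob (by simpa using r0)) hx.2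
    exact both _ _ oo dj.symm a b y hy ⟨S_ne y, by rwa [nz_unit]⟩
  · exact main f f0 fx a b
  · exact main (-f) (neg_ne_zero.2 f0) (by simpa using fx) b (by rwa [neg_neg])
  · obtain ⟨y, p, q⟩ := mem_closure_iff.1 (hr (hc.frontier_subset hx)) _ ob (by simpa using r0)
    exact absurd ⟨S_ne y, by rwa [nz_unit]⟩ (both _ _ oi dj a b y p)

end

lemma Pol.edge_loc {I : Type} [Fintype I] {n : ℕ} [NeZero n] (P : Pol I n) {i : I} {x : S}
    (hx : x ∈ frontier (P.T i)) (h : ∀ j, x ≠ P.V i j) : ∃ f : E, f ≠ 0 ∧ ⟪f, (x : E)⟫ = 0 ∧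
      ∀ᶠ z in 𝓝 (x : E), ∀ h : z ≠ 0, nz z h ∈ frontier (P.T i) → ⟪f, z⟫ = 0 := by
  obtain ⟨a, ha⟩ := (P.fr i x).1 hx
  obtain ⟨f, f1, p, q⟩ := exists_perp (P.V i a : E) (P.V i (a + 1))
  refine ⟨f, fun e => by simp [e] at f1, real_inner_comm f _ ▸ Cn_perp ha p q, ?_⟩
  have : ∀ᶠ z in 𝓝 (x : E), ∀ k, k ≠ a → z ∉ P.Ed i k true := by
    rw [eventually_all]
    intro k
    by_cases e : k = a
    · simp [e]
    · refine (((Cn_closed (Pol.li2 i k true)).isOpen_compl).eventually_mem fun c => ?_).mono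
        fun z hz _ => hz
      rcases P.sim i k a e x c ha with t | t <;> exact h _ t
  filter_upwards [this] with z hz z0 k
  obtain ⟨b, hb⟩ := (Pol.fr_nz z0).1 k
  obtain rfl : b = a := by_contra fun c => hz b c hb
  exact real_inner_comm f _ ▸ Cn_perp hb p q

lemma mk_til {N : ℕ} {T : Fin N → Set S} (hcov : (⋃ i, T i) = univ) (hd : ∀ i, Metric.diam (T i) < 1)
    (hdis : Pairwise fun i j => Disjoint (interior (T i)) (interior (T j))) {i0 : Fin N}
    (hcl : IsClosed (T i0)) (g : Fin N → E ≃ₗᵢ[ℝ] E)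
    (tr : ∀ i (x y : S), g i x = y → (x ∈ T i ↔ y ∈ T i0)) {τ : Type} [Fintype τ] [Nonempty τ]
    {u : τ → E} (hu : ∀ t, u t ≠ 0) (hf : frontier (T i0) ⊆ {x | ∃ t, ⟪u t, (x : E)⟫ = 0}) :
    ∃ TT : Til (Fin N) (Cel u (T i0)) τ 1, TT.g = g ∧ TT.ℓ = fun c => sg u c.1 := by
  let gs : Fin N → S → S := fun i x => ⟨g i x, by simp⟩
  have cov : ∀ z, ∃ i, ∃ c : Cel u (T i0), g i z ∈ Kc (sg u c.1) := by
    have a1 : ∀ᵐ z ∂(volume : Measure E), ∀ i t, ⟪u t, g i z⟫ ≠ 0 := by
      rw [ae_all_iff]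
      intro i
      exact (g i).measurePreserving.quasiMeasurePreserving.ae
        (p := fun z => ∀ t, ⟪u t, z⟫ ≠ 0) (ae_generic u hu)
    have a2 : ∀ᵐ z ∂(volume : Measure E), z ≠ 0 := by
      rw [ae_iff]; simp
    have a3 : ∀ᵐ z ∂(volume : Measure E), z ∈ ⋃ p : Fin N × Cel u (T i0),
        g p.1 ⁻¹' Kc (sg u p.2.1) := by
      filter_upwards [a1, a2] with z h1 h2
      obtain ⟨i, hi⟩ := mem_iUnion.1 (hcov.symm ▸ mem_univ (nz z h2))
      obtain ⟨c, hc⟩ := cel_gen hcl hf ((tr i _ (gs i (nz z h2)) rfl).1 hi) fun t => by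
        simpa [gs, nz, inner_smul_right, h2] using h1 i t
      refine mem_iUnion.2 ⟨(i, c), ?_⟩
      have := Kc_smul (Ko_sub hc) (norm_nonneg z)
      simpa [gs, nz, smul_inv_smul₀ (norm_ne_zero_iff.2 h2)] using this
    intro z
    have := (Measure.dense_of_ae a3) z
    rw [show {x | x ∈ ⋃ p : Fin N × Cel u (T i0), g p.1 ⁻¹' Kc (sg u p.2.1)} =
      ⋃ p : Fin N × Cel u (T i0), g p.1 ⁻¹' Kc (sg u p.2.1) from rfl,
      (isClosed_iUnion_of_finite fun p => isClosed_Kc.preimage (g _).continuous).closure_eq] at this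
    obtain ⟨p, hp⟩ := mem_iUnion.1 this
    exact ⟨p.1, p.2, hp⟩
  have inT : ∀ (c : Cel u (T i0)) (x : S), (x : E) ∈ Kc (sg u c.1) → x ∈ T i0 := fun c x hx =>
    closure_minimal interior_subset hcl (cel_clos c hx)
  exact ⟨{
      g := g, ℓ := fun c => sg u c.1, hl := fun c => sg_ne hu _, hne := fun c => c.2.1
      hd := fun c c' x y a b x1 y1 => by
        have := Metric.dist_le_diam_of_mem Metric.isBounded_of_compactSpace
          (inT c ⟨x, by simpa using x1⟩ a) (inT c' ⟨y, by simpa using y1⟩ b)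
        rw [Subtype.dist_eq, dist_eq_norm] at this
        exact this.trans (hd i0).le
      hcov := cov
      hdis := fun i c i' c' z a b => by
        have z0 : z ≠ 0 := fun e => Ko_ne a (by simp [e])
        have q : ∀ j (d : Cel u (T i0)), g j z ∈ Ko (sg u d.1) → nz z z0 ∈ interior (T j) := by
          intro j d h
          refine interior_maximal (t := {x : S | g j x ∈ Ko (sg u d.1)}) (fun x hx => ?_)
            (isOpen_Ko.preimage (by fun_prop)) ?_
          · exact (tr j x (gs j x) rfl).2 (d.2.2 _ hx)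
          · simpa [nz] using Ko_smul h (a := ‖z‖⁻¹) (by simpa using z0)
        have e : i = i' := by
          by_contra hn
          exact disjoint_left.1 (hdis hn) (q _ _ a) (q _ _ b)
        subst e
        refine ⟨rfl, Subtype.ext (funext fun t => ?_)⟩
        have p := a t
        have q := b t
        simp only [sg] at p q
        cases e : c.1 t <;> cases e' : c'.1 t <;> simp [e, e'] at p q ⊢ <;> linarith }, rfl, rfl⟩

noncomputable def hom (g : E ≃ₗᵢ[ℝ] E) : S ≃ₜ S where
  toFun x := ⟨g x, by simp⟩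
  invFun x := ⟨g.symm x, by simp⟩
  left_inv x := by simp
  right_inv x := by simp
  continuous_toFun := by fun_prop
  continuous_invFun := by fun_prop

lemma Cn_map (g : E ≃ₗᵢ[ℝ] E) (a b z : E) : z ∈ Cn (g.symm a) (g.symm b) ↔ g z ∈ Cn a b := by
  refine exists₂_congr fun s t => and_congr_right fun _ => and_congr_right fun _ => ?_
  rw [← g.injective.eq_iff]; simp

theorem deg (K : ℕ) : ∃ M : ℕ, ∀ (N : ℕ) (T : Fin N → Set S), (⋃ i, T i) = univ →
    (∀ i, IsClosed (T i)) → (∀ i, Metric.diam (T i) < 1 / 100) →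
    (∀ i j, ∃ g : E ≃ₗᵢ[ℝ] E, g '' (Subtype.val '' T i) = Subtype.val '' T j) →
    (Pairwise fun i j => Disjoint (interior (T i)) (interior (T j))) → ∀ i,
    T i ⊆ closure (interior (T i)) → IsPreconnected (interior (T i)) →
    ∀ (n : ℕ) [NeZero n] (v : ZMod n → S), Function.Injective v →
    (∀ j, LinearIndependent ℝ ![(v (j - 1) : E), v j, v (j + 1)]) →
    (∀ j k, j ≠ k → ∀ x : S, (x : E) ∈ Cn (v j) (v (j + 1)) → (x : E) ∈ Cn (v k) (v (k + 1)) →
      x = v j ∨ x = v (j + 1)) →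
    (∀ x : S, x ∈ frontier (T i) ↔ ∃ j, (x : E) ∈ Cn (v j) (v (j + 1))) →
    (∀ j, {l | (T j ∩ T l).Nonempty}.ncard ≤ K) → N ≤ M := by
  classical
  obtain ⟨K', H1⟩ := few_vertices K
  obtain ⟨C, H2⟩ := labels K'
  obtain ⟨D, H3⟩ := deg_core C K
  refine ⟨D, fun N T hcov hcl hd hg hdis i0 hr hk n _ v h1 h2 h3 h4 hK => ?_⟩
  have : ∀ i, ∃ g : E ≃ₗᵢ[ℝ] E, g '' (Subtype.val '' T i) = Subtype.val '' T i0 ∧
      (i = i0 → ∀ z, g z = z) := fun i => by
    by_cases e : i = i0
    · exact ⟨.refl ℝ E, by simp [e], fun _ _ => rfl⟩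
    · exact (hg i i0).imp fun g h => ⟨h, fun k => absurd k e⟩
  choose g hg g0 using this
  have tr : ∀ i (x y : S), g i x = y → (x ∈ T i ↔ y ∈ T i0) := by
    intro i x y e
    rw [← Subtype.val_injective.mem_set_image (s := T i0), ← hg i, ← e,
      (g i).injective.mem_set_image, Subtype.val_injective.mem_set_image]
  have pre : ∀ i, T i = hom (g i) ⁻¹' T i0 := fun i => ext fun x => tr i x _ rfl
  let u : ZMod n → E := fun j => cr (v j) (v (j + 1))
  have hu : ∀ t, u t ≠ 0 := fun t e => by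
    have := det_ne (h2 (t + 1))
    rw [add_sub_cancel_right, show cr _ _ = 0 from e] at this
    simp at this
  have hf : frontier (T i0) ⊆ {x | ∃ t, ⟪u t, (x : E)⟫ = 0} := fun x hx => by
    obtain ⟨j, hj⟩ := (h4 x).1 hx
    exact ⟨j, real_inner_comm (u j) _ ▸ Cn_perp hj (real_inner_comm (u j) _ ▸ cr_left _ _)
      (real_inner_comm (u j) _ ▸ cr_right _ _)⟩
  have hd1 : ∀ i, Metric.diam (T i) < 1 := fun i => (hd i).trans (by norm_num)
  obtain ⟨TT, t1, t2⟩ := mk_til hcov hd1 hdis (hcl i0) g tr hu hf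
  have ffr : ∀ i x, x ∈ frontier (T i) ↔ hom (g i) x ∈ frontier (T i0) := fun i x => by
    rw [pre i, ← Homeomorph.preimage_frontier]; rfl
  have reg : ∀ i, T i ⊆ closure (interior (T i)) := fun i => by
    rw [pre i, ← Homeomorph.preimage_interior, ← Homeomorph.preimage_closure]
    exact preimage_mono hr
  let P : Pol (Fin N) n :=
    { T := T, V := fun i j => (hom (g i)).symm (v j), cl := hcl, dis := hdis, reg := reg
      cov := fun x => mem_iUnion.1 (hcov.symm ▸ mem_univ x)
      inj := fun i => (hom (g i)).symm.injective.comp h1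
      li := fun i j => by
        have := (h2 j).map' (g i).symm.toLinearEquiv.toLinearMap (LinearEquiv.ker _)
        refine (congrArg (fun f : Fin 3 → E => LinearIndependent ℝ f) (funext fun k => ?_)).mp this
        fin_cases k <;> rfl
      sim := fun i j k e x a b => by
        rw [Homeomorph.eq_symm_apply, Homeomorph.eq_symm_apply]
        exact h3 j k e _ ((Cn_map _ _ _ _).1 a) ((Cn_map _ _ _ _).1 b)
      fr := fun i x => by
        rw [ffr, h4]
        exact exists_congr fun j => (Cn_map _ _ _ _).symm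
      θ := fun j => TT.th (v j)
      lam := fun j k => ⟪(v j : E), (v k : E)⟫
      hlam := fun i j k => (g i).symm.inner_map_map _ _
      τ := fun i x => TT.th (g i x)
      τpos := fun i x hx => by
        have := closure_minimal (s := interior (T i0))
          (t := ⋃ c : Cel u (T i0), {y : S | (y : E) ∈ Kc (sg u c.1)})
          (fun y hy => mem_iUnion.2 (cel_cov hu (hcl i0) hf (S_ne y) (by rwa [nz_unit])))
          (isClosed_iUnion_of_finite fun c => isClosed_Kc.preimage continuous_subtype_val)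
          (hr ((tr i x (hom (g i) x) rfl).1 hx))
        obtain ⟨c, hc⟩ := mem_iUnion.1 this
        exact TT.th_pos (c := c) (by rw [t2]; exact hc)
      τzero := fun i x hx => Finset.sum_eq_zero fun c hc => by
        have := (Finset.mem_filter.1 hc).2
        rw [t2] at this
        exact absurd ((tr i x (hom (g i) x) rfl).2 (closure_minimal interior_subset (hcl i0)
          (cel_clos c this))) hx
      τsum := fun x => t1 ▸ TT.loc3 x
      τV := fun i j => congrArg TT.th ((g i).apply_symm_apply _) }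
  obtain ⟨F, f1, f2⟩ := H2 _ n P fun i => by
    have key := H1 N T hcov hcl hd hdis (fun i => ⟨_, fun t => (g i).symm (u ((Fintype.equivFin _).symm t)),
      fun t => by simpa using hu _, fun x hx => by
        obtain ⟨t, ht⟩ := hf ((ffr i x).1 hx)
        refine ⟨Fintype.equivFin _ t, ?_⟩
        rw [← (g i).inner_map_map]
        simpa [hom] using ht⟩) reg (fun i => by
      rw [pre i, ← Homeomorph.preimage_interior]
      exact (hom (g i)).isPreconnected_preimage.2 hk) hK i
    have k2 : ∀ W : Finset S, ↑W ⊆ {x | x ∈ T i ∧ P.Tr x} → W.card ≤ K' := fun W hW =>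
      key W fun x hx => by
        obtain ⟨p, a, b, c, q1, q2, q3, r1, r2, r3⟩ := hW hx
        exact ⟨p, (two_lt_ncard (toFinite _)).2 ⟨a, r1, b, r2, c, r3, q1, q2, q3⟩⟩
    have fin : {x | x ∈ T i ∧ P.Tr x}.Finite := by
      by_contra k
      obtain ⟨W, p, q⟩ := Set.Infinite.exists_subset_card_eq k (K' + 1)
      have := k2 W p
      omega
    exact ⟨fin.toFinset, k2 _ (by simp), fun x a b => fin.mem_toFinset.2 ⟨a, b⟩⟩
  obtain ⟨-, c0, -⟩ := TT.hcov 0
  have : Nonempty (Cel u (T i0)) := ⟨c0⟩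
  obtain ⟨w0, hw0⟩ := c0.2.1
  obtain ⟨A, hA⟩ := mk_arr hu (hcl i0) (hd1 i0) (interior_subset (cel_int c0 (Ko_ne hw0) hw0))
  simpa using H3 _ _ _ TT A (hA.trans t2.symm) F f1 fun x s hs => by
    rw [t1] at hs ⊢
    have m : ∀ i ∈ s, x ∈ T i := fun i hi => by_contra fun k => hs i hi (P.τzero i x k)
    by_cases t : P.Tr x
    · obtain ⟨j, hj⟩ := P.cov x
      refine Or.inr ⟨le_trans ?_ (hK j), fun i hi => ?_⟩
      · rw [← ncard_coe_finset]
        exact ncard_le_ncard (fun l hl => ⟨x, hj, m l hl⟩) (toFinite _)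
      · by_cases q : ∃ j, x = P.V i j
        · obtain ⟨j, rfl⟩ := q
          exact Or.inr ((P.τV i j).symm ▸ f2 i j t : P.τ i _ ∈ F)
        · obtain ⟨l, l1, l2⟩ : ∃ l, i ≠ l ∧ x ∈ T l := by
            obtain ⟨a, b, -, p, -, -, r1, r2, -⟩ := t
            by_cases e : i = a
            exacts [⟨b, e ▸ p, r2⟩, ⟨a, e, r1⟩]
          have fx := (ffr i x).1 (Pol.fr_two (P := P) l1 (m i hi) l2)
          obtain ⟨f, a, b, c⟩ := P.edge_loc (i := i0) fx fun j e => q ⟨j, by
            rw [Homeomorph.eq_symm_apply, e]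
            exact Subtype.ext ((g i0).symm_apply_eq.2 (g0 i0 rfl _).symm)⟩
          have := th_edge hu (hcl i0) hf hr TT t2 fx a b c
          exact Or.inl this
    · refine Or.inl (not_lt.1 fun k => t ?_)
      obtain ⟨a, b, c, p, q, r, h⟩ := Finset.two_lt_card_iff.1 k
      exact ⟨a, b, c, h.1, h.2.1, h.2.2, m a p, m b q, m c r⟩

lemma many (M : ℕ) : ∃ ε : ℝ, 0 < ε ∧ ∀ (N : ℕ) (T : Fin N → Set S), (⋃ i, T i) = univ →
    (∀ i, Metric.diam (T i) < ε) → M < N := by
  let p : Fin (M + 1) → S := fun k => nz !₂[1, (k : ℝ), 0] fun e => by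
    simpa using congrArg (fun a : E => a 0) e
  have hp : Function.Injective p := fun a b e => by
    have h0 := congrArg (fun x : S => (x : E) 0) e
    have h1 := congrArg (fun x : S => (x : E) 1) e
    simp only [p, nz, PiLp.smul_apply, smul_eq_mul, Matrix.cons_val_zero, Matrix.cons_val_one,
      mul_one] at h0 h1
    rw [h0, mul_right_inj' (inv_ne_zero (norm_ne_zero_iff.2 fun e => by
      simpa using congrArg (fun a : E => a 0) e))] at h1
    exact Fin.ext (by exact_mod_cast h1)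
  obtain ⟨q, hq⟩ := Finite.exists_min fun q : Fin (M + 1) × Fin (M + 1) =>
    if q.1 = q.2 then 1 else dist (p q.1) (p q.2)
  refine ⟨if q.1 = q.2 then 1 else dist (p q.1) (p q.2), ?_, fun N T hc hd => ?_⟩
  rotate_left
  · choose f hf using fun k => mem_iUnion.1 (hc.symm ▸ mem_univ (p k))
    have : Function.Injective f := fun a b e => by_contra fun n => by
      have h1 := Metric.dist_le_diam_of_mem Metric.isBounded_of_compactSpace (hf a) (e ▸ hf b)
      have h2 := hq (a, b)
      rw [if_neg n] at h2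
      exact ((h1.trans_lt (hd _)).trans_le h2).false
    simpa [Nat.succ_le_iff] using Fintype.card_le_of_injective f this
  · split_ifs with e
    exacts [one_pos, dist_pos.2 (hp.ne e)]

end Pool.Agent.Lib.MP_e5885b_co
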