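import Pool.Agent.Lib.MP_e5885b_co.Reduce

set_option autoImplicit false
set_option linter.unusedSectionVars false

open Set Filter Topology
open scoped RealInnerProductSpace

namespace Pool.Agent.Lib.MP_e5885b_co

lemma cover {X C : Type} [TopologicalSpace X] [Finite C] {W : Set X} (hW : IsPreconnected W)
    (K : C → Set X) (hK : ∀ c, IsClosed (K c)) (hc : ∀ x ∈ W, ∃ c, x ∈ K c) (ψ : C → ℚ)
    (h : ∀ x ∈ W, ∀ c c', x ∈ K c → x ∈ K c' → ψ c = ψ c') {x x' : X} {c c' : C} (hx : x ∈ W)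
    (hx' : x' ∈ W) (k : x ∈ K c) (k' : x' ∈ K c') : ψ c = ψ c' := by
  have := isPreconnected_iff_subset_of_disjoint_closed.1 hW (⋃ e : {e // ψ e = ψ c}, K e)
    (⋃ e : {e // ψ e ≠ ψ c}, K e) (isClosed_iUnion_of_finite fun e => hK e)
    (isClosed_iUnion_of_finite fun e => hK e) (fun z hz => by
      obtain ⟨e, he⟩ := hc z hz
      by_cases q : ψ e = ψ c
      · exact Or.inl (mem_iUnion.2 ⟨⟨e, q⟩, he⟩)
      · exact Or.inr (mem_iUnion.2 ⟨⟨e, q⟩, he⟩)) (by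
      refine eq_empty_of_forall_notMem fun z ⟨hz, a, b⟩ => ?_
      obtain ⟨e, he⟩ := mem_iUnion.1 a
      obtain ⟨e', he'⟩ := mem_iUnion.1 b
      exact e'.2 ((h z hz _ _ he' he).trans e.2))
  rcases this with q | q
  · obtain ⟨e, he⟩ := mem_iUnion.1 (q hx')
    exact ((h x' hx' _ _ k' he).trans e.2).symm
  · obtain ⟨e, he⟩ := mem_iUnion.1 (q hx)
    exact absurd (h x hx _ _ he k) e.2

lemma graph {C ι : Type} [Fintype C] (s : Finset ι) (a b : ι → C) (R : Finset C)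
    (h : ∀ ψ : C → ℚ, (∀ i ∈ s, ψ (a i) = ψ (b i)) → ∀ c, ∃ r ∈ R, ψ c = ψ r) :
    Fintype.card C ≤ s.card + R.card := by
  let Φ : (C → ℚ) →ₗ[ℚ] (s → ℚ) × (R → ℚ) :=
    { toFun := fun ψ => (fun i => ψ (a i) - ψ (b i), fun r => ψ r)
      map_add' := fun ψ φ => by ext i <;> simp; ring
      map_smul' := fun q ψ => by ext i <;> simp; ring }
  have hi : Function.Injective Φ := by
    rw [injective_iff_map_eq_zero]
    intro ψ e
    funext c
    obtain ⟨r, hr, q⟩ := h ψ (fun i hi => sub_eq_zero.1 (congrFun (congrArg Prod.fst e) ⟨i, hi⟩)) c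
    exact q.trans (congrFun (congrArg Prod.snd e) ⟨r, hr⟩)
  simpa using LinearMap.finrank_le_finrank_of_injective hi

structure Arr (C τ : Type) [Fintype τ] where
  ℓ : C → τ → E
  hl : ∀ c t, ℓ c t ≠ 0
  hne : ∀ c, (Ko (ℓ c)).Nonempty
  sgn : ∀ c c' t, ℓ c' t = ℓ c t ∨ ℓ c' t = -ℓ c t
  dif : ∀ c c', c ≠ c' → ∃ t, ℓ c' t = -ℓ c t
  o : E
  s : E
  y : E
  ho : ∀ c, ∀ x ∈ Kc (ℓ c), x ≠ 0 → 0 < ⟪o, x⟫
  os : ⟪o, s⟫ = 0
  oy : ⟪o, y⟫ = 0
  sy : ⟪s, y⟫ = 0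
  ss : 0 < ⟪s, s⟫
  span : ∀ d, ⟪o, d⟫ = 0 → ∃ β γ : ℝ, d = β • s + γ • y
  gen : ∀ c t, ⟪ℓ c t, y⟫ ≠ 0

variable {τ : Type} [Fintype τ]

lemma Tc_smul {ℓ : τ → E} {x z : E} (h : z ∈ Tc ℓ x) {a : ℝ} (ha : 0 ≤ a) : a • z ∈ Tc ℓ x :=
  fun t ht => by rw [inner_smul_right]; exact mul_nonneg ha (h t ht)

lemma Tc_base {ℓ : τ → E} {x : E} {a : ℝ} (ha : a ≠ 0) : Tc ℓ (a • x) = Tc ℓ x := by
  ext z; simp [Tc, inner_smul_right, ha]

lemma Tc_back {ℓ : τ → E} {x d : E} {r : ℝ} (hr : 0 < r) (hx : x ∈ Kc ℓ) : -d ∈ Tc ℓ (x + r • d) := by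
  intro t ht
  rw [inner_add_right, inner_smul_right] at ht
  rw [inner_neg_right]
  have := hx t
  by_contra k
  nlinarith

lemma Tc_far {ℓ : τ → E} {x d y : E} (h : ∃ᶠ u in (atTop : Filter ℝ), d + u • y ∈ Tc ℓ x) :
    y ∈ Tc ℓ x := by
  intro t ht
  by_contra k
  push Not at k
  obtain ⟨u, h1, h2⟩ := (h.and_eventually (eventually_gt_atTop (⟪ℓ t, d⟫ / -⟪ℓ t, y⟫))).exists
  have := h1 t ht
  rw [inner_add_right, inner_smul_right] at this
  rw [div_lt_iff₀ (by linarith)] at h2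
  linarith

lemma Tc_near {ℓ : τ → E} {x y : E} (hg : ∀ t, ⟪ℓ t, y⟫ ≠ 0) (h : y ∈ Tc ℓ x) (d : E) :
    ∀ᶠ u in (atTop : Filter ℝ), d + u • y ∈ Tc ℓ x := by
  simp only [Tc, mem_ofPred_eq, eventually_all]
  intro t ht
  have p : 0 < ⟪ℓ t, y⟫ := (h t ht).lt_of_ne (hg t).symm
  filter_upwards [eventually_ge_atTop (-⟪ℓ t, d⟫ / ⟪ℓ t, y⟫)] with u hu
  rw [inner_add_right, inner_smul_right]
  rw [div_le_iff₀ p] at hu
  linarith

namespace Arr

variable {C : Type} [Fintype C] (A : Arr C τ)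

def neg : Arr C τ :=
  { A with
    s := -A.s
    os := by rw [inner_neg_right, A.os, neg_zero]
    sy := by rw [inner_neg_left, A.sy, neg_zero]
    ss := by simpa using A.ss
    span := fun d hd => by
      obtain ⟨β, γ, e⟩ := A.span d hd
      exact ⟨-β, γ, by simpa using e⟩ }

def At (c : C) (w d : E) : Prop := w ∈ Kc (A.ℓ c) ∧ d ∈ Tc (A.ℓ c) w

def Tan (w d : E) : Prop := ∃ c, A.At c w d

open Classical in
noncomputable def V : Finset E := Finset.univ.biUnion fun c => Vs (A.ℓ c)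

lemma uniq {c c' : C} {w d : E} (hg : ∀ t, ⟪A.ℓ c t, d⟫ ≠ 0) (h : A.At c w d) (h' : A.At c' w d) :
    c = c' := by
  by_contra k
  obtain ⟨t, e⟩ := A.dif c c' k
  have a := h.1 t
  have b := h'.1 t
  rw [e, inner_neg_left] at b
  have z : ⟪A.ℓ c t, w⟫ = 0 := by linarith
  have p := h.2 t z
  have q := h'.2 t (by rw [e, inner_neg_left, z, neg_zero])
  rw [e, inner_neg_left] at q
  exact hg t (by linarith)

lemma isV {c : C} {w : E} (hw : w ∈ A.V) (h : w ∈ Kc (A.ℓ c)) : IsV (A.ℓ c) w := by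
  classical
  obtain ⟨e, -, he⟩ := Finset.mem_biUnion.1 hw
  obtain ⟨h1, -, p, q, a, b, g⟩ := mem_Vs.1 he
  refine ⟨h1, h, p, q, ?_, ?_, ?_⟩
  · rcases A.sgn e c p with k | k <;> simp [k, a]
  · rcases A.sgn e c q with k | k <;> simp [k, b]
  · rcases A.sgn e c p with k | k <;> rcases A.sgn e c q with k' | k' <;> rw [k, k'] <;>
      simpa only [inner_neg_left, inner_neg_right, neg_neg, even_two, Even.neg_pow] using g

lemma memV {c : C} {w : E} (h : IsV (A.ℓ c) w) : w ∈ A.V := by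
  classical
  exact Finset.mem_biUnion.2 ⟨c, Finset.mem_univ _, mem_Vs.2 h⟩

lemma far {w d y : E} (h : ∀ᶠ u in (atTop : Filter ℝ), A.Tan w (d + u • y)) : A.Tan w y := by
  obtain ⟨c, hc⟩ := frequently_exists.1 h.frequently
  exact ⟨c, hc.exists.choose_spec.1, Tc_far (hc.mono fun u hu => hu.2)⟩

def RU (w : E) (u : ℝ) : Prop := ∀ u', u ≤ u' → A.Tan w (A.s + u' • A.y)
def RD (w : E) (u : ℝ) : Prop := ∀ u', u' ≤ u → A.Tan w (A.s + u' • A.y)
def All (w : E) : Prop := ∀ u : ℝ, A.Tan w (A.s + u • A.y)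

lemma RU_up {w : E} {u : ℝ} (h : A.RU w u) : A.Tan w A.y :=
  A.far (d := A.s) ((eventually_ge_atTop u).mono h)

lemma RD_dn {w : E} {u : ℝ} (h : A.RD w u) : A.Tan w (-A.y) :=
  A.far (d := A.s) ((eventually_ge_atTop (-u)).mono fun v hv => by
    simpa using h (-v) (by linarith))

lemma At_mid {c : C} {w : E} {u u' v : ℝ} (h : A.At c w (A.s + u • A.y))
    (h' : A.At c w (A.s + u' • A.y)) (h1 : u ≤ v) (h2 : v ≤ u') : A.At c w (A.s + v • A.y) := by
  refine ⟨h.1, fun t ht => ?_⟩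
  have a := h.2 t ht
  have b := h'.2 t ht
  rw [inner_add_right, inner_smul_right] at a b ⊢
  rcases le_total 0 ⟪A.ℓ c t, A.y⟫ with k | k <;> nlinarith

lemma RU_tr {c : C} {w : E} {u u' : ℝ} (h : A.At c w (A.s + u • A.y))
    (h' : A.At c w (A.s + u' • A.y)) (k : A.RU w u) : A.RU w u' := fun v hv => by
  rcases le_total u v with q | q
  · exact k v q
  · exact ⟨c, A.At_mid h' h hv q⟩

lemma RD_tr {c : C} {w : E} {u u' : ℝ} (h : A.At c w (A.s + u • A.y))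
    (h' : A.At c w (A.s + u' • A.y)) (k : A.RD w u) : A.RD w u' := fun v hv => by
  rcases le_total v u with q | q
  · exact k v q
  · exact ⟨c, A.At_mid h h' q hv⟩

lemma up_RU {c : C} {w : E} {u : ℝ} (h : A.At c w (A.s + u • A.y)) (k : A.At c w A.y) :
    A.RU w u := fun v hv => ⟨c, h.1, by
  have := Tc_add h.2 (Tc_smul k.2 (sub_nonneg.2 hv))
  rwa [add_assoc, ← add_smul, add_sub_cancel] at this⟩

lemma dn_RD {c : C} {w : E} {u : ℝ} (h : A.At c w (A.s + u • A.y)) (k : A.At c w (-A.y)) :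
    A.RD w u := fun v hv => ⟨c, h.1, by
  have := Tc_add h.2 (Tc_smul k.2 (sub_nonneg.2 hv))
  rwa [add_assoc, smul_neg, ← neg_smul, ← add_smul, neg_sub, add_sub_cancel] at this⟩

noncomputable def hh (x : E) : ℝ := ⟪A.s, x⟫ / ⟪A.o, x⟫

lemma hh_smul (x : E) {a : ℝ} (ha : a ≠ 0) : A.hh (a • x) = A.hh x := by
  simp only [hh, inner_smul_right]
  exact mul_div_mul_left _ _ ha

lemma hh_add (x : E) (r u : ℝ) :
    A.hh (x + r • (A.s + u • A.y)) = A.hh x + r * ⟪A.s, A.s⟫ / ⟪A.o, x⟫ := by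
  simp only [hh, inner_smul_right, inner_add_right, A.os, A.oy, A.sy]
  rw [← add_div]; ring_nf

/-- move left along a common edge until a vertex -/
lemma slide {c c' : C} (hne : c ≠ c') {w : E} (hw : w ≠ 0) {u : ℝ} (h : A.At c w (A.s + u • A.y))
    (h' : A.At c' w (A.s + u • A.y)) : ∃ v ∈ A.V, A.hh v ≤ A.hh w ∧ A.At c v (A.s + u • A.y) ∧
      A.At c' v (A.s + u • A.y) := by
  classical
  set d := A.s + u • A.y with hd
  have od : ⟪A.o, d⟫ = 0 := by rw [hd, inner_add_right, inner_smul_right, A.os, A.oy]; ring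
  have sd : ⟪A.s, d⟫ = ⟪A.s, A.s⟫ := by rw [hd, inner_add_right, inner_smul_right, A.sy]; ring
  have d0 : d ≠ 0 := fun k => by rw [k, inner_zero_right] at sd; exact A.ss.ne sd
  have hz : ∀ t, A.ℓ c' t = -A.ℓ c t → ⟪A.ℓ c t, w⟫ = 0 ∧ ⟪A.ℓ c t, d⟫ = 0 := fun t e => by
    have a := h.1 t
    have b := h'.1 t
    rw [e, inner_neg_left] at b
    have z : ⟪A.ℓ c t, w⟫ = 0 := by linarith
    have p := h.2 t z
    have q := h'.2 t (by rw [e, inner_neg_left, z, neg_zero])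
    rw [e, inner_neg_left] at q
    exact ⟨z, by linarith⟩
  have hex : (Finset.univ.filter fun t => 0 < ⟪A.ℓ c t, d⟫).Nonempty := by
    by_contra k
    rw [Finset.not_nonempty_iff_eq_empty, Finset.filter_eq_empty_iff] at k
    have := A.ho c (-d) (fun t => by
      rw [inner_neg_right]; have := k (Finset.mem_univ t); linarith) (neg_ne_zero.2 d0)
    rw [inner_neg_right, od] at this
    simp at this
  obtain ⟨t1, ht1, hmin⟩ := Finset.exists_min_image _ (fun t => ⟪A.ℓ c t, w⟫ / ⟪A.ℓ c t, d⟫) hex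
  have p1 : 0 < ⟪A.ℓ c t1, d⟫ := (Finset.mem_filter.1 ht1).2
  set r := ⟪A.ℓ c t1, w⟫ / ⟪A.ℓ c t1, d⟫ with hr
  have r0 : 0 ≤ r := div_nonneg (h.1 t1) p1.le
  have m1 : w + (-r) • d ∈ Kc (A.ℓ c) := fun t => by
    rw [inner_add_right, inner_smul_right]
    by_cases k : 0 < ⟪A.ℓ c t, d⟫
    · have := hmin t (Finset.mem_filter.2 ⟨Finset.mem_univ _, k⟩)
      rw [le_div_iff₀ k] at this
      linarith
    · have := h.1 t
      nlinarith
  have m2 : w + (-r) • d ∈ Kc (A.ℓ c') := fun t => by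
    rcases A.sgn c c' t with e | e
    · rw [e]; exact m1 t
    · rw [e, inner_neg_left, inner_add_right, inner_smul_right, (hz t e).1, (hz t e).2]; simp
  have m3 : ∀ e, A.At e w d → d ∈ Tc (A.ℓ e) (w + (-r) • d) := fun e he => by
    rcases r0.eq_or_lt with k | k
    · rw [← k]; simpa using he.2
    · have := Tc_back (d := -d) k he.1
      simpa using this
  have ow := A.ho c w h.1 hw
  have n0 : w + (-r) • d ≠ 0 := fun k => by
    have := congrArg (fun z => ⟪A.o, z⟫) k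
    simp only [inner_add_right, inner_smul_right, od, inner_zero_right] at this
    linarith
  have n1 : ‖w + (-r) • d‖⁻¹ ≠ 0 := by simpa using n0
  obtain ⟨t0, e0⟩ := A.dif c c' hne
  refine ⟨‖w + (-r) • d‖⁻¹ • (w + (-r) • d), A.memV (c := c) ⟨norm_smul_inv_norm n0,
    Kc_smul m1 (by positivity), t0, t1, ?_, ?_, ?_⟩, ?_,
    ⟨Kc_smul m1 (by positivity), by rw [Tc_base n1]; exact m3 c h⟩,
    ⟨Kc_smul m2 (by positivity), by rw [Tc_base n1]; exact m3 c' h'⟩⟩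
  · rw [inner_smul_right, inner_add_right, inner_smul_right, (hz t0 e0).1, (hz t0 e0).2]; simp
  · rw [inner_smul_right, inner_add_right, inner_smul_right, hr, neg_mul, div_mul_cancel₀ _ p1.ne']
    simp
  · intro h3
    have h4 : ⟪A.ℓ c t0, A.ℓ c t0⟫ • A.ℓ c t1 = ⟪A.ℓ c t0, A.ℓ c t1⟫ • A.ℓ c t0 := by
      rw [← sub_eq_zero, ← inner_self_eq_zero (𝕜 := ℝ)]
      simp only [inner_sub_left, inner_sub_right, inner_smul_left, inner_smul_right,
        real_inner_comm (A.ℓ c t0) (A.ℓ c t1), conj_trivial]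
      linear_combination ⟪A.ℓ c t0, A.ℓ c t0⟫ * h3
    have := congrArg (fun a => ⟪a, d⟫) h4
    simp only [inner_smul_left, conj_trivial, (hz t0 e0).2, mul_zero] at this
    exact (mul_pos (real_inner_self_pos.2 (A.hl c t0)) p1).ne' this
  · rw [A.hh_smul _ n1, A.hh_add]
    have : -r * ⟪A.s, A.s⟫ / ⟪A.o, w⟫ ≤ 0 :=
      div_nonpos_of_nonpos_of_nonneg (by have := A.ss; nlinarith) ow.le
    linarith

end Arr

end Pool.Agent.Lib.MP_e5885b_co
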