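import Pool.Agent.Lib.MP_e5885b_co.Euler

set_option autoImplicit false
set_option linter.unusedSectionVars false

open Set Filter Topology
open scoped RealInnerProductSpace

namespace Pool.Agent.Lib.MP_e5885b_co

namespace Arr

variable {τ : Type} [Fintype τ] {C : Type} [Fintype C] [Nonempty C] (A : Arr C τ)

open Classical in
noncomputable def pick (w d : E) : C :=
  if h : A.Tan w d then h.choose else Classical.arbitrary C

lemma pick_eq {c : C} {w d : E} (hg : ∀ t, ⟪A.ℓ c t, d⟫ ≠ 0) (h : A.At c w d) : c = A.pick w d := by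
  have k : A.Tan w d := ⟨c, h⟩
  rw [pick, dif_pos k]
  exact A.uniq hg h k.choose_spec

lemma gen' (c : C) (t : τ) : ⟪A.ℓ c t, -A.y⟫ ≠ 0 := by simpa using A.gen c t

def Sil (c : C) (w : E) : Prop :=
  IsV (A.ℓ c) w ∧ A.y ∉ Tc (A.ℓ c) w ∧ -A.y ∉ Tc (A.ℓ c) w ∧ ∃ u : ℝ, A.At c w (A.s + u • A.y)

def Term (c : C) (w : E) : Prop :=
  A.Sil c w ∧ ∀ u : ℝ, A.At c w (A.s + u • A.y) → ¬A.RU w u ∧ ¬A.RD w u

open Classical in
noncomputable def rp (w : E) : C :=
  if h : ∃ c, A.Term c w then h.choose else Classical.arbitrary C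

open Classical in
noncomputable def tgt (c : C) (w : E) : C :=
  if ∃ u : ℝ, A.At c w (A.s + u • A.y) ∧ A.RU w u then A.pick w A.y
  else if ∃ u : ℝ, A.At c w (A.s + u • A.y) ∧ A.RD w u then A.pick w (-A.y) else A.rp w

structure Good (ψ : C → ℚ) : Prop where
  h1 : ∀ c w, A.Sil c w → ψ c = ψ (A.tgt c w)
  h2 : ∀ w ∈ A.V, A.All w → ¬A.neg.All w → ψ (A.pick w A.y) = ψ (A.pick w (-A.y))

variable {A}

lemma closed_At (c : C) (w d y : E) : IsClosed {u : ℝ | A.At c w (d + u • y)} := by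
  by_cases h : w ∈ Kc (A.ℓ c)
  · have : {u : ℝ | A.At c w (d + u • y)} = (fun u : ℝ => d + u • y) ⁻¹' Tc (A.ℓ c) w := by
      ext u; simp [At, h]
    rw [this]
    exact (isClosed_Tc w).preimage (by fun_prop)
  · simp [At, h]

/-- cells with a left direction at z agree, if the statement is known to the left of z -/
lemma left_eq {ψ : C → ℚ} {z : E} (hz : z ≠ 0)
    (ih : ∀ w, w ≠ 0 → A.hh w < A.hh z → ∀ (c c' : C) (u : ℝ), A.At c w (A.s + u • A.y) →
      A.At c' w (A.s + u • A.y) → ψ c = ψ c') (hA : A.neg.All z) {c c' : C} {u u' : ℝ}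
    (h : A.At c z (-A.s + u • A.y)) (h' : A.At c' z (-A.s + u' • A.y)) : ψ c = ψ c' := by
  refine cover isPreconnected_univ (fun e => {v : ℝ | A.At e z (-A.s + v • A.y)})
    (fun e => closed_At e _ _ _) (fun v _ => hA v) ψ (fun v _ e e' k k' => ?_) (mem_univ u)
    (mem_univ u') h h'
  obtain ⟨r, ⟨a, b⟩, r0⟩ := (((step_Kc k.1 k.2).and (step_Kc k'.1 k'.2)).and
    self_mem_nhdsWithin).exists
  have r0' : 0 < r := r0
  have oz := A.ho e z k.1 hz
  have e1 : z + r • (-A.s + v • A.y) = z + (-r) • (A.s + (-v) • A.y) := by module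
  have e2 : A.s + (-v) • A.y = -(-A.s + v • A.y) := by module
  refine ih (z + r • (-A.s + v • A.y)) (fun q => ?_) ?_ e e' (-v) ⟨a, ?_⟩ ⟨b, ?_⟩
  · have := congrArg (fun x => ⟪A.o, x⟫) q
    simp only [inner_add_right, inner_smul_right, inner_neg_right, A.os, A.oy,
      inner_zero_right] at this
    linarith
  · rw [e1, A.hh_add]
    have : -r * ⟪A.s, A.s⟫ / ⟪A.o, z⟫ < 0 :=
      div_neg_of_neg_of_pos (by have := A.ss; nlinarith) oz
    linarith
  · rw [e2]; exact Tc_back r0' k.1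
  · rw [e2]; exact Tc_back r0' k'.1

lemma up_side {c : C} {z y : E} (hg : ∀ t, ⟪A.ℓ c t, y⟫ ≠ 0) (h : A.At c z y) (d : E) :
    ∃ u : ℝ, A.At c z (d + u • y) := by
  obtain ⟨u, hu⟩ := (Tc_near hg h.2 d).exists
  exact ⟨u, h.1, hu⟩

lemma vertex {ψ : C → ℚ} (G : A.Good ψ) {v : E} (hv : v ∈ A.V)
    (ih : ∀ w, w ≠ 0 → A.hh w < A.hh v → ∀ (c c' : C) (u : ℝ), A.At c w (A.s + u • A.y) →
      A.At c' w (A.s + u • A.y) → ψ c = ψ c') {c c' : C} {u : ℝ} (h : A.At c v (A.s + u • A.y))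
    (h' : A.At c' v (A.s + u • A.y)) : ψ c = ψ c' := by
  classical
  have v0 : v ≠ 0 := fun q => by have := (A.isV hv h.1).1; rw [q] at this; simp at this
  have key : A.RU v u → A.RD v u → ψ (A.pick v A.y) = ψ (A.pick v (-A.y)) := fun a b => by
    have all : A.All v := fun x => (le_total u x).elim (a x) (b x)
    by_cases k : A.neg.All v
    · obtain ⟨e, he⟩ := A.RU_up a
      obtain ⟨e', he'⟩ := A.RD_dn b
      rw [← A.pick_eq (A.gen e) he, ← A.pick_eq (A.gen' e') he']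
      obtain ⟨x, hx⟩ := up_side (A.gen e) he (-A.s)
      obtain ⟨x', hx'⟩ := up_side (A.gen' e') he' (-A.s)
      rw [smul_neg, ← neg_smul] at hx'
      exact left_eq v0 ih k hx hx'
    · exact G.h2 v hv all k
  have val : ∀ e, A.At e v (A.s + u • A.y) → ψ e = ψ (if A.RU v u then A.pick v A.y
      else if A.RD v u then A.pick v (-A.y) else A.rp v) := by
    intro e he
    by_cases k1 : A.y ∈ Tc (A.ℓ e) v
    · rw [if_pos (A.up_RU he ⟨he.1, k1⟩), ← A.pick_eq (A.gen e) ⟨he.1, k1⟩]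
    by_cases k2 : -A.y ∈ Tc (A.ℓ e) v
    · have q := A.dn_RD he ⟨he.1, k2⟩
      rw [A.pick_eq (A.gen' e) ⟨he.1, k2⟩, if_pos q]
      split_ifs with p
      · exact (key p q).symm
      · rfl
    rw [G.h1 e v ⟨A.isV hv he.1, k1, k2, u, he⟩, tgt]
    have a : (∃ x : ℝ, A.At e v (A.s + x • A.y) ∧ A.RU v x) ↔ A.RU v u :=
      ⟨fun ⟨x, p, q⟩ => A.RU_tr p he q, fun q => ⟨u, he, q⟩⟩
    have b : (∃ x : ℝ, A.At e v (A.s + x • A.y) ∧ A.RD v x) ↔ A.RD v u :=
      ⟨fun ⟨x, p, q⟩ => A.RD_tr p he q, fun q => ⟨u, he, q⟩⟩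
    simp only [a, b]
  rw [val c h, val c' h']

open Classical in
lemma right_eq {ψ : C → ℚ} (G : A.Good ψ) (n : ℕ) : ∀ w, w ≠ 0 →
    (A.V.filter fun v => A.hh v ≤ A.hh w).card ≤ n → ∀ (c c' : C) (u : ℝ),
    A.At c w (A.s + u • A.y) → A.At c' w (A.s + u • A.y) → ψ c = ψ c' := by
  induction n with
  | zero =>
    intro w hw hn c c' u h h'
    by_contra k
    obtain ⟨v, hv, p, -⟩ := A.slide (fun q => k (by rw [q])) hw h h'
    rw [Nat.le_zero, Finset.card_eq_zero, Finset.filter_eq_empty_iff] at hn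
    exact hn hv p
  | succ n ih =>
    intro w hw hn c c' u h h'
    by_contra k
    obtain ⟨v, hv, p, a, b⟩ := A.slide (fun q => k (by rw [q])) hw h h'
    refine k (vertex G hv (fun x hx q => ih x hx ?_) a b)
    have : (A.V.filter fun v => A.hh v ≤ A.hh x) ⊂ A.V.filter fun v => A.hh v ≤ A.hh w := by
      refine ⟨fun z hz => ?_, fun q2 => ?_⟩
      · rw [Finset.mem_filter] at hz ⊢
        exact ⟨hz.1, by linarith [hz.2]⟩
      · have := (Finset.mem_filter.1 (q2 (Finset.mem_filter.2 ⟨hv, p⟩))).2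
        linarith
    have := Finset.card_lt_card this
    omega

lemma decomp {c : C} {z : E} (hz : z ≠ 0) (h : z ∈ Kc (A.ℓ c)) (d : E) :
    ∃ l β γ : ℝ, d = l • z + (β • A.s + γ • A.y) := by
  have oz := A.ho c z h hz
  obtain ⟨β, γ, e⟩ := A.span (d - (⟪A.o, d⟫ / ⟪A.o, z⟫) • z) (by
    rw [inner_sub_right, inner_smul_right, div_mul_cancel₀ _ oz.ne', sub_self])
  exact ⟨_, β, γ, by rw [← e]; abel⟩

lemma side {c : C} {z : E} (hz : IsV (A.ℓ c) z ∨ (z ≠ 0 ∧ z ∈ Kc (A.ℓ c))) :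
    (∃ u : ℝ, A.At c z (A.s + u • A.y)) ∨ ∃ u : ℝ, A.At c z (-A.s + u • A.y) := by
  have ⟨z0, h⟩ : z ≠ 0 ∧ z ∈ Kc (A.ℓ c) := by
    rcases hz with q | q
    · exact ⟨fun k => by have := q.1; rw [k] at this; simp at this, q.2.1⟩
    · exact q
  obtain ⟨d, hd⟩ := A.hne c
  obtain ⟨l, β, γ, e⟩ := decomp z0 h d
  have m : ∀ t, ⟪A.ℓ c t, z⟫ = 0 → 0 < β * ⟪A.ℓ c t, A.s⟫ + γ * ⟪A.ℓ c t, A.y⟫ := fun t ht => by
    have := hd t
    rw [e] at this
    simpa [inner_add_right, inner_smul_right, ht] using this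
  rcases lt_trichotomy β 0 with k | k | k
  · refine Or.inr ⟨γ / -β, h, fun t ht => ?_⟩
    have := div_pos (m t ht) (neg_pos.2 k)
    rw [inner_add_right, inner_smul_right, inner_neg_right]
    refine this.le.trans_eq ?_
    field_simp [k.ne]; ring
  · subst k
    rcases le_total 0 γ with q | q
    · exact Or.inl (up_side (A.gen c) ⟨h, fun t ht => by
        have := m t ht
        by_contra j
        nlinarith⟩ _)
    · obtain ⟨u, hu⟩ := up_side (A.gen' c) (z := z) ⟨h, fun t ht => by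
        have := m t ht
        rw [inner_neg_right]
        by_contra j
        nlinarith⟩ A.s
      rw [smul_neg, ← neg_smul] at hu
      exact Or.inl ⟨_, hu⟩
  · refine Or.inl ⟨γ / β, h, fun t ht => ?_⟩
    have := div_pos (m t ht) k
    rw [inner_add_right, inner_smul_right]
    refine this.le.trans_eq ?_
    field_simp

lemma inner_eq {ψ : C → ℚ} (G : A.Good ψ) {z : E} (hz : z ≠ 0) (hT : ∀ d, A.Tan z d) {c c' : C}
    (h : z ∈ Kc (A.ℓ c)) (h' : z ∈ Kc (A.ℓ c')) : ψ c = ψ c' := by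
  obtain ⟨e, he⟩ := hT A.y
  obtain ⟨x, hx⟩ := up_side (A.gen e) he A.s
  obtain ⟨x', hx'⟩ := up_side (A.gen e) he (-A.s)
  have : ∀ c, z ∈ Kc (A.ℓ c) → ψ c = ψ e := fun c h => by
    rcases side (Or.inr ⟨hz, h⟩) with ⟨u, hu⟩ | ⟨u, hu⟩
    · exact cover isPreconnected_univ (fun e => {v : ℝ | A.At e z (A.s + v • A.y)})
        (fun e => closed_At e _ _ _) (fun v _ => hT _) ψ
        (fun v _ e e' k k' => right_eq G _ z hz le_rfl e e' v k k') (mem_univ u) (mem_univ x) hu hx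
    · exact left_eq hz (fun w hw _ => right_eq G _ w hw le_rfl) (fun v => hT _) hu hx'
  rw [this c h, this c' h']

variable (A)

def Conn (R : Finset C) : Prop :=
  ∀ ψ : C → ℚ, (∀ z, z ≠ 0 → (∀ d, A.Tan z d) → ∀ c c', z ∈ Kc (A.ℓ c) → z ∈ Kc (A.ℓ c') →
    ψ c = ψ c') → ∀ c, ∃ r ∈ R, ψ c = ψ r

open Classical in
noncomputable def SilF : Finset (C × E) := (Finset.univ ×ˢ A.V).filter fun p => A.Sil p.1 p.2

open Classical in
noncomputable def BF : Finset E := A.V.filter fun w => ∃ c, A.Term c w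

open Classical in
noncomputable def MF : Finset E := A.V.filter fun w => A.All w ∧ ¬A.neg.All w

lemma rp_term {w : E} (h : ∃ c, A.Term c w) : A.Term (A.rp w) w := by
  rw [rp, dif_pos h]; exact h.choose_spec

lemma one_side {R : Finset C} (hR : A.Conn R) :
    Fintype.card C + A.BF.card ≤ A.SilF.card + A.MF.card + R.card := by
  classical
  have hs : A.BF.image (fun w => (A.rp w, w)) ⊆ A.SilF := by
    intro p hp
    obtain ⟨w, hw, rfl⟩ := Finset.mem_image.1 hp
    obtain ⟨a, b⟩ := Finset.mem_filter.1 hw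
    exact Finset.mem_filter.2 ⟨by simpa using a, (A.rp_term b).1⟩
  have hc : (A.BF.image fun w => (A.rp w, w)).card = A.BF.card :=
    Finset.card_image_of_injective _ fun a b e => congrArg Prod.snd e
  have h := graph ((A.SilF \ A.BF.image fun w => (A.rp w, w)).disjSum A.MF)
    (Sum.elim (fun p => p.1) fun w => A.pick w A.y)
    (Sum.elim (fun p => A.tgt p.1 p.2) fun w => A.pick w (-A.y)) R fun ψ hψ => by
      refine hR ψ fun z hz hT c c' => inner_eq ⟨fun c w hw => ?_, fun w hw a b => ?_⟩ hz hT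
      · by_cases k : (c, w) ∈ A.BF.image fun w => (A.rp w, w)
        · obtain ⟨w', hw', e⟩ := Finset.mem_image.1 k
          obtain ⟨rfl, rfl⟩ := Prod.mk.inj e
          have t := A.rp_term (Finset.mem_filter.1 hw').2
          rw [tgt, if_neg fun ⟨u, p, q⟩ => (t.2 u p).1 q, if_neg fun ⟨u, p, q⟩ => (t.2 u p).2 q]
        · exact hψ (Sum.inl (c, w)) (Finset.inl_mem_disjSum.2 (Finset.mem_sdiff.2
            ⟨Finset.mem_filter.2 ⟨by simpa using A.memV hw.1, hw⟩, k⟩))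
      · exact hψ (Sum.inr w) (Finset.inr_mem_disjSum.2 (Finset.mem_filter.2 ⟨hw, a, b⟩))
  rw [Finset.card_disjSum, Finset.card_sdiff_of_subset hs, hc] at h
  have := Finset.card_le_card hs
  omega

end Arr

end Pool.Agent.Lib.MP_e5885b_co
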