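import Pool.Agent.Lib.MP_e5885b_co.Euler2

set_option autoImplicit false
set_option linter.unusedSectionVars false

open Set Filter Topology
open scoped RealInnerProductSpace

namespace Pool.Agent.Lib.MP_e5885b_co

namespace Arr

variable {τ : Type} [Fintype τ] {C : Type} [Fintype C] [Nonempty C] (A : Arr C τ)

lemma pointed (c : C) : ∀ x ∈ Kc (A.ℓ c), -x ∈ Kc (A.ℓ c) → x = 0 := by
  intro x h1 h2
  by_contra k
  have a := A.ho c x h1 k
  have b := A.ho c _ h2 (neg_ne_zero.2 k)
  rw [inner_neg_right] at b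
  linarith

lemma y_ne : A.y ≠ 0 := by
  intro k
  obtain ⟨c⟩ := ‹Nonempty C›
  have := A.ho c A.s (fun t => absurd (by rw [k, inner_zero_right]) (A.gen c t))
    (fun q => by have := A.ss; rw [q] at this; simp at this)
  rw [A.os] at this
  exact lt_irrefl _ this

open Classical in
lemma cell_count (c : C) : (Vs (A.ℓ c)).card = 2 +
    ((Vs (A.ℓ c)).filter fun v => A.y ∈ Tc (A.ℓ c) v).card +
    ((Vs (A.ℓ c)).filter fun v => -A.y ∈ Tc (A.ℓ c) v).card := by
  have h := silhouette (A.hl c) (A.hne c) (A.pointed c) (A.gen c)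
    (fun k => by simpa [A.oy] using A.ho c _ k A.y_ne)
    (fun k => by simpa [A.oy] using A.ho c _ k (neg_ne_zero.2 A.y_ne))
  rw [← h, add_assoc, ← Finset.card_union_of_disjoint, ← Finset.card_union_of_disjoint]
  · congr 1
    ext v
    simp only [Finset.mem_union, Finset.mem_filter]
    tauto
  · rw [Finset.disjoint_left]
    intro v a b
    simp only [Finset.mem_union, Finset.mem_filter] at a b
    tauto
  · rw [Finset.disjoint_left]
    intro v a b
    obtain ⟨a1, a2⟩ := Finset.mem_filter.1 a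
    obtain ⟨-, -, t, -, ht, -⟩ := mem_Vs.1 a1
    have p := a2 t ht
    have q := (Finset.mem_filter.1 b).2 t ht
    rw [inner_neg_right] at q
    exact A.gen c t (by linarith)

open Classical in
lemma dir_count {d : E} (hg : ∀ c t, ⟪A.ℓ c t, d⟫ ≠ 0) :
    ∑ c, ((Vs (A.ℓ c)).filter fun v => d ∈ Tc (A.ℓ c) v).card =
      (A.V.filter fun v => A.Tan v d).card := by
  rw [← Finset.card_biUnion]
  · congr 1
    ext v
    simp only [Finset.mem_biUnion, Finset.mem_univ, true_and, Finset.mem_filter, mem_Vs]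
    exact ⟨fun ⟨c, a, b⟩ => ⟨A.memV a, c, a.2.1, b⟩, fun ⟨a, c, b⟩ => ⟨c, A.isV a b.1, b.2⟩⟩
  · intro c _ c' _ hne
    rw [Function.onFun, Finset.disjoint_left]
    intro v a b
    simp only [Finset.mem_filter, mem_Vs] at a b
    exact hne (A.uniq (hg c) ⟨a.1.2.1, a.2⟩ ⟨b.1.2.1, b.2⟩)

lemma sil_count : A.SilF.card + A.neg.SilF.card ≤ 2 * Fintype.card C := by
  classical
  rw [← Finset.card_union_of_disjoint]
  · have : A.SilF ∪ A.neg.SilF ⊆ Finset.univ.biUnion fun c =>
        ((Vs (A.ℓ c)).filter fun v => A.y ∉ Tc (A.ℓ c) v ∧ -A.y ∉ Tc (A.ℓ c) v).image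
          fun v => (c, v) := by
      intro p hp
      simp only [Finset.mem_biUnion, Finset.mem_univ, true_and, Finset.mem_image,
        Finset.mem_filter, mem_Vs]
      rcases Finset.mem_union.1 hp with q | q
      · have := (Finset.mem_filter.1 q).2
        exact ⟨p.1, p.2, ⟨this.1, this.2.1, this.2.2.1⟩, rfl⟩
      · have := (Finset.mem_filter.1 q).2
        exact ⟨p.1, p.2, ⟨this.1, this.2.1, this.2.2.1⟩, rfl⟩
    refine (Finset.card_le_card this).trans (Finset.card_biUnion_le.trans ?_)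
    rw [mul_comm, ← Finset.card_univ, ← smul_eq_mul]
    refine Finset.sum_le_card_nsmul _ _ _ fun c _ => Finset.card_image_le.trans (le_of_eq ?_)
    convert silhouette (A.hl c) (A.hne c) (A.pointed c) (A.gen c)
      (fun k => by simpa [A.oy] using A.ho c _ k A.y_ne)
      (fun k => by simpa [A.oy] using A.ho c _ k (neg_ne_zero.2 A.y_ne))
  · rw [Finset.disjoint_left]
    intro p a b
    obtain ⟨h1, h2, h3, u, hu⟩ := (Finset.mem_filter.1 a).2
    obtain ⟨-, -, -, u', hu'⟩ := (Finset.mem_filter.1 b).2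
    have k : (u + u') • A.y ∈ Tc (A.ℓ p.1) p.2 := by
      have := Tc_add hu.2 hu'.2
      convert this using 1
      change _ = A.s + u • A.y + (-A.s + u' • A.y)
      module
    have z := Tc_sign k h2 h3
    obtain ⟨-, -, t1, t2, a1, a2, g⟩ := h1
    have w : ∀ t, ⟪A.ℓ p.1 t, p.2⟫ = 0 → ⟪A.ℓ p.1 t, A.s + u • A.y⟫ = 0 := fun t ht => by
      have q1 := hu.2 t ht
      have q2 : 0 ≤ ⟪A.ℓ p.1 t, -A.s + u' • A.y⟫ := hu'.2 t ht
      have : -A.s + u' • A.y = -(A.s + u • A.y) := by
        rw [show u' = -u by linarith]; module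
      rw [this, inner_neg_right] at q2
      linarith
    obtain ⟨d, hd⟩ := A.hne p.1
    have v0 : p.2 ≠ 0 := fun q => by
      have := (Finset.mem_filter.1 a).2.1.1; rw [q] at this; simp at this
    obtain ⟨l, β, γ, e⟩ := decomp v0 hu.1 d
    have m : (γ - β * u) • A.y ∈ Tc (A.ℓ p.1) p.2 ∧
        0 < (γ - β * u) * ⟪A.ℓ p.1 t1, A.y⟫ := by
      have : ∀ t, ⟪A.ℓ p.1 t, p.2⟫ = 0 → 0 < (γ - β * u) * ⟪A.ℓ p.1 t, A.y⟫ := fun t ht => by
        have q1 := hd t
        have q2 := w t ht
        rw [e] at q1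
        simp only [inner_add_right, inner_smul_right, ht] at q1 q2
        have : ⟪A.ℓ p.1 t, A.s⟫ = -(u * ⟪A.ℓ p.1 t, A.y⟫) := by linarith
        rw [this] at q1
        linarith
      exact ⟨fun t ht => by rw [inner_smul_right]; exact (this t ht).le, this t1 a1⟩
    have := m.2
    rw [Tc_sign m.1 h2 h3] at this
    simp at this

lemma all_tan {w : E} (hw : w ∈ A.V) (h1 : A.All w) (h2 : A.neg.All w) (d : E) : A.Tan w d := by
  obtain ⟨c0, h0, -⟩ := h1 0
  have w0 : w ≠ 0 := fun q => by have := (A.isV hw h0).1; rw [q] at this; simp at this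
  obtain ⟨l, β, γ, rfl⟩ := decomp w0 h0 d
  have k : ∀ (x : E) (r : ℝ), 0 ≤ r → A.Tan w x → A.Tan w (l • w + r • x) := fun x r hr ⟨c, a, b⟩ =>
    ⟨c, a, Tc_add (Tc_line w l) (Tc_smul b hr)⟩
  rcases lt_trichotomy β 0 with q | q | q
  · have := k _ (-β) (by linarith) (h2 (γ / -β))
    convert this using 2
    change _ = -β • (-A.s + (γ / -β) • A.y)
    rw [smul_add, smul_smul, mul_div_cancel₀ _ (neg_ne_zero.2 q.ne)]; module
  · subst q
    rcases le_total 0 γ with p | p
    · simpa using k _ γ p (A.RU_up (u := 0) fun x _ => h1 x)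
    · simpa using k _ (-γ) (by linarith) (A.RD_dn (u := 0) fun x _ => h1 x)
  · have := k _ β q.le (h1 (γ / β))
    rwa [smul_add, smul_smul, mul_div_cancel₀ _ q.ne'] at this

open Classical in
noncomputable def VI : Finset E := A.V.filter fun w => ∀ d, A.Tan w d

theorem euler {R : Finset C} (hR : A.Conn R) :
    A.V.card + A.VI.card + 2 * Fintype.card C ≤ ∑ c, (Vs (A.ℓ c)).card + 2 * R.card := by
  classical
  have h1 := A.one_side hR
  have h2 := A.neg.one_side (R := R) hR
  have h3 := A.sil_count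
  have h4 := Finset.sum_congr (rfl : (Finset.univ : Finset C) = _) fun c _ => A.cell_count c
  rw [Finset.sum_add_distrib, Finset.sum_add_distrib, A.dir_count A.gen, A.dir_count A.gen',
    Finset.sum_const, Finset.card_univ, smul_eq_mul] at h4
  set U := A.V.filter fun v => A.Tan v A.y with hU
  set D := A.V.filter fun v => A.Tan v (-A.y) with hD
  have h5 := Finset.card_union_add_card_inter U D
  have nn : ∀ w, A.neg.neg.All w ↔ A.All w := fun w => by
    change (∀ u : ℝ, A.Tan w (- -A.s + u • A.y)) ↔ _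
    rw [neg_neg]; rfl
  have h6 : A.VI.card + A.MF.card + A.neg.MF.card ≤ (U ∩ D).card := by
    rw [← Finset.card_union_of_disjoint, ← Finset.card_union_of_disjoint]
    · refine Finset.card_le_card fun w hw => ?_
      simp only [Finset.mem_union, VI, MF, Finset.mem_filter] at hw
      simp only [hU, hD, Finset.mem_inter, Finset.mem_filter]
      rcases hw with (⟨a, b⟩ | ⟨a, b, -⟩) | ⟨a, b, -⟩
      · exact ⟨⟨a, b _⟩, a, b _⟩
      · exact ⟨⟨a, A.RU_up (u := 0) fun x _ => b x⟩, a, A.RD_dn (u := 0) fun x _ => b x⟩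
      · exact ⟨⟨a, A.neg.RU_up (u := 0) fun x _ => b x⟩, a, A.neg.RD_dn (u := 0) fun x _ => b x⟩
    · rw [Finset.disjoint_left]
      intro w a b
      simp only [Finset.mem_union, VI, MF, Finset.mem_filter, nn] at a b
      rcases a with a | a
      · exact b.2.2 fun u => a.2 _
      · exact b.2.2 a.2.1
    · rw [Finset.disjoint_left]
      intro w a b
      simp only [VI, MF, Finset.mem_filter] at a b
      exact b.2.2 fun u => a.2 _
  have h7 : A.V.card ≤ (U ∪ D).card + (A.BF.card + A.neg.BF.card) := by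
    refine le_trans (Finset.card_le_card (t := (U ∪ D) ∪ (A.BF ∪ A.neg.BF)) fun w hw => ?_)
      ((Finset.card_union_le _ _).trans (Nat.add_le_add_left (Finset.card_union_le _ _) _))
    by_cases k : w ∈ U ∪ D
    · exact Finset.mem_union_left _ k
    simp only [hU, hD, Finset.mem_union, Finset.mem_filter, hw, true_and, not_or] at k
    obtain ⟨c, -, hc⟩ := Finset.mem_biUnion.1 hw
    have hv := mem_Vs.1 hc
    have a : A.y ∉ Tc (A.ℓ c) w := fun q => k.1 ⟨c, hv.2.1, q⟩
    have b : -A.y ∉ Tc (A.ℓ c) w := fun q => k.2 ⟨c, hv.2.1, q⟩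
    refine Finset.mem_union_right _ (Finset.mem_union.2 ((side (Or.inl hv)).imp (fun q => ?_)
      fun q => ?_))
    · exact Finset.mem_filter.2 ⟨hw, c, ⟨hv, a, b, q⟩, fun u _ =>
        ⟨fun r => k.1 (A.RU_up r), fun r => k.2 (A.RD_dn r)⟩⟩
    · exact Finset.mem_filter.2 ⟨hw, c, ⟨hv, a, b, q⟩, fun u _ =>
        ⟨fun r => k.1 (A.neg.RU_up r), fun r => k.2 (A.neg.RD_dn r)⟩⟩
  omega

end Arr

end Pool.Agent.Lib.MP_e5885b_co
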