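import Mathlib

set_option autoImplicit false
set_option linter.unusedSectionVars false

open Finset

namespace Pool.Agent.Lib.MP_e5885b_co.Fold

variable {S Λ : Type} [Fintype S] [DecidableEq S]

def nc (c : S → ℕ) (D : Finset S) : ℕ := (D.image c).card

def mg (c : S → ℕ) (x y : S) : S → ℕ := fun z => if c z = c y then c x else c z

def Ref {α : Type} (c : S → ℕ) (f : S → α) : Prop := ∀ x y, c x = c y → f x = f y

lemma det {A B X : Type} [DecidableEq A] [DecidableEq B] (D : Finset X) (a : X → A) (b : X → B)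
    (h : ∀ x ∈ D, ∀ y ∈ D, a x = a y → b x = b y) : (D.image b).card ≤ (D.image a).card := by
  refine card_le_card_of_forall_subsingleton (fun v u => ∃ x ∈ D, b x = v ∧ a x = u)
    (fun v hv => ?_) fun u _ => ?_
  · obtain ⟨x, hx, rfl⟩ := mem_image.1 hv
    exact ⟨a x, mem_image_of_mem _ hx, x, hx, rfl, rfl⟩
  · rintro _ ⟨-, x, hx, rfl, p⟩ _ ⟨-, y, hy, rfl, q⟩
    exact h x hx y hy (p.trans q.symm)

lemma nc_ref {c c' : S → ℕ} (h : Ref c c') (D : Finset S) : nc c' D ≤ nc c D :=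
  det D c c' fun x _ y _ => h x y

lemma nc_mono (c : S → ℕ) {D D' : Finset S} (h : D ⊆ D') : nc c D ≤ nc c D' :=
  card_le_card (image_subset_image h)

lemma nc_union (c : S → ℕ) (D D' : Finset S) : nc c (D ∪ D') ≤ nc c D + nc c D' := by
  unfold nc; rw [image_union]; exact card_union_le _ _

lemma mg_ref (c : S → ℕ) (x y : S) : Ref c (mg c x y) := fun a b h => by simp [mg, h]

lemma mg_eq (c : S → ℕ) (x y : S) : mg c x y x = mg c x y y := by simp [mg]

lemma ref_mg {α : Type} {c : S → ℕ} {f : S → α} {x y : S} (h : Ref c f) (e : f x = f y) :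
    Ref (mg c x y) f := fun a b k => by
  unfold mg at k
  split_ifs at k with p q q
  · exact h _ _ (p.trans q.symm)
  · rw [h _ _ p, ← e, h _ _ k]
  · rw [h _ _ q, ← e, h _ _ k]
  · exact h _ _ k

lemma mg_triv {c : S → ℕ} {x y : S} (h : c x = c y) : mg c x y = c := by
  funext z; unfold mg; split_ifs with p
  · rw [h, p]
  · rfl

lemma nc_mg {c : S → ℕ} {x y : S} {D : Finset S} (hx : x ∈ D) (hy : y ∈ D) (h : c x ≠ c y) :
    nc (mg c x y) D + 1 = nc c D := by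
  unfold nc
  rw [← card_erase_add_one (mem_image_of_mem c hy)]
  congr 2
  ext n
  simp only [mem_image, mem_erase, mg]
  constructor
  · rintro ⟨z, hz, rfl⟩
    split_ifs with p
    · exact ⟨h, x, hx, rfl⟩
    · exact ⟨p, z, hz, rfl⟩
  · rintro ⟨p, z, hz, rfl⟩
    exact ⟨z, hz, if_neg p⟩

lemma nc_mg' (c : S → ℕ) (x y : S) : nc c univ ≤ nc (mg c x y) univ + 1 := by
  by_cases h : c x = c y
  · rw [mg_triv h]; omega
  · exact (nc_mg (mem_univ _) (mem_univ _) h).ge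

def sq (c : S → ℕ) (p q : ℕ → S) : ℕ → S → ℕ
  | 0 => c
  | a + 1 => mg (sq c p q a) (p a) (q a)

structure St (σ : Equiv.Perm S) (ℓ : S → Λ) where
  e : S → ℕ
  v : S → ℕ
  h1 : Ref e v
  h2 : Ref e fun x => v (σ x)
  h3 : Ref e ℓ

variable {σ : Equiv.Perm S} {ℓ : S → Λ}

def St.Le (A B : St σ ℓ) : Prop := Ref A.e B.e ∧ Ref A.v B.v

def St.rk (A : St σ ℓ) : ℤ := (nc A.e univ : ℤ) - nc A.v univ

lemma St.Le.trans {A B C : St σ ℓ} (h : A.Le B) (k : B.Le C) : A.Le C :=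
  ⟨fun _ _ e => k.1 _ _ (h.1 _ _ e), fun _ _ e => k.2 _ _ (h.2 _ _ e)⟩

lemma St.lrefl (A : St σ ℓ) : A.Le A := ⟨fun _ _ e => e, fun _ _ e => e⟩

def Mt (σ : Equiv.Perm S) (ℓ : S → Λ) (D : Finset S) (p q : ℕ → S) (m : ℕ) : Prop :=
  (∀ i, p (i + 1) = σ (p i)) ∧ (∀ i, q (i + 1) = σ (q i)) ∧
    ∀ i < m, p i ∈ D ∧ q i ∈ D ∧ ℓ (p i) = ℓ (q i)

lemma add (A : St σ ℓ) {D : Finset S} {p q : ℕ → S} {m : ℕ} (h : Mt σ ℓ D p q m) {M : ℕ}
    (hM : M ≤ m) : ∃ B : St σ ℓ, A.Le B ∧ M * B.rk + nc B.e D ≤ M * A.rk + nc A.e D ∧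
      B.v (p 0) = B.v (q 0) ∧ B.v (p m) = B.v (q m) := by
  obtain ⟨hp, hq, hD⟩ := h
  have key : ∀ a ≤ m, Ref (sq A.e p q a) (sq A.v p q a) ∧
      (Ref (sq A.e p q a) fun x => sq A.v p q (a + 1) (σ x)) ∧ Ref (sq A.e p q a) ℓ ∧
      Ref A.e (sq A.e p q a) ∧ Ref A.v (sq A.v p q (a + 1)) ∧
      sq A.v p q (a + 1) (p 0) = sq A.v p q (a + 1) (q 0) ∧
      nc (sq A.e p q a) univ + nc A.v univ ≤ nc A.e univ + nc (sq A.v p q a) univ ∧
      (nc (sq A.e p q a) univ + nc A.v univ ≤ nc A.e univ + nc (sq A.v p q (a + 1)) univ ∨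
        nc (sq A.e p q a) D + a ≤ nc A.e D) := by
    intro a
    induction a with
    | zero =>
      exact fun _ => ⟨A.h1, fun x y e => mg_ref _ _ _ _ _ (A.h2 x y e), A.h3, fun _ _ e => e,
        mg_ref _ _ _, mg_eq _ _ _, le_rfl, Or.inr le_rfl⟩
    | succ a ih =>
      intro ha
      obtain ⟨k1, k2, k3, k4, k5, k6, k7, k8⟩ := ih (by omega)
      obtain ⟨d1, d2, d3⟩ := hD a (by omega)
      refine ⟨ref_mg (fun x y e => mg_ref _ _ _ _ _ (k1 x y e)) (mg_eq _ _ _),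
        ref_mg (fun x y e => mg_ref _ _ _ _ _ (k2 x y e)) (by
          rw [← hp, ← hq]; exact mg_eq _ _ _), ref_mg k3 d3,
        fun x y e => mg_ref _ _ _ _ _ (k4 x y e), fun x y e => mg_ref _ _ _ _ _ (k5 x y e),
        mg_ref _ _ _ _ _ k6, ?_⟩
      by_cases t : sq A.e p q a (p a) = sq A.e p q a (q a)
      · have e1 : sq A.e p q (a + 1) = sq A.e p q a := mg_triv t
        have e2 : sq A.v p q (a + 1) = sq A.v p q a := mg_triv (k1 _ _ t)
        have e3 : sq A.v p q (a + 1 + 1) = sq A.v p q (a + 1) :=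
          mg_triv (by rw [hp, hq]; exact k2 _ _ t)
        rw [e3, e2, e1]
        exact ⟨k7, Or.inl k7⟩
      · have e1 : nc (sq A.e p q (a + 1)) univ + 1 = _ := nc_mg (mem_univ _) (mem_univ _) t
        have e2 : nc (sq A.e p q (a + 1)) D + 1 = _ := nc_mg d1 d2 t
        have e3 : _ ≤ nc (sq A.v p q (a + 1)) univ + 1 := nc_mg' (sq A.v p q a) _ _
        have e4 : _ ≤ nc (sq A.v p q (a + 1 + 1)) univ + 1 := nc_mg' (sq A.v p q (a + 1)) _ _
        omega
  obtain ⟨k1, k2, k3, k4, k5, k6, k7, k8⟩ := key m le_rfl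
  refine ⟨⟨_, sq A.v p q (m + 1), fun x y e => mg_ref _ _ _ _ _ (k1 x y e), k2, k3⟩, ⟨k4, k5⟩, ?_,
    k6, mg_eq _ _ _⟩
  have e3 : _ ≤ nc (sq A.v p q (m + 1)) univ + 1 := nc_mg' (sq A.v p q m) _ _
  have e4 := nc_ref k4 D
  simp only [St.rk]
  rcases k8 with k | k
  · have : (nc (sq A.e p q m) univ : ℤ) - nc (sq A.v p q (m + 1)) univ ≤
        nc A.e univ - nc A.v univ := by omega
    have := mul_le_mul_of_nonneg_left this (Int.natCast_nonneg M)
    omega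
  · have : (nc (sq A.e p q m) univ : ℤ) - nc (sq A.v p q (m + 1)) univ ≤
        nc A.e univ - nc A.v univ + 1 := by omega
    have := mul_le_mul_of_nonneg_left this (Int.natCast_nonneg M)
    rw [mul_add] at this
    omega

lemma win (A : St σ ℓ) (D : Finset S) {M a : ℕ} (hM : 0 < M) (hD : nc A.e D ≤ a * M) :
    ∃ B : St σ ℓ, A.Le B ∧ B.rk ≤ A.rk + a ∧ ∀ p q m, Mt σ ℓ D p q m → M ≤ m →
      B.v (p 0) = B.v (q 0) ∧ B.v (p m) = B.v (q m) := by
  obtain ⟨B, ⟨b1, b2⟩, hB⟩ := (measure fun B : St σ ℓ => nc B.v univ).wf.has_min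
    {B | A.Le B ∧ M * B.rk + nc B.e D ≤ M * A.rk + nc A.e D} ⟨A, A.lrefl, le_rfl⟩
  refine ⟨B, b1, ?_, fun p q m h hm => ?_⟩
  · have : (nc A.e D : ℤ) ≤ a * M := by exact_mod_cast hD
    have h0 : (0 : ℤ) < M := by exact_mod_cast hM
    refine le_of_mul_le_mul_left ?_ h0
    have := Int.natCast_nonneg (nc B.e D)
    linarith
  · obtain ⟨C, c1, c2, c3, c4⟩ := add B h hm
    have k : ¬nc C.v univ < nc B.v univ := hB C ⟨b1.trans c1, c2.trans b2⟩
    have : ∀ x y, C.v x = C.v y → B.v x = B.v y := fun x y e => by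
      by_contra n
      have h1 := nc_mg (mem_univ _) (mem_univ _) n
      have h2 := nc_ref (ref_mg c1.2 e) univ
      omega
    exact ⟨this _ _ c3, this _ _ c4⟩

open Classical in
lemma fiber {e f : S → ℕ} (h : Ref e f) {ρ : ℕ} (hr : nc e univ ≤ nc f univ + ρ) :
    nc e (univ.filter fun x => ∃ y, f x = f y ∧ e x ≠ e y) ≤ 2 * ρ := by
  set B := univ.filter fun x => ∃ y, f x = f y ∧ e x ≠ e y with hB
  have mB : ∀ x, x ∈ B ↔ ∃ y, f x = f y ∧ e x ≠ e y := fun x => by simp [hB]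
  have h1 : nc e B + nc e Bᶜ ≤ nc e univ := by
    unfold nc
    rw [← card_union_of_disjoint, ← image_union, union_compl]
    refine disjoint_left.2 fun n a b => ?_
    obtain ⟨x, hx, rfl⟩ := mem_image.1 a
    obtain ⟨x', hx', k⟩ := mem_image.1 b
    obtain ⟨y, p, q⟩ := (mB x).1 hx
    exact mem_compl.1 hx' ((mB x').2 ⟨y, (h _ _ k).trans p, k ▸ q⟩)
  have h2 := nc_union f B Bᶜ
  rw [union_compl] at h2
  have h3 := nc_ref h Bᶜ
  have h4 : nc f B * 2 ≤ nc e B * 1 := by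
    refine card_mul_le_card_mul (fun u w => ∃ x ∈ B, f x = u ∧ e x = w) (fun u hu => ?_)
      fun w _ => card_le_one.2 fun a ha b hb => ?_
    · obtain ⟨x, hx, rfl⟩ := mem_image.1 hu
      obtain ⟨y, p, q⟩ := (mB x).1 hx
      have hy := (mB y).2 ⟨x, p.symm, q.symm⟩
      exact one_lt_card.2 ⟨e x, mem_filter.2 ⟨mem_image_of_mem _ hx, x, hx, rfl, rfl⟩, e y,
        mem_filter.2 ⟨mem_image_of_mem _ hy, y, hy, p.symm, rfl⟩, q⟩
    · obtain ⟨-, x, -, rfl, p⟩ := mem_filter.1 ha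
      obtain ⟨-, y, -, rfl, q⟩ := mem_filter.1 hb
      exact h _ _ (p.trans q.symm)
  omega

namespace St

variable (A : St σ ℓ)

def OB (x : S) : Prop := ∃ y, A.v x = A.v y ∧ A.e x ≠ A.e y

def BV (x : S) : Prop := A.OB x ∨ ∃ y, A.v x = A.v (σ y) ∧ A.e (σ.symm x) ≠ A.e y

variable {A}

lemma bv_congr {x x' : S} (h : A.v x = A.v x') (k : A.BV x) : A.BV x' := by
  rcases k with ⟨y, p, q⟩ | ⟨y, p, q⟩
  · by_cases e : A.e x' = A.e y
    · exact Or.inl ⟨x, h.symm, by rw [e]; exact q.symm⟩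
    · exact Or.inl ⟨y, h.symm.trans p, e⟩
  · by_cases e : A.e (σ.symm x') = A.e y
    · exact Or.inr ⟨σ.symm x, by simpa using h.symm, by rw [e]; exact q.symm⟩
    · exact Or.inr ⟨y, h.symm.trans p, e⟩

open Classical in
lemma bv_card {ρ : ℕ} (h : A.rk ≤ ρ) : nc A.e (univ.filter A.BV) ≤ 4 * ρ := by
  have r1 : nc A.e univ ≤ nc A.v univ + ρ := by unfold rk at h; omega
  have r2 : nc A.v univ ≤ nc (fun x => A.v (σ x)) univ := card_le_card fun n hn => by
    obtain ⟨x, -, rfl⟩ := mem_image.1 hn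
    exact mem_image.2 ⟨σ.symm x, mem_univ _, by simp⟩
  have h1 := fiber A.h1 r1
  have h2 := fiber A.h2 (r1.trans (Nat.add_le_add_right r2 ρ))
  have h3 : nc A.e (univ.filter fun x => A.BV x ∧ ¬A.OB x) ≤
      nc (fun x => A.e (σ.symm x)) (univ.filter fun x => A.BV x ∧ ¬A.OB x) :=
    det _ _ _ fun x hx y _ e => by
      by_contra n
      exact (mem_filter.1 hx).2.2 ⟨y, by simpa using A.h2 _ _ e, n⟩
  have h4 : nc (fun x => A.e (σ.symm x)) (univ.filter fun x => A.BV x ∧ ¬A.OB x) ≤ 2 * ρ := by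
    refine le_trans (card_le_card fun n hn => ?_) h2
    obtain ⟨x, hx, rfl⟩ := mem_image.1 hn
    obtain ⟨y, p, q⟩ := (mem_filter.1 hx).2.1.resolve_left (mem_filter.1 hx).2.2
    exact mem_image_of_mem _ (mem_filter.2 ⟨mem_univ _, y, by simpa using p, q⟩)
  have h5 := (nc_mono A.e (D := univ.filter A.BV) (fun x hx => by
    by_cases o : A.OB x
    · exact mem_union_left _ (mem_filter.2 ⟨mem_univ _, o⟩)
    · exact mem_union_right _ (mem_filter.2 ⟨mem_univ _, (mem_filter.1 hx).2, o⟩))).trans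
    (nc_union A.e (univ.filter fun x => ∃ y, A.v x = A.v y ∧ A.e x ≠ A.e y)
      (univ.filter fun x => A.BV x ∧ ¬A.OB x))
  omega

lemma cont {x x' : S} (h : A.e x = A.e x') (i : ℕ) (k : ∀ j, 0 < j → j ≤ i → ¬A.BV (σ^[j] x)) :
    A.e (σ^[i] x) = A.e (σ^[i] x') := by
  induction i with
  | zero => exact h
  | succ i ih =>
    by_contra n
    refine k (i + 1) i.succ_pos le_rfl (Or.inl ⟨_, ?_, n⟩)
    rw [Function.iterate_succ_apply', Function.iterate_succ_apply']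
    exact A.h2 _ _ (ih fun j a b => k j a (by omega))

variable (A)

def Fst (x : S) (z : ℕ) : Prop :=
  A.BV x ∧ 0 < z ∧ A.BV (σ^[z] x) ∧ ∀ j, 0 < j → j < z → ¬A.BV (σ^[j] x)

open Classical in
noncomputable def Z (L : ℕ) : Finset ℕ := (range (L + 1)).filter fun z => ∃ x, A.Fst x z

open Classical in
noncomputable def Seg (L : ℕ) : Finset S :=
  univ.filter fun y => ∃ x i z, A.Fst x z ∧ z ≤ L ∧ i < z ∧ y = σ^[i] x

variable {A}

lemma fst_le {x x' : S} {z z' : ℕ} (h : A.e x = A.e x') (a : A.Fst x z) (b : A.Fst x' z') :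
    z' ≤ z := by
  by_contra n
  obtain ⟨-, a1, a2, a3⟩ := a
  obtain ⟨z, rfl⟩ : ∃ y, z = y + 1 := ⟨z - 1, by omega⟩
  refine b.2.2.2 (z + 1) a1 (by omega) (bv_congr ?_ a2)
  rw [Function.iterate_succ_apply', Function.iterate_succ_apply']
  exact A.h2 _ _ (cont h z fun j p q => a3 j p (by omega))

lemma Z_card {ρ : ℕ} (h : A.rk ≤ ρ) (L : ℕ) : (A.Z L).card ≤ 4 * ρ := by
  classical
  refine le_trans (card_le_card_of_forall_subsingleton (fun z w => ∃ x, A.Fst x z ∧ A.e x = w)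
    (fun z hz => ?_) fun w _ => ?_) (bv_card h)
  · obtain ⟨x, hx⟩ := (mem_filter.1 hz).2
    exact ⟨_, mem_image_of_mem _ (mem_filter.2 ⟨mem_univ x, hx.1⟩), x, hx, rfl⟩
  · rintro z ⟨-, x, a, p⟩ z' ⟨-, x', b, q⟩
    exact le_antisymm (fst_le (q.trans p.symm) b a) (fst_le (p.trans q.symm) a b)

lemma Seg_card {ρ : ℕ} (h : A.rk ≤ ρ) (L : ℕ) : nc A.e (A.Seg L) ≤ 4 * ρ * (A.Z L).sup id := by
  classical
  refine le_trans (card_le_card_of_forall_subsingleton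
    (t := (univ.filter A.BV).image A.e ×ˢ range ((A.Z L).sup id))
    (fun u w => ∃ x z, A.Fst x z ∧ w.2 < z ∧ A.e x = w.1 ∧ A.e (σ^[w.2] x) = u)
    (fun u hu => ?_) fun w _ => ?_) ?_
  · obtain ⟨y, hy, rfl⟩ := mem_image.1 hu
    obtain ⟨x, i, z, a, b, c, rfl⟩ := (mem_filter.1 hy).2
    exact ⟨(A.e x, i), mem_product.2 ⟨mem_image_of_mem _ (mem_filter.2 ⟨mem_univ x, a.1⟩),
      mem_range.2 (c.trans_le (le_sup (f := id)
        (mem_filter.2 ⟨mem_range.2 (by omega), x, a⟩)))⟩, x, z, a, c, rfl, rfl⟩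
  · rintro _ ⟨-, x, z, a, b, p, rfl⟩ _ ⟨-, x', z', -, -, q, rfl⟩
    exact cont (p.trans q.symm) _ fun j c d => a.2.2.2 j c (by omega)
  · rw [card_product, card_range]
    exact Nat.mul_le_mul_right _ (bv_card h)

lemma mem_Seg {L : ℕ} (n : ℕ) : ∀ (x : S) (i : ℕ), A.BV x → A.BV (σ^[n] x) → n ≤ L → i < n →
    σ^[i] x ∈ A.Seg L := by
  classical
  induction n using Nat.strong_induction_on with
  | _ n ih =>
    intro x i a b c d
    have ex : ∃ z, 0 < z ∧ A.BV (σ^[z] x) := ⟨n, by omega, b⟩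
    have h1 := Nat.find_spec ex
    have h2 : Nat.find ex ≤ n := Nat.find_min' ex ⟨by omega, b⟩
    by_cases k : i < Nat.find ex
    · exact mem_filter.2 ⟨mem_univ _, x, i, _, ⟨a, h1.1, h1.2,
        fun j p q r => Nat.find_min ex q ⟨p, r⟩⟩, by omega, k, rfl⟩
    · have := ih (n - Nat.find ex) (by omega) _ (i - Nat.find ex) h1.2 (by
        rwa [← Function.iterate_add_apply, Nat.sub_add_cancel h2]) (by omega) (by omega)
      rwa [← Function.iterate_add_apply, Nat.sub_add_cancel (by omega)] at this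

end St

end Pool.Agent.Lib.MP_e5885b_co.Fold
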