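import Pool.Agent.Lib.MP_e5885b_co.Sparse
import Pool.Agent.Lib.MP_e5885b_co.Cyc

set_option autoImplicit false
set_option linter.unusedSectionVars false

open Set Filter Topology
open scoped RealInnerProductSpace

namespace Pool.Agent.Lib.MP_e5885b_co

structure Pg (I J : Type) [Fintype I] where
  T : I → Set S
  V : I → J → S
  s : Equiv.Perm J
  A : Finset J
  cyc : ∀ j, ∃ a ∈ A, ∃ m : ℕ, s^[m] a = j
  cov : ∀ x, ∃ i, x ∈ T i
  cl : ∀ i, IsClosed (T i)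
  dis : Pairwise fun i j => Disjoint (interior (T i)) (interior (T j))
  reg : ∀ i, T i ⊆ closure (interior (T i))
  inj : ∀ i, ∀ j ∉ A, ∀ k, V i k = V i j → k = j
  li : ∀ i, ∀ j ∉ A, LinearIndependent ℝ ![(V i (s.symm j) : E), V i j, V i (s j)]
  lp : ∀ i j (α β : ℝ), α • (V i j : E) + β • (V i (s j) : E) = 0 → α = 0 ∧ β = 0
  sim : ∀ i j k, j ≠ k → ∀ x : S, (x : E) ∈ Cn (V i j) (V i (s j)) →
    (x : E) ∈ Cn (V i k) (V i (s k)) → x = V i j ∨ x = V i (s j)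
  fr : ∀ i (x : S), x ∈ frontier (T i) ↔ ∃ j, (x : E) ∈ Cn (V i j) (V i (s j))
  θ : J → ℝ
  lam : J → J → ℝ
  hlam : ∀ i j k, ⟪(V i j : E), (V i k : E)⟫ = lam j k
  τ : I → S → ℝ
  τpos : ∀ i x, x ∈ T i → 0 < τ i x
  τzero : ∀ i x, x ∉ T i → τ i x = 0
  τsum : ∀ x, ∑ i, τ i x = 1
  τV : ∀ i j, τ i (V i j) = θ j

namespace Pg

variable {I J : Type} [Fintype I] [Fintype J] (P : Pg I J)

def st (ε : Bool) (j : J) : J := if ε then P.s j else P.s.symm j

lemma st_not (j : J) (ε : Bool) : P.st (!ε) (P.st ε j) = j := by cases ε <;> simp [st]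

def Tr (x : S) : Prop := ∃ a b c, a ≠ b ∧ a ≠ c ∧ b ≠ c ∧ x ∈ P.T a ∧ x ∈ P.T b ∧ x ∈ P.T c

def Ct (x : S) : Prop := P.Tr x ∨ ∃ l, ∃ a ∈ P.A, x = P.V l a

def Ed (i : I) (j : J) (ε : Bool) : Set E := Cn (P.V i j) (P.V i (P.st ε j))

def Fr (i : I) (z : E) : Prop := ∃ j, z ∈ Cn (P.V i j) (P.V i (P.s j))

variable {P} {i i' : I} {x : S} {j k : J} {ε ε' : Bool}

lemma nT (h : ¬P.Ct x) : ¬P.Tr x := fun k => h (Or.inl k)

lemma nA (h : ¬P.Ct x) (e : x = P.V i j) : j ∉ P.A := fun k => h (Or.inr ⟨i, j, k, e⟩)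

lemma nperp (i : I) {j : J} (hj : j ∉ P.A) (ε : Bool) {e : E} (he : ‖e‖ = 1) (a : ⟪(P.V i j : E), e⟫ = 0)
    (b : ⟪(P.V i (P.st ε j) : E), e⟫ = 0) (c : ⟪(P.V i (P.st (!ε) j) : E), e⟫ = 0) : False := by
  have h := det_ne (P.li i j hj)
  have : ⟪(P.V i (P.s.symm j) : E), e⟫ = 0 ∧ ⟪(P.V i (P.s j) : E), e⟫ = 0 := by
    cases ε
    · exact ⟨b, c⟩
    · exact ⟨c, b⟩
  have k := expand (P.V i (P.s.symm j) : E) (P.V i j) e
  rw [real_inner_comm _ e, real_inner_comm _ e, real_inner_comm _ e, a, this.1, zero_smul, zero_smul,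
    add_zero, add_zero] at k
  have k2 := congrArg (fun z => ⟪z, (P.V i (P.s j) : E)⟫) k
  simp only [inner_smul_left, conj_trivial, real_inner_comm _ e, this.2, mul_zero] at k2
  rw [(mul_eq_zero.1 k2.symm).resolve_right h, zero_smul, smul_eq_zero, inner_self_eq_zero] at k
  rcases k with k | k
  · rw [k] at h; simp at h
  · rw [k] at he; simp at he

lemma li2 (i : I) (j : J) (ε : Bool) (α β : ℝ)
    (h : α • (P.V i j : E) + β • (P.V i (P.st ε j) : E) = 0) : α = 0 ∧ β = 0 := by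
  cases ε
  · exact (P.lp i (P.s.symm j) β α (by simpa [st, add_comm] using h)).symm
  · exact P.lp i j α β h

lemma ne1 (i : I) (j : J) (ε : Bool) : P.V i (P.st ε j) ≠ P.V i j := fun e => by
  simpa using (li2 i j ε 1 (-1) (by rw [e]; simp)).1

lemma ne2 (i : I) {j : J} (hj : j ∉ P.A) (ε : Bool) :
    P.V i (P.st ε j) ≠ P.V i (P.st (!ε) j) := fun e => by
  obtain ⟨f, he, a, c⟩ := exists_perp (P.V i j : E) (P.V i (P.st (!ε) j))
  exact nperp i hj ε he a (e ▸ c) c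

lemma Ed_eq (i : I) (j : J) (ε : Bool) : P.Ed i j ε =
    Cn (P.V i (if ε then j else P.s.symm j)) (P.V i (P.s (if ε then j else P.s.symm j))) := by
  cases ε
  · simp [Ed, st, Cn_comm (P.V i j : E)]
  · simp [Ed, st]

lemma Ed_fr {z : E} (h : z ∈ P.Ed i j ε) : P.Fr i z := ⟨_, Ed_eq i j ε ▸ h⟩

lemma Ed_T (h : (x : E) ∈ P.Ed i j ε) : x ∈ P.T i :=
  (P.cl i).frontier_subset ((P.fr i x).2 (Ed_fr h))

lemma V_T (i : I) (j : J) : P.V i j ∈ P.T i := Ed_T (ε := true) (Cn_left _ _)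

lemma vtx {m : J} (h : (P.V i m : E) ∈ P.Ed i j ε) :
    P.V i m = P.V i j ∨ P.V i m = P.V i (P.st ε j) := by
  rw [Ed_eq] at h
  have : P.V i m = P.V i (if ε then j else P.s.symm j) ∨
      P.V i m = P.V i (P.s (if ε then j else P.s.symm j)) := by
    by_cases e : (if ε then j else P.s.symm j) = m
    · exact Or.inl (by rw [e])
    · exact P.sim i _ m e _ h (Cn_left _ _)
  cases ε
  · simpa [st, or_comm] using this
  · simpa [st] using this

lemma two {l : I} (h : ¬P.Tr x) (hi : i ≠ i') (a : x ∈ P.T i) (b : x ∈ P.T i') (c : x ∈ P.T l) :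
    l = i ∨ l = i' := by
  by_contra k
  push Not at k
  exact h ⟨i, i', l, hi, k.1.symm, k.2.symm, a, b, c⟩

lemma fr_two (hi : i ≠ i') (a : x ∈ P.T i) (b : x ∈ P.T i') : x ∈ frontier (P.T i) := by
  refine ⟨subset_closure a, fun k => ?_⟩
  obtain ⟨y, p, q⟩ := mem_closure_iff.1 (P.reg i' b) _ isOpen_interior k
  exact disjoint_left.1 (P.dis hi) p q

lemma nbhd (x : S) : IsOpen {y | ∀ l, x ∉ P.T l → y ∉ P.T l} := by
  simp only [ofPred_forall]
  exact isOpen_iInter_of_finite fun l => isOpen_iInter_of_finite fun _ => (P.cl l).isOpen_compl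

lemma other (h : x ∈ frontier (P.T i)) : ∃ l, l ≠ i ∧ x ∈ P.T l := by
  by_contra k
  push Not at k
  refine h.2 (interior_maximal (fun y hy => ?_) (nbhd (P := P) x) fun l a => a)
  obtain ⟨l, hl⟩ := P.cov y
  by_cases e : l = i
  · exact e ▸ hl
  · exact absurd hl (hy l (k l e))

lemma fr_nz {z : E} (h : z ≠ 0) : nz z h ∈ frontier (P.T i) ↔ P.Fr i z := by
  rw [P.fr]
  refine exists_congr fun j => ⟨fun k => ?_, fun k => Cn_smul k (by positivity)⟩
  have := Cn_smul k (norm_nonneg z)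
  rwa [nz, smul_inv_smul₀ (norm_ne_zero_iff.2 h)] at this

lemma K1 (h : ¬P.Tr x) (hi : i ≠ i') (a : x ∈ P.T i) (b : x ∈ P.T i') {d : E}
    (hd : ∀ s : ℝ, 0 ≤ s → P.Fr i (x + s • d)) :
    ∃ k, (x : E) ∈ P.Ed i' k true ∧ ∃ s : ℝ, 0 < s ∧ x + s • d ∈ P.Ed i' k true := by
  have t : Tendsto (fun s : ℝ => (x : E) + s • d) (𝓝[>] 0) (𝓝 x) := by
    have : ContinuousAt (fun s : ℝ => (x : E) + s • d) 0 := by fun_prop
    simpa using this.tendsto.mono_left nhdsWithin_le_nhds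
  have e : ∀ᶠ s in 𝓝[>] (0 : ℝ), ∃ k, (x : E) + s • d ∈ P.Ed i' k true := by
    filter_upwards [t.eventually ((open_cone (nbhd (P := P) x)).mem_nhds
      ⟨S_ne x, by rw [nz_unit]; exact fun l a => a⟩), self_mem_nhdsWithin] with s ⟨p, q⟩ r
    have f := (fr_nz p).2 (hd s (le_of_lt r))
    obtain ⟨l, l1, l2⟩ := other f
    obtain rfl := (two h hi a b (by_contra fun c => q l c l2)).resolve_left l1
    exact (fr_nz p).1 (fr_two l1 l2 ((P.cl i).frontier_subset f))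
  obtain ⟨k, hk⟩ := frequently_exists.1 e.frequently
  obtain ⟨s, p, q⟩ := (hk.and_eventually self_mem_nhdsWithin).exists
  exact ⟨k, (Cn_closed (li2 i' k true)).mem_of_frequently_of_tendsto hk t, s, q, p⟩

lemma L1 (h : ¬P.Ct (P.V i j)) (hi : i ≠ i') (b : P.V i j ∈ P.T i') (ε : Bool) :
    ∃ k ε', P.V i j = P.V i' k ∧ Al (P.V i j) (P.V i (P.st ε j)) (P.V i' (P.st ε' k)) := by
  have K := fun ε => K1 (nT h) hi (V_T i j) b (d := P.V i (P.st ε j)) fun s hs =>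
    Ed_fr (j := j) (ε := ε) ⟨1, s, zero_le_one, hs, by simp⟩
  obtain ⟨k, a1, s, s0, a2⟩ := K ε
  obtain ⟨k', b1, t, t0, b2⟩ := K (!ε)
  have hk : k ≠ k' := by
    rintro rfl
    obtain ⟨e, he, p, q⟩ := exists_perp (P.V i' k : E) (P.V i' (P.st true k))
    have c0 := Cn_perp a1 p q
    have c1 := Cn_perp a2 p q
    have c2 := Cn_perp b2 p q
    simp only [inner_add_left, inner_smul_left, conj_trivial, c0, zero_add] at c1 c2
    exact nperp i (nA h rfl) ε he c0 ((mul_eq_zero.1 c1).resolve_left s0.ne')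
      ((mul_eq_zero.1 c2).resolve_left t0.ne')
  have fin : ∀ c : E, (P.V i j : E) + s • (P.V i (P.st ε j) : E) ∈ Cn (P.V i j) c →
      Al (P.V i j) (P.V i (P.st ε j)) c := by
    rintro c ⟨α, β, -, q, e⟩
    refine ⟨s⁻¹ * (α - 1), s⁻¹ * β, mul_pos (inv_pos.2 s0) (q.lt_of_ne ?_), ?_⟩
    · rintro rfl
      exact s0.ne' (li2 i j ε (1 - α) s (by linear_combination (norm := module) e)).2
    · rw [mul_smul, mul_smul, ← smul_add, eq_inv_smul_iff₀ s0.ne']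
      linear_combination (norm := module) e
  rcases P.sim i' k k' hk _ a1 b1 with e | e
  · exact ⟨k, true, e, fin _ (by rw [e] at a2 ⊢; exact a2)⟩
  · refine ⟨P.s k, false, e, fin _ ?_⟩
    rw [e] at a2 ⊢
    simpa [Ed, st, Cn_comm (P.V i' k : E)] using a2

lemma KA (h : ¬P.Ct (P.V i j)) (hi : i ≠ i') (e : P.V i j = P.V i' k)
    (f : P.V i (P.st ε j) = P.V i' (P.st ε' k)) (g : P.lam j (P.st (!ε) j) = P.lam k (P.st (!ε') k)) :
    P.V i (P.st (!ε) j) = P.V i' (P.st (!ε') k) := by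
  obtain ⟨k', η, p, q⟩ := L1 h hi (e ▸ V_T i' k) (!ε)
  obtain rfl := P.inj i' _ (nA h p) _ (e.symm.trans p)
  by_cases c : η = ε'
  · obtain ⟨α, β, -, r⟩ := q
    obtain ⟨u, he, a, b⟩ := exists_perp (P.V i j : E) (P.V i (P.st ε j))
    exact (nperp i (nA h rfl) ε he a b (by
      rw [r, c, ← f]; simp [inner_add_left, inner_smul_left, a, b])).elim
  · obtain rfl : η = !ε' := by cases η <;> cases ε' <;> simp_all
    exact al_eq q (by rw [P.hlam, g, e, P.hlam]) (e ▸ li2 i' k _)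

variable (P)

def Full (i : I) (j : J) (ε : Bool) : Prop :=
  ∃ i' k ε', i ≠ i' ∧ P.V i j = P.V i' k ∧ P.V i (P.st ε j) = P.V i' (P.st ε' k)

variable {P}

lemma full_uniq (h : ¬P.Ct (P.V i j)) (hi : i ≠ i') (e : P.V i j = P.V i' k)
    (f : P.V i (P.st ε j) = P.V i' (P.st ε' k)) (g : P.Full i j (!ε)) :
    P.V i (P.st (!ε) j) = P.V i' (P.st (!ε') k) := by
  obtain ⟨l, m, η, g1, g2, g3⟩ := g
  obtain rfl := (two (nT h) hi (V_T i j) (e ▸ V_T i' k) (g2 ▸ V_T l m)).resolve_left g1.symm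
  obtain rfl := P.inj l _ (nA h g2) _ (e.symm.trans g2)
  by_cases c : η = ε'
  · exact absurd (f.trans (c ▸ g3.symm)) (ne2 i (nA h rfl) ε)
  · obtain rfl : η = !ε' := by cases η <;> cases ε' <;> simp_all
    exact g3

lemma full_rev (h : P.Full i j ε) : P.Full i (P.st ε j) (!ε) := by
  obtain ⟨l, m, η, g1, g2, g3⟩ := h
  exact ⟨l, P.st η m, !η, g1, g3, by rw [st_not, st_not, g2]⟩

lemma L3 (h : ∀ x : S, (x : E) ∈ P.Ed i j ε → ¬P.Ct x) : P.Full i j ε := by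
  obtain ⟨l, l1, l2⟩ := other ((P.fr i (P.V i j)).2 ⟨j, Cn_left _ _⟩)
  obtain ⟨k, η, p, α, β, q, r⟩ := L1 (h _ (Cn_left _ _)) l1.symm l2 ε
  refine ⟨l, k, η, l1.symm, p, ?_⟩
  rcases le_or_gt 0 α with c | c
  · have m : (P.V i (P.st ε j) : E) ∈ P.Ed l k η := ⟨α, β, c, q.le, p ▸ r⟩
    obtain ⟨k', -, t, -⟩ := L1 (h _ (by rw [Ed, Cn_comm]; exact Cn_left _ _)) l1.symm (Ed_T m) ε
    rw [t] at m ⊢
    exact (vtx m).resolve_left fun u => ne1 i j ε (t.trans (u.trans p.symm))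
  · have m : (P.V l (P.st η k) : E) ∈ P.Ed i j ε := ⟨β⁻¹ * -α, β⁻¹ * 1, by
      have := neg_pos.2 c; positivity, by positivity, by
      rw [mul_smul, mul_smul, ← smul_add, eq_inv_smul_iff₀ q.ne', r]; module⟩
    obtain ⟨k', -, t, -⟩ := L1 (h _ m) l1 (Ed_T m) ε
    rw [t] at m ⊢
    exact ((vtx m).resolve_left fun u => ne1 l k η (t.trans (u.trans p))).symm

lemma τ_two (h : ¬P.Tr x) (hi : i ≠ i') (a : x ∈ P.T i) (b : x ∈ P.T i') :
    P.τ i x + P.τ i' x = 1 := by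
  classical
  rw [← P.τsum x, ← Finset.sum_pair (f := fun l => P.τ l x) hi]
  refine Finset.sum_subset (Finset.subset_univ _) fun l _ hl => P.τzero _ _ fun c => hl ?_
  simpa using two h hi a b c

lemma τ_nonneg (i : I) (x : S) : 0 ≤ P.τ i x := by
  by_cases h : x ∈ P.T i
  · exact (P.τpos _ _ h).le
  · exact (P.τzero _ _ h).ge

lemma τ_three (h : P.Tr x) (hi : i ≠ i') : P.τ i x + P.τ i' x < 1 := by
  classical
  obtain ⟨l, l1, l2⟩ : ∃ l, l ∉ ({i, i'} : Finset I) ∧ x ∈ P.T l := by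
    obtain ⟨a, b, c, p, q, r, h⟩ := h
    by_contra k
    push Not at k
    have := fun l (hl : x ∈ P.T l) => (by_contra fun n => k l n hl : l ∈ ({i, i'} : Finset I))
    have h1 := this a h.1
    have h2 := this b h.2.1
    have h3 := this c h.2.2
    simp only [Finset.mem_insert, Finset.mem_singleton] at h1 h2 h3
    grind
  rw [← P.τsum x, ← Finset.sum_pair (f := fun l => P.τ l x) hi]
  exact Finset.sum_lt_sum_of_subset (Finset.subset_univ _) (Finset.mem_univ l) l1 (P.τpos _ _ l2)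
    fun l _ _ => τ_nonneg l x

end Pg

end Pool.Agent.Lib.MP_e5885b_co
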