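import Pool.Agent.Lib.MP_e5885b_co.Gen

set_option autoImplicit false
set_option linter.unusedSectionVars false

open MeasureTheory Set Filter Topology
open scoped RealInnerProductSpace

namespace Pool.Agent.Lib.MP_e5885b_co

namespace Pg

variable {I J : Type} [Fintype I] [Fintype J] (P : Pg I J)

def nx : Equiv.Perm (J × Bool × Bool) where
  toFun y := (P.st y.2.1 y.1, y.2)
  invFun y := (P.st (!y.2.1) y.1, y.2)
  left_inv y := by simp [st_not]
  right_inv y := by simpa using congrArg (·, y.2) (P.st_not y.1 (!y.2.1))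

lemma nx_orb (y : J × Bool × Bool) : ∃ a ∈ P.A, ∃ m : ℤ, (P.nx ^ m) (a, y.2) = y := by
  obtain ⟨j, ε, η⟩ := y
  obtain ⟨a, ha, m, rfl⟩ := P.cyc j
  refine ⟨a, ha, ?_⟩
  induction m with
  | zero => exact ⟨0, rfl⟩
  | succ m ih =>
    obtain ⟨k, hk⟩ := ih
    rw [Function.iterate_succ_apply']
    cases ε
    · exact ⟨-1 + k, by rw [zpow_add, Equiv.Perm.mul_apply, hk]; rfl⟩
    · exact ⟨1 + k, by rw [zpow_add, Equiv.Perm.mul_apply, hk]; rfl⟩

open Classical in
lemma edges (i : I) (x : S) : (Finset.univ.filter fun y : J × Bool × Bool =>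
    (x : E) ∈ P.Ed i y.1 y.2.1).card ≤ (2 * P.A.card + 2) * 4 := by
  have h : (Finset.univ.filter fun a => (x : E) ∈ P.Ed i a true).card ≤ 2 * P.A.card + 2 := by
    by_cases q : ∃ m, x = P.V i m
    · obtain ⟨m, rfl⟩ := q
      refine (Finset.card_le_card (t := insert m P.A ∪ (insert m P.A).image P.s.symm)
        fun a ha => ?_).trans ((Finset.card_union_le _ _).trans ?_)
      · have k : ∀ b, P.V i m = P.V i b → b ∈ insert m P.A := fun b e => by_contra fun c =>
          c (P.inj i b (fun d => c (Finset.mem_insert_of_mem d)) m e ▸ Finset.mem_insert_self _ _)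
        rcases vtx (Finset.mem_filter.1 ha).2 with e | e
        · exact Finset.mem_union_left _ (k _ e)
        · exact Finset.mem_union_right _ (Finset.mem_image.2 ⟨_, k _ e, by simp [st]⟩)
      · have := Finset.card_insert_le m P.A
        have := Finset.card_image_le (s := insert m P.A) (f := P.s.symm)
        omega
    · refine le_trans (Finset.card_le_one.2 fun a ha b hb => by_contra fun c => q ?_) (by omega)
      rcases P.sim i a b c x (Finset.mem_filter.1 ha).2 (Finset.mem_filter.1 hb).2 with e | e <;>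
        exact ⟨_, e⟩
  refine (Finset.card_le_card_of_injOn (t := (Finset.univ.filter fun a => (x : E) ∈ P.Ed i a true) ×ˢ
    Finset.univ) (fun y => (if y.2.1 then y.1 else P.s.symm y.1, y.2)) (fun y hy => ?_) ?_).trans ?_
  · have := (Finset.mem_filter.1 hy).2
    rw [Ed_eq] at this
    exact Finset.mem_product.2 ⟨Finset.mem_filter.2 ⟨Finset.mem_univ _, this⟩, Finset.mem_univ _⟩
  · rintro ⟨a, ε, η⟩ - ⟨b, ε', η'⟩ - e
    simp only [Prod.mk.injEq] at e
    obtain ⟨e, rfl, rfl⟩ := e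
    cases ε <;> simpa using e
  · rw [Finset.card_product]
    exact Nat.mul_le_mul_right _ h

lemma θ_mem (i : I) (j : J) : 0 ≤ P.θ j ∧ P.θ j ≤ 1 := by
  rw [← P.τV i, ← P.τsum (P.V i j)]
  exact ⟨τ_nonneg _ _, Finset.single_le_sum (f := fun l => P.τ l (P.V i j))
    (fun l _ => τ_nonneg l _) (Finset.mem_univ i)⟩

lemma edge_loc {i : I} {x : S}
    (hx : x ∈ frontier (P.T i)) (h : ∀ j, x ≠ P.V i j) : ∃ f : E, f ≠ 0 ∧ ⟪f, (x : E)⟫ = 0 ∧
      ∀ᶠ z in 𝓝 (x : E), ∀ h : z ≠ 0, nz z h ∈ frontier (P.T i) → ⟪f, z⟫ = 0 := by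
  obtain ⟨a, ha⟩ := (P.fr i x).1 hx
  obtain ⟨f, f1, p, q⟩ := exists_perp (P.V i a : E) (P.V i (P.s a))
  refine ⟨f, fun e => by simp [e] at f1, real_inner_comm f _ ▸ Cn_perp ha p q, ?_⟩
  have : ∀ᶠ z in 𝓝 (x : E), ∀ k, k ≠ a → z ∉ P.Ed i k true := by
    rw [eventually_all]
    intro k
    by_cases e : k = a
    · simp [e]
    · refine (((Cn_closed (li2 i k true)).isOpen_compl).eventually_mem fun c => ?_).mono
        fun z hz _ => hz
      rcases P.sim i k a e x c ha with t | t <;> exact h _ t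
  filter_upwards [this] with z hz z0 k
  obtain ⟨b, hb⟩ := (fr_nz z0).1 k
  obtain rfl : b = a := by_contra fun c => hz b c hb
  exact real_inner_comm f _ ▸ Cn_perp hb p q

lemma adj {i l : I} (h : (P.T i ∩ P.T l).Nonempty) (e : l ≠ i) :
    (∃ y ∈ P.T l, P.Tr y ∧ y ∈ P.T i) ∨ ∃ a ∈ P.A, P.V l a ∈ P.T i := by
  refine or_iff_not_imp_left.2 fun k => ?_
  have k2 : ∀ y ∈ P.T l, y ∈ P.T i → y ∉ ⋃ m : {m // m ≠ i ∧ m ≠ l}, P.T m := fun y a b c => by
    obtain ⟨m, hm⟩ := mem_iUnion.1 c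
    exact k ⟨y, a, ⟨l, i, m, e, m.2.2.symm, m.2.1.symm, a, b, hm⟩, b⟩
  obtain ⟨x, a, b⟩ := h
  obtain ⟨j, hj⟩ := (P.fr _ _).1 (fr_two e b a)
  obtain ⟨c, hc, m, rfl⟩ := P.cyc j
  have cn : IsPreconnected (⋃ k : ℕ, {x : S | (x : E) ∈ P.Ed l (P.s^[k] c) true}) :=
    IsPreconnected.iUnion_of_chain (fun k => arc_conn (li2 l _ true)) fun k =>
      ⟨P.V l (P.s (P.s^[k] c)), by rw [mem_ofPred_eq, Ed, Cn_comm]; exact Cn_left _ _, by
        rw [mem_ofPred_eq, show P.s^[Order.succ k] c = P.s (P.s^[k] c) from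
          Function.iterate_succ_apply' _ _ _]
        exact Cn_left _ _⟩
  refine ⟨c, hc, (isPreconnected_iff_subset_of_disjoint_closed.1 cn _ _ (P.cl i)
    (isClosed_iUnion_of_finite fun m : {m // m ≠ i ∧ m ≠ l} => P.cl m) (fun y hy => ?_)
    (eq_empty_of_forall_notMem fun y hy => ?_)).resolve_right
    (fun q => k2 x b a (q (mem_iUnion.2 ⟨m, hj⟩))) (mem_iUnion.2 ⟨0, Cn_left _ _⟩)⟩
  · obtain ⟨n, hn⟩ := mem_iUnion.1 hy
    obtain ⟨m, p, q⟩ := other ((P.fr _ _).2 (Ed_fr hn))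
    by_cases c : m = i
    · exact Or.inl (c ▸ q)
    · exact Or.inr (mem_iUnion.2 ⟨⟨m, c, p⟩, q⟩)
  · obtain ⟨n, hn⟩ := mem_iUnion.1 hy.1
    exact k2 y (Ed_T hn) hy.2.1 hy.2.2

def Gd (good : I → Prop) : ℕ → I → Prop
  | 0, i => good i
  | t + 1, i => Gd good t i ∧ ∀ l, (P.T i ∩ P.T l).Nonempty → Gd good t l

lemma Gd_good {good : I → Prop} {i : I} : ∀ {t}, P.Gd good t i → good i
  | 0, h => h
  | _ + 1, h => Gd_good h.1

open Classical in
lemma wt {W : I → Finset S} (hW : ∀ i x, x ∈ W i ↔ x ∈ P.T i ∧ P.Tr x) {K : ℕ} {good : I → Prop}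
    (hg : ∀ i, good i → (W i).card ≤ K ∧
      ∀ x ∈ W i, (Finset.univ.filter fun l => x ∈ P.T l).card ≤ K) (t : ℕ) :
    ∑ i ∈ Finset.univ.filter fun i => ¬P.Gd good t i, ((W i).card + 1) ≤
      (1 + (K + 1) * (K + 2) * (P.A.card + 1)) ^ t *
      ∑ i ∈ Finset.univ.filter fun i => ¬good i, ((W i).card + 1) := by
  induction t with
  | zero => simp [Gd]
  | succ t ih =>
    set B := Finset.univ.filter fun i => ¬P.Gd good t i with hB
    set Nb := B.biUnion fun l => (W l ∪ P.A.image (P.V l)).biUnion fun y =>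
      Finset.univ.filter fun i => good i ∧ y ∈ P.T i with hN
    have h1 : Nb.card ≤ ∑ l ∈ B, ((W l).card + 1) * (P.A.card + 1) * (K + 2) :=
      Finset.card_biUnion_le.trans (Finset.sum_le_sum fun l _ =>
        (Finset.card_biUnion_le_card_mul _ _ _ fun y _ => by
          rcases (Finset.univ.filter fun i => good i ∧ y ∈ P.T i).eq_empty_or_nonempty with e | ⟨i, hi⟩
          · simp [e]
          refine (Finset.card_le_card (t := Finset.univ.filter fun l => y ∈ P.T l) fun a ha =>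
            Finset.mem_filter.2 ⟨Finset.mem_univ _, (Finset.mem_filter.1 ha).2.2⟩).trans ?_
          obtain ⟨-, p, q⟩ := Finset.mem_filter.1 hi
          by_cases c : P.Tr y
          · exact ((hg i p).2 y ((hW _ _).2 ⟨q, c⟩)).trans (by omega)
          · refine le_trans (not_lt.1 fun k => c ?_) (Nat.le_add_left 2 K)
            obtain ⟨a, b, c, p, q, r, h⟩ := Finset.two_lt_card_iff.1 k
            exact ⟨a, b, c, h.1, h.2.1, h.2.2, by simpa using p, by simpa using q,
              by simpa using r⟩).trans (Nat.mul_le_mul_right _ (by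
          have := (Finset.card_union_le (W l) _).trans
            (Nat.add_le_add_left (Finset.card_image_le (s := P.A) (f := P.V l)) _)
          nlinarith)))
    have h2 : ∑ i ∈ Nb, ((W i).card + 1) ≤ Nb.card * (K + 1) :=
      Finset.sum_le_card_nsmul _ _ _ fun i hi => by
        obtain ⟨l, -, hl⟩ := Finset.mem_biUnion.1 hi
        obtain ⟨y, -, hy⟩ := Finset.mem_biUnion.1 hl
        exact Nat.succ_le_succ (hg i (Finset.mem_filter.1 hy).2.1).1
    have h3 : (Finset.univ.filter fun i => ¬P.Gd good (t + 1) i) ⊆ B ∪ Nb := fun i hi => by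
      by_cases c : P.Gd good t i
      · obtain ⟨l, p, q⟩ : ∃ l, (P.T i ∩ P.T l).Nonempty ∧ ¬P.Gd good t l := by
          by_contra k
          exact (Finset.mem_filter.1 hi).2 ⟨c, fun l a => by_contra fun b => k ⟨l, a, b⟩⟩
        refine Finset.mem_union_right _ (Finset.mem_biUnion.2 ⟨l, by simpa [hB] using q, ?_⟩)
        rcases P.adj p (by rintro rfl; exact q c) with ⟨y, a, b, d⟩ | ⟨a, b, d⟩
        · exact Finset.mem_biUnion.2 ⟨y, Finset.mem_union_left _ ((hW _ _).2 ⟨a, b⟩),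
            Finset.mem_filter.2 ⟨Finset.mem_univ _, P.Gd_good c, d⟩⟩
        · exact Finset.mem_biUnion.2 ⟨_, Finset.mem_union_right _ (Finset.mem_image_of_mem _ b),
            Finset.mem_filter.2 ⟨Finset.mem_univ _, P.Gd_good c, d⟩⟩
      · exact Finset.mem_union_left _ (by simpa [hB] using c)
    have h4 := Finset.sum_le_sum_of_subset (f := fun i => (W i).card + 1) h3
    have h5 := Finset.sum_union_inter (s₁ := B) (s₂ := Nb) (f := fun i => (W i).card + 1)
    rw [← Finset.sum_mul, ← Finset.sum_mul] at h1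
    have h6 := Nat.mul_le_mul_right (K + 1) h1
    calc _ ≤ ∑ i ∈ B, ((W i).card + 1) + (∑ i ∈ B, ((W i).card + 1)) * (P.A.card + 1) *
          (K + 2) * (K + 1) := by omega
      _ = (1 + (K + 1) * (K + 2) * (P.A.card + 1)) * ∑ i ∈ B, ((W i).card + 1) := by ring
      _ ≤ _ := (Nat.mul_le_mul_left _ ih).trans (le_of_eq (by rw [pow_succ']; ring))

open Classical in
lemma cuts {W : Finset S} {i : I} (hW : ∀ x, x ∈ W ↔ x ∈ P.T i ∧ P.Tr x) {K k : ℕ} (hk : P.A.card ≤ k)
    (h1 : W.card ≤ K) (h2 : ∀ x ∈ P.T i, (Finset.univ.filter fun l => x ∈ P.T l).card ≤ K) :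
    ∃ W' : Finset S, W'.card ≤ K + ((K + k) * K + 1) * k ∧ ∀ x ∈ P.T i, P.Ct x → x ∈ W' := by
  refine ⟨W ∪ (insert i ((W ∪ P.A.image (P.V i)).biUnion fun y => Finset.univ.filter
    fun l => y ∈ P.T l)).biUnion fun l => P.A.image (P.V l), (Finset.card_union_le _ _).trans
      (add_le_add h1 ((Finset.card_biUnion_le_card_mul _ _ k fun l _ =>
        Finset.card_image_le.trans hk).trans (Nat.mul_le_mul_right _
          ((Finset.card_insert_le _ _).trans (Nat.succ_le_succ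
            ((Finset.card_biUnion_le_card_mul _ _ K fun y hy => h2 y ?_).trans
              (Nat.mul_le_mul_right _ ((Finset.card_union_le _ _).trans
                (add_le_add h1 (Finset.card_image_le.trans hk)))))))))), ?_⟩
  · rcases Finset.mem_union.1 hy with q | q
    · exact ((hW y).1 q).1
    · obtain ⟨a, -, rfl⟩ := Finset.mem_image.1 q
      exact V_T i a
  · rintro x hx (t | ⟨l, a, ha, rfl⟩)
    · exact Finset.mem_union_left _ ((hW x).2 ⟨hx, t⟩)
    · refine Finset.mem_union_right _ (Finset.mem_biUnion.2 ⟨l, ?_, Finset.mem_image_of_mem _ ha⟩)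
      by_cases e : i = l
      · exact e ▸ Finset.mem_insert_self _ _
      refine Finset.mem_insert_of_mem ?_
      rcases P.adj ⟨_, V_T l a, hx⟩ e with ⟨y, p, q, r⟩ | ⟨b, p, q⟩
      · exact Finset.mem_biUnion.2 ⟨y, Finset.mem_union_left _ ((hW y).2 ⟨p, q⟩), by simpa using r⟩
      · exact Finset.mem_biUnion.2 ⟨_, Finset.mem_union_right _ (Finset.mem_image_of_mem _ p),
          by simpa using q⟩

end Pg

theorem labels3 (K k : ℕ) : ∃ C t : ℕ, ∀ (I J : Type) [Fintype I] [Fintype J] (P : Pg I J),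
    P.A.card ≤ k → ∀ G : ℕ → I → Prop, (∀ t i, G (t + 1) i → G t i ∧ ∀ l, (P.T i ∩ P.T l).Nonempty → G t l) →
    (∀ i, G 0 i → ∃ W : Finset S, W.card ≤ K ∧ ∀ x ∈ P.T i, P.Ct x → x ∈ W) →
    ∃ F : Finset ℝ, F.card ≤ C ∧ ∀ i, G t i → ∀ j, P.Tr (P.V i j) → P.θ j ∈ F := by
  classical
  obtain ⟨C, t, H⟩ := Lev.fold2' (K * ((2 * k + 2) * 4)) (k * 4)
  refine ⟨C + k, t, fun I J _ _ P hk G hG hW => ?_⟩
  obtain ⟨F, f1, f2⟩ := H _ (ℝ × ℝ) I P.nx
    (fun y => (if y.1 ∈ P.A then (if y.2.2 then 2 else 3) else if y.2.2 then 1 - P.θ y.1 else P.θ y.1,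
      P.lam y.1 (P.st y.2.1 y.1)))
    (fun i y => P.Ct (P.V i y.1) ∨ ¬P.Full i y.1 y.2.1)
    (fun i y i' y' => i ≠ i' ∧ ¬P.Ct (P.V i y.1) ∧ P.V i y.1 = P.V i' y'.1 ∧
      P.V i (P.st y.2.1 y.1) = P.V i' (P.st y'.2.1 y'.1) ∧ y'.2.2 = !y.2.2) G
    (fun t i g => ⟨(hG t i g).1, fun y l y' h =>
      (hG t i g).2 l ⟨_, Pg.V_T i y.1, h.2.2.1 ▸ Pg.V_T l y'.1⟩⟩)
    (P.A ×ˢ Finset.univ) (by rw [Finset.card_product]; exact Nat.mul_le_mul_right _ hk)
    (fun y => by
      obtain ⟨a, p, q⟩ := P.nx_orb y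
      exact ⟨_, Finset.mem_product.2 ⟨p, Finset.mem_univ _⟩, q⟩)
    (fun i g => by
      obtain ⟨W, w1, w2⟩ := hW i g
      refine ⟨W.biUnion fun x => Finset.univ.filter fun y => (x : E) ∈ P.Ed i y.1 y.2.1,
        (Finset.card_biUnion_le_card_mul _ _ _ fun x _ => (P.edges i x).trans (by gcongr)).trans
          (Nat.mul_le_mul_right _ w1), fun y hy => ?_⟩
      obtain ⟨x, a, b⟩ : ∃ x : S, (x : E) ∈ P.Ed i y.1 y.2.1 ∧ P.Ct x := by
        rcases hy with h | h
        · exact ⟨_, Cn_left _ _, h⟩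
        · by_contra k
          exact h (Pg.L3 fun x a b => k ⟨x, a, b⟩)
      exact Finset.mem_biUnion.2 ⟨x, w2 x (Pg.Ed_T a) b, by simpa using a⟩)
    (fun i y h => by
      rw [not_or, not_not] at h
      obtain ⟨h, l, m, η, g⟩ := h
      exact ⟨l, (m, η, !y.2.2), g.1, h, g.2.1, g.2.2, rfl⟩)
    (by
      rintro i ⟨j, ε, η⟩ i' ⟨k, ε', η'⟩ ⟨hi, h, e, f, rfl⟩
      simp only [Pg.nx, Equiv.coe_fn_mk, Equiv.coe_fn_symm_mk] at h e f ⊢
      have ang : ∀ a b, P.V i a = P.V i' b → P.Ct (P.V i a) →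
          (if a ∈ P.A then (if η then 2 else 3) else if η then 1 - P.θ a else P.θ a) ≠
          if b ∈ P.A then (if !η then 2 else 3) else if !η then 1 - P.θ b else P.θ b := by
        intro a b p q
        have := P.θ_mem i a
        have := P.θ_mem i b
        by_cases ha : a ∈ P.A <;> by_cases hb : b ∈ P.A <;> simp only [ha, hb, if_true, if_false]
        · cases η <;> norm_num
        · cases η <;> simp <;> linarith
        · cases η <;> simp <;> linarith
        have q : P.Tr (P.V i a) := by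
          rcases q with q | ⟨l, c, hc, q⟩
          · exact q
          · refine ⟨i, i', l, hi, ?_, ?_, Pg.V_T _ _, p ▸ Pg.V_T _ _, q ▸ Pg.V_T _ _⟩ <;> rintro rfl
            · exact ha (P.inj _ a ha c q.symm ▸ hc)
            · exact hb (P.inj _ b hb c (q.symm.trans p) ▸ hc)
        have := Pg.τ_three q hi
        rw [P.τV, p, P.τV] at this
        cases η <;> simp <;> linarith
      have sy : ∀ a b, P.lam a b = P.lam b a := fun a b => by
        rw [← P.hlam i, ← P.hlam i, real_inner_comm]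
      have e' : P.V i (P.st (!ε) (P.st ε j)) = P.V i' (P.st (!ε') (P.st ε' k)) := by
        rw [P.st_not, P.st_not, e]
      refine ⟨⟨?_, Prod.ext ?_ ?_⟩, fun q => ?_, fun q => ?_, fun q => ?_⟩
      · exact not_or.2 ⟨e ▸ h, not_not.2 ⟨i, j, ε, hi.symm, e.symm, f.symm⟩⟩
      · have := Pg.τ_two (Pg.nT h) hi (Pg.V_T _ _) (e ▸ Pg.V_T _ _)
        rw [P.τV, e, P.τV] at this
        simp only [Pg.nA h rfl, Pg.nA h e, if_false]
        cases η <;> simp <;> linarith
      · simp only [← P.hlam i j, ← P.hlam i' k, e, f]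
      · rw [not_or, not_not] at q
        exact ⟨hi, q.1, f, by simpa using Pg.full_uniq q.1 hi f e' (by simpa using q.2), trivial⟩
      · by_cases t : P.Ct (P.V i (P.st ε j))
        · exact ⟨Or.inl (f ▸ t), fun c => ang _ _ f t (congrArg Prod.fst c)⟩
        · have q := q.resolve_left t
          refine ⟨Or.inr fun c => q ⟨i', _, ε', hi, f, ?_⟩, fun c => q ⟨i', _, ε', hi, f, ?_⟩⟩
          · simpa using (Pg.full_uniq (f ▸ t) hi.symm f.symm e'.symm (by simpa using c)).symm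
          · simpa using Pg.KA t hi f e' (by simpa using congrArg Prod.snd c)
      · have a := P.st_not j (!ε)
        have b := P.st_not k (!ε')
        rw [Bool.not_not] at a b
        by_cases t : P.V i (P.st (!ε) j) = P.V i' (P.st (!ε') k)
        · have q := q.resolve_right (not_not.2 ⟨i', _, ε', hi, t, by rw [a, b, e]⟩)
          exact ⟨Or.inl (t ▸ q), fun c => ang _ _ t q (congrArg Prod.fst c)⟩
        · refine ⟨Or.inr fun c => t (Pg.full_uniq (e ▸ h) hi.symm e.symm f.symm ?_).symm,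
            fun c => t (Pg.KA h hi e f ?_)⟩
          · simpa [b] using Pg.full_rev c
          · simpa [a, b, sy j, sy k] using congrArg Prod.snd c)
  refine ⟨F.image Prod.fst ∪ P.A.image P.θ, (Finset.card_union_le _ _).trans (add_le_add
    (Finset.card_image_le.trans f1) (Finset.card_image_le.trans hk)), fun i g j h => ?_⟩
  by_cases q : j ∈ P.A
  · exact Finset.mem_union_right _ (Finset.mem_image_of_mem _ q)
  · exact Finset.mem_union_left _ (Finset.mem_image.2
      ⟨_, f2 i g (j, true, false) (Or.inl (Or.inl h)), by simp [q]⟩)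

open Classical in
theorem general (K k : ℕ) : ∃ M : ℕ, ∀ (N : ℕ) (T : Fin N → Set S), (⋃ i, T i) = univ →
    (∀ i, IsClosed (T i)) → (∀ i, Metric.diam (T i) < 1) →
    (∀ i j, ∃ g : E ≃ₗᵢ[ℝ] E, g '' (Subtype.val '' T i) = Subtype.val '' T j) →
    (Pairwise fun i j => Disjoint (interior (T i)) (interior (T j))) → ∀ i,
    T i ⊆ closure (interior (T i)) →
    ∀ (J : Type) [Fintype J] (v : J → S) (s : Equiv.Perm J) (A : Finset J), A.card ≤ k →
    (∀ j, ∃ a ∈ A, ∃ m : ℕ, s^[m] a = j) → (∀ j, LinearIndependent ℝ ![(v j : E), v (s j)]) →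
    (∀ j ∉ A, (∀ l, v l = v j → l = j) ∧ LinearIndependent ℝ ![(v (s.symm j) : E), v j, v (s j)]) →
    (∀ j k, j ≠ k → ∀ x : S, (x : E) ∈ Cn (v j) (v (s j)) → (x : E) ∈ Cn (v k) (v (s k)) →
      x = v j ∨ x = v (s j)) →
    (∀ x : S, x ∈ frontier (T i) ↔ ∃ j, (x : E) ∈ Cn (v j) (v (s j))) →
    ∀ B : Finset (Fin N), (∀ j ∉ B, {x ∈ T j | 3 ≤ {l | x ∈ T l}.ncard}.ncard ≤ K ∧
      ∀ x ∈ T j, {l | x ∈ T l}.ncard ≤ K) →
    N ≤ M * (1 + ∑ j ∈ B, ({x ∈ T j | 3 ≤ {l | x ∈ T l}.ncard}.ncard + 1)) := by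
  obtain ⟨C, t, H2⟩ := labels3 (K + ((K + k) * K + 1) * k) k
  obtain ⟨D, H3⟩ := sp_core C K
  refine ⟨D * (1 + (K + 1) * (K + 2) * (k + 1)) ^ (t + 1),
    fun N T hcov hcl hd1 hg hdis i0 hr J _ v s A0 hA0 h0 h1 h2 h3 h4 B hK => ?_⟩
  have : ∀ i, ∃ g : E ≃ₗᵢ[ℝ] E, g '' (Subtype.val '' T i) = Subtype.val '' T i0 ∧
      (i = i0 → ∀ z, g z = z) := fun i => by
    by_cases e : i = i0
    · exact ⟨.refl ℝ E, by simp [e], fun _ _ => rfl⟩
    · exact (hg i i0).imp fun g h => ⟨h, fun k => absurd k e⟩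
  choose g hg g0 using this
  have tr : ∀ i (x y : S), g i x = y → (x ∈ T i ↔ y ∈ T i0) := by
    intro i x y e
    rw [← Subtype.val_injective.mem_set_image (s := T i0), ← hg i, ← e,
      (g i).injective.mem_set_image, Subtype.val_injective.mem_set_image]
  have pre : ∀ i, T i = hom (g i) ⁻¹' T i0 := fun i => ext fun x => tr i x _ rfl
  choose u0 u1 u2 u3 using fun j => exists_perp (v j : E) (v (s j))
  let u : Option J → E := fun t => t.elim !₂[1, 0, 0] u0
  have hu : ∀ t, u t ≠ 0 := by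
    rintro (_ | t)
    · intro e; simpa [u] using congrArg (fun a : E => a 0) e
    · intro e; simpa [show u0 t = 0 from e] using u1 t
  have hf : frontier (T i0) ⊆ {x | ∃ t, ⟪u t, (x : E)⟫ = 0} := fun x hx => by
    obtain ⟨j, hj⟩ := (h4 x).1 hx
    exact ⟨some j, real_inner_comm (u0 j) _ ▸ Cn_perp hj (u2 j) (u3 j)⟩
  obtain ⟨TT, t1, t2⟩ := mk_til hcov hd1 hdis (hcl i0) g tr hu hf
  have ffr : ∀ i x, x ∈ frontier (T i) ↔ hom (g i) x ∈ frontier (T i0) := fun i x => by
    rw [pre i, ← Homeomorph.preimage_frontier]; rfl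
  have reg : ∀ i, T i ⊆ closure (interior (T i)) := fun i => by
    rw [pre i, ← Homeomorph.preimage_interior, ← Homeomorph.preimage_closure]
    exact preimage_mono hr
  let P : Pg (Fin N) J :=
    { T := T, V := fun i j => (hom (g i)).symm (v j), cl := hcl, dis := hdis, reg := reg
      s := s, A := A0, cyc := h0
      cov := fun x => mem_iUnion.1 (hcov.symm ▸ mem_univ x)
      inj := fun i j hj l e => (h2 j hj).1 l ((hom (g i)).symm.injective e)
      lp := fun i j α β e => LinearIndependent.pair_iff.1 (h1 j) α β (by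
        simpa [hom] using congrArg (g i) e)
      li := fun i j hj => by
        have := (h2 j hj).2.map' (g i).symm.toLinearEquiv.toLinearMap (LinearEquiv.ker _)
        refine (congrArg (fun f : Fin 3 → E => LinearIndependent ℝ f) (funext fun k => ?_)).mp this
        fin_cases k <;> rfl
      sim := fun i j k e x a b => by
        rw [Homeomorph.eq_symm_apply, Homeomorph.eq_symm_apply]
        exact h3 j k e _ ((Cn_map _ _ _ _).1 a) ((Cn_map _ _ _ _).1 b)
      fr := fun i x => by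
        rw [ffr, h4]
        exact exists_congr fun j => (Cn_map _ _ _ _).symm
      θ := fun j => TT.th (v j)
      lam := fun j k => ⟪(v j : E), (v k : E)⟫
      hlam := fun i j k => (g i).symm.inner_map_map _ _
      τ := fun i x => TT.th (g i x)
      τpos := fun i x hx => by
        have := closure_minimal (s := interior (T i0))
          (t := ⋃ c : Cel u (T i0), {y : S | (y : E) ∈ Kc (sg u c.1)})
          (fun y hy => mem_iUnion.2 (cel_cov hu (hcl i0) hf (S_ne y) (by rwa [nz_unit])))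
          (isClosed_iUnion_of_finite fun c => isClosed_Kc.preimage continuous_subtype_val)
          (hr ((tr i x (hom (g i) x) rfl).1 hx))
        obtain ⟨c, hc⟩ := mem_iUnion.1 this
        exact TT.th_pos (c := c) (by rw [t2]; exact hc)
      τzero := fun i x hx => Finset.sum_eq_zero fun c hc => by
        have := (Finset.mem_filter.1 hc).2
        rw [t2] at this
        exact absurd ((tr i x (hom (g i) x) rfl).2 (closure_minimal interior_subset (hcl i0)
          (cel_clos c this))) hx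
      τsum := fun x => t1 ▸ TT.loc3 x
      τV := fun i j => congrArg TT.th ((g i).apply_symm_apply _) }
  have tr3 : ∀ x, P.Tr x ↔ 3 ≤ {l | x ∈ T l}.ncard := fun x =>
    ⟨fun ⟨a, b, c, q1, q2, q3, r1, r2, r3⟩ =>
      (two_lt_ncard (toFinite _)).2 ⟨a, r1, b, r2, c, r3, q1, q2, q3⟩, fun h => by
      obtain ⟨a, r1, b, r2, c, r3, q1, q2, q3⟩ := (two_lt_ncard (toFinite _)).1 h
      exact ⟨a, b, c, q1, q2, q3, r1, r2, r3⟩⟩
  have half : ∀ i x, P.Tr x → x ∈ T i → (¬∃ j, x = P.V i j) → P.τ i x = 1 / 2 := by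
    intro i x t m q
    obtain ⟨l, l1, l2⟩ : ∃ l, i ≠ l ∧ x ∈ T l := by
      obtain ⟨a, b, -, p, -, -, r1, r2, -⟩ := t
      by_cases e : i = a
      exacts [⟨b, e ▸ p, r2⟩, ⟨a, e, r1⟩]
    have fx := (ffr i x).1 (Pg.fr_two (P := P) l1 m l2)
    obtain ⟨f, a, b, c⟩ := P.edge_loc (i := i0) fx fun j e => q ⟨j, by
      rw [Homeomorph.eq_symm_apply, e]
      exact Subtype.ext ((g i0).symm_apply_eq.2 (g0 i0 rfl _).symm)⟩
    have := th_edge hu (hcl i0) hf hr TT t2 fx a b c
    exact this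
  have fin : ∀ i, {x ∈ T i | 3 ≤ {l | x ∈ T l}.ncard}.Finite := fun i =>
    (finite_range fun p : Fin N × J => P.V p.1 p.2).subset fun x hx => by_contra fun k => by
      have t := (tr3 x).2 hx.2
      have ⟨a, b, _, p, _, _, r1, r2, _⟩ := t
      have := Pg.τ_three t p
      rw [half a x t r1 fun ⟨j, e⟩ => k ⟨(a, j), e.symm⟩,
        half b x t r2 fun ⟨j, e⟩ => k ⟨(b, j), e.symm⟩] at this
      norm_num at this
  have hW : ∀ i x, x ∈ (fin i).toFinset ↔ x ∈ P.T i ∧ P.Tr x := fun i x => by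
    rw [Finite.mem_toFinset, tr3]; rfl
  have cd : ∀ x, (Finset.univ.filter fun l => x ∈ T l).card = {l | x ∈ T l}.ncard := fun x => by
    rw [← ncard_coe_finset]; simp
  have hg' : ∀ i ∉ B, (fin i).toFinset.card ≤ K ∧
      ∀ x ∈ (fin i).toFinset, (Finset.univ.filter fun l => x ∈ P.T l).card ≤ K := fun i hi =>
    ⟨ncard_eq_toFinset_card _ (fin i) ▸ (hK i hi).1,
      fun x hx => (cd x).trans_le ((hK i hi).2 x ((hW i x).1 hx).1)⟩
  obtain ⟨F, f1, f2⟩ := H2 _ J P hA0 (P.Gd (· ∉ B)) (fun _ _ h => h) fun i hi =>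
    P.cuts (hW i) hA0 (hg' i hi).1 fun x hx => (cd x).trans_le ((hK i hi).2 x hx)
  have w1 := (P.wt hW hg' (t + 1)).trans (Nat.mul_le_mul_right _ (Nat.pow_le_pow_left
    (Nat.add_le_add_left (Nat.mul_le_mul_left _ (Nat.add_le_add_right hA0 1)) 1) _))
  simp only [not_not, Finset.filter_mem_eq_inter, Finset.univ_inter] at w1
  obtain ⟨-, c0, -⟩ := TT.hcov 0
  have : Nonempty (Cel u (T i0)) := ⟨c0⟩
  obtain ⟨w0, hw0⟩ := c0.2.1
  obtain ⟨A, hA⟩ := mk_arr hu (hcl i0) (hd1 i0) (interior_subset (cel_int c0 (Ko_ne hw0) hw0))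
  refine ((Fintype.card_fin N).symm.le.trans (H3 _ _ _ TT A (hA.trans t2.symm) F f1
      (fun z => ∃ x : S, (x : E) = z ∧ P.Tr x ∧ ∃ i, x ∈ T i ∧ ¬P.Gd (· ∉ B) t i) _
      (fun X hX => le_trans ?_ w1) fun x s hb hs => ?_)).trans ?_
  · simp only [Finset.card_filter]
    rw [Finset.sum_comm, Finset.sum_filter]
    refine Finset.sum_le_sum fun i _ => ?_
    rw [← Finset.card_filter]
    have m : ∀ z ∈ X.filter fun z => TT.th (TT.g i z) ≠ 0, ∃ x : S, (x : E) = z ∧ x ∈ T i ∧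
        P.Tr x ∧ ¬P.Gd (· ∉ B) (t + 1) i := fun z hz => by
      obtain ⟨p, q⟩ := Finset.mem_filter.1 hz
      obtain ⟨-, x, rfl, a, l, b, c⟩ := hX z p
      have : x ∈ T i := by_contra fun k => q (t1 ▸ P.τzero i x k)
      exact ⟨x, rfl, this, a, fun k => c (k.2 l ⟨x, this, b⟩)⟩
    split_ifs with c
    swap
    · refine (Finset.card_le_card (t := (fin i).toFinset.image Subtype.val) fun z hz => ?_).trans
        (Finset.card_image_le.trans (Nat.le_succ _))
      obtain ⟨x, rfl, a, b, -⟩ := m z hz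
      exact Finset.mem_image_of_mem _ ((hW i x).2 ⟨a, b⟩)
    · refine (Finset.card_eq_zero.2 (Finset.eq_empty_of_forall_notMem fun z hz => ?_)).le
      obtain ⟨x, -, -, -, a⟩ := m z hz
      exact a c
  swap
  · simp only [← ncard_eq_toFinset_card]
    have := Nat.one_le_pow (t + 1) (1 + (K + 1) * (K + 2) * (k + 1)) (by omega)
    generalize (1 + (K + 1) * (K + 2) * (k + 1)) ^ (t + 1) = Q at this ⊢
    rw [mul_assoc, mul_add Q 1, mul_one]
    exact Nat.mul_le_mul_left _ (by omega)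
  · rw [t1] at hs ⊢
    have m : ∀ i ∈ s, x ∈ T i := fun i hi => by_contra fun k => hs i hi (P.τzero i x k)
    by_cases t : P.Tr x
    · obtain ⟨j, hj⟩ := P.cov x
      have gd : ∀ i, x ∈ T i → P.Gd (· ∉ B) _ i := fun i hi =>
        by_contra fun k => hb ⟨x, rfl, t, i, hi, k⟩
      refine Or.inr ⟨le_trans ?_ ((hK j (P.Gd_good (gd j hj))).2 x hj), fun i hi => ?_⟩
      · rw [← ncard_coe_finset]
        exact ncard_le_ncard (fun l hl => m l hl) (toFinite _)
      · by_cases q : ∃ j, x = P.V i j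
        · obtain ⟨j, rfl⟩ := q
          exact Or.inr ((P.τV i j).symm ▸ f2 i (gd i (m i hi)) j t : P.τ i _ ∈ F)
        · exact Or.inl (half i x t (m i hi) q)
    · refine Or.inl (not_lt.1 fun k => t ?_)
      obtain ⟨a, b, c, p, q, r, h⟩ := Finset.two_lt_card_iff.1 k
      exact ⟨a, b, c, h.1, h.2.1, h.2.2, m a p, m b q, m c r⟩

end Pool.Agent.Lib.MP_e5885b_co
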