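import Pool.Agent.Lib.MP_e5885b_co.Cone

set_option autoImplicit false
set_option linter.unusedSectionVars false

open MeasureTheory Set Filter Topology
open scoped RealInnerProductSpace

namespace Pool.Agent.Lib.MP_e5885b_co

variable {τ : Type} [Fintype τ] {ℓ : τ → E}

lemma Tc_add {x a b : E} (ha : a ∈ Tc ℓ x) (hb : b ∈ Tc ℓ x) : a + b ∈ Tc ℓ x := fun t ht => by
  rw [inner_add_right]; exact add_nonneg (ha t ht) (hb t ht)

lemma Tc_line (x : E) (a : ℝ) : a • x ∈ Tc ℓ x := fun t ht => by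
  rw [inner_smul_right, ht, mul_zero]

lemma Tc_sign {x y : E} {β : ℝ} (h : β • y ∈ Tc ℓ x) (h1 : y ∉ Tc ℓ x) (h2 : -y ∉ Tc ℓ x) :
    β = 0 := by
  rcases lt_trichotomy β 0 with k | k | k
  · refine absurd (fun t ht => ?_) h2
    have := h t ht
    rw [inner_smul_right] at this
    rw [inner_neg_right]; nlinarith
  · exact k
  · refine absurd (fun t ht => ?_) h1
    have := h t ht
    rw [inner_smul_right] at this
    nlinarith

lemma plane {h y s v x : E} (hy : ⟪h, y⟫ = 0) (hs : s = cr h y ∨ s = -cr h y) (h0 : cr h y ≠ 0)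
    (e : ⟪s, x⟫ * ⟪h, v⟫ = ⟪s, v⟫ * ⟪h, x⟫) :
    ∃ β : ℝ, ⟪h, v⟫ • x = ⟪h, x⟫ • v + β • y := by
  have k := expand h y (⟪h, v⟫ • x - ⟪h, x⟫ • v)
  have k1 : ⟪⟪h, v⟫ • x - ⟪h, x⟫ • v, cr h y⟫ = 0 := by
    rw [inner_sub_left, inner_smul_left, inner_smul_left, real_inner_comm (cr h y) x,
      real_inner_comm (cr h y) v]
    rcases hs with rfl | rfl
    · simp only [conj_trivial]; linarith
    · simp only [conj_trivial, inner_neg_left] at e ⊢; linarith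
  have k2 : ⟪⟪h, v⟫ • x - ⟪h, x⟫ • v, h⟫ = 0 := by
    rw [inner_sub_left, inner_smul_left, inner_smul_left, real_inner_comm h x,
      real_inner_comm h v]
    simp only [conj_trivial]; ring
  rw [k1, k2, hy, zero_smul, zero_smul, zero_smul, zero_add, zero_add, sub_zero, smul_smul] at k
  have p : ⟪cr h y, cr h y⟫ ≠ 0 := by simpa using h0
  refine ⟨⟪cr h y, cr h y⟫⁻¹ * (⟪⟪h, v⟫ • x - ⟪h, x⟫ • v, y⟫ * ⟪h, h⟫), ?_⟩
  rw [mul_smul, ← k, smul_smul, inv_mul_cancel₀ p, one_smul]; abel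

lemma extreme (hl : ∀ t, ℓ t ≠ 0) (hne : (Ko ℓ).Nonempty) {h y s : E} (hy : ⟪h, y⟫ = 0)
    (hs : s = cr h y ∨ s = -cr h y) (h0 : cr h y ≠ 0) (hg : ∀ t, ⟪ℓ t, y⟫ ≠ 0)
    (hpos : ∀ x ∈ Kc ℓ, x ≠ 0 → 0 < ⟪h, x⟫) :
    ∃ v, IsV ℓ v ∧ y ∉ Tc ℓ v ∧ -y ∉ Tc ℓ v ∧
      (∀ x ∈ Kc ℓ, ⟪s, x⟫ * ⟪h, v⟫ ≤ ⟪s, v⟫ * ⟪h, x⟫) ∧
      ⟪s, v⟫ • h - ⟪h, v⟫ • s ≠ 0 := by
  have hc : IsCompact (Kc ℓ ∩ Metric.sphere 0 1) := (isCompact_sphere 0 1).inter_left isClosed_Kc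
  have hn0 : ∀ x ∈ Kc ℓ ∩ Metric.sphere 0 1, 0 < ⟪h, x⟫ := fun x hx => hpos x hx.1 fun k => by
    have := hx.2; rw [k] at this; simp at this
  have hnorm : ∀ x ∈ Kc ℓ, x ≠ 0 → ‖x‖⁻¹ • x ∈ Kc ℓ ∩ Metric.sphere 0 1 := fun x hx k =>
    ⟨Kc_smul hx (by positivity), by simpa using norm_smul_inv_norm (𝕜 := ℝ) k⟩
  obtain ⟨w, hw, hw0⟩ : ∃ w ∈ Kc ℓ, w ≠ 0 := by
    obtain ⟨w, hw⟩ := (dense_compl_singleton (0 : E)).inter_open_nonempty _ isOpen_Ko hne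
    exact ⟨w, Ko_sub hw.1, hw.2⟩
  obtain ⟨v, hv, hmax⟩ := hc.exists_isMaxOn ⟨_, hnorm w hw hw0⟩ (f := fun x => ⟪s, x⟫ / ⟪h, x⟫)
    (ContinuousOn.div (by fun_prop) (by fun_prop) fun x hx => (hn0 x hx).ne')
  have hv1 : ‖v‖ = 1 := by simpa using hv.2
  have hle : ∀ x ∈ Kc ℓ, ⟪s, x⟫ * ⟪h, v⟫ ≤ ⟪s, v⟫ * ⟪h, x⟫ := by
    intro x hx
    by_cases k : x = 0
    · simp [k]
    · have := hmax (hnorm x hx k)
      simp only [mem_ofPred_eq, inner_smul_right] at this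
      rw [mul_div_mul_left _ _ (by positivity), div_le_div_iff₀ (hpos x hx k) (hn0 v hv)] at this
      exact this
  have hsh : ⟪s, h⟫ = 0 := by rcases hs with rfl | rfl <;> simp [cr_left]
  have hsy : ⟪s, y⟫ = 0 := by rcases hs with rfl | rfl <;> simp [cr_right]
  have hs0 : s ≠ 0 := by rcases hs with rfl | rfl <;> simpa using h0
  set f := ⟪s, v⟫ • h - ⟪h, v⟫ • s with hf
  have hfz : ∀ z, ⟪f, z⟫ = ⟪s, v⟫ * ⟪h, z⟫ - ⟪s, z⟫ * ⟪h, v⟫ := fun z => by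
    rw [hf, inner_sub_left, inner_smul_left, inner_smul_left]; simp only [conj_trivial]; ring
  have hf0 : f ≠ 0 := fun k => by
    have := hfz s
    rw [k, inner_zero_left, real_inner_comm s h, hsh] at this
    have p1 : 0 < ⟪s, s⟫ := real_inner_self_pos.2 hs0
    have := mul_pos p1 (hn0 v hv)
    linarith
  have hfT : ∀ z ∈ To ℓ v, 0 ≤ ⟪f, z⟫ := by
    intro z hz
    obtain ⟨a, h1, h2⟩ := ((step_Kc hv.1 (To_sub v hz)).and self_mem_nhdsWithin).exists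
    have h3 := hle _ h1
    have h4 : (0 : ℝ) < a := h2
    rw [inner_add_right, inner_add_right, inner_smul_right, inner_smul_right] at h3
    rw [hfz]
    by_contra k
    have := mul_neg_of_pos_of_neg h4 (not_le.1 k)
    nlinarith
  have k1 : y ∉ To ℓ v := fun k =>
    hf0 (zero_of_open (isOpen_To v) k (by rw [hfz, hy, hsy]; ring) hfT)
  have k2 : -y ∉ To ℓ v := fun k =>
    hf0 (zero_of_open (isOpen_To v) k (by rw [inner_neg_right, hfz, hy, hsy]; ring) hfT)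
  refine ⟨v, ?_, fun k => k1 fun t ht => (k t ht).lt_of_ne (hg t).symm,
    fun k => k2 fun t ht => (k t ht).lt_of_ne (by simpa using hg t), hle, hf0⟩
  by_contra hV
  rcases not_V hl hne hv1 hv.1 hV with e | ⟨g, hg0, e⟩
  · exact k1 (by rw [e]; trivial)
  · have hyg : ⟪g, y⟫ = 0 := by
      rw [e] at k1 k2
      simp only [mem_ofPred_eq, inner_neg_right, not_lt] at k1 k2
      linarith
    have hex : ∃ t, ⟪ℓ t, v⟫ = 0 := by
      by_contra q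
      exact k1 fun t ht => absurd ⟨t, ht⟩ q
    obtain ⟨t, ht⟩ := hex
    have q : ∀ z, 0 < ⟪g, z⟫ → 0 < ⟪ℓ t, z⟫ := fun z hz => (e.symm ▸ hz : z ∈ To ℓ v) t ht
    have gg : 0 < ⟪g, g⟫ := real_inner_self_pos.2 hg0
    have q2 : ∀ a : ℝ, 0 < ⟪ℓ t, g⟫ + a * ⟪ℓ t, y⟫ := fun a => by
      have := q (g + a • y) (by rw [inner_add_right, inner_smul_right, hyg]; linarith)
      rwa [inner_add_right, inner_smul_right] at this
    have := q2 (-⟪ℓ t, g⟫ / ⟪ℓ t, y⟫)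
    rw [div_mul_cancel₀ _ (hg t)] at this
    linarith

lemma uniq_extreme {h y s v p : E} (hy : ⟪h, y⟫ = 0) (hs : s = cr h y ∨ s = -cr h y)
    (h0 : cr h y ≠ 0) (hv : IsV ℓ v) (hp : IsV ℓ p) (h1 : y ∉ Tc ℓ v) (h2 : -y ∉ Tc ℓ v)
    (hpos : ∀ x ∈ Kc ℓ, x ≠ 0 → 0 < ⟪h, x⟫) (e : ⟪s, p⟫ * ⟪h, v⟫ = ⟪s, v⟫ * ⟪h, p⟫) : v = p := by
  obtain ⟨β, k⟩ := plane hy hs h0 e
  have p1 := hpos v hv.2.1 (by intro q; have := hv.1; rw [q] at this; simp at this)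
  have p2 := hpos p hp.2.1 (by intro q; have := hp.1; rw [q] at this; simp at this)
  have : β • y ∈ Tc ℓ v := by
    have : β • y = ⟪h, v⟫ • p + (-⟪h, p⟫) • v := by rw [k, neg_smul]; abel
    rw [this]
    exact Tc_add (Kc_Tc v (Kc_smul hp.2.1 p1.le)) (Tc_line v _)
  rw [Tc_sign this h1 h2, zero_smul, add_zero] at k
  have n := congrArg norm k
  rw [norm_smul, norm_smul, hv.1, hp.1, Real.norm_of_nonneg p1.le, Real.norm_of_nonneg p2.le,
    mul_one, mul_one] at n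
  rw [n] at k
  exact (smul_right_injective E p2.ne' k).symm

open Classical in
lemma silhouette (hl : ∀ t, ℓ t ≠ 0) (hne : (Ko ℓ).Nonempty)
    (hpt : ∀ x ∈ Kc ℓ, -x ∈ Kc ℓ → x = 0) {y : E} (hg : ∀ t, ⟪ℓ t, y⟫ ≠ 0)
    (h1 : y ∉ Kc ℓ) (h2 : -y ∉ Kc ℓ) :
    ((Vs ℓ).filter fun v => y ∉ Tc ℓ v ∧ -y ∉ Tc ℓ v).card = 2 := by
  obtain ⟨h, hy, hpos⟩ : ∃ h : E, ⟪h, y⟫ = 0 ∧ ∀ x ∈ Kc ℓ, x ≠ 0 → 0 < ⟪h, x⟫ := by
    simp only [Kc, mem_ofPred_eq, not_forall, not_le, inner_neg_right] at h1 h2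
    obtain ⟨a, ha⟩ := h1
    obtain ⟨b, hb⟩ := h2
    set S := ⟪∑ t, ℓ t, y⟫ with hS
    have hb' : 0 < ⟪ℓ b, y⟫ := by linarith
    refine ⟨∑ t, ℓ t + (max S 0 / -⟪ℓ a, y⟫) • ℓ a + (max (-S) 0 / ⟪ℓ b, y⟫) • ℓ b, ?_, ?_⟩
    · rw [inner_add_left, inner_add_left, inner_smul_left, inner_smul_left, ← hS]
      simp only [conj_trivial]
      rw [div_mul_cancel₀ _ hb'.ne', div_neg, neg_mul, div_mul_cancel₀ _ ha.ne]
      rcases le_total S 0 with k | k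
      · rw [max_eq_right k, max_eq_left (by linarith)]; ring
      · rw [max_eq_left k, max_eq_right (by linarith)]; ring
    · intro x hx hx0
      rw [inner_add_left, inner_add_left, inner_smul_left, inner_smul_left, sum_inner]
      simp only [conj_trivial]
      have p1 : 0 ≤ max S 0 / -⟪ℓ a, y⟫ * ⟪ℓ a, x⟫ :=
        mul_nonneg (div_nonneg (le_max_right _ _) (by linarith)) (hx a)
      have p2 : 0 ≤ max (-S) 0 / ⟪ℓ b, y⟫ * ⟪ℓ b, x⟫ :=
        mul_nonneg (div_nonneg (le_max_right _ _) (by linarith)) (hx b)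
      have p3 : 0 < ∑ t, ⟪ℓ t, x⟫ := by
        refine (Finset.sum_nonneg fun t _ => hx t).lt_of_ne fun k => hx0 (hpt x hx fun t => ?_)
        rw [inner_neg_right, (Finset.sum_eq_zero_iff_of_nonneg fun t _ => hx t).1 k.symm t
          (Finset.mem_univ t), neg_zero]
      linarith
  obtain ⟨w, hw, hw0⟩ : ∃ w ∈ Ko ℓ, w ≠ 0 := by
    obtain ⟨w, hw⟩ := (dense_compl_singleton (0 : E)).inter_open_nonempty _ isOpen_Ko hne
    exact ⟨w, hw.1, hw.2⟩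
  have hwp := hpos w (Ko_sub hw) hw0
  have h0 : cr h y ≠ 0 := by
    have hh : h ≠ 0 := fun k => by rw [k, inner_zero_left] at hwp; exact lt_irrefl _ hwp
    have hy0 : y ≠ 0 := fun k => h1 (by rw [k]; intro t; simp)
    have := lagr h y
    intro k
    rw [k, hy, inner_zero_left] at this
    have := mul_pos (real_inner_self_pos.2 hh) (real_inner_self_pos.2 hy0)
    linarith
  obtain ⟨p, hp, p1, p2, p3, p4⟩ := extreme hl hne hy (Or.inl rfl) h0 hg hpos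
  obtain ⟨q, hq, q1, q2, q3, -⟩ := extreme hl hne hy (Or.inr rfl) h0 hg hpos
  set s := cr h y with hs
  simp only [inner_neg_left] at q3
  have hun : ∀ v, IsV ℓ v → 0 < ⟪h, v⟫ := fun v hv =>
    hpos v hv.2.1 (by intro q; have := hv.1; rw [q] at this; simp at this)
  have hpq : p ≠ q := by
    rintro rfl
    refine p4 (zero_of_open isOpen_Ko hw ?_ fun z hz => ?_)
    · rw [inner_sub_left, inner_smul_left, inner_smul_left]; simp only [conj_trivial]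
      have := p3 w (Ko_sub hw); have := q3 w (Ko_sub hw); linarith
    · rw [inner_sub_left, inner_smul_left, inner_smul_left]; simp only [conj_trivial]
      have := p3 z (Ko_sub hz); linarith
  rw [Finset.card_eq_two]
  refine ⟨p, q, hpq, ?_⟩
  ext v
  simp only [Finset.mem_filter, mem_Vs, Finset.mem_insert, Finset.mem_singleton]
  constructor
  · rintro ⟨hv, v1, v2⟩
    by_contra hn
    push Not at hn
    have a1 : ⟪s, v⟫ * ⟪h, p⟫ < ⟪s, p⟫ * ⟪h, v⟫ := (p3 v hv.2.1).lt_of_ne fun k =>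
      hn.1 (uniq_extreme hy (Or.inl rfl) h0 hv hp v1 v2 hpos k.symm)
    have a2 : ⟪s, q⟫ * ⟪h, v⟫ < ⟪s, v⟫ * ⟪h, q⟫ := by
      refine lt_of_le_of_ne (by have := q3 v hv.2.1; linarith) fun k =>
        hn.2 (uniq_extreme hy (Or.inl rfl) h0 hv hq v1 v2 hpos k)
    obtain ⟨x, hx, e⟩ : ∃ x ∈ Ko ℓ, ⟪s, x⟫ * ⟪h, v⟫ = ⟪s, v⟫ * ⟪h, x⟫ := by
      set d := ⟪s, w⟫ * ⟪h, v⟫ - ⟪s, v⟫ * ⟪h, w⟫ with hd
      have add : ∀ r ∈ Kc ℓ, ∀ a : ℝ, 0 ≤ a → w + a • r ∈ Ko ℓ := fun r hr a ha t => by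
        rw [inner_add_right, inner_smul_right]
        have := hw t; have := mul_nonneg ha (hr t); linarith
      rcases le_total d 0 with k | k
      · refine ⟨_, add p hp.2.1 (-d / (⟪s, p⟫ * ⟪h, v⟫ - ⟪s, v⟫ * ⟪h, p⟫))
          (div_nonneg (by linarith) (by linarith)), ?_⟩
        have := div_mul_cancel₀ (-d) (by linarith : ⟪s, p⟫ * ⟪h, v⟫ - ⟪s, v⟫ * ⟪h, p⟫ ≠ 0)
        rw [inner_add_right, inner_add_right, inner_smul_right, inner_smul_right]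
        linear_combination this
      · refine ⟨_, add q hq.2.1 (d / (⟪s, v⟫ * ⟪h, q⟫ - ⟪s, q⟫ * ⟪h, v⟫))
          (div_nonneg (by linarith) (by linarith)), ?_⟩
        have := div_mul_cancel₀ d (by linarith : ⟪s, v⟫ * ⟪h, q⟫ - ⟪s, q⟫ * ⟪h, v⟫ ≠ 0)
        rw [inner_add_right, inner_add_right, inner_smul_right, inner_smul_right]
        linear_combination -this
    obtain ⟨β, k⟩ := plane hy (Or.inl rfl) h0 e
    have hb : β • y ∈ To ℓ v := fun t ht => by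
      have := congrArg (fun a => ⟪ℓ t, a⟫) k
      simp only [inner_add_right, inner_smul_right, ht, mul_zero, zero_add] at this
      rw [inner_smul_right, ← this]
      exact mul_pos (hun v hv) (hx t)
    have := Tc_sign (To_sub v hb) v1 v2
    obtain ⟨t, -, ht, -⟩ := hv.2.2
    have := hb t ht
    simp_all
  · rintro (rfl | rfl)
    exacts [⟨hp, p1, p2⟩, ⟨hq, q1, q2⟩]

theorem girard (hl : ∀ t, ℓ t ≠ 0) (hne : (Ko ℓ).Nonempty)
    (hpt : ∀ x ∈ Kc ℓ, -x ∈ Kc ℓ → x = 0) :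
    ∑ v ∈ Vs ℓ, (v0 - 2 * μ.real (Tc ℓ v)) = 2 * (v0 - 2 * μ.real (Kc ℓ)) := by
  classical
  have hm : ∀ S : Set E, IsClosed S → MeasurableSet {z | z ∉ S ∧ -z ∉ S} := fun S hS =>
    hS.measurableSet.compl.inter (measurable_neg hS.measurableSet.compl)
  have e1 : ∀ v ∈ Vs ℓ, v0 - 2 * μ.real (Tc ℓ v) =
      ∫ y, indicator {z | z ∉ Tc ℓ v ∧ -z ∉ Tc ℓ v} (1 : E → ℝ) y ∂μ := by
    intro v hv
    rw [integral_indicator_one (hm _ (isClosed_Tc v)), μ_two (isClosed_Tc v).measurableSet]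
    filter_upwards [ae_generic' ℓ hl] with z hz k1 k2
    obtain ⟨t, -, ht, -⟩ := (mem_Vs.1 hv).2.2
    have a := k1 t ht
    have b := k2 t ht
    rw [inner_neg_right] at b
    exact hz t (by linarith)
  have e2 : v0 - 2 * μ.real (Kc ℓ) =
      ∫ y, indicator {z | z ∉ Kc ℓ ∧ -z ∉ Kc ℓ} (1 : E → ℝ) y ∂μ := by
    rw [integral_indicator_one (hm _ isClosed_Kc), μ_two isClosed_Kc.measurableSet]
    filter_upwards [ae_generic' (fun _ : Unit => (!₂[1, 0, 0] : E)) fun _ k => by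
      simpa using congrArg (fun a : E => a 0) k] with z hz k1 k2
    exact hz () (by rw [hpt z k1 k2]; simp)
  rw [Finset.sum_congr rfl e1, e2, ← integral_finsetSum _ fun v _ =>
    (integrable_const 1).indicator (hm _ (isClosed_Tc v)), ← integral_const_mul]
  refine integral_congr_ae ?_
  filter_upwards [ae_generic' ℓ hl] with y hy
  simp only [indicator_apply, mem_ofPred_eq, Pi.one_apply, Finset.sum_boole]
  split_ifs with k
  · rw [silhouette hl hne hpt hy k.1 k.2]; norm_num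
  · rw [Finset.filter_false_of_mem]; · simp
    intro v _ k'
    exact k ⟨fun a => k'.1 (Kc_Tc v a), fun a => k'.2 (Kc_Tc v a)⟩

end Pool.Agent.Lib.MP_e5885b_co
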