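import Pool.Agent.Lib.MP_e5885b_co.Vec

set_option autoImplicit false

open Complex Real
open scoped RealInnerProductSpace ComplexConjugate

namespace Pool.Agent.Lib.MP_e5885b_co

/-- a point of the sphere with a unit tangent vector -/
structure Frm where
  x : E
  a : E
  hx : ‖x‖ = 1
  ha : ‖a‖ = 1
  hxa : ⟪x, a⟫ = 0

namespace Frm

noncomputable def b (u : Frm) : E := cr u.x u.a

noncomputable def W (u : Frm) (k : Fin 3) : ℂ := ⟨u.a k, u.b k⟩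

noncomputable def c (u v : Frm) : ℂ := ⟨⟪u.a, v.a⟫ + ⟪u.b, v.b⟫, ⟪u.a, v.b⟫ - ⟪u.b, v.a⟫⟩

lemma c_eq (u v : Frm) : u.c v =
    conj (u.W 0) * v.W 0 + conj (u.W 1) * v.W 1 + conj (u.W 2) * v.W 2 := by
  apply Complex.ext <;> simp [c, W, inn] <;> ring

lemma c_conj (u v : Frm) : v.c u = conj (u.c v) := by
  apply Complex.ext <;> simp [c, real_inner_comm]

noncomputable def Pm (x : E) : Fin 3 → Fin 3 → ℂ :=
  ![![⟨1 - x 0 * x 0, 0⟩, ⟨-(x 0 * x 1), -x 2⟩, ⟨-(x 0 * x 2), x 1⟩],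
    ![⟨-(x 1 * x 0), x 2⟩, ⟨1 - x 1 * x 1, 0⟩, ⟨-(x 1 * x 2), -x 0⟩],
    ![⟨-(x 2 * x 0), -x 1⟩, ⟨-(x 2 * x 1), x 0⟩, ⟨1 - x 2 * x 2, 0⟩]]

lemma Q_eq (u : Frm) (m k : Fin 3) : u.W m * conj (u.W k) = Pm u.x m k := by
  have h2 := inner_one u.ha
  have h3 := u.hxa
  rw [inn] at h2 h3
  have S0 : u.a 1 * u.b 2 - u.a 2 * u.b 1 = u.x 0 := by
    simp only [b, cr1, cr2]; linear_combination u.x 0 * h2 - u.a 0 * h3
  have S1 : u.a 2 * u.b 0 - u.a 0 * u.b 2 = u.x 1 := by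
    simp only [b, cr0, cr2]; linear_combination u.x 1 * h2 - u.a 1 * h3
  have S2 : u.a 0 * u.b 1 - u.a 1 * u.b 0 = u.x 2 := by
    simp only [b, cr0, cr1]; linear_combination u.x 2 * h2 - u.a 2 * h3
  have R : ∀ (w : E) (m : Fin 3), w m = ⟪w, u.x⟫ * u.x m + ⟪w, u.a⟫ * u.a m + ⟪w, u.b⟫ * u.b m :=
    fun w m => congrArg (fun z : E => z m) (expand_on u.hx u.ha u.hxa w)
  have R0 := R !₂[1, 0, 0]
  have R1 := R !₂[0, 1, 0]
  have R2 := R !₂[0, 0, 1]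
  have a0 := R0 0
  have a1 := R0 1
  have a2 := R0 2
  have b1 := R1 1
  have b2 := R1 2
  have c2 := R2 2
  simp [inn] at a0 a1 a2 b1 b2 c2
  fin_cases m <;> fin_cases k <;> apply Complex.ext <;> simp [W, Pm] <;> linarith

end Frm

noncomputable def dt (x y z : E) : ℝ := ⟪cr x y, z⟫

noncomputable def bt (x y z : E) : ℂ :=
  ⟨⟪x, y⟫ ^ 2 + ⟪y, z⟫ ^ 2 + ⟪z, x⟫ ^ 2 - ⟪x, y⟫ * ⟪y, z⟫ * ⟪z, x⟫ + ⟪x, y⟫ + ⟪y, z⟫ + ⟪z, x⟫ +
    ⟪x, y⟫ * ⟪y, z⟫ + ⟪y, z⟫ * ⟪z, x⟫ + ⟪z, x⟫ * ⟪x, y⟫,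
    (1 + ⟪x, y⟫ + ⟪y, z⟫ + ⟪z, x⟫) * dt x y z⟩

lemma triple (u v w : Frm) : u.c v * v.c w * w.c u = bt u.x v.x w.x := by
  have e : u.c v * v.c w * w.c u = ∑ k, ∑ l, ∑ m, (u.W m * conj (u.W k)) *
      (v.W k * conj (v.W l)) * (w.W l * conj (w.W m)) := by
    simp only [Frm.c_eq, Fin.sum_univ_three]; ring
  have h1 := inner_one u.hx
  have h2 := inner_one v.hx
  have h3 := inner_one w.hx
  rw [inn] at h1 h2 h3
  rw [e]
  simp only [Frm.Q_eq, Fin.sum_univ_three]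
  apply Complex.ext
  · simp [Frm.Pm, bt, inn]
    linear_combination (-(1 + (v.x 0 * w.x 0 + v.x 1 * w.x 1 + v.x 2 * w.x 2))) * h1 -
      (1 + (w.x 0 * u.x 0 + w.x 1 * u.x 1 + w.x 2 * u.x 2)) * h2 -
      (1 + (u.x 0 * v.x 0 + u.x 1 * v.x 1 + u.x 2 * v.x 2)) * h3
  · simp [Frm.Pm, bt, inn, dt]
    ring

/-- the signed area of a small triangle -/
noncomputable def Ar (x y z : E) : ℝ := arg (bt x y z)

lemma inner_near {x y : E} (hx : ‖x‖ = 1) (hy : ‖y‖ = 1) {η : ℝ} (h : ‖x - y‖ ≤ η)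
    (hη : η ≤ 1 / 4) : 31 / 32 ≤ ⟪x, y⟫ ∧ ⟪x, y⟫ ≤ 1 := by
  have := norm_sub_sq_real x y
  rw [hx, hy] at this
  have h0 := norm_nonneg (x - y)
  constructor <;> nlinarith

lemma dt_le {x y z : E} (hx : ‖x‖ = 1) {η : ℝ} (h1 : ‖x - y‖ ≤ η) (h2 : ‖z - x‖ ≤ η) :
    |dt x y z| ≤ η ^ 2 := by
  have e : dt x y z = ⟪x, cr (z - x) (x - y)⟫ := by
    simp only [dt, inn, cr0, cr1, cr2, PiLp.sub_apply]; ring
  have l := lagr (z - x) (x - y)
  rw [real_inner_self_eq_norm_sq, real_inner_self_eq_norm_sq, real_inner_self_eq_norm_sq] at l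
  have h0 : 0 ≤ η := (norm_nonneg _).trans h1
  have : ‖cr (z - x) (x - y)‖ ≤ η ^ 2 := by
    refine abs_le_of_sq_le_sq' ?_ (by positivity) |>.2
    have a := mul_le_mul (pow_le_pow_left₀ (norm_nonneg _) h2 2)
      (pow_le_pow_left₀ (norm_nonneg _) h1 2) (by positivity) (by positivity)
    nlinarith [sq_nonneg ⟪z - x, x - y⟫]
  rw [e]
  exact (abs_real_inner_le_norm _ _).trans (by rw [hx, one_mul]; exact this)

lemma Ar_spec {x y z : E} (hx : ‖x‖ = 1) (hy : ‖y‖ = 1) (hz : ‖z‖ = 1) {η : ℝ}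
    (h1 : ‖x - y‖ ≤ η) (h2 : ‖y - z‖ ≤ η) (h3 : ‖z - x‖ ≤ η) (hη : η ≤ 1 / 4) :
    bt x y z ≠ 0 ∧ |Ar x y z| ≤ 2 * η ^ 2 ∧ (0 ≤ dt x y z → dt x y z / 8 ≤ Ar x y z) := by
  obtain ⟨p1, p2⟩ := inner_near hx hy h1 hη
  obtain ⟨q1, q2⟩ := inner_near hy hz h2 hη
  obtain ⟨r1, r2⟩ := inner_near hz hx h3 hη
  have d := dt_le hx h1 h3
  have h0 : 0 ≤ η := (norm_nonneg _).trans h1
  have d1 : |dt x y z| ≤ 1 := d.trans (by nlinarith)
  have im : (bt x y z).im = (1 + ⟪x, y⟫ + ⟪y, z⟫ + ⟪z, x⟫) * dt x y z := rfl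
  have re : 7 ≤ (bt x y z).re ∧ (bt x y z).re ≤ 9 := by
    have a := mul_le_mul p2 q2 (by linarith) zero_le_one
    have b := mul_le_mul a r2 (by linarith) (by norm_num)
    have c := mul_nonneg (mul_nonneg (by linarith : 0 ≤ ⟪x, y⟫) (by linarith : 0 ≤ ⟪y, z⟫))
      (by linarith : 0 ≤ ⟪z, x⟫)
    simp only [bt]
    constructor <;> nlinarith
  have ia : |(bt x y z).im| ≤ 4 * |dt x y z| := by
    rw [im, abs_mul, abs_of_nonneg (by linarith)]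
    exact mul_le_mul_of_nonneg_right (by linarith) (abs_nonneg _)
  have n1 : 7 ≤ ‖bt x y z‖ := re.1.trans (re_le_norm _)
  have n2 : ‖bt x y z‖ ≤ 13 := (norm_le_abs_re_add_abs_im _).trans (by
    rw [abs_of_nonneg (by linarith [re.1])]; linarith [re.2])
  have s := Complex.sin_arg (bt x y z)
  have a : |arg (bt x y z)| ≤ π / 2 :=
    (abs_arg_lt_pi_div_two_iff.2 (Or.inl (by linarith [re.1]))).le
  refine ⟨fun e => by rw [e, norm_zero] at n1; linarith, ?_, fun k => ?_⟩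
  · have b := Real.mul_abs_le_abs_sin a
    rw [s, abs_div, abs_norm, le_div_iff₀ (by linarith), div_mul_eq_mul_div, div_mul_eq_mul_div,
      div_le_iff₀ pi_pos] at b
    have c := abs_nonneg (arg (bt x y z))
    have e := mul_le_mul_of_nonneg_left n1 c
    have f := mul_le_mul (ia.trans (mul_le_mul_of_nonneg_left d (by norm_num))) pi_le_four
      pi_pos.le (by positivity)
    unfold Ar
    nlinarith
  · have i0 : 2 * dt x y z ≤ (bt x y z).im := by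
      rw [im]; exact mul_le_mul_of_nonneg_right (by linarith) k
    have b := Real.sin_le (arg_nonneg_iff.2 (by linarith : 0 ≤ (bt x y z).im))
    rw [s, div_le_iff₀ (by linarith)] at b
    have c : 0 ≤ arg (bt x y z) := arg_nonneg_iff.2 (by linarith)
    have e := mul_le_mul_of_nonneg_left n2 c
    unfold Ar
    linarith

/-- the antisymmetrised turning angle between two frames -/
noncomputable def an (u v : Frm) : ℝ := (arg (u.c v) - arg (v.c u)) / 2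

lemma an_neg (u v : Frm) : an v u = -an u v := by unfold an; ring

lemma an_abs (u v : Frm) : |an u v| ≤ π := by
  have := abs_le.1 (abs_arg_le_pi (u.c v))
  have := abs_le.1 (abs_arg_le_pi (v.c u))
  unfold an
  rw [abs_le]; constructor <;> linarith

lemma an_eq (u v : Frm) : ∃ k : ℤ, an u v = arg (u.c v) + π * k := by
  unfold an
  rw [u.c_conj v, arg_conj]
  split_ifs with h
  · exact ⟨-1, by rw [h]; push_cast; ring⟩
  · exact ⟨0, by push_cast; ring⟩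

lemma an_tri (u v w : Frm) (h : bt u.x v.x w.x ≠ 0) :
    ∃ k : ℤ, an u v + an v w + an w u = Ar u.x v.x w.x + π * k := by
  unfold Ar
  rw [← triple] at h ⊢
  obtain ⟨h1, h3⟩ := mul_ne_zero_iff.1 h
  obtain ⟨h1', h2⟩ := mul_ne_zero_iff.1 h1
  have e := arg_mul_coe_angle h1 h3
  rw [arg_mul_coe_angle h1' h2, ← Real.Angle.coe_add, ← Real.Angle.coe_add,
    Real.Angle.angle_eq_iff_two_pi_dvd_sub] at e
  obtain ⟨k, e⟩ := e
  obtain ⟨k1, e1⟩ := an_eq u v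
  obtain ⟨k2, e2⟩ := an_eq v w
  obtain ⟨k3, e3⟩ := an_eq w u
  exact ⟨k1 + k2 + k3 - 2 * k, by push_cast; linarith⟩

lemma zero_of {t : ℝ} {k : ℤ} (h : t = π * k) (s : |t| < π) : t = 0 := by
  rw [h, abs_mul, abs_of_pos pi_pos, mul_lt_iff_lt_one_right pi_pos, ← Int.cast_abs] at s
  have : |k| < 1 := by exact_mod_cast s
  rw [h, Int.abs_lt_one_iff.1 this]; simp

/-- the side term of the prism between two labellings -/
noncomputable def sd (x y x' y' : E) : ℝ := Ar x x' y' + Ar x y' y - (Ar y y' x' + Ar y x' x)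

lemma prism (u v w u' v' w' : Frm) {η : ℝ} (hη : η ≤ 1 / 4)
    (h : ∀ p ∈ [u, v, w, u', v', w'], ∀ q ∈ [u, v, w, u', v', w'], ‖p.x - q.x‖ ≤ η) :
    2 * Ar u'.x v'.x w'.x = 2 * Ar u.x v.x w.x +
      (sd u.x v.x u'.x v'.x + sd v.x w.x v'.x w'.x + sd w.x u.x w'.x u'.x) := by
  have k : ∀ p ∈ [u, v, w, u', v', w'], ∀ q ∈ [u, v, w, u', v', w'], ∀ r ∈ [u, v, w, u', v', w'],
      |Ar p.x q.x r.x| ≤ 1 / 8 ∧ ∃ k : ℤ, an p q + an q r + an r p = Ar p.x q.x r.x + π * k :=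
    fun p hp q hq r hr => by
      obtain ⟨a, b, -⟩ := Ar_spec p.hx q.hx r.hx (h p hp q hq) (h q hq r hr) (h r hr p hp) hη
      have h0 : 0 ≤ η := (norm_nonneg _).trans (h p hp q hq)
      exact ⟨b.trans (by nlinarith), an_tri p q r a⟩
  have side : ∀ p ∈ [u, v, w, u', v', w'], ∀ q ∈ [u, v, w, u', v', w'],
      ∀ p' ∈ [u, v, w, u', v', w'], ∀ q' ∈ [u, v, w, u', v', w'], |sd p.x q.x p'.x q'.x| ≤ 1 / 2 ∧
      ∃ k : ℤ, 2 * (an p p' + an p' q' - an q q' - an p q) = sd p.x q.x p'.x q'.x + π * k :=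
    fun p hp q hq p' hp' q' hq' => by
      obtain ⟨a1, k1, e1⟩ := k p hp p' hp' q' hq'
      obtain ⟨a2, k2, e2⟩ := k p hp q' hq' q hq
      obtain ⟨a3, k3, e3⟩ := k q hq q' hq' p' hp'
      obtain ⟨a4, k4, e4⟩ := k q hq p' hp' p hp
      rw [abs_le] at a1 a2 a3 a4
      refine ⟨by unfold sd; rw [abs_le]; constructor <;> linarith, k1 + k2 - k3 - k4, ?_⟩
      unfold sd
      push_cast
      linarith [an_neg p q', an_neg q q', an_neg p q, an_neg p' q', an_neg q p', an_neg p p']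
  obtain ⟨a1, k1, e1⟩ := k u (by simp) v (by simp) w (by simp)
  obtain ⟨a2, k2, e2⟩ := k u' (by simp) v' (by simp) w' (by simp)
  obtain ⟨a3, k3, e3⟩ := side u (by simp) v (by simp) u' (by simp) v' (by simp)
  obtain ⟨a4, k4, e4⟩ := side v (by simp) w (by simp) v' (by simp) w' (by simp)
  obtain ⟨a5, k5, e5⟩ := side w (by simp) u (by simp) w' (by simp) u' (by simp)
  rw [abs_le] at a1 a2 a3 a4 a5
  have := zero_of (t := 2 * Ar u'.x v'.x w'.x - (2 * Ar u.x v.x w.x +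
      (sd u.x v.x u'.x v'.x + sd v.x w.x v'.x w'.x + sd w.x u.x w'.x u'.x)))
    (k := 2 * k1 - 2 * k2 + k3 + k4 + k5) (by push_cast; linarith)
    (by rw [abs_lt]; constructor <;> linarith [pi_gt_three])
  linarith

lemma sd_neg (x y x' y' : E) : sd y x y' x' = -sd x y x' y' := by unfold sd; ring

end Pool.Agent.Lib.MP_e5885b_co
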