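import Pool.Agent.Lib.MP_e5885b_co.LT1

set_option autoImplicit false

open Finset
open scoped RealInnerProductSpace

namespace Pool.Agent.Lib.MP_e5885b_co

abbrev Lat := ℕ × ℕ × ℕ

def face (d : Fin 3) (c a b : ℕ) : Lat := ![(a, b, c), (c, a, b), (b, c, a)] d

noncomputable def lat (n : ℕ) (p : Lat) : E := !₂[(p.1 : ℝ) - n, (p.2.1 : ℝ) - n, (p.2.2 : ℝ) - n]

noncomputable def un (p : E) : E := ‖p‖⁻¹ • p

lemma lat_inner (n : ℕ) (d : Fin 3) (c a b c' a' b' : ℕ) :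
    ⟪lat n (face d c a b), lat n (face d c' a' b')⟫ =
      ((a : ℝ) - n) * (a' - n) + ((b : ℝ) - n) * (b' - n) + ((c : ℝ) - n) * (c' - n) := by
  fin_cases d <;> simp [lat, face, inn] <;> ring

lemma lat_dist (n : ℕ) (d : Fin 3) (c a b a' b' : ℕ) :
    ‖lat n (face d c a b) - lat n (face d c a' b')‖ ^ 2 =
      ((a : ℝ) - a') ^ 2 + ((b : ℝ) - b') ^ 2 := by
  rw [norm_sub_sq_real, ← real_inner_self_eq_norm_sq, ← real_inner_self_eq_norm_sq, lat_inner,
    lat_inner, lat_inner]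
  ring

lemma lat_dt (n : ℕ) (d : Fin 3) (c a b a' b' a'' b'' : ℕ) :
    dt (lat n (face d c a b)) (lat n (face d c a' b')) (lat n (face d c a'' b'')) =
      ((c : ℝ) - n) * (((a' : ℝ) - a) * ((b'' : ℝ) - b) - ((a'' : ℝ) - a) * ((b' : ℝ) - b)) := by
  fin_cases d <;> simp [lat, face, inn, dt] <;> ring

lemma lat_norm {n : ℕ} (d : Fin 3) {c a b : ℕ} (hc : c = 0 ∨ c = 2 * n) (ha : a ≤ 2 * n)
    (hb : b ≤ 2 * n) : (n : ℝ) ≤ ‖lat n (face d c a b)‖ ∧ ‖lat n (face d c a b)‖ ≤ 2 * n := by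
  have e := lat_inner n d c a b c a b
  rw [real_inner_self_eq_norm_sq] at e
  have h1 : (a : ℝ) ≤ 2 * n := by exact_mod_cast ha
  have h2 : (b : ℝ) ≤ 2 * n := by exact_mod_cast hb
  have h3 : ((c : ℝ) - n) * (c - n) = n ^ 2 := by rcases hc with rfl | rfl <;> push_cast <;> ring
  have h4 : (0 : ℝ) ≤ a := Nat.cast_nonneg _
  have h5 : (0 : ℝ) ≤ b := Nat.cast_nonneg _
  have h6 : (0 : ℝ) ≤ n := Nat.cast_nonneg _
  refine ⟨abs_le_of_sq_le_sq' ?_ (norm_nonneg _) |>.2, abs_le_of_sq_le_sq' ?_ (by positivity) |>.2⟩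
  · nlinarith [mul_self_nonneg ((a : ℝ) - n), mul_self_nonneg ((b : ℝ) - n)]
  · nlinarith [mul_nonneg h4 (sub_nonneg.2 h1), mul_nonneg h5 (sub_nonneg.2 h2)]

lemma un_smul {p : E} (h : 0 < ‖p‖) : ‖p‖ • un p = p := by
  rw [un, smul_smul, mul_inv_cancel₀ h.ne', one_smul]

lemma un_norm {p : E} (h : 0 < ‖p‖) : ‖un p‖ = 1 := by
  rw [un, norm_smul, norm_inv, norm_norm, inv_mul_cancel₀ h.ne']

lemma un_sub {p q : E} (hp : 0 < ‖p‖) (hq : 0 < ‖q‖) : ‖p‖ * ‖un p - un q‖ ≤ 2 * ‖p - q‖ := by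
  have e : ‖p‖ • (un p - un q) = (p - q) + (‖q‖ - ‖p‖) • un q := by
    rw [smul_sub, sub_smul, un_smul hp, un_smul hq]; abel
  have := norm_add_le (p - q) ((‖q‖ - ‖p‖) • un q)
  rw [← e, norm_smul, norm_smul, norm_norm, un_norm hq, mul_one, Real.norm_eq_abs] at this
  have k := abs_norm_sub_norm_le q p
  rw [norm_sub_rev q p] at k
  linarith

lemma sub_un {p q f : E} {n : ℝ} (hn : 0 < n) (hf : ‖f‖ = 1) (h1 : ⟪p, f⟫ = n) (h2 : ⟪q, f⟫ = n)
    (hp : n ≤ ‖p‖ ∧ ‖p‖ ≤ 2 * n) (hq : n ≤ ‖q‖ ∧ ‖q‖ ≤ 2 * n) :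
    ‖p - q‖ ≤ 6 * n * ‖un p - un q‖ := by
  have p0 := hn.trans_le hp.1
  have q0 := hn.trans_le hq.1
  have e : p - q = ‖p‖ • (un p - un q) + (‖p‖ - ‖q‖) • un q := by
    rw [smul_sub, sub_smul, un_smul p0, un_smul q0]; abel
  have k := norm_add_le (‖p‖ • (un p - un q)) ((‖p‖ - ‖q‖) • un q)
  rw [← e, norm_smul, norm_smul, norm_norm, un_norm q0, mul_one, Real.norm_eq_abs] at k
  have a : (‖q‖ - ‖p‖) * n = ‖p‖ * ‖q‖ * ⟪un p - un q, f⟫ := by
    rw [inner_sub_left, un, un, real_inner_smul_left, real_inner_smul_left, h1, h2]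
    field_simp
  have b := abs_real_inner_le_norm (un p - un q) f
  rw [hf, mul_one] at b
  have c : |‖p‖ - ‖q‖| * n ≤ (2 * n) * (2 * n) * ‖un p - un q‖ := by
    rw [abs_sub_comm, ← abs_of_pos hn, ← abs_mul, a, abs_mul, abs_of_pos (mul_pos p0 q0),
      abs_of_pos hn]
    exact mul_le_mul (mul_le_mul hp.2 hq.2 q0.le (by positivity)) b (abs_nonneg _) (by positivity)
  have d : |‖p‖ - ‖q‖| ≤ 4 * n * ‖un p - un q‖ := le_of_mul_le_mul_right (by linarith) hn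
  have g := mul_le_mul_of_nonneg_right hp.2 (norm_nonneg (un p - un q))
  linarith

lemma face_dir (n : ℕ) (d : Fin 3) {c : ℕ} (hc : c = 0 ∨ c = 2 * n) :
    ∃ f : E, ‖f‖ = 1 ∧ ∀ a b, ⟪lat n (face d c a b), f⟫ = n := by
  have k : ‖lat 0 (face d 1 0 0)‖ = 1 := norm_one_of_inner (by rw [lat_inner]; simp)
  have e : ∀ a b, ⟪lat n (face d c a b), lat 0 (face d 1 0 0)⟫ = (c : ℝ) - n := fun a b => by
    rw [inn]; fin_cases d <;> simp [lat, face]
  rcases hc with rfl | rfl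
  · exact ⟨-lat 0 (face d 1 0 0), by rw [norm_neg, k], fun a b => by
      rw [inner_neg_right, e]; simp⟩
  · exact ⟨lat 0 (face d 1 0 0), k, fun a b => by rw [e]; push_cast; ring⟩

lemma face_sum (g : ℕ → ℕ → Lat) (b : Lat → Lat → ℝ) (hb : ∀ p q, b q p = -b p q) (m : ℕ) :
    ∑ x ∈ range m, ∑ y ∈ range m, ((b (g x y) (g (x + 1) y) + b (g (x + 1) y) (g (x + 1) (y + 1)) +
      b (g (x + 1) (y + 1)) (g x y)) + (b (g x y) (g (x + 1) (y + 1)) +
      b (g (x + 1) (y + 1)) (g x (y + 1)) + b (g x (y + 1)) (g x y))) =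
    ∑ x ∈ range m, (b (g x 0) (g (x + 1) 0) - b (g x m) (g (x + 1) m) +
      (b (g m x) (g m (x + 1)) - b (g 0 x) (g 0 (x + 1)))) := by
  have h1 : ∀ x, b (g x 0) (g (x + 1) 0) - b (g x m) (g (x + 1) m) =
      ∑ y ∈ range m, (b (g x y) (g (x + 1) y) - b (g x (y + 1)) (g (x + 1) (y + 1))) := fun x =>
    (sum_range_sub' (fun y => b (g x y) (g (x + 1) y)) m).symm
  have h2 : ∀ y, b (g m y) (g m (y + 1)) - b (g 0 y) (g 0 (y + 1)) =
      ∑ x ∈ range m, (b (g (x + 1) y) (g (x + 1) (y + 1)) - b (g x y) (g x (y + 1))) := fun y =>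
    (sum_range_sub (fun x => b (g x y) (g x (y + 1))) m).symm
  simp only [h1, h2]
  rw [sum_add_distrib (s := range m) (f := fun x => ∑ y ∈ range m, _), sum_comm (s := range m)
    (f := fun y x => b (g (x + 1) y) (g (x + 1) (y + 1)) - b (g x y) (g x (y + 1))),
    ← sum_add_distrib]
  refine sum_congr rfl fun x _ => ?_
  rw [← sum_add_distrib]
  refine sum_congr rfl fun y _ => ?_
  linarith [hb (g x y) (g (x + 1) (y + 1)), hb (g x (y + 1)) (g (x + 1) (y + 1)),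
    hb (g x y) (g x (y + 1))]

abbrev Tri := (Fin 3 × Bool × Bool) × ℕ × ℕ

/-- offsets of the three corners of a triangle -/
def off (s k : Bool) (r : Fin 3) : ℕ × ℕ :=
  match s, k with
  | true, true => ![(0, 0), (1, 0), (1, 1)] r
  | true, false => ![(0, 0), (1, 1), (0, 1)] r
  | false, true => ![(0, 0), (1, 1), (1, 0)] r
  | false, false => ![(0, 0), (0, 1), (1, 1)] r

def vt (n : ℕ) (q : Tri) (r : Fin 3) : Lat :=
  face q.1.1 (if q.1.2.1 then 2 * n else 0) (q.2.1 + (off q.1.2.1 q.1.2.2 r).1)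
    (q.2.2 + (off q.1.2.1 q.1.2.2 r).2)

def Tris (n : ℕ) : Finset Tri := univ ×ˢ range (2 * n) ×ˢ range (2 * n)

lemma off_le (s k : Bool) (r : Fin 3) : (off s k r).1 ≤ 1 ∧ (off s k r).2 ≤ 1 := by
  revert s k r; decide

lemma card_Tris (n : ℕ) : (Tris n).card = 48 * n ^ 2 := by
  simp [Tris]; ring

lemma cycle (n : ℕ) (b : Lat → Lat → ℝ) (hb : ∀ p q, b q p = -b p q) :
    ∑ q ∈ Tris n, (b (vt n q 0) (vt n q 1) + b (vt n q 1) (vt n q 2) + b (vt n q 2) (vt n q 0))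
      = 0 := by
  let Φ : Fin 3 → ℕ → ℝ := fun d c => ∑ x ∈ range (2 * n),
    (b (face d c x 0) (face d c (x + 1) 0) - b (face d c x (2 * n)) (face d c (x + 1) (2 * n)) +
      (b (face d c (2 * n) x) (face d c (2 * n) (x + 1)) - b (face d c 0 x) (face d c 0 (x + 1))))
  have h : ∀ d c, _ = Φ d c := fun d c => face_sum (fun x y => face d c x y) b hb (2 * n)
  have k : ∀ d, ∑ x ∈ range (2 * n), ∑ y ∈ range (2 * n),
      ((b (face d 0 x y) (face d 0 (x + 1) (y + 1)) + b (face d 0 (x + 1) (y + 1)) (face d 0 (x + 1) y) +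
        b (face d 0 (x + 1) y) (face d 0 x y)) + (b (face d 0 x y) (face d 0 x (y + 1)) +
        b (face d 0 x (y + 1)) (face d 0 (x + 1) (y + 1)) +
        b (face d 0 (x + 1) (y + 1)) (face d 0 x y))) = -Φ d 0 := fun d => by
    rw [← h d 0, ← sum_neg_distrib]
    refine sum_congr rfl fun x _ => ?_
    rw [← sum_neg_distrib]
    refine sum_congr rfl fun y _ => ?_
    linarith [hb (face d 0 x y) (face d 0 (x + 1) (y + 1)), hb (face d 0 x y) (face d 0 (x + 1) y),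
      hb (face d 0 x (y + 1)) (face d 0 (x + 1) (y + 1)), hb (face d 0 x y) (face d 0 x (y + 1)),
      hb (face d 0 (x + 1) y) (face d 0 (x + 1) (y + 1))]
  have e : ∑ q ∈ Tris n, (b (vt n q 0) (vt n q 1) + b (vt n q 1) (vt n q 2) +
      b (vt n q 2) (vt n q 0)) = ∑ d : Fin 3, (Φ d (2 * n) + -Φ d 0) := by
    rw [Tris, sum_product, Fintype.sum_prod_type]
    refine sum_congr rfl fun d _ => ?_
    rw [← h d (2 * n), ← k d]
    simp only [Fintype.sum_prod_type, Fintype.sum_bool, sum_product, sum_add_distrib]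
    simp [vt, off]
    ring
  rw [e]
  simp only [Φ, Fin.sum_univ_three, ← sum_neg_distrib, ← sum_add_distrib]
  exact sum_eq_zero fun x _ => by simp [face]; ring

lemma vt_norm {n : ℕ} {q : Tri} (hq : q ∈ Tris n) (r : Fin 3) :
    (n : ℝ) ≤ ‖lat n (vt n q r)‖ ∧ ‖lat n (vt n q r)‖ ≤ 2 * n := by
  simp only [Tris, mem_product, mem_range] at hq
  have := off_le q.1.2.1 q.1.2.2 r
  exact lat_norm _ (by split_ifs <;> simp) (by omega) (by omega)

/-- the point of the sphere attached to a lattice point -/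
noncomputable def pt (n : ℕ) (p : Lat) : E := un (lat n p)

lemma pt_norm {n : ℕ} (hn : 0 < n) {q : Tri} (hq : q ∈ Tris n) (r : Fin 3) :
    ‖pt n (vt n q r)‖ = 1 :=
  un_norm (lt_of_lt_of_le (by exact_mod_cast hn) (vt_norm hq r).1)

lemma pt_dist {n : ℕ} (hn : 0 < n) {q : Tri} (hq : q ∈ Tris n) (r r' : Fin 3) :
    ‖pt n (vt n q r) - pt n (vt n q r')‖ ≤ 4 / n := by
  have n0 : (0 : ℝ) < n := by exact_mod_cast hn
  have a := un_sub (n0.trans_le (vt_norm hq r).1) (n0.trans_le (vt_norm hq r').1)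
  have b : ‖lat n (vt n q r) - lat n (vt n q r')‖ ≤ 2 := by
    refine abs_le_of_sq_le_sq' ?_ zero_le_two |>.2
    rw [vt, vt, lat_dist]
    have k : ∀ x y : ℕ, x ≤ 1 → y ≤ 1 → ((x : ℝ) - y) ^ 2 ≤ 1 := fun x y hx hy => by
      interval_cases x <;> interval_cases y <;> norm_num
    have := k _ _ (off_le q.1.2.1 q.1.2.2 r).1 (off_le q.1.2.1 q.1.2.2 r').1
    have := k _ _ (off_le q.1.2.1 q.1.2.2 r).2 (off_le q.1.2.1 q.1.2.2 r').2
    push_cast
    rw [add_sub_add_left_eq_sub, add_sub_add_left_eq_sub]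
    linarith
  have c := mul_le_mul_of_nonneg_right (vt_norm hq r).1
    (norm_nonneg (un (lat n (vt n q r)) - un (lat n (vt n q r'))))
  rw [le_div_iff₀ n0, pt, pt]
  linarith

lemma pt_dt {n : ℕ} (hn : 0 < n) {q : Tri} (hq : q ∈ Tris n) :
    1 / (8 * n ^ 2) ≤ dt (pt n (vt n q 0)) (pt n (vt n q 1)) (pt n (vt n q 2)) := by
  have n0 : (0 : ℝ) < n := by exact_mod_cast hn
  have e : dt (lat n (vt n q 0)) (lat n (vt n q 1)) (lat n (vt n q 2)) = n := by
    obtain ⟨⟨d, s, k⟩, x, y⟩ := q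
    simp only [vt, lat_dt]
    cases s <;> cases k <;> simp [off] <;> ring
  have f : ∀ x y z : E, dt (un x) (un y) (un z) = dt x y z / (‖x‖ * ‖y‖ * ‖z‖) := fun x y z => by
    simp only [dt, un, inn, cr0, cr1, cr2, PiLp.smul_apply, smul_eq_mul]; ring
  obtain ⟨a0, b0⟩ := vt_norm hq 0
  obtain ⟨a1, b1⟩ := vt_norm hq 1
  obtain ⟨a2, b2⟩ := vt_norm hq 2
  have c0 := n0.trans_le a0
  have c1 := n0.trans_le a1
  have c2 := n0.trans_le a2
  rw [pt, pt, pt, f, e, div_le_div_iff₀ (by positivity) (by positivity)]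
  have := mul_le_mul (mul_le_mul b0 b1 c1.le (by positivity)) b2 c2.le (by positivity)
  linarith

open Classical in
lemma pt_count {n : ℕ} (hn : 0 < n) {X : Set E} {ε : ℝ} (hε : 0 ≤ ε)
    (hX : ∀ x ∈ X, ∀ y ∈ X, ‖x - y‖ ≤ ε) :
    (((Tris n).filter fun q => ∃ r, pt n (vt n q r) ∈ X).card : ℝ) ≤ 12 * (12 * n * ε + 5) ^ 2 := by
  have n0 : (0 : ℝ) < n := by exact_mod_cast hn
  obtain ⟨R0, g1, g2⟩ : ∃ R : ℕ, 6 * n * ε ≤ R ∧ (R : ℝ) ≤ 6 * n * ε + 1 :=
    ⟨_, Nat.le_ceil _, (Nat.ceil_lt_add_one (by positivity)).le⟩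
  obtain ⟨R, hR⟩ : ∃ R, R = R0 + 1 := ⟨_, rfl⟩
  have h1 : ((Tris n).filter fun q => ∃ r, pt n (vt n q r) ∈ X).card ≤
      (univ : Finset (Fin 3 × Bool × Bool)).card * (2 * R + 1) ^ 2 := by
    rw [mul_comm]
    refine card_le_mul_card_image_of_maps_to (f := fun q => q.1) (fun _ _ => mem_univ _) _
      fun t _ => ?_
    rcases (((Tris n).filter fun q => ∃ r, pt n (vt n q r) ∈ X).filter
      fun q => q.1 = t).eq_empty_or_nonempty with e | ⟨q, hq⟩
    · simp [e]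
    refine (card_le_card (t := {t} ×ˢ Icc (q.2.1 - R) (q.2.1 + R) ×ˢ Icc (q.2.2 - R) (q.2.2 + R))
      fun p hp => ?_).trans ?_
    · obtain ⟨hq, q3⟩ := mem_filter.1 hq
      obtain ⟨q1, r, q2⟩ := mem_filter.1 hq
      obtain ⟨hp, p3⟩ := mem_filter.1 hp
      obtain ⟨p1, r', p2⟩ := mem_filter.1 hp
      obtain ⟨f, f1, f2⟩ := face_dir n t.1 (c := if t.2.1 then 2 * n else 0)
        (by split_ifs <;> simp)
      have a := sub_un n0 f1 (p := lat n (vt n q r)) (q := lat n (vt n p r'))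
        (by rw [vt, q3, f2]) (by rw [vt, p3, f2]) (vt_norm q1 r) (vt_norm p1 r')
      have b := a.trans ((mul_le_mul_of_nonneg_left (hX _ q2 _ p2) (by positivity)).trans g1)
      have c := pow_le_pow_left₀ (norm_nonneg _) b 2
      rw [vt, vt, q3, p3, lat_dist] at c
      have c1 := abs_le_of_sq_le_sq' ((le_add_of_nonneg_right (sq_nonneg _)).trans c)
        (Nat.cast_nonneg _)
      have c2 := abs_le_of_sq_le_sq' ((le_add_of_nonneg_left (sq_nonneg _)).trans c)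
        (Nat.cast_nonneg _)
      rw [neg_le_sub_iff_le_add, sub_le_iff_le_add] at c1 c2
      norm_cast at c1 c2
      have := off_le t.2.1 t.2.2 r
      have := off_le t.2.1 t.2.2 r'
      simp only [mem_product, mem_singleton, mem_Icc]
      refine ⟨p3, ?_, ?_⟩ <;> omega
    · simp only [card_product, card_singleton, Nat.card_Icc, one_mul, sq]
      exact Nat.mul_le_mul (by omega) (by omega)
  have h2 : (R : ℝ) ≤ 6 * n * ε + 2 := by
    rw [hR]; push_cast; linarith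
  refine (Nat.cast_le.2 h1).trans ?_
  rw [card_univ, show Fintype.card (Fin 3 × Bool × Bool) = 12 from rfl]
  push_cast
  exact mul_le_mul_of_nonneg_left (pow_le_pow_left₀ (by positivity) (by linarith) 2) (by norm_num)

end Pool.Agent.Lib.MP_e5885b_co
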