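import Mathlib

set_option autoImplicit false

open Finset

namespace Pool.Agent.Lib.MP_e5885b_co

variable {ι : Type} [Fintype ι] [DecidableEq ι]

theorem abs_det_le_prod (M : Matrix ι ι ℝ) : |M.det| ≤ ∏ j, ∑ i, |M i j| := by
  rw [Matrix.det_apply', prod_univ_sum, Fintype.piFinset_univ]
  refine (abs_sum_le_sum_abs _ _).trans ?_
  have e : ∀ σ : Equiv.Perm ι, |((Equiv.Perm.sign σ : ℤ) : ℝ) * ∏ i, M (σ i) i| =
      ∏ i, |M (σ i) i| := by
    intro σ
    rw [abs_mul, abs_prod]
    rcases Int.units_eq_one_or (Equiv.Perm.sign σ) with h | h <;> simp [h]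
  rw [sum_congr rfl fun σ _ => e σ]
  rw [← sum_image (s := (univ : Finset (Equiv.Perm ι))) (g := fun σ : Equiv.Perm ι => (σ : ι → ι))
    (f := fun p : ι → ι => ∏ i, |M (p i) i|) (fun _ _ _ _ h => DFunLike.coe_injective h)]
  exact sum_le_sum_of_subset_of_nonneg (subset_univ _)
    fun _ _ _ => prod_nonneg fun _ _ => abs_nonneg _

/-- A functional that is small on integer vectors of bounded length is small on their span, with
a constant that is exponential in the dimension. -/
theorem span_explicit (L : Set (ι → ℝ)) (R : ℝ) (hR : 1 ≤ R)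
    (hZ : ∀ v ∈ L, ∀ i, ∃ z : ℤ, v i = z) (hL : ∀ v ∈ L, ∑ i, |v i| ≤ R)
    (ψ : (ι → ℝ) →ₗ[ℝ] ℝ) (δ : ℝ) (hδ : 0 ≤ δ) (hψ : ∀ v ∈ L, |ψ v| ≤ δ)
    (e : ι → ℝ) (he : e ∈ Submodule.span ℝ L) :
    |ψ e| ≤ (2 * R) ^ Fintype.card ι * δ * ∑ i, |e i| := by
  classical
  obtain ⟨b, hb, hsp, hli⟩ := exists_linearIndependent ℝ L
  have hli' : LinearIndepOn ℝ id b := hli
  let T : Set (ι → ℝ) := b ∪ Set.range (Pi.basisFun ℝ ι)
  have hT : ⊤ ≤ Submodule.span ℝ T := by
    rw [← (Pi.basisFun ℝ ι).span_eq]; exact Submodule.span_mono Set.subset_union_right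
  let B := Module.Basis.extendLe hli' (Set.subset_union_left : b ⊆ T) hT
  let v : Module.Basis ι ℝ (ι → ℝ) := B.reindex (B.indexEquiv (Pi.basisFun ℝ ι))
  have hrange : Set.range v = Set.range B := B.range_reindex _
  have hvT : ∀ j, v j ∈ T := fun j =>
    Module.Basis.extendLe_subset hli' _ hT (hrange ▸ Set.mem_range_self j)
  have hbv : b ⊆ Set.range v := by
    rw [hrange]; exact Module.Basis.subset_extendLe hli' _ hT
  have vZ : ∀ j i, ∃ z : ℤ, v j i = z := by
    intro j i
    rcases hvT j with h | ⟨k, h⟩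
    · exact hZ _ (hb h) i
    · rw [← h, Pi.basisFun_apply, Pi.single_apply]
      split_ifs
      · exact ⟨1, by simp⟩
      · exact ⟨0, by simp⟩
  have vL : ∀ j, ∑ i, |v j i| ≤ R := by
    intro j
    rcases hvT j with h | ⟨k, h⟩
    · exact hL _ (hb h)
    · rw [← h]
      refine le_trans (le_of_eq ?_) hR
      simp [Pi.single_apply, apply_ite abs]
  have hdet : 1 ≤ |(Pi.basisFun ℝ ι).det v| := by
    have h0 : (Pi.basisFun ℝ ι).det v ≠ 0 := ((Pi.basisFun ℝ ι).isUnit_det v).ne_zero
    choose z hz using vZ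
    have e1 : (Pi.basisFun ℝ ι).det v = (((Matrix.of fun i j => z j i).det : ℤ) : ℝ) := by
      rw [Module.Basis.det_apply, Int.cast_det]
      congr 1
      ext i j
      simp [Module.Basis.toMatrix_apply, hz]
    rw [e1] at h0 ⊢
    exact_mod_cast Int.one_le_abs (by exact_mod_cast h0)
  have hE : 0 ≤ ∑ i, |e i| := sum_nonneg fun _ _ => abs_nonneg _
  have hco : ∀ j, |v.repr e j| ≤ R ^ Fintype.card ι * ∑ i, |e i| := by
    intro j
    have h1 := LinearMap.congr_fun ((Pi.basisFun ℝ ι).det_smul_mk_coord_eq_det_update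
      v.linearIndependent v.span_eq.ge j) e
    have h2 : Module.Basis.mk v.linearIndependent v.span_eq.ge = v :=
      Module.Basis.eq_of_apply_eq fun k => Module.Basis.mk_apply _ _ k
    rw [h2] at h1
    have h3 : (Pi.basisFun ℝ ι).det v * v.repr e j =
        (Pi.basisFun ℝ ι).det (Function.update v j e) := h1
    have h4 : |(Pi.basisFun ℝ ι).det (Function.update v j e)| ≤
        R ^ Fintype.card ι * ∑ i, |e i| := by
      rw [Module.Basis.det_apply]
      refine (abs_det_le_prod _).trans ?_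
      simp only [Module.Basis.toMatrix_apply, Pi.basisFun_repr]
      rw [← mul_prod_erase _ _ (mem_univ j), Function.update_self, mul_comm]
      refine mul_le_mul_of_nonneg_right ?_ hE
      calc ∏ k ∈ univ.erase j, ∑ i, |Function.update (v : ι → ι → ℝ) j e k i|
          ≤ ∏ _k ∈ univ.erase j, R := by
            refine prod_le_prod (fun _ _ => sum_nonneg fun _ _ => abs_nonneg _) fun k hk => ?_
            rw [Function.update_of_ne (mem_erase.1 hk).1]; exact vL k
        _ = R ^ (univ.erase j).card := prod_const _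
        _ ≤ _ := pow_le_pow_right₀ hR (card_le_univ _)
    rw [← h3, abs_mul] at h4
    exact (le_mul_of_one_le_left (abs_nonneg _) hdet).trans h4
  have hzero : ∀ j, v j ∉ b → v.repr e j = 0 := by
    intro j hj
    have h1 : e ∈ Submodule.span ℝ (v '' {k | v k ∈ b}) := by
      rw [← hsp] at he
      refine Submodule.span_mono (fun x hx => ?_) he
      obtain ⟨k, rfl⟩ := hbv hx
      exact ⟨k, hx, rfl⟩
    have h2 := v.mem_span_image.1 h1
    by_contra h3
    exact hj (h2 (Finsupp.mem_support_iff.2 h3))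
  calc |ψ e| = |∑ j, v.repr e j * ψ (v j)| := by
        conv_lhs => rw [← v.sum_repr e]
        simp only [map_sum, map_smul, smul_eq_mul]
    _ ≤ ∑ _j : ι, (R ^ Fintype.card ι * ∑ i, |e i|) * δ := by
        refine (abs_sum_le_sum_abs _ _).trans (sum_le_sum fun j _ => ?_)
        by_cases hj : v j ∈ b
        · rw [abs_mul]
          exact mul_le_mul (hco j) (hψ _ (hb hj)) (abs_nonneg _) (by positivity)
        · rw [hzero j hj, zero_mul, abs_zero]; positivity
    _ = Fintype.card ι * ((R ^ Fintype.card ι * ∑ i, |e i|) * δ) := by simp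
    _ ≤ 2 ^ Fintype.card ι * ((R ^ Fintype.card ι * ∑ i, |e i|) * δ) := by
        refine mul_le_mul_of_nonneg_right ?_ (by positivity)
        exact_mod_cast (Nat.lt_two_pow_self (n := Fintype.card ι)).le
    _ = _ := by rw [mul_pow]; ring

end Pool.Agent.Lib.MP_e5885b_co
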