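import Pool.Agent.Lib.MP_e5885b_co.LT2
import Pool.Agent.Lib.MP_e5885b_co.SpanX

set_option autoImplicit false

open Finset Real
open scoped RealInnerProductSpace

namespace Pool.Agent.Lib.MP_e5885b_co

lemma enum {F : Finset ℝ} {m : ℕ} (h : F.card ≤ m) :
    ∃ (φ : Fin (m + 1) → ℝ) (ix : ℝ → Fin (m + 1)), ∀ r ∈ F, φ (ix r) = r := by
  have : ∀ r ∈ F, ∃ t : Fin (m + 1), F.toList.getD t 0 = r := fun r hr => by
    obtain ⟨k, hk, e⟩ := List.mem_iff_getElem.1 (mem_toList.2 hr)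
    refine ⟨⟨k, ?_⟩, by rw [← e]; exact List.getD_eq_getElem _ _ hk⟩
    rw [length_toList] at hk; omega
  choose! ix hix using this
  exact ⟨fun t => F.toList.getD t 0, ix, hix⟩

theorem types_core (m : ℕ) : ∀ (N : ℕ) (T : Fin N → Set E) (Y : Fin N → Frm)
    (B : Finset (Fin N)) (ε ρ : ℝ), (∀ x : E, ‖x‖ = 1 → ∃ i, x ∈ T i) →
    (∀ i, ∀ x ∈ T i, ‖x - (Y i).x‖ ≤ ε) → (∀ i, ∀ x ∈ T i, ∀ y ∈ T i, ‖x - y‖ ≤ ε) →
    0 < ρ → ρ ≤ ε → ∀ F : Finset ℝ, F.card ≤ m →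
    (∀ i ∉ B, ∀ j ∉ B, ∀ x ∈ T i, ∀ y ∈ T j, ‖x - y‖ ≤ ρ → Complex.arg ((Y i).c (Y j)) ∈ F) →
    1 ≤ 20 ^ (m + 8) * (ε ^ 2 * (1 + B.card * ε ^ 2 / ρ ^ 2)) := by
  classical
  intro N T Y B ε ρ hc hY hT h0 h1 F hF hB
  obtain ⟨D, hD⟩ : ∃ D : ℝ, D = 20 ^ (m + 2) := ⟨_, rfl⟩
  have D1 : 1 ≤ D := hD ▸ one_le_pow₀ (by norm_num)
  rw [show (20 : ℝ) ^ (m + 8) = 20 ^ 6 * D by rw [hD]; ring]
  have e0 := h0.trans_le h1
  obtain ⟨t, ht⟩ : ∃ t : ℝ, t = B.card * ε ^ 2 / ρ ^ 2 := ⟨_, rfl⟩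
  have t0 : 0 ≤ t := by rw [ht]; positivity
  rw [← ht]
  by_cases big : 1 / 12 < ε
  · have : 1 / 144 ≤ ε ^ 2 * (1 + t) := by nlinarith [mul_nonneg (sq_nonneg ε) t0]
    nlinarith
  rw [not_lt] at big
  obtain ⟨n, n1, n2⟩ : ∃ n : ℕ, 4 / ρ ≤ n ∧ (n : ℝ) ≤ 5 / ρ := ⟨_, Nat.le_ceil _, by
    have := Nat.ceil_lt_add_one (by positivity : 0 ≤ 4 / ρ)
    have k : 1 ≤ 1 / ρ := (le_div_iff₀ h0).2 (by linarith)
    have : 5 / ρ = 4 / ρ + 1 / ρ := by ring
    linarith⟩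
  have n0 : (0 : ℝ) < n := lt_of_lt_of_le (by positivity) n1
  have hn : 0 < n := by exact_mod_cast n0
  have n3 : 4 / (n : ℝ) ≤ ρ := by rw [div_le_iff₀ h0] at n1; rw [div_le_iff₀ n0]; linarith
  obtain ⟨φ, ix, hix⟩ := enum hF
  have one : ‖(!₂[1, 0, 0] : E)‖ = 1 := norm_one_of_inner (by rw [inn]; simp)
  have : Nonempty (Fin N) := (hc _ one).elim fun i _ => ⟨i⟩
  have : Nonempty Frm := ⟨Y (Classical.arbitrary _)⟩
  choose! tl htl using hc
  have : ∀ x : E, ‖x‖ = 1 → ∃ u : Frm, u.x = x := fun x hx => by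
    obtain ⟨e, a, b, -⟩ := exists_perp x x
    exact ⟨⟨x, e, hx, a, b⟩, rfl⟩
  choose! X hX using this
  let y : Lat → Frm := fun p => Y (tl (pt n p))
  let A : Tri → ℝ := fun q => Ar (pt n (vt n q 0)) (pt n (vt n q 1)) (pt n (vt n q 2))
  let A' : Tri → ℝ := fun q => Ar (y (vt n q 0)).x (y (vt n q 1)).x (y (vt n q 2)).x
  have d0 : ∀ q ∈ Tris n, ∀ r r', ‖pt n (vt n q r) - pt n (vt n q r')‖ ≤ ε := fun q hq r r' =>
    (pt_dist hn hq r r').trans (n3.trans h1)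
  have d1 : ∀ q ∈ Tris n, ∀ r r', ‖pt n (vt n q r) - (y (vt n q r')).x‖ ≤ 2 * ε :=
    fun q hq r r' => (norm_sub_le_norm_sub_add_norm_sub _ (pt n (vt n q r')) _).trans (by
      linarith [d0 q hq r r', hY _ _ (htl _ (pt_norm hn hq r'))])
  have d2 : ∀ q ∈ Tris n, ∀ r r', ‖(y (vt n q r)).x - (y (vt n q r')).x‖ ≤ 3 * ε :=
    fun q hq r r' => (norm_sub_le_norm_sub_add_norm_sub _ (pt n (vt n q r)) _).trans (by
      rw [norm_sub_rev]
      linarith [d1 q hq r r', hY _ _ (htl _ (pt_norm hn hq r))])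
  have sp := fun q (hq : q ∈ Tris n) => Ar_spec (y (vt n q 0)).hx (y (vt n q 1)).hx
    (y (vt n q 2)).hx (d2 q hq 0 1) (d2 q hq 1 2) (d2 q hq 2 0) (by linarith)
  have s1 : ∑ q ∈ Tris n, A' q = ∑ q ∈ Tris n, A q := by
    have a := cycle n (fun p q => sd (pt n p) (pt n q) (y p).x (y q).x) fun p q => sd_neg _ _ _ _
    have b : ∑ q ∈ Tris n, 2 * A' q = ∑ q ∈ Tris n, (2 * A q + _) := sum_congr rfl fun q hq => by
      have k := fun r => hX _ (pt_norm hn hq r)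
      have := prism (X (pt n (vt n q 0))) (X (pt n (vt n q 1))) (X (pt n (vt n q 2)))
        (y (vt n q 0)) (y (vt n q 1)) (y (vt n q 2)) (η := 3 * ε) (by linarith) (by
          have a : ∀ r r', ‖(X (pt n (vt n q r))).x - (X (pt n (vt n q r'))).x‖ ≤ 3 * ε :=
            fun r r' => by rw [k, k]; linarith [d0 q hq r r']
          have b : ∀ r r', ‖(X (pt n (vt n q r))).x - (y (vt n q r')).x‖ ≤ 3 * ε :=
            fun r r' => by rw [k]; linarith [d1 q hq r r']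
          have c : ∀ r r', ‖(y (vt n q r')).x - (X (pt n (vt n q r))).x‖ ≤ 3 * ε :=
            fun r r' => by rw [norm_sub_rev]; exact b r r'
          simp only [List.forall_mem_cons, List.not_mem_nil, false_imp_iff, implies_true, a, b, c,
            d2 q hq, and_self])
      rwa [k, k, k] at this
    rw [sum_add_distrib, a, add_zero, ← mul_sum, ← mul_sum] at b
    linarith
  have s2 : 3 / 4 ≤ ∑ q ∈ Tris n, A q ∧ ∑ q ∈ Tris n, A q ≤ 1536 := by
    have k := fun q (hq : q ∈ Tris n) => Ar_spec (pt_norm hn hq 0) (pt_norm hn hq 1)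
      (pt_norm hn hq 2) (pt_dist hn hq 0 1) (pt_dist hn hq 1 2) (pt_dist hn hq 2 0) (by linarith)
    have a := card_nsmul_le_sum (Tris n) A (1 / (8 * n ^ 2) / 8) fun q hq =>
      (div_le_div_of_nonneg_right (pt_dt hn hq) (by norm_num)).trans
        ((k q hq).2.2 (le_trans (by positivity) (pt_dt hn hq)))
    have b := sum_le_card_nsmul (Tris n) A (2 * (4 / n) ^ 2) fun q hq =>
      (le_abs_self _).trans (k q hq).2.1
    rw [card_Tris, nsmul_eq_mul] at a b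
    push_cast at a b
    exact ⟨le_trans (le_of_eq (by field_simp; ring)) a, b.trans (le_of_eq (by field_simp; ring))⟩
  choose! k hk using fun q (hq : q ∈ Tris n) =>
    an_tri (y (vt n q 0)) (y (vt n q 1)) (y (vt n q 2)) (sp q hq).1
  let z : Lat → Lat → Fin (m + 1) → ℤ := fun p q t =>
    (if t = ix (Complex.arg ((y p).c (y q))) then 1 else 0) -
      if t = ix (Complex.arg ((y q).c (y p))) then 1 else 0
  let U : Tri → Option (Fin (m + 1)) → ℝ := fun q o => ((o.elim (k q) fun t =>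
    z (vt n q 0) (vt n q 1) t + z (vt n q 1) (vt n q 2) t + z (vt n q 2) (vt n q 0) t : ℤ) : ℝ)
  let ψ : (Option (Fin (m + 1)) → ℝ) →ₗ[ℝ] ℝ :=
    { toFun := fun v => ∑ t, v (some t) * φ t / 2 - π * v none
      map_add' := fun v w => by simp [add_mul, add_div, sum_add_distrib]; ring
      map_smul' := fun a v => by simp [mul_sub, mul_sum, mul_assoc, mul_div_assoc]; ring }
  have u1 : ∀ q ∈ Tris n, ∑ o, |U q o| ≤ 10 := fun q hq => by
    have a0 : ∀ p q, ∑ t, |(z p q t : ℝ)| ≤ 2 := fun p q => by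
      refine (sum_le_sum (g := fun t => (if t = ix (Complex.arg ((y p).c (y q))) then 1 else 0) +
        if t = ix (Complex.arg ((y q).c (y p))) then 1 else 0) fun t _ => ?_).trans ?_
      · simp only [z]; split_ifs <;> simp
      · simp [sum_add_distrib]; norm_num
    have a := abs_le.1 (an_abs (y (vt n q 0)) (y (vt n q 1)))
    have b := abs_le.1 (an_abs (y (vt n q 1)) (y (vt n q 2)))
    have c := abs_le.1 (an_abs (y (vt n q 2)) (y (vt n q 0)))
    have d := abs_le.1 (Complex.abs_arg_le_pi (bt (y (vt n q 0)).x (y (vt n q 1)).x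
      (y (vt n q 2)).x))
    have e := hk q hq
    unfold Ar at e
    have : |(k q : ℝ)| ≤ 4 := abs_le.2 ⟨le_of_mul_le_mul_left (by linarith) pi_pos,
      le_of_mul_le_mul_left (by linarith) pi_pos⟩
    have f : ∑ t, |U q (some t)| ≤ ∑ t, (|(z (vt n q 0) (vt n q 1) t : ℝ)| +
        |(z (vt n q 1) (vt n q 2) t : ℝ)| + |(z (vt n q 2) (vt n q 0) t : ℝ)|) :=
      sum_le_sum fun t _ => by
        simp only [U, Option.elim_some]; push_cast; exact abs_add_three _ _ _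
    rw [sum_add_distrib, sum_add_distrib] at f
    rw [Fintype.sum_option]
    have g : |U q none| = |(k q : ℝ)| := rfl
    linarith [a0 (vt n q 0) (vt n q 1), a0 (vt n q 1) (vt n q 2), a0 (vt n q 2) (vt n q 0)]
  have u4 : ∀ o, ∑ q ∈ Tris n, U q o = o.elim (-(∑ q ∈ Tris n, A q) / π) fun _ => 0 := by
    rintro (_ | t)
    · have a := cycle n (fun p q => an (y p) (y q)) fun p q => an_neg _ _
      rw [sum_congr rfl hk, sum_add_distrib, ← mul_sum] at a
      rw [Option.elim_none, eq_div_iff pi_pos.ne', ← s1]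
      simp only [U, A', Option.elim_none]
      linarith
    · refine Eq.trans (sum_congr rfl fun q _ => ?_)
        (cycle n (fun p q => (z p q t : ℝ)) fun p q => by simp only [z]; push_cast; ring)
      simp only [U, Option.elim_some]; push_cast; ring
  set G := (Tris n).filter fun q => ∀ r, tl (pt n (vt n q r)) ∉ B with hG
  set Z := (Tris n).filter fun q => ¬∀ r, tl (pt n (vt n q r)) ∉ B with hZ
  have u3 : ∀ q ∈ G, ψ (U q) = A' q := fun q hq => by
    obtain ⟨a, b⟩ := mem_filter.1 hq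
    have c : ∀ r r', ∑ t, (z (vt n q r) (vt n q r') t : ℝ) * φ t / 2 =
        an (y (vt n q r)) (y (vt n q r')) := fun r r' => by
      have f := fun r r' => hix _ (hB _ (b r) _ (b r') _ (htl _ (pt_norm hn a r)) _
        (htl _ (pt_norm hn a r')) ((pt_dist hn a r r').trans n3))
      simp only [z, an]
      push_cast
      simp only [sub_mul, sub_div, sum_sub_distrib, ite_mul, ite_div, one_mul, zero_mul, zero_div,
        sum_ite_eq', mem_univ, if_true]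
      rw [f r r', f r' r]
    have e := hk q a
    rw [← c, ← c, ← c] at e
    simp only [ψ, U, LinearMap.coe_mk, AddHom.coe_mk, A', Option.elim_some, Option.elim_none]
    push_cast
    simp only [add_mul, add_div, sum_add_distrib]
    linarith
  have zc : (Z.card : ℝ) ≤ 50700 * t := by
    have a : Z ⊆ B.biUnion fun i => (Tris n).filter fun q => ∃ r, pt n (vt n q r) ∈ T i :=
      fun q hq => by
        obtain ⟨a, b⟩ := mem_filter.1 hq
        push Not at b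
        obtain ⟨r, b⟩ := b
        exact mem_biUnion.2 ⟨_, b, mem_filter.2 ⟨a, r, htl _ (pt_norm hn a r)⟩⟩
    have b : (Z.card : ℝ) ≤ ∑ i ∈ B,
        (((Tris n).filter fun q => ∃ r, pt n (vt n q r) ∈ T i).card : ℝ) := by
      exact_mod_cast (card_le_card a).trans card_biUnion_le
    have c : 12 * n * ε + 5 ≤ 65 * (ε / ρ) := by
      have : 1 ≤ ε / ρ := (le_div_iff₀ h0).2 (by linarith)
      have k := mul_le_mul_of_nonneg_right n2 e0.le
      have : 5 / ρ * ε = 5 * (ε / ρ) := by ring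
      linarith
    refine b.trans ((sum_le_card_nsmul _ _ (12 * (65 * (ε / ρ)) ^ 2) fun i _ =>
      (pt_count hn e0.le (hT i)).trans (by gcongr)).trans (le_of_eq ?_))
    rw [nsmul_eq_mul, ht]; ring
  have f1 := span_explicit (U '' G) 10 (by norm_num) (by rintro _ ⟨q, -, rfl⟩ o; exact ⟨_, rfl⟩)
    (by rintro _ ⟨q, hq, rfl⟩; exact u1 q (mem_filter.1 hq).1) ψ (2 * (3 * ε) ^ 2) (by positivity)
    (by rintro _ ⟨q, hq, rfl⟩; rw [u3 q hq]; exact (sp q (mem_filter.1 hq).1).2.1) (∑ q ∈ G, U q)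
    (Submodule.sum_mem _ fun q hq => Submodule.subset_span ⟨q, hq, rfl⟩)
  rw [Fintype.card_option, Fintype.card_fin, show (2 * 10 : ℝ) = 20 by norm_num, ← hD] at f1
  have f2 : ∑ o, |(∑ q ∈ G, U q) o| ≤ 512 + Z.card * 10 := by
    have a : ∀ o, |(∑ q ∈ G, U q) o| ≤ |∑ q ∈ Tris n, U q o| + ∑ q ∈ Z, |U q o| := fun o => by
      rw [Finset.sum_apply, eq_sub_of_add_eq (sum_filter_add_sum_filter_not (Tris n) _
        fun q => U q o)]
      exact (abs_sub _ _).trans (add_le_add le_rfl (abs_sum_le_sum_abs _ _))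
    refine (sum_le_sum fun o _ => a o).trans ?_
    rw [sum_add_distrib, sum_comm]
    refine add_le_add ?_ ((sum_le_card_nsmul _ _ 10 fun q hq => u1 q (mem_filter.1 hq).1).trans
      (le_of_eq (nsmul_eq_mul _ _)))
    simp only [u4, Fintype.sum_option, Option.elim_some, Option.elim_none, abs_zero, sum_const_zero,
      add_zero]
    rw [abs_div, abs_neg, abs_of_pos pi_pos, abs_of_nonneg (by linarith [s2.1]),
      div_le_iff₀ pi_pos]
    linarith [s2.2, pi_gt_three]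
  have f3 : 3 / 4 ≤ ψ (∑ q ∈ G, U q) + Z.card * (2 * (3 * ε) ^ 2) := by
    rw [map_sum, sum_congr rfl u3]
    refine (s2.1.trans_eq (s1.symm.trans (sum_filter_add_sum_filter_not _ _ _).symm)).trans
      (add_le_add le_rfl ((sum_le_card_nsmul _ _ _ fun q hq => (le_abs_self _).trans
        (sp q (mem_filter.1 hq).1).2.1).trans (le_of_eq (nsmul_eq_mul _ _))))
  have f4 := (le_abs_self _).trans (f1.trans (mul_le_mul_of_nonneg_left f2 (by positivity)))
  have f5 := mul_le_mul_of_nonneg_left zc (by positivity : 0 ≤ 18 * ε ^ 2 * (1 + 10 * D))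
  have f6 := mul_le_mul_of_nonneg_left D1 (by positivity : 0 ≤ ε ^ 2 * t)
  have f7 : 0 ≤ ε ^ 2 * D := by positivity
  have f8 : 0 ≤ ε ^ 2 * t * D := by positivity
  nlinarith

open Classical in
theorem localTypes (K : ℕ) : ∀ (N : ℕ) (P : Set E) (g : Fin N → E ≃ₗᵢ[ℝ] E)
    (B : Finset (Fin N)) (ε ρ : ℝ), (∀ p ∈ P, ‖p‖ = 1) →
    (∀ x : E, ‖x‖ = 1 → ∃ i, x ∈ g i '' P) → (∀ p ∈ P, ∀ q ∈ P, ‖p - q‖ ≤ ε) → 0 < ρ → ρ ≤ ε →
    ∀ F : Finset (E ≃ₗᵢ[ℝ] E), F.card ≤ K →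
    (∀ i ∉ B, ∀ j ∉ B, ∀ x ∈ g i '' P, ∀ y ∈ g j '' P, ‖x - y‖ ≤ ρ → (g j).trans (g i).symm ∈ F) →
    1 ≤ 20 ^ (K * 4 + 8) * (ε ^ 2 * (1 + B.card * ε ^ 2 / ρ ^ 2)) := by
  intro N P g B ε ρ h1 hc hd h0 hρ F hF hB
  obtain ⟨-, p, hp, -⟩ := hc !₂[1, 0, 0] (norm_one_of_inner (by rw [inn]; simp))
  obtain ⟨e, e1, e2, -⟩ := exists_perp p p
  let Y : Fin N → Frm := fun i => ⟨g i p, g i e, by rw [(g i).norm_map, h1 p hp],
    by rw [(g i).norm_map, e1], by rw [(g i).inner_map_map, e2]⟩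
  have d : ∀ i, ∀ x ∈ g i '' P, ∀ y ∈ g i '' P, ‖x - y‖ ≤ ε := by
    rintro i _ ⟨x, hx, rfl⟩ _ ⟨y, hy, rfl⟩
    rw [← map_sub, (g i).norm_map]; exact hd x hx y hy
  have s : ∀ i, ∃ s ∈ ({1, -1} : Finset ℝ), (Y i).b = s • g i (cr p e) := fun i => by
    rcases iso_cr (g i) (h1 p hp) e1 e2 with k | k
    · exact ⟨1, by simp, by rw [k, one_smul]; rfl⟩
    · exact ⟨-1, by simp, by rw [k, neg_one_smul, neg_neg]; rfl⟩
  choose s s1 s2 using s
  refine types_core (K * 4) N (fun i => g i '' P) Y B ε ρ hc (fun i x hx => d i x hx _ ⟨p, hp, rfl⟩) d h0 hρ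
    ((F ×ˢ ({1, -1} : Finset ℝ) ×ˢ ({1, -1} : Finset ℝ)).image fun t => Complex.arg
      ⟨⟪e, t.1 e⟫ + t.2.1 * t.2.2 * ⟪cr p e, t.1 (cr p e)⟫,
        t.2.2 * ⟪e, t.1 (cr p e)⟫ - t.2.1 * ⟪cr p e, t.1 e⟫⟩)
    (card_image_le.trans ?_) fun i hi j hj x hx y hy k => ?_
  · rw [card_product, card_product]
    exact Nat.mul_le_mul hF (Nat.mul_le_mul (card_le_two (a := (1 : ℝ)) (b := -1)) card_le_two)
  · refine mem_image.2 ⟨((g j).trans (g i).symm, s i, s j),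
      mem_product.2 ⟨hB i hi j hj x hx y hy k, mem_product.2 ⟨s1 i, s1 j⟩⟩, ?_⟩
    have m : ∀ a b : E, ⟪a, (g j).trans (g i).symm b⟫ = ⟪g i a, g j b⟫ := fun a b => by
      rw [← (g i).inner_map_map]; simp
    simp only [m, Frm.c, s2, real_inner_smul_left, real_inner_smul_right, Y, mul_assoc]
    rw [mul_left_comm]

end Pool.Agent.Lib.MP_e5885b_co
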