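import Pool.Agent.Lib.MP_e5885b_co.LT3

set_option autoImplicit false

open Set Filter Topology

namespace Pool.Agent.Lib.MP_e5885b_co

lemma gap_pos {N : ℕ} (T : Fin N → Set E) (hT : ∀ i, IsCompact (T i)) : ∃ r : ℝ, 0 < r ∧
    ∀ i j, ∀ x ∈ T i, ∀ y ∈ T j, ‖x - y‖ ≤ r → ∃ z, z ∈ T i ∧ z ∈ T j := by
  have : ∀ᶠ r in 𝓝[>] (0 : ℝ), ∀ i j, ∀ x ∈ T i, ∀ y ∈ T j, ‖x - y‖ ≤ r →
      ∃ z, z ∈ T i ∧ z ∈ T j := by
    refine eventually_all.2 fun i => eventually_all.2 fun j => ?_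
    by_cases h : Disjoint (T i) (T j)
    · obtain ⟨r, r0, hr⟩ := Metric.exists_pos_forall_lt_edist (hT i) (hT j).isClosed h
      filter_upwards [Ioc_mem_nhdsGT (show (0 : ℝ) < r from r0)] with s hs x hx y hy k
      have := hr x hx y hy
      rw [edist_nndist, ENNReal.coe_lt_coe, ← NNReal.coe_lt_coe, coe_nndist, dist_eq_norm] at this
      exact absurd (k.trans hs.2) (not_le.2 this)
    · exact Eventually.of_forall fun _ _ _ _ _ _ => not_disjoint_iff.1 h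
  obtain ⟨r, a, b⟩ := (this.and self_mem_nhdsWithin).exists
  exact ⟨r, b, a⟩

theorem localTypes2 : ∃ C : ℝ, 1 ≤ C ∧ ∀ (K N : ℕ) (P : Set E) (g : Fin N → E ≃ₗᵢ[ℝ] E)
    (B : Finset (Fin N)) (ε ρ : ℝ), IsCompact P → (∀ p ∈ P, ‖p‖ = 1) →
    (∀ x : E, ‖x‖ = 1 → ∃ i, x ∈ g i '' P) → (∀ p ∈ P, ∀ q ∈ P, ‖p - q‖ ≤ ε) → 0 < ε →
    C ^ (K + 1) * ε ^ 2 < 1 → 0 ≤ ρ → ρ ≤ ε → ∀ F : Finset (E ≃ₗᵢ[ℝ] E), F.card ≤ K →
    (∀ i ∉ B, ∀ j ∉ B, ∀ x ∈ g i '' P, ∀ y ∈ g j '' P, ‖x - y‖ ≤ ρ → (g j).trans (g i).symm ∈ F) →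
    B.Nonempty ∧ ρ ^ 2 ≤ C ^ (K + 1) * B.card * ε ^ 4 := by
  refine ⟨2 * 20 ^ 8, by norm_num, fun K N P g B ε ρ hP h1 hc hd e0 e1 h0 hρ F hF hB => ?_⟩
  have c : 2 * (20 : ℝ) ^ (K * 4 + 8) ≤ (2 * 20 ^ 8) ^ (K + 1) := by
    rw [mul_pow, ← pow_mul]
    exact mul_le_mul (le_self_pow₀ one_le_two (Nat.succ_ne_zero K))
      (pow_le_pow_right₀ (by norm_num) (by omega)) (by positivity) (by positivity)
  have h := localTypes K N P g B ε
  have q0 : (0 : ℝ) < 20 ^ (K * 4 + 8) := by positivity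
  generalize (20 : ℝ) ^ (K * 4 + 8) = Q at c h q0
  generalize (2 * 20 ^ 8 : ℝ) ^ (K + 1) = R at c e1 ⊢
  have c1 := mul_le_mul_of_nonneg_right c (sq_nonneg ε)
  have c2 := mul_le_mul_of_nonneg_right c (by positivity : (0 : ℝ) ≤ B.card * ε ^ 4)
  constructor
  · refine B.eq_empty_or_nonempty.resolve_left fun e => ?_
    obtain ⟨r, r0, hr⟩ := gap_pos (fun i => g i '' P) fun i => hP.image (g i).continuous
    have := h (min r ε) h1 hc hd (lt_min r0 e0) (min_le_right _ _) F hF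
      fun i hi j hj x hx y hy k => by
        obtain ⟨z, a, b⟩ := hr i j x hx y hy (k.trans (min_le_left _ _))
        exact hB i hi j hj z a z b (by simpa using h0)
    rw [e, Finset.card_empty, Nat.cast_zero, zero_mul, zero_div] at this
    linarith
  · rcases h0.eq_or_lt with rfl | h0
    · have : 0 ≤ Q * (B.card * ε ^ 4) := by positivity
      linarith
    have := h ρ h1 hc hd h0 hρ F hF hB
    have e : Q * (ε ^ 2 * (1 + B.card * ε ^ 2 / ρ ^ 2)) =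
        Q * ε ^ 2 + Q * (B.card * ε ^ 4) / ρ ^ 2 := by ring
    have k : 1 / 2 ≤ Q * (B.card * ε ^ 4) / ρ ^ 2 := by linarith
    rw [le_div_iff₀ (by positivity)] at k
    linarith

end Pool.Agent.Lib.MP_e5885b_co
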