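import Pool.Agent.Lib.MP_e5885b_co.LT4

set_option autoImplicit false

open Finset Real
open scoped RealInnerProductSpace

namespace Pool.Agent.Lib.MP_e5885b_co

lemma enum2 {F : Finset ℝ} {m : ℕ} (h : F.card ≤ m) (δ : ℝ) :
    ∃ (φ : Fin (m + 1) → ℝ) (ix : ℝ → Fin (m + 1)), ∀ a, (∃ r ∈ F, |r - a| ≤ δ) →
      |φ (ix a) - a| ≤ δ := by
  obtain ⟨φ, ix, k⟩ := enum h
  have : ∀ a, (∃ r ∈ F, |r - a| ≤ δ) → ∃ t, |φ t - a| ≤ δ := fun a ⟨r, p, q⟩ =>
    ⟨ix r, by rwa [k r p]⟩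
  choose! ix' hix using this
  exact ⟨φ, ix', hix⟩

theorem near_core (m : ℕ) : ∀ (N : ℕ) (T : Fin N → Set E) (Y : Fin N → Frm)
    (B : Finset (Fin N)) (ε ρ δ : ℝ), 0 ≤ δ → (∀ x : E, ‖x‖ = 1 → ∃ i, x ∈ T i) →
    (∀ i, ∀ x ∈ T i, ‖x - (Y i).x‖ ≤ ε) → (∀ i, ∀ x ∈ T i, ∀ y ∈ T i, ‖x - y‖ ≤ ε) →
    0 < ρ → ρ ≤ ε → ∀ F : Finset ℝ, F.card ≤ m →
    (∀ i ∉ B, ∀ j ∉ B, ∀ x ∈ T i, ∀ y ∈ T j, ‖x - y‖ ≤ ρ →
      ∃ r ∈ F, |r - Complex.arg ((Y i).c (Y j))| ≤ δ) →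
    1 ≤ 20 ^ (m + 8) * ((ε ^ 2 + δ) * (1 + B.card * ε ^ 2 / ρ ^ 2)) := by
  classical
  intro N T Y B ε ρ δ δ0 hc hY hT h0 h1 F hF hB
  obtain ⟨D, hD⟩ : ∃ D : ℝ, D = 20 ^ (m + 2) := ⟨_, rfl⟩
  have D1 : 1 ≤ D := hD ▸ one_le_pow₀ (by norm_num)
  rw [show (20 : ℝ) ^ (m + 8) = 20 ^ 6 * D by rw [hD]; ring]
  have e0 := h0.trans_le h1
  obtain ⟨t, ht⟩ : ∃ t : ℝ, t = B.card * ε ^ 2 / ρ ^ 2 := ⟨_, rfl⟩
  have t0 : 0 ≤ t := by rw [ht]; positivity
  rw [← ht]
  by_cases big : 1 / 12 < ε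
  · have : 1 / 144 ≤ (ε ^ 2 + δ) * (1 + t) := by
      nlinarith [mul_nonneg (sq_nonneg ε) t0, mul_nonneg δ0 t0]
    nlinarith
  rw [not_lt] at big
  obtain ⟨n, n1, n2⟩ : ∃ n : ℕ, 4 / ρ ≤ n ∧ (n : ℝ) ≤ 5 / ρ := ⟨_, Nat.le_ceil _, by
    have := Nat.ceil_lt_add_one (by positivity : 0 ≤ 4 / ρ)
    have k : 1 ≤ 1 / ρ := (le_div_iff₀ h0).2 (by linarith)
    have : 5 / ρ = 4 / ρ + 1 / ρ := by ring
    linarith⟩
  have n0 : (0 : ℝ) < n := lt_of_lt_of_le (by positivity) n1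
  have hn : 0 < n := by exact_mod_cast n0
  have n3 : 4 / (n : ℝ) ≤ ρ := by rw [div_le_iff₀ h0] at n1; rw [div_le_iff₀ n0]; linarith
  obtain ⟨φ, ix, hix⟩ := enum2 hF δ
  have one : ‖(!₂[1, 0, 0] : E)‖ = 1 := norm_one_of_inner (by rw [inn]; simp)
  have : Nonempty (Fin N) := (hc _ one).elim fun i _ => ⟨i⟩
  have : Nonempty Frm := ⟨Y (Classical.arbitrary _)⟩
  choose! tl htl using hc
  have : ∀ x : E, ‖x‖ = 1 → ∃ u : Frm, u.x = x := fun x hx => by
    obtain ⟨e, a, b, -⟩ := exists_perp x x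
    exact ⟨⟨x, e, hx, a, b⟩, rfl⟩
  choose! X hX using this
  let y : Lat → Frm := fun p => Y (tl (pt n p))
  let A : Tri → ℝ := fun q => Ar (pt n (vt n q 0)) (pt n (vt n q 1)) (pt n (vt n q 2))
  let A' : Tri → ℝ := fun q => Ar (y (vt n q 0)).x (y (vt n q 1)).x (y (vt n q 2)).x
  have d0 : ∀ q ∈ Tris n, ∀ r r', ‖pt n (vt n q r) - pt n (vt n q r')‖ ≤ ε := fun q hq r r' =>
    (pt_dist hn hq r r').trans (n3.trans h1)
  have d1 : ∀ q ∈ Tris n, ∀ r r', ‖pt n (vt n q r) - (y (vt n q r')).x‖ ≤ 2 * ε :=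
    fun q hq r r' => (norm_sub_le_norm_sub_add_norm_sub _ (pt n (vt n q r')) _).trans (by
      linarith [d0 q hq r r', hY _ _ (htl _ (pt_norm hn hq r'))])
  have d2 : ∀ q ∈ Tris n, ∀ r r', ‖(y (vt n q r)).x - (y (vt n q r')).x‖ ≤ 3 * ε :=
    fun q hq r r' => (norm_sub_le_norm_sub_add_norm_sub _ (pt n (vt n q r)) _).trans (by
      rw [norm_sub_rev]
      linarith [d1 q hq r r', hY _ _ (htl _ (pt_norm hn hq r))])
  have sp := fun q (hq : q ∈ Tris n) => Ar_spec (y (vt n q 0)).hx (y (vt n q 1)).hx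
    (y (vt n q 2)).hx (d2 q hq 0 1) (d2 q hq 1 2) (d2 q hq 2 0) (by linarith)
  have s1 : ∑ q ∈ Tris n, A' q = ∑ q ∈ Tris n, A q := by
    have a := cycle n (fun p q => sd (pt n p) (pt n q) (y p).x (y q).x) fun p q => sd_neg _ _ _ _
    have b : ∑ q ∈ Tris n, 2 * A' q = ∑ q ∈ Tris n, (2 * A q + _) := sum_congr rfl fun q hq => by
      have k := fun r => hX _ (pt_norm hn hq r)
      have := prism (X (pt n (vt n q 0))) (X (pt n (vt n q 1))) (X (pt n (vt n q 2)))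
        (y (vt n q 0)) (y (vt n q 1)) (y (vt n q 2)) (η := 3 * ε) (by linarith) (by
          have a : ∀ r r', ‖(X (pt n (vt n q r))).x - (X (pt n (vt n q r'))).x‖ ≤ 3 * ε :=
            fun r r' => by rw [k, k]; linarith [d0 q hq r r']
          have b : ∀ r r', ‖(X (pt n (vt n q r))).x - (y (vt n q r')).x‖ ≤ 3 * ε :=
            fun r r' => by rw [k]; linarith [d1 q hq r r']
          have c : ∀ r r', ‖(y (vt n q r')).x - (X (pt n (vt n q r))).x‖ ≤ 3 * ε :=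
            fun r r' => by rw [norm_sub_rev]; exact b r r'
          simp only [List.forall_mem_cons, List.not_mem_nil, false_imp_iff, implies_true, a, b, c,
            d2 q hq, and_self])
      rwa [k, k, k] at this
    rw [sum_add_distrib, a, add_zero, ← mul_sum, ← mul_sum] at b
    linarith
  have s2 : 3 / 4 ≤ ∑ q ∈ Tris n, A q ∧ ∑ q ∈ Tris n, A q ≤ 1536 := by
    have k := fun q (hq : q ∈ Tris n) => Ar_spec (pt_norm hn hq 0) (pt_norm hn hq 1)
      (pt_norm hn hq 2) (pt_dist hn hq 0 1) (pt_dist hn hq 1 2) (pt_dist hn hq 2 0) (by linarith)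
    have a := card_nsmul_le_sum (Tris n) A (1 / (8 * n ^ 2) / 8) fun q hq =>
      (div_le_div_of_nonneg_right (pt_dt hn hq) (by norm_num)).trans
        ((k q hq).2.2 (le_trans (by positivity) (pt_dt hn hq)))
    have b := sum_le_card_nsmul (Tris n) A (2 * (4 / n) ^ 2) fun q hq =>
      (le_abs_self _).trans (k q hq).2.1
    rw [card_Tris, nsmul_eq_mul] at a b
    push_cast at a b
    exact ⟨le_trans (le_of_eq (by field_simp; ring)) a, b.trans (le_of_eq (by field_simp; ring))⟩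
  choose! k hk using fun q (hq : q ∈ Tris n) =>
    an_tri (y (vt n q 0)) (y (vt n q 1)) (y (vt n q 2)) (sp q hq).1
  let z : Lat → Lat → Fin (m + 1) → ℤ := fun p q t =>
    (if t = ix (Complex.arg ((y p).c (y q))) then 1 else 0) -
      if t = ix (Complex.arg ((y q).c (y p))) then 1 else 0
  let U : Tri → Option (Fin (m + 1)) → ℝ := fun q o => ((o.elim (k q) fun t =>
    z (vt n q 0) (vt n q 1) t + z (vt n q 1) (vt n q 2) t + z (vt n q 2) (vt n q 0) t : ℤ) : ℝ)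
  let ψ : (Option (Fin (m + 1)) → ℝ) →ₗ[ℝ] ℝ :=
    { toFun := fun v => ∑ t, v (some t) * φ t / 2 - π * v none
      map_add' := fun v w => by simp [add_mul, add_div, sum_add_distrib]; ring
      map_smul' := fun a v => by simp [mul_sub, mul_sum, mul_assoc, mul_div_assoc]; ring }
  have u1 : ∀ q ∈ Tris n, ∑ o, |U q o| ≤ 10 := fun q hq => by
    have a0 : ∀ p q, ∑ t, |(z p q t : ℝ)| ≤ 2 := fun p q => by
      refine (sum_le_sum (g := fun t => (if t = ix (Complex.arg ((y p).c (y q))) then 1 else 0) +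
        if t = ix (Complex.arg ((y q).c (y p))) then 1 else 0) fun t _ => ?_).trans ?_
      · simp only [z]; split_ifs <;> simp
      · simp [sum_add_distrib]; norm_num
    have a := abs_le.1 (an_abs (y (vt n q 0)) (y (vt n q 1)))
    have b := abs_le.1 (an_abs (y (vt n q 1)) (y (vt n q 2)))
    have c := abs_le.1 (an_abs (y (vt n q 2)) (y (vt n q 0)))
    have d := abs_le.1 (Complex.abs_arg_le_pi (bt (y (vt n q 0)).x (y (vt n q 1)).x
      (y (vt n q 2)).x))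
    have e := hk q hq
    unfold Ar at e
    have : |(k q : ℝ)| ≤ 4 := abs_le.2 ⟨le_of_mul_le_mul_left (by linarith) pi_pos,
      le_of_mul_le_mul_left (by linarith) pi_pos⟩
    have f : ∑ t, |U q (some t)| ≤ ∑ t, (|(z (vt n q 0) (vt n q 1) t : ℝ)| +
        |(z (vt n q 1) (vt n q 2) t : ℝ)| + |(z (vt n q 2) (vt n q 0) t : ℝ)|) :=
      sum_le_sum fun t _ => by
        simp only [U, Option.elim_some]; push_cast; exact abs_add_three _ _ _
    rw [sum_add_distrib, sum_add_distrib] at f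
    rw [Fintype.sum_option]
    have g : |U q none| = |(k q : ℝ)| := rfl
    linarith [a0 (vt n q 0) (vt n q 1), a0 (vt n q 1) (vt n q 2), a0 (vt n q 2) (vt n q 0)]
  have u4 : ∀ o, ∑ q ∈ Tris n, U q o = o.elim (-(∑ q ∈ Tris n, A q) / π) fun _ => 0 := by
    rintro (_ | t)
    · have a := cycle n (fun p q => an (y p) (y q)) fun p q => an_neg _ _
      rw [sum_congr rfl hk, sum_add_distrib, ← mul_sum] at a
      rw [Option.elim_none, eq_div_iff pi_pos.ne', ← s1]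
      simp only [U, A', Option.elim_none]
      linarith
    · refine Eq.trans (sum_congr rfl fun q _ => ?_)
        (cycle n (fun p q => (z p q t : ℝ)) fun p q => by simp only [z]; push_cast; ring)
      simp only [U, Option.elim_some]; push_cast; ring
  set G := (Tris n).filter fun q => ∀ r, tl (pt n (vt n q r)) ∉ B with hG
  set Z := (Tris n).filter fun q => ¬∀ r, tl (pt n (vt n q r)) ∉ B with hZ
  let er : Lat → Lat → ℝ := fun p q => if tl (pt n p) ∉ B ∧ tl (pt n q) ∉ B then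
    ((φ (ix (Complex.arg ((y p).c (y q)))) - Complex.arg ((y p).c (y q))) -
      (φ (ix (Complex.arg ((y q).c (y p)))) - Complex.arg ((y q).c (y p)))) / 2 else 0
  let Er : Tri → ℝ := fun q => er (vt n q 0) (vt n q 1) + er (vt n q 1) (vt n q 2) +
    er (vt n q 2) (vt n q 0)
  have r0 : ∑ q ∈ Tris n, Er q = 0 := cycle n er fun p q => by
    simp only [er, and_comm (a := tl (pt n q) ∉ B)]
    split_ifs
    · ring
    · simp
  have r1 : ∀ q ∈ Tris n, |Er q| ≤ 3 * δ := fun q a => by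
    have c : ∀ r r', |er (vt n q r) (vt n q r')| ≤ δ := fun r r' => by
      simp only [er]
      split_ifs with b
      · have f1 := abs_le.1 (hix _ (hB _ b.1 _ b.2 _ (htl _ (pt_norm hn a r)) _
          (htl _ (pt_norm hn a r')) ((pt_dist hn a r r').trans n3)))
        have f2 := abs_le.1 (hix _ (hB _ b.2 _ b.1 _ (htl _ (pt_norm hn a r')) _
          (htl _ (pt_norm hn a r)) ((pt_dist hn a r' r).trans n3)))
        rw [abs_le]; constructor <;> linarith [f1.1, f1.2, f2.1, f2.2]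
      · simpa using δ0
    exact (abs_add_three _ _ _).trans (by linarith [c 0 1, c 1 2, c 2 0])
  have u3 : ∀ q ∈ G, ψ (U q) = A' q + Er q := fun q hq => by
    obtain ⟨a, b⟩ := mem_filter.1 hq
    have c : ∀ r r', ∑ t, (z (vt n q r) (vt n q r') t : ℝ) * φ t / 2 =
        an (y (vt n q r)) (y (vt n q r')) + er (vt n q r) (vt n q r') := fun r r' => by
      simp only [z, an, er, if_pos (And.intro (b r) (b r'))]
      push_cast
      simp only [sub_mul, sub_div, sum_sub_distrib, ite_mul, ite_div, one_mul, zero_mul, zero_div,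
        sum_ite_eq', mem_univ, if_true]
      ring
    have e := hk q a
    simp only [ψ, U, LinearMap.coe_mk, AddHom.coe_mk, A', Er, Option.elim_some, Option.elim_none]
    push_cast
    simp only [add_mul, add_div, sum_add_distrib]
    linarith [c 0 1, c 1 2, c 2 0]
  have u5 : ∀ q ∈ Tris n, |A' q + Er q| ≤ 18 * (ε ^ 2 + δ) := fun q hq =>
    (abs_add_le _ _).trans (by linarith [(sp q hq).2.1, r1 q hq])
  have zc : (Z.card : ℝ) ≤ 50700 * t := by
    have a : Z ⊆ B.biUnion fun i => (Tris n).filter fun q => ∃ r, pt n (vt n q r) ∈ T i :=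
      fun q hq => by
        obtain ⟨a, b⟩ := mem_filter.1 hq
        push Not at b
        obtain ⟨r, b⟩ := b
        exact mem_biUnion.2 ⟨_, b, mem_filter.2 ⟨a, r, htl _ (pt_norm hn a r)⟩⟩
    have b : (Z.card : ℝ) ≤ ∑ i ∈ B,
        (((Tris n).filter fun q => ∃ r, pt n (vt n q r) ∈ T i).card : ℝ) := by
      exact_mod_cast (card_le_card a).trans card_biUnion_le
    have c : 12 * n * ε + 5 ≤ 65 * (ε / ρ) := by
      have : 1 ≤ ε / ρ := (le_div_iff₀ h0).2 (by linarith)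
      have k := mul_le_mul_of_nonneg_right n2 e0.le
      have : 5 / ρ * ε = 5 * (ε / ρ) := by ring
      linarith
    refine b.trans ((sum_le_card_nsmul _ _ (12 * (65 * (ε / ρ)) ^ 2) fun i _ =>
      (pt_count hn e0.le (hT i)).trans (by gcongr)).trans (le_of_eq ?_))
    rw [nsmul_eq_mul, ht]; ring
  have f1 := span_explicit (U '' G) 10 (by norm_num) (by rintro _ ⟨q, -, rfl⟩ o; exact ⟨_, rfl⟩)
    (by rintro _ ⟨q, hq, rfl⟩; exact u1 q (mem_filter.1 hq).1) ψ (18 * (ε ^ 2 + δ)) (by positivity)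
    (by rintro _ ⟨q, hq, rfl⟩; rw [u3 q hq]; exact u5 q (mem_filter.1 hq).1) (∑ q ∈ G, U q)
    (Submodule.sum_mem _ fun q hq => Submodule.subset_span ⟨q, hq, rfl⟩)
  rw [Fintype.card_option, Fintype.card_fin, show (2 * 10 : ℝ) = 20 by norm_num, ← hD] at f1
  have f2 : ∑ o, |(∑ q ∈ G, U q) o| ≤ 512 + Z.card * 10 := by
    have a : ∀ o, |(∑ q ∈ G, U q) o| ≤ |∑ q ∈ Tris n, U q o| + ∑ q ∈ Z, |U q o| := fun o => by
      rw [Finset.sum_apply, eq_sub_of_add_eq (sum_filter_add_sum_filter_not (Tris n) _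
        fun q => U q o)]
      exact (abs_sub _ _).trans (add_le_add le_rfl (abs_sum_le_sum_abs _ _))
    refine (sum_le_sum fun o _ => a o).trans ?_
    rw [sum_add_distrib, sum_comm]
    refine add_le_add ?_ ((sum_le_card_nsmul _ _ 10 fun q hq => u1 q (mem_filter.1 hq).1).trans
      (le_of_eq (nsmul_eq_mul _ _)))
    simp only [u4, Fintype.sum_option, Option.elim_some, Option.elim_none, abs_zero, sum_const_zero,
      add_zero]
    rw [abs_div, abs_neg, abs_of_pos pi_pos, abs_of_nonneg (by linarith [s2.1]),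
      div_le_iff₀ pi_pos]
    linarith [s2.2, pi_gt_three]
  have f3 : 3 / 4 ≤ ψ (∑ q ∈ G, U q) + Z.card * (18 * (ε ^ 2 + δ)) := by
    rw [map_sum, sum_congr rfl u3]
    have a : ∑ q ∈ Tris n, A q = ∑ q ∈ Tris n, (A' q + Er q) := by
      rw [sum_add_distrib, r0, add_zero, s1]
    refine (s2.1.trans_eq (a.trans (sum_filter_add_sum_filter_not _ _ _).symm)).trans
      (add_le_add le_rfl ((sum_le_card_nsmul _ _ _ fun q hq => (le_abs_self _).trans
        (u5 q (mem_filter.1 hq).1)).trans (le_of_eq (nsmul_eq_mul _ _))))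
  have f4 := (le_abs_self _).trans (f1.trans (mul_le_mul_of_nonneg_left f2 (by positivity)))
  have w0 : 0 ≤ ε ^ 2 + δ := by positivity
  generalize ε ^ 2 + δ = w at f3 f4 w0 ⊢
  have f5 := mul_le_mul_of_nonneg_left zc (by positivity : 0 ≤ 18 * w * (1 + 10 * D))
  have f6 := mul_le_mul_of_nonneg_left D1 (by positivity : 0 ≤ w * t)
  have f7 : 0 ≤ w * D := by positivity
  have f8 : 0 ≤ w * t * D := by positivity
  nlinarith

lemma norm_c (u v : Frm) (h : 0 ≤ ⟪u.x, v.x⟫) : 1 ≤ ‖u.c v‖ := by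
  have a := congrArg Complex.re (triple u v u)
  have b : u.c u = 2 := by
    apply Complex.ext
    · have := inner_one ((norm_cr u.hx u.hxa).trans u.ha)
      simp only [Frm.c, Frm.b, inner_one u.ha, this]; norm_num
    · simp [Frm.c, real_inner_comm]
  rw [b, u.c_conj v, Complex.mul_conj, Complex.normSq_eq_norm_sq] at a
  simp only [bt, inner_one u.hx, real_inner_comm u.x v.x] at a
  norm_cast at a
  push_cast at a
  exact abs_le_of_sq_le_sq' (by nlinarith) (norm_nonneg _) |>.2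

lemma arg_near {z w : ℂ} {η : ℝ} (hz : 1 ≤ ‖z‖) (h : ‖w - z‖ ≤ η) (hη : η ≤ 1 / 2) :
    ∃ k ∈ ({-1, 0, 1} : Finset ℝ), |Complex.arg w + 2 * π * k - Complex.arg z| ≤ 4 * η := by
  have z0 : z ≠ 0 := fun e => by rw [e, norm_zero] at hz; linarith
  have h0 : 0 ≤ η := (norm_nonneg _).trans h
  have a : ‖w / z - 1‖ ≤ η := by
    rw [div_sub_one z0, norm_div, div_le_iff₀ (by linarith)]; nlinarith
  have a1 := abs_le.1 ((Complex.abs_re_le_norm _).trans a)
  have a2 := (Complex.abs_im_le_norm _).trans a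
  simp only [Complex.sub_re, Complex.one_re, Complex.sub_im, Complex.one_im, sub_zero] at a1 a2
  have a3 : 1 / 2 ≤ ‖w / z‖ := le_trans (by linarith [a1.1]) (Complex.re_le_norm _)
  have b0 : |Complex.arg (w / z)| ≤ π / 2 :=
    (Complex.abs_arg_lt_pi_div_two_iff.2 (Or.inl (by linarith [a1.1]))).le
  have b := Real.mul_abs_le_abs_sin b0
  rw [Complex.sin_arg, abs_div, abs_norm, le_div_iff₀ (by linarith), div_mul_eq_mul_div,
    div_mul_eq_mul_div, div_le_iff₀ pi_pos] at b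
  have c : |Complex.arg (w / z)| ≤ 4 * η := by
    nlinarith [abs_nonneg (Complex.arg (w / z)), mul_le_mul a2 pi_le_four pi_pos.le h0]
  have e := Complex.arg_mul_coe_angle z0 (y := w / z) fun e => by rw [e, norm_zero] at a3; linarith
  rw [mul_div_cancel₀ _ z0, ← Real.Angle.coe_add, Real.Angle.angle_eq_iff_two_pi_dvd_sub] at e
  obtain ⟨k, e⟩ := e
  have p1 := abs_le.1 (Complex.abs_arg_le_pi w)
  have p2 := abs_le.1 (Complex.abs_arg_le_pi z)
  have p3 := abs_le.1 b0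
  have k1 : (-2 : ℝ) < k := lt_of_mul_lt_mul_left (a := 2 * π) (by linarith [pi_pos]) (by positivity)
  have k2 : (k : ℝ) < 2 := lt_of_mul_lt_mul_left (a := 2 * π) (by linarith [pi_pos]) (by positivity)
  refine ⟨-k, ?_, by rwa [show Complex.arg w + 2 * π * -k - Complex.arg z = Complex.arg (w / z) by
    linarith]⟩
  have k3 : -2 < k := by exact_mod_cast k1
  have k4 : k < 2 := by exact_mod_cast k2
  interval_cases k <;> simp

open Classical in
theorem nearTypes (K : ℕ) : ∀ (N : ℕ) (P : Set E) (g : Fin N → E ≃ₗᵢ[ℝ] E)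
    (B : Finset (Fin N)) (ε ρ δ : ℝ), 0 ≤ δ → (∀ p ∈ P, ‖p‖ = 1) →
    (∀ x : E, ‖x‖ = 1 → ∃ i, x ∈ g i '' P) → (∀ p ∈ P, ∀ q ∈ P, ‖p - q‖ ≤ ε) → 0 < ρ → ρ ≤ ε →
    ∀ F : Finset (E ≃ₗᵢ[ℝ] E), F.card ≤ K →
    (∀ i ∉ B, ∀ j ∉ B, ∀ x ∈ g i '' P, ∀ y ∈ g j '' P, ‖x - y‖ ≤ ρ →
      ∃ f ∈ F, ∀ v, ‖(g j).trans (g i).symm v - f v‖ ≤ δ * ‖v‖) →
    1 ≤ 20 ^ (K * 12 + 9) * ((ε ^ 2 + δ) * (1 + B.card * ε ^ 2 / ρ ^ 2)) := by
  intro N P g B ε ρ δ δ0 h1 hc hd h0 hρ F hF hB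
  have t0 : (0 : ℝ) ≤ B.card * ε ^ 2 / ρ ^ 2 := by positivity
  have q0 : (20 : ℝ) ^ 2 ≤ 20 ^ (K * 12 + 9) := pow_le_pow_right₀ (by norm_num) (by omega)
  by_cases big : 1 / 12 < ε ∨ 1 / 8 < δ
  · have : 1 / 144 ≤ ε ^ 2 + δ := by rcases big with a | a <;> nlinarith
    have : 1 / 144 ≤ (ε ^ 2 + δ) * (1 + B.card * ε ^ 2 / ρ ^ 2) := by nlinarith
    nlinarith
  push Not at big
  obtain ⟨-, p, hp, -⟩ := hc !₂[1, 0, 0] (norm_one_of_inner (by rw [inn]; simp))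
  obtain ⟨e, e1, e2, -⟩ := exists_perp p p
  let Y : Fin N → Frm := fun i => ⟨g i p, g i e, by rw [(g i).norm_map, h1 p hp],
    by rw [(g i).norm_map, e1], by rw [(g i).inner_map_map, e2]⟩
  have d : ∀ i, ∀ x ∈ g i '' P, ∀ y ∈ g i '' P, ‖x - y‖ ≤ ε := by
    rintro i _ ⟨x, hx, rfl⟩ _ ⟨y, hy, rfl⟩
    rw [← map_sub, (g i).norm_map]; exact hd x hx y hy
  have s : ∀ i, ∃ s ∈ ({1, -1} : Finset ℝ), (Y i).b = s • g i (cr p e) := fun i => by
    rcases iso_cr (g i) (h1 p hp) e1 e2 with k | k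
    · exact ⟨1, by simp, by rw [k, one_smul]; rfl⟩
    · exact ⟨-1, by simp, by rw [k, neg_one_smul, neg_neg]; rfl⟩
  choose s s1 s2 using s
  refine (near_core (K * 12) N (fun i => g i '' P) Y B ε ρ (16 * δ) (by positivity) hc
    (fun i x hx => d i x hx _ ⟨p, hp, rfl⟩) d h0 hρ
    ((F ×ˢ ({1, -1} : Finset ℝ) ×ˢ ({1, -1} : Finset ℝ) ×ˢ ({-1, 0, 1} : Finset ℝ)).image
      fun t => Complex.arg ⟨⟪e, t.1 e⟫ + t.2.1 * t.2.2.1 * ⟪cr p e, t.1 (cr p e)⟫,
        t.2.2.1 * ⟪e, t.1 (cr p e)⟫ - t.2.1 * ⟪cr p e, t.1 e⟫⟩ + 2 * π * t.2.2.2)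
    (card_image_le.trans ?_) fun i hi j hj x hx y hy k => ?_).trans ?_
  · rw [card_product, card_product, card_product]
    exact Nat.mul_le_mul hF (Nat.mul_le_mul (card_le_two (a := (1 : ℝ)) (b := -1))
      (Nat.mul_le_mul card_le_two card_le_three))
  · obtain ⟨f, hf, a⟩ := hB i hi j hj x hx y hy k
    have n : ‖cr p e‖ = 1 := (norm_cr (h1 p hp) e2).trans e1
    have m : ∀ a b : E, ⟪g i a, g j b⟫ = ⟪a, (g j).trans (g i).symm b⟫ := fun a b => by
      rw [← (g i).inner_map_map a]; simp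
    have b : ∀ u v : E, ‖u‖ = 1 → ‖v‖ = 1 → |⟪u, f v⟫ - ⟪g i u, g j v⟫| ≤ δ := fun u v hu hv => by
      rw [m, ← inner_sub_right]
      refine (abs_real_inner_le_norm _ _).trans ?_
      rw [hu, one_mul, norm_sub_rev]
      simpa [hv] using a v
    have c : ‖(Y i).x - (Y j).x‖ ≤ 1 / 4 := by
      have a1 := d i _ ⟨p, hp, rfl⟩ x hx
      have a2 := d j y hy _ ⟨p, hp, rfl⟩
      have a3 := norm_sub_le_norm_sub_add_norm_sub (g i p) x (g j p)
      have a4 := norm_sub_le_norm_sub_add_norm_sub x y (g j p)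
      change ‖g i p - g j p‖ ≤ _
      linarith [big.1]
    obtain ⟨l, l1, l2⟩ := arg_near (z := (Y i).c (Y j))
      (w := ⟨⟪e, f e⟫ + s i * s j * ⟪cr p e, f (cr p e)⟫,
        s j * ⟪e, f (cr p e)⟫ - s i * ⟪cr p e, f e⟫⟩) (η := 4 * δ)
      (norm_c _ _ (by linarith [(inner_near (Y i).hx (Y j).hx c le_rfl).1])) (by
        have b1 := abs_le.1 (b e e e1 e1)
        have b2 := abs_le.1 (b _ _ n n)
        have b3 := abs_le.1 (b _ _ e1 n)
        have b4 := abs_le.1 (b _ _ n e1)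
        refine (Complex.norm_le_abs_re_add_abs_im _).trans ?_
        simp only [Complex.sub_re, Complex.sub_im, Frm.c, s2, real_inner_smul_left,
          real_inner_smul_right, Y]
        have si := s1 i
        have sj := s1 j
        simp only [mem_insert, mem_singleton] at si sj
        refine (add_le_add (abs_le.2 ⟨?_, ?_⟩) (abs_le.2 ⟨?_, ?_⟩)).trans
          (le_of_eq (by ring : 2 * δ + 2 * δ = 4 * δ)) <;>
          rcases si with si | si <;> rcases sj with sj | sj <;> rw [si, sj] <;>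
          linarith [b1.1, b1.2, b2.1, b2.2, b3.1, b3.2, b4.1, b4.2]) (by linarith [big.2])
    exact ⟨_, mem_image.2 ⟨(f, s i, s j, l), mem_product.2 ⟨hf, mem_product.2 ⟨s1 i,
      mem_product.2 ⟨s1 j, l1⟩⟩⟩, rfl⟩, l2.trans (by linarith)⟩
  · rw [pow_succ _ (K * 12 + 8), mul_assoc _ 20, ← mul_assoc 20]
    gcongr
    nlinarith [sq_nonneg ε]

theorem nearTypes2 : ∃ C : ℝ, 1 ≤ C ∧ ∀ (K N : ℕ) (P : Set E) (g : Fin N → E ≃ₗᵢ[ℝ] E)
    (B : Finset (Fin N)) (ε ρ δ : ℝ), IsCompact P → (∀ p ∈ P, ‖p‖ = 1) →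
    (∀ x : E, ‖x‖ = 1 → ∃ i, x ∈ g i '' P) → (∀ p ∈ P, ∀ q ∈ P, ‖p - q‖ ≤ ε) → 0 < ε → 0 ≤ δ →
    C ^ (K + 1) * (ε ^ 2 + δ) < 1 → 0 ≤ ρ → ρ ≤ ε → ∀ F : Finset (E ≃ₗᵢ[ℝ] E), F.card ≤ K →
    (∀ i ∉ B, ∀ j ∉ B, ∀ x ∈ g i '' P, ∀ y ∈ g j '' P, ‖x - y‖ ≤ ρ →
      ∃ f ∈ F, ∀ v, ‖(g j).trans (g i).symm v - f v‖ ≤ δ * ‖v‖) →
    B.Nonempty ∧ ρ ^ 2 ≤ C ^ (K + 1) * (ε ^ 2 + δ) * B.card * ε ^ 2 := by
  refine ⟨2 * 20 ^ 12, by norm_num, fun K N P g B ε ρ δ hP h1 hc hd e0 δ0 e1 h0 hρ F hF hB => ?_⟩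
  have c : 2 * (20 : ℝ) ^ (K * 12 + 9) ≤ (2 * 20 ^ 12) ^ (K + 1) := by
    rw [mul_pow, ← pow_mul]
    exact mul_le_mul (le_self_pow₀ one_le_two (Nat.succ_ne_zero K))
      (pow_le_pow_right₀ (by norm_num) (by omega)) (by positivity) (by positivity)
  have h := fun ρ => nearTypes K N P g B ε ρ δ δ0
  have q0 : (0 : ℝ) < 20 ^ (K * 12 + 9) := by positivity
  have w0 : 0 ≤ ε ^ 2 + δ := by positivity
  generalize (20 : ℝ) ^ (K * 12 + 9) = Q at c h q0
  generalize (2 * 20 ^ 12 : ℝ) ^ (K + 1) = R at c e1 ⊢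
  generalize ε ^ 2 + δ = w at e1 h w0 ⊢
  have c1 := mul_le_mul_of_nonneg_right c w0
  have c2 := mul_le_mul_of_nonneg_right c (by positivity : (0 : ℝ) ≤ w * B.card * ε ^ 2)
  constructor
  · refine B.eq_empty_or_nonempty.resolve_left fun e => ?_
    obtain ⟨r, r0, hr⟩ := gap_pos (fun i => g i '' P) fun i => hP.image (g i).continuous
    have := h (min r ε) h1 hc hd (lt_min r0 e0) (min_le_right _ _) F hF
      fun i hi j hj x hx y hy k => by
        obtain ⟨z, a, b⟩ := hr i j x hx y hy (k.trans (min_le_left _ _))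
        exact hB i hi j hj z a z b (by simpa using h0)
    rw [e, Finset.card_empty, Nat.cast_zero, zero_mul, zero_div] at this
    linarith
  · rcases h0.eq_or_lt with rfl | h0
    · have : 0 ≤ Q * (w * B.card * ε ^ 2) := by positivity
      linarith
    have := h ρ h1 hc hd h0 hρ F hF hB
    have e : Q * (w * (1 + B.card * ε ^ 2 / ρ ^ 2)) =
        Q * w + Q * (w * B.card * ε ^ 2) / ρ ^ 2 := by ring
    have k : 1 / 2 ≤ Q * (w * B.card * ε ^ 2) / ρ ^ 2 := by linarith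
    rw [le_div_iff₀ (by positivity)] at k
    linarith

end Pool.Agent.Lib.MP_e5885b_co
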