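import Pool.Agent.Lib.MP_e5885b_co.Bdry

set_option autoImplicit false
set_option linter.unusedSectionVars false

open Set Filter Topology
open scoped RealInnerProductSpace

namespace Pool.Agent.Lib.MP_e5885b_co

def nx (n : ℕ) : Equiv.Perm (ZMod n × Bool × Bool) where
  toFun y := (y.1 + dd y.2.1, y.2)
  invFun y := (y.1 + dd (!y.2.1), y.2)
  left_inv y := by simp [dd_not]
  right_inv y := by simpa using congrArg (·, y.2) (dd_not y.1 (!y.2.1))

lemma nx_pow {n : ℕ} (y : ZMod n × Bool × Bool) (a : ℤ) :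
    (nx n ^ a) y = (y.1 + (a : ZMod n) * dd y.2.1, y.2) := by
  have up : ∀ k : ℤ, (nx n ^ (k + 1)) y = nx n ((nx n ^ k) y) := fun k => by
    rw [add_comm, zpow_add, zpow_one]; rfl
  induction a with
  | zero => simp
  | succ k ih => rw [up, ih]; simp [nx, add_mul, add_assoc]
  | pred k ih =>
    apply (nx n).injective
    rw [← up, sub_add_cancel, ih]
    simp [nx, sub_mul, add_assoc]

namespace Pol

variable {I : Type} [Fintype I] {n : ℕ} [NeZero n] (P : Pol I n)

open Classical in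
lemma edges (i : I) (x : S) :
    (Finset.univ.filter fun y : ZMod n × Bool × Bool => (x : E) ∈ P.Ed i y.1 y.2.1).card ≤ 8 := by
  have h : (Finset.univ.filter fun a => (x : E) ∈ P.Ed i a true).card ≤ 2 := by
    by_cases q : ∃ m, x = P.V i m
    · obtain ⟨m, rfl⟩ := q
      refine (Finset.card_le_card (t := {m, m - 1}) fun a ha => ?_).trans Finset.card_le_two
      rcases vtx (Finset.mem_filter.1 ha).2 with e | e <;> simp [P.inj i e, dd]
    · refine le_trans (Finset.card_le_one.2 fun a ha b hb => by_contra fun c => q ?_) one_le_two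
      rcases P.sim i a b c x (Finset.mem_filter.1 ha).2 (Finset.mem_filter.1 hb).2 with e | e <;>
        exact ⟨_, e⟩
  refine (Finset.card_le_card_of_injOn (t := (Finset.univ.filter fun a => (x : E) ∈ P.Ed i a true) ×ˢ
    Finset.univ) (fun y => (if y.2.1 then y.1 else y.1 - 1, y.2)) (fun y hy => ?_) ?_).trans ?_
  · have := (Finset.mem_filter.1 hy).2
    rw [Ed_eq] at this
    exact Finset.mem_product.2 ⟨Finset.mem_filter.2 ⟨Finset.mem_univ _, this⟩, Finset.mem_univ _⟩
  · rintro ⟨a, ε, η⟩ - ⟨b, ε', η'⟩ - e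
    simp only [Prod.mk.injEq] at e
    obtain ⟨e, rfl, rfl⟩ := e
    cases ε <;> simpa using e
  · rw [Finset.card_product]
    exact Nat.mul_le_mul_right _ h

end Pol

theorem labels (K : ℕ) : ∃ C : ℕ, ∀ (I : Type) [Fintype I] (n : ℕ) [NeZero n] (P : Pol I n),
    (∀ i, ∃ W : Finset S, W.card ≤ K ∧ ∀ x ∈ P.T i, P.Tr x → x ∈ W) →
    ∃ F : Finset ℝ, F.card ≤ C ∧ ∀ i j, P.Tr (P.V i j) → P.θ j ∈ F := by
  classical
  obtain ⟨C, H⟩ := Fold.fold' (K * 8) 4
  refine ⟨C, fun I _ n _ P hW => ?_⟩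
  obtain ⟨F, f1, f2⟩ := H _ (ℝ × ℝ) I (nx n)
    (fun y => (if y.2.2 then 1 - P.θ y.1 else P.θ y.1, P.lam y.1 (y.1 + dd y.2.1)))
    (fun i y => P.Tr (P.V i y.1) ∨ ¬P.Full i y.1 y.2.1)
    (fun i y i' y' => i ≠ i' ∧ ¬P.Tr (P.V i y.1) ∧ P.V i y.1 = P.V i' y'.1 ∧
      P.V i (y.1 + dd y.2.1) = P.V i' (y'.1 + dd y'.2.1) ∧ y'.2.2 = !y.2.2) n
    (by simp [mul_comm]) (fun y a b e => by
      rw [nx_pow, nx_pow, Prod.mk.injEq, add_right_inj] at e
      rw [← ZMod.intCast_zmod_eq_zero_iff_dvd]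
      have := e.1
      push_cast
      cases h : y.2.1 <;> simp [h, dd] at this <;> simp [this])
    (fun i => by
      obtain ⟨W, w1, w2⟩ := hW i
      refine ⟨W.biUnion fun x => Finset.univ.filter fun y => (x : E) ∈ P.Ed i y.1 y.2.1,
        (Finset.card_biUnion_le_card_mul _ _ _ fun x _ => P.edges i x).trans
          (Nat.mul_le_mul_right _ w1), fun y hy => ?_⟩
      obtain ⟨x, a, b⟩ : ∃ x : S, (x : E) ∈ P.Ed i y.1 y.2.1 ∧ P.Tr x := by
        rcases hy with h | h
        · exact ⟨_, Cn_left _ _, h⟩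
        · by_contra k
          exact h (Pol.L3 fun x a b => k ⟨x, a, b⟩)
      exact Finset.mem_biUnion.2 ⟨x, w2 x (Pol.Ed_T a) b, by simpa using a⟩)
    (fun i y h => by
      rw [not_or, not_not] at h
      obtain ⟨h, l, m, η, g⟩ := h
      exact ⟨l, (m, η, !y.2.2), g.1, h, g.2.1, g.2.2, rfl⟩)
    (by
      rintro i ⟨j, ε, η⟩ i' ⟨k, ε', η'⟩ ⟨hi, h, e, f, rfl⟩
      simp only [nx, Equiv.coe_fn_mk, Equiv.coe_fn_symm_mk] at h e f ⊢
      have ang : ∀ a b, P.V i a = P.V i' b → P.Tr (P.V i a) →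
          (if η then 1 - P.θ a else P.θ a) ≠ if !η then 1 - P.θ b else P.θ b := fun a b p q => by
        have := Pol.τ_three q hi
        rw [P.τV, p, P.τV] at this
        cases η <;> simp <;> linarith
      have sy : ∀ a b, P.lam a b = P.lam b a := fun a b => by
        rw [← P.hlam i, ← P.hlam i, real_inner_comm]
      have e' : P.V i (j + dd ε + dd (!ε)) = P.V i' (k + dd ε' + dd (!ε')) := by
        rw [dd_not, dd_not, e]
      refine ⟨⟨?_, Prod.ext ?_ ?_⟩, fun q => ?_, fun q => ?_, fun q => ?_⟩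
      · exact not_or.2 ⟨e ▸ h, not_not.2 ⟨i, j, ε, hi.symm, e.symm, f.symm⟩⟩
      · have := Pol.τ_two h hi (Pol.V_T _ _) (e ▸ Pol.V_T _ _)
        rw [P.τV, e, P.τV] at this
        cases η <;> simp <;> linarith
      · simp only [← P.hlam i j, ← P.hlam i' k, e, f]
      · rw [not_or, not_not] at q
        exact ⟨hi, q.1, f, by simpa using Pol.full_uniq q.1 hi f e' (by simpa using q.2), trivial⟩
      · by_cases t : P.Tr (P.V i (j + dd ε))
        · exact ⟨Or.inl (f ▸ t), fun c => ang _ _ f t (congrArg Prod.fst c)⟩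
        · have q := q.resolve_left t
          refine ⟨Or.inr fun c => q ⟨i', _, ε', hi, f, ?_⟩, fun c => q ⟨i', _, ε', hi, f, ?_⟩⟩
          · simpa using (Pol.full_uniq (f ▸ t) hi.symm f.symm e'.symm (by simpa using c)).symm
          · simpa using Pol.KA t hi f e' (by simpa using congrArg Prod.snd c)
      · have a := dd_not j (!ε)
        have b := dd_not k (!ε')
        rw [Bool.not_not] at a b
        by_cases t : P.V i (j + dd (!ε)) = P.V i' (k + dd (!ε'))
        · have q := q.resolve_right (not_not.2 ⟨i', _, ε', hi, t, by rw [a, b, e]⟩)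
          exact ⟨Or.inl (t ▸ q), fun c => ang _ _ t q (congrArg Prod.fst c)⟩
        · refine ⟨Or.inr fun c => t (Pol.full_uniq (e ▸ h) hi.symm e.symm f.symm ?_).symm,
            fun c => t (Pol.KA h hi e f ?_)⟩
          · simpa [b] using Pol.full_rev c
          · simpa [a, b, sy j, sy k] using congrArg Prod.snd c)
  exact ⟨F.image Prod.fst, Finset.card_image_le.trans f1, fun i j h =>
    Finset.mem_image.2 ⟨_, f2 i (j, true, false) (Or.inl h), rfl⟩⟩

end Pool.Agent.Lib.MP_e5885b_co
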