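import Pool.Agent.Lib.MP_e5885b_co.Core

set_option autoImplicit false
set_option linter.unusedSectionVars false

open Finset

namespace Pool.Agent.Lib.MP_e5885b_co

variable {J Ω : Type} [Fintype J] [DecidableEq J] [DecidableEq Ω]

def Sm (a : J → ℝ) (f : J → ℕ) : ℝ := ∑ j, (f j : ℝ) * a j

def Ok (a : J → ℝ) (X : Finset Ω) (m : Ω → J → ℕ) : Prop :=
  ∀ x ∈ X, Sm a (m x) = 0 ∨ Sm a (m x) = 1 / 2 ∨ Sm a (m x) = 1

def ee (j : J) : J → ℕ := fun l => if l = j then 1 else 0

lemma Sm_add (a : J → ℝ) (f g : J → ℕ) : Sm a (f + g) = Sm a f + Sm a g := by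
  simp [Sm, add_mul, sum_add_distrib]

lemma Sm_ee (a : J → ℝ) (j : J) : Sm a (ee j) = a j := by
  simp [Sm, ee]

lemma Sm_zero (a : J → ℝ) : Sm a 0 = 0 := by simp [Sm]

lemma Sm_nonneg {a : J → ℝ} (ha : ∀ j, 0 < a j) (f : J → ℕ) : 0 ≤ Sm a f :=
  sum_nonneg fun j _ => mul_nonneg (Nat.cast_nonneg _) (ha j).le

lemma peel {f : J → ℕ} {j : J} (h : 0 < f j) : ∃ g : J → ℕ, f = g + ee j :=
  ⟨fun l => f l - ee j l, funext fun l => by
    simp only [ee, Pi.add_apply]; split_ifs with e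
    · subst e; omega
    · omega⟩

lemma sum_upd (X : Finset Ω) (m : Ω → J → ℕ) {x : Ω} (hx : x ∈ X) (f : J → ℕ) :
    ∑ y ∈ X, Function.update m x f y + m x = ∑ y ∈ X, m y + f := by
  rw [sum_update_of_mem hx, ← add_sum_erase X m hx, sdiff_singleton_eq_erase]
  abel

lemma Ok_upd {a : J → ℝ} {X : Finset Ω} {m : Ω → J → ℕ} (h : Ok a X m) (x : Ω) {f : J → ℕ}
    (hf : Sm a f = 0 ∨ Sm a f = 1 / 2 ∨ Sm a f = 1) : Ok a X (Function.update m x f) := by
  intro y hy
  by_cases e : y = x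
  · subst e; rwa [Function.update_self]
  · rw [Function.update_of_ne e]; exact h y hy

lemma ex_pos {X : Finset Ω} {m : Ω → J → ℕ} {j : J} (h : 0 < (∑ y ∈ X, m y) j) :
    ∃ x ∈ X, 0 < m x j := by
  by_contra k
  push Not at k
  rw [Finset.sum_apply, sum_eq_zero fun y hy => Nat.le_zero.1 (k y hy)] at h
  exact lt_irrefl _ h

lemma half1 {a : J → ℝ} (ha : ∀ j, 0 < a j) {X : Finset Ω} {j : J} (hj : a j = 1 / 2)
    (m : Ω → J → ℕ) (h : Ok a X m) (hp : ee j ≤ ∑ y ∈ X, m y) :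
    ∃ m', Ok a X m' ∧ ∑ y ∈ X, m' y + ee j = ∑ y ∈ X, m y := by
  obtain ⟨x, hx, p⟩ := ex_pos (X := X) (m := m) (j := j) (by
    have := hp j; simp only [ee, if_true] at this; omega)
  obtain ⟨g, hg⟩ := peel p
  have e1 := h x hx
  rw [hg, Sm_add, Sm_ee, hj] at e1
  have e2 := Sm_nonneg ha g
  refine ⟨Function.update m x g, Ok_upd h x ?_, ?_⟩
  · rcases e1 with e | e | e
    · linarith
    · left; linarith
    · right; left; linarith
  · have := sum_upd X m hx g
    rw [hg] at this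
    apply add_right_cancel (b := g)
    rw [← this]; abel

lemma merge1 {a : J → ℝ} (ha : ∀ j, 0 < a j) {X : Finset Ω} {j j' : J} (hj : a j + a j' = 1)
    (hj' : 1 / 2 < a j') (m : Ω → J → ℕ) (h : Ok a X m) (hp : ee j + ee j' ≤ ∑ y ∈ X, m y) :
    ∃ m', Ok a X m' ∧ ∑ y ∈ X, m' y + (ee j + ee j') = ∑ y ∈ X, m y := by
  have hne : j ≠ j' := by rintro rfl; linarith
  obtain ⟨x, hx, p⟩ := ex_pos (X := X) (m := m) (j := j) (by
    have := hp j; simp only [ee, Pi.add_apply, if_true] at this; omega)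
  obtain ⟨x', hx', p'⟩ := ex_pos (X := X) (m := m) (j := j') (by
    have := hp j'; simp only [ee, Pi.add_apply, if_true] at this; omega)
  obtain ⟨g', hg'⟩ := peel p'
  have e1 := h x' hx'
  rw [hg', Sm_add, Sm_ee] at e1
  have e2 := Sm_nonneg ha g'
  have e3 : Sm a g' = a j := by rcases e1 with e | e | e <;> linarith
  by_cases e : x = x'
  · subst e
    have : 0 < g' j := by
      rw [hg'] at p; simpa [ee, hne] using p
    obtain ⟨g, hg⟩ := peel this
    rw [hg, Sm_add, Sm_ee] at e3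
    refine ⟨Function.update m x g, Ok_upd h x (Or.inl (by linarith)), ?_⟩
    have := sum_upd X m hx g
    rw [hg', hg] at this
    apply add_right_cancel (b := g)
    rw [← this]; abel
  · obtain ⟨g, hg⟩ := peel p
    have e4 := h x hx
    rw [hg, Sm_add, Sm_ee] at e4
    refine ⟨Function.update (Function.update m x' 0) x (g + g'),
      Ok_upd (Ok_upd h x' (Or.inl (Sm_zero a))) x (by rw [Sm_add, e3]; exact e4), ?_⟩
    have k1 := sum_upd X (Function.update m x' 0) hx (g + g')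
    have k2 := sum_upd X m hx' 0
    rw [Function.update_of_ne e, hg] at k1
    rw [hg', add_zero] at k2
    apply add_right_cancel (b := g + g')
    rw [← k2]
    calc _ = (∑ y ∈ X, Function.update (Function.update m x' 0) x (g + g') y + (g + ee j)) +
        (g' + ee j') := by abel
      _ = _ := by rw [k1]; abel

lemma iter {a : J → ℝ} {X : Finset Ω} {d : J → ℕ}
    (step : ∀ m, Ok a X m → d ≤ ∑ y ∈ X, m y → ∃ m', Ok a X m' ∧ ∑ y ∈ X, m' y + d = ∑ y ∈ X, m y)
    (n : ℕ) : ∀ m, Ok a X m → n • d ≤ ∑ y ∈ X, m y →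
      ∃ m', Ok a X m' ∧ ∑ y ∈ X, m' y + n • d = ∑ y ∈ X, m y := by
  induction n with
  | zero => intro m h _; exact ⟨m, h, by simp⟩
  | succ n ih =>
    intro m h hp
    rw [succ_nsmul] at hp
    obtain ⟨m1, h1, e1⟩ := step m h (le_trans le_add_self hp)
    rw [← e1] at hp
    obtain ⟨m2, h2, e2⟩ := ih m1 h1 (le_of_add_le_add_right hp)
    exact ⟨m2, h2, by rw [succ_nsmul, ← add_assoc, e2, e1]⟩

def ind (N : ℕ) (B : Finset J) : J → ℕ := fun l => if l ∈ B then N else 0

lemma ind_erase (N : ℕ) {B : Finset J} {j : J} (h : j ∈ B) :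
    ind N B = ind N (B.erase j) + N • ee j := by
  funext l
  by_cases e : l = j
  · subst e; simp [ind, ee, h]
  · simp [ind, ee, e]

lemma reduce {a : J → ℝ} (ha : ∀ j, 0 < a j) {X : Finset Ω} (N n : ℕ) :
    ∀ (B : Finset J), B.card ≤ n → ∀ m, Ok a X m → ∑ y ∈ X, m y = ind N B →
      ∃ (B' : Finset J) (m' : Ω → J → ℕ), Ok a X m' ∧ ∑ y ∈ X, m' y = ind N B' ∧
        (B'.card : ℝ) - 2 * ∑ j ∈ B', a j = B.card - 2 * ∑ j ∈ B, a j ∧
        ∀ j ∈ B', ∀ j' ∈ B', a j + a j' ≠ 1 := by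
  induction n with
  | zero =>
    intro B hB m h e
    rw [Nat.le_zero, card_eq_zero] at hB
    subst hB
    exact ⟨∅, m, h, e, rfl, by simp⟩
  | succ n ih =>
    intro B hB m h e
    by_cases k : ∀ j ∈ B, ∀ j' ∈ B, a j + a j' ≠ 1
    · exact ⟨B, m, h, e, rfl, k⟩
    push Not at k
    obtain ⟨j, hj, j', hj', s⟩ := k
    have key : ∀ j ∈ B, ∀ j' ∈ B, a j + a j' = 1 → 1 / 2 < a j' →
        ∃ (B' : Finset J) (m' : Ω → J → ℕ), Ok a X m' ∧ ∑ y ∈ X, m' y = ind N B' ∧
        (B'.card : ℝ) - 2 * ∑ j ∈ B', a j = B.card - 2 * ∑ j ∈ B, a j ∧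
        ∀ j ∈ B', ∀ j' ∈ B', a j + a j' ≠ 1 := by
      intro j hj j' hj' s t
      have hne : j' ≠ j := by rintro rfl; linarith
      have hj2 : j' ∈ B.erase j := mem_erase.2 ⟨hne, hj'⟩
      have e2 : ind N B = ind N ((B.erase j).erase j') + N • (ee j + ee j') := by
        rw [ind_erase N hj, ind_erase N hj2, smul_add]; abel
      obtain ⟨m1, h1, e1⟩ := iter (merge1 ha s t) N m h (by rw [e, e2]; exact le_add_self)
      rw [e, e2] at e1
      have c1 := card_erase_add_one hj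
      have c2 := card_erase_add_one hj2
      obtain ⟨B', m', q1, q2, q3, q4⟩ := ih ((B.erase j).erase j') (by omega) m1 h1
        (add_right_cancel e1)
      refine ⟨B', m', q1, q2, ?_, q4⟩
      rw [q3, ← c1, ← c2, ← add_sum_erase B a hj, ← add_sum_erase _ a hj2]
      push_cast; linarith
    rcases lt_trichotomy (a j') (1 / 2) with t | t | t
    · exact key j' hj' j hj (by linarith) (by linarith)
    · obtain ⟨m1, h1, e1⟩ := iter (half1 ha t) N m h (by rw [e, ind_erase N hj']; exact le_add_self)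
      rw [e, ind_erase N hj'] at e1
      have c1 := card_erase_add_one hj'
      obtain ⟨B', m', q1, q2, q3, q4⟩ := ih (B.erase j') (by omega) m1 h1 (add_right_cancel e1)
      refine ⟨B', m', q1, q2, ?_, q4⟩
      rw [q3, ← c1, ← add_sum_erase B a hj']
      push_cast; linarith
    · exact key j hj j' hj' s t

lemma three {a : J → ℝ} (ha1 : ∀ j, a j < 1) {f : J → ℕ}
    (h : Sm a f = 0 ∨ Sm a f = 1 / 2 ∨ Sm a f = 1)
    (hn : ∀ j j', 0 < f j → 0 < f j' → a j + a j' ≠ 1) : 3 * Sm a f ≤ ∑ j, (f j : ℝ) := by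
  have z : ∀ g : J → ℕ, g = 0 ∨ ∃ j, 0 < g j := fun g => by
    by_contra k
    push Not at k
    exact k.1 (funext fun j => Nat.le_zero.1 (k.2 j))
  have c : ∀ (g : J → ℕ) (j : J), ∑ l, ((g + ee j) l : ℝ) = ∑ l, (g l : ℝ) + 1 := fun g j => by
    simp [ee, sum_add_distrib]
  rcases z f with rfl | ⟨j, hj⟩
  · simp [Sm]
  obtain ⟨g, rfl⟩ := peel hj
  rcases z g with rfl | ⟨j', hj'⟩
  · have := hn j j hj hj
    have := ha1 j
    rw [zero_add, Sm_ee] at h ⊢
    rw [← zero_add (ee j), c]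
    rcases h with e | e | e
    · simp [e]
    · exact absurd (by linarith) (hn j j hj hj)
    · linarith
  obtain ⟨g', rfl⟩ := peel hj'
  rcases z g' with rfl | ⟨j'', hj''⟩
  · have := hn j j' hj (by simp [ee])
    rw [c, c]
    rw [zero_add, Sm_add, Sm_ee, Sm_ee] at h ⊢
    rcases h with e | e | e
    · simp [e]
    · simp [e]; norm_num
    · exact absurd (by linarith) this
  obtain ⟨g'', rfl⟩ := peel hj''
  rw [c, c, c]
  have : (0 : ℝ) ≤ ∑ l, (g'' l : ℝ) := sum_nonneg fun _ _ => Nat.cast_nonneg _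
  rcases h with e | e | e <;> rw [e] <;> linarith

theorem arith2 (Ω : Type) [DecidableEq Ω] (k : ℕ) : ∃ δ : ℝ, 0 < δ ∧
    ∀ (J : Type) [Fintype J] [DecidableEq J] (N : ℕ) (a : J → ℝ) (X : Finset Ω) (m : Ω → J → ℕ)
      (κ : ℤ), κ ≤ k → 1 / δ ≤ N → (∀ j, 1 / (δ * N) < a j) → (∀ j, a j < 1) → Ok a X m →
      (∀ j, ∑ x ∈ X, m x j = N) → (Fintype.card J : ℝ) - 2 * ∑ j, a j = κ - 4 / N → False := by
  classical
  choose f hf0 hf using fun p : ℕ × ℕ => arith (Fin p.1) Ω ((p.1 - p.2) / 2) 0 le_rfl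
  obtain ⟨p0, -, hp0⟩ := exists_min_image (range (3 * k + 1) ×ˢ range (k + 1)) f ⟨(0, 0), by simp⟩
  refine ⟨f p0, hf0 p0, fun J _ _ N a X m κ hκ hN hlo hhi hok hm hs => ?_⟩
  have h0 := hf0 p0
  have hNp : (0 : ℝ) < N := lt_of_lt_of_le (by positivity) hN
  have ha : ∀ j, 0 < a j := fun j => lt_trans (by positivity) (hlo j)
  obtain ⟨B, m', q1, q2, q3, q4⟩ := reduce ha N _ univ le_rfl m hok (by
    funext j; simp [ind, Finset.sum_apply, hm])
  rw [card_univ, hs] at q3
  have r1 : ∀ j, ∑ x ∈ X, m' x j = if j ∈ B then N else 0 := fun j => by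
    have := congrFun q2 j
    rwa [Finset.sum_apply] at this
  have r2 : ∀ x ∈ X, ∀ j, 0 < m' x j → j ∈ B := fun x hx j p => by
    by_contra k
    have := r1 j
    rw [if_neg k, sum_eq_zero_iff] at this
    exact p.ne' (this x hx)
  have r1' : ∀ j, ∑ x ∈ X, (m' x j : ℝ) = if j ∈ B then (N : ℝ) else 0 := fun j => by
    exact_mod_cast r1 j
  have r3 := sum_le_sum fun x hx => three hhi (q1 x hx) fun j j' p p' =>
    q4 j (r2 x hx j p) j' (r2 x hx j' p')
  rw [← mul_sum, sum_comm] at r3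
  unfold Sm at r3
  rw [sum_comm] at r3
  simp only [← sum_mul, r1', ite_mul, zero_mul, sum_ite_mem, univ_inter, sum_const, nsmul_eq_mul,
    ← mul_sum] at r3
  have r4 : 3 * ∑ j ∈ B, a j ≤ B.card := by
    by_contra k
    push Not at k
    nlinarith
  have r5 : (0 : ℝ) < 4 / N := by positivity
  have r6 : (B.card : ℝ) < 3 * κ := by linarith
  have r7 : (B.card : ℤ) < 3 * κ := by exact_mod_cast r6
  obtain ⟨q, rfl⟩ : ∃ q : ℕ, κ = q := ⟨κ.toNat, by omega⟩
  let D : Dat {j // j ∈ B} Ω (((Fintype.card {j // j ∈ B} : ℕ) - q) / 2) 0 (f p0) :=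
    { N := N
      a := fun j => a j
      X := X.filter fun x => Sm a (m' x) ≠ 0
      m := fun x j => m' x j
      σ := fun x => Sm a (m' x)
      hN := hN
      ha := fun j => ha j
      hsum := by
        rw [sum_coe_sort B a, Fintype.card_coe]
        push_cast at q3
        have : (4 : ℝ) / N = 2 * (2 / N) := by ring
        linarith
      hσ := fun x hx => by
        obtain ⟨h1, h2⟩ := mem_filter.1 hx
        exact (q1 x h1).resolve_left h2
      hv := fun x hx => by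
        rw [sum_coe_sort B fun j => (m' x j : ℝ) * a j, Sm]
        refine sum_subset (subset_univ _) fun j _ hj => ?_
        have : m' x j = 0 := by
          by_contra k; exact hj (r2 x (mem_filter.1 hx).1 j (Nat.pos_of_ne_zero k))
        simp [this]
      hm := fun j => by
        have := r1 j
        rw [if_pos j.2] at this
        rw [← this]
        refine sum_subset (filter_subset _ _) fun x hx hx' => ?_
        by_contra k
        refine hx' (mem_filter.2 ⟨hx, ?_⟩)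
        obtain ⟨g, hg⟩ := peel (Nat.pos_of_ne_zero k)
        rw [hg, Sm_add, Sm_ee]
        have := Sm_nonneg ha g
        have := ha j
        linarith
      hG := fun x _ A hA => by
        have : Aᶜ = ∅ := eq_empty_of_forall_notMem fun l hl =>
          absurd (hA l (mem_compl.1 hl)) (not_le.2 (hlo l))
        simp [this] }
  refine (hf (Fintype.card {j // j ∈ B}, q)).false (D.tr (Fintype.equivFin _).symm h0
    (hp0 _ (mem_product.2 ⟨mem_range.2 ?_, mem_range.2 ?_⟩)))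
  · rw [Fintype.card_coe]; omega
  · simp only; omega

end Pool.Agent.Lib.MP_e5885b_co
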