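import Pool.Agent.Lib.MP_e5885b_co.Deg
import Pool.Agent.Lib.MP_e5885b_co.Lev

set_option autoImplicit false
set_option linter.unusedSectionVars false

open MeasureTheory Set Filter Topology
open scoped RealInnerProductSpace

namespace Pool.Agent.Lib.MP_e5885b_co

theorem labels2 (K : ℕ) : ∃ C t : ℕ, ∀ (I : Type) [Fintype I] (n : ℕ) [NeZero n] (P : Pol I n)
    (G : ℕ → I → Prop), (∀ t i, G (t + 1) i → G t i ∧ ∀ l, (P.T i ∩ P.T l).Nonempty → G t l) →
    (∀ i, G 0 i → ∃ W : Finset S, W.card ≤ K ∧ ∀ x ∈ P.T i, P.Tr x → x ∈ W) →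
    ∃ F : Finset ℝ, F.card ≤ C ∧ ∀ i, G t i → ∀ j, P.Tr (P.V i j) → P.θ j ∈ F := by
  classical
  obtain ⟨C, t, H⟩ := Lev.fold' (K * 8) 4
  refine ⟨C, t, fun I _ n _ P G hG hW => ?_⟩
  obtain ⟨F, f1, f2⟩ := H _ (ℝ × ℝ) I (nx n)
    (fun y => (if y.2.2 then 1 - P.θ y.1 else P.θ y.1, P.lam y.1 (y.1 + dd y.2.1)))
    (fun i y => P.Tr (P.V i y.1) ∨ ¬P.Full i y.1 y.2.1)
    (fun i y i' y' => i ≠ i' ∧ ¬P.Tr (P.V i y.1) ∧ P.V i y.1 = P.V i' y'.1 ∧
      P.V i (y.1 + dd y.2.1) = P.V i' (y'.1 + dd y'.2.1) ∧ y'.2.2 = !y.2.2) n G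
    (fun t i g => ⟨(hG t i g).1, fun y l y' h =>
      (hG t i g).2 l ⟨_, Pol.V_T i y.1, h.2.2.1 ▸ Pol.V_T l y'.1⟩⟩)
    (by simp [mul_comm]) (fun y a b e => by
      rw [nx_pow, nx_pow, Prod.mk.injEq, add_right_inj] at e
      rw [← ZMod.intCast_zmod_eq_zero_iff_dvd]
      have := e.1
      push_cast
      cases h : y.2.1 <;> simp [h, dd] at this <;> simp [this])
    (fun i g => by
      obtain ⟨W, w1, w2⟩ := hW i g
      refine ⟨W.biUnion fun x => Finset.univ.filter fun y => (x : E) ∈ P.Ed i y.1 y.2.1,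
        (Finset.card_biUnion_le_card_mul _ _ _ fun x _ => P.edges i x).trans
          (Nat.mul_le_mul_right _ w1), fun y hy => ?_⟩
      obtain ⟨x, a, b⟩ : ∃ x : S, (x : E) ∈ P.Ed i y.1 y.2.1 ∧ P.Tr x := by
        rcases hy with h | h
        · exact ⟨_, Cn_left _ _, h⟩
        · by_contra k
          exact h (Pol.L3 fun x a b => k ⟨x, a, b⟩)
      exact Finset.mem_biUnion.2 ⟨x, w2 x (Pol.Ed_T a) b, by simpa using a⟩)
    (fun i y h => by
      rw [not_or, not_not] at h
      obtain ⟨h, l, m, η, g⟩ := h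
      exact ⟨l, (m, η, !y.2.2), g.1, h, g.2.1, g.2.2, rfl⟩)
    (by
      rintro i ⟨j, ε, η⟩ i' ⟨k, ε', η'⟩ ⟨hi, h, e, f, rfl⟩
      simp only [nx, Equiv.coe_fn_mk, Equiv.coe_fn_symm_mk] at h e f ⊢
      have ang : ∀ a b, P.V i a = P.V i' b → P.Tr (P.V i a) →
          (if η then 1 - P.θ a else P.θ a) ≠ if !η then 1 - P.θ b else P.θ b := fun a b p q => by
        have := Pol.τ_three q hi
        rw [P.τV, p, P.τV] at this
        cases η <;> simp <;> linarith
      have sy : ∀ a b, P.lam a b = P.lam b a := fun a b => by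
        rw [← P.hlam i, ← P.hlam i, real_inner_comm]
      have e' : P.V i (j + dd ε + dd (!ε)) = P.V i' (k + dd ε' + dd (!ε')) := by
        rw [dd_not, dd_not, e]
      refine ⟨⟨?_, Prod.ext ?_ ?_⟩, fun q => ?_, fun q => ?_, fun q => ?_⟩
      · exact not_or.2 ⟨e ▸ h, not_not.2 ⟨i, j, ε, hi.symm, e.symm, f.symm⟩⟩
      · have := Pol.τ_two h hi (Pol.V_T _ _) (e ▸ Pol.V_T _ _)
        rw [P.τV, e, P.τV] at this
        cases η <;> simp <;> linarith
      · simp only [← P.hlam i j, ← P.hlam i' k, e, f]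
      · rw [not_or, not_not] at q
        exact ⟨hi, q.1, f, by simpa using Pol.full_uniq q.1 hi f e' (by simpa using q.2), trivial⟩
      · by_cases t : P.Tr (P.V i (j + dd ε))
        · exact ⟨Or.inl (f ▸ t), fun c => ang _ _ f t (congrArg Prod.fst c)⟩
        · have q := q.resolve_left t
          refine ⟨Or.inr fun c => q ⟨i', _, ε', hi, f, ?_⟩, fun c => q ⟨i', _, ε', hi, f, ?_⟩⟩
          · simpa using (Pol.full_uniq (f ▸ t) hi.symm f.symm e'.symm (by simpa using c)).symm
          · simpa using Pol.KA t hi f e' (by simpa using congrArg Prod.snd c)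
      · have a := dd_not j (!ε)
        have b := dd_not k (!ε')
        rw [Bool.not_not] at a b
        by_cases t : P.V i (j + dd (!ε)) = P.V i' (k + dd (!ε'))
        · have q := q.resolve_right (not_not.2 ⟨i', _, ε', hi, t, by rw [a, b, e]⟩)
          exact ⟨Or.inl (t ▸ q), fun c => ang _ _ t q (congrArg Prod.fst c)⟩
        · refine ⟨Or.inr fun c => t (Pol.full_uniq (e ▸ h) hi.symm e.symm f.symm ?_).symm,
            fun c => t (Pol.KA h hi e f ?_)⟩
          · simpa [b] using Pol.full_rev c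
          · simpa [a, b, sy j, sy k] using congrArg Prod.snd c)
  exact ⟨F.image Prod.fst, Finset.card_image_le.trans f1, fun i g j h =>
    Finset.mem_image.2 ⟨_, f2 i g (j, true, false) (Or.inl h), rfl⟩⟩

open Classical in
theorem sp_core (M K : ℕ) : ∃ D : ℕ, ∀ (I C τ : Type) [Fintype I] [Fintype C] [Nonempty C]
    [Fintype τ] (T : Til I C τ 1) (A : Arr C τ), A.ℓ = T.ℓ → ∀ F : Finset ℝ, F.card ≤ M →
    ∀ (Bad : E → Prop) (w : ℕ), (∀ X : Finset E, (∀ x ∈ X, ‖x‖ = 1 ∧ Bad x) →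
      ∑ x ∈ X, (Finset.univ.filter fun i => T.th (T.g i x) ≠ 0).card ≤ w) →
    (∀ (x : S) (s : Finset I), ¬Bad x → (∀ i ∈ s, T.th (T.g i x) ≠ 0) → s.card ≤ 2 ∨
      s.card ≤ K ∧ ∀ i ∈ s, T.th (T.g i x) = 1 / 2 ∨ T.th (T.g i x) ∈ F) →
    Fintype.card I ≤ D * (w + 1) := by
  obtain ⟨B, H⟩ := Lev.rat (M + M + 2) (K + 2)
  refine ⟨4 * (2 * B + 2), fun I C τ _ _ _ _ T A hA F hF Bad w hw h => not_lt.1 fun hN => ?_⟩
  set G : Finset ℝ := F ∪ F.image (1 - ·) ∪ {1 / 2, 1} with hG
  have sy : ∀ a b : ℝ, a + b = 1 → b ≠ 0 → a ∈ G → b ∈ G := fun a b e b0 k => by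
    simp only [hG, Finset.mem_union, Finset.mem_image, Finset.mem_insert, Finset.mem_singleton] at k ⊢
    rcases k with (k | ⟨c, k, q⟩) | k | k
    · exact Or.inl (Or.inr ⟨a, k, by linarith⟩)
    · exact Or.inl (Or.inl (by rwa [show b = c by linarith]))
    · exact Or.inr (Or.inl (by linarith))
    · exact absurd (by linarith) b0
  obtain ⟨i0, -⟩ := T.hcov 0
  have n1 : ∀ v ∈ A.V, ‖v‖ = 1 ∧ T.th v ≠ 0 := fun v hv => by
    obtain ⟨c, -, hc⟩ := Finset.mem_biUnion.1 hv
    exact ⟨(mem_Vs.1 hc).1, (T.th_pos (hA ▸ (mem_Vs.1 hc).2.1)).ne'⟩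
  set X := Finset.univ.biUnion fun i => A.V.image (T.g i).symm with hX
  have n2 : ∀ x ∈ X, ‖x‖ = 1 := fun x hx => by
    obtain ⟨i, -, hi⟩ := Finset.mem_biUnion.1 hx
    obtain ⟨v, hv, rfl⟩ := Finset.mem_image.1 hi
    rw [LinearIsometryEquiv.norm_map, (n1 v hv).1]
  have N0 : (0 : ℝ) < Fintype.card I := by exact_mod_cast T.N_pos
  have s1 := T.sum_a (by norm_num)
  have s2 : ∑ j, T.a j = ∑ v ∈ A.V, T.th v := by
    rw [Fintype.sum_sigma]
    simp only [Til.th, Til.a, Finset.sum_filter]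
    rw [Finset.sum_comm]
    refine Finset.sum_congr rfl fun c _ => ?_
    rw [Finset.sum_coe_sort (Vs (T.ℓ c)) fun v => μ.real (Tc (T.ℓ c) v) / v0, ← Finset.sum_filter]
    refine Finset.sum_congr ?_ fun _ _ => rfl
    ext v
    rw [Finset.mem_filter, mem_Vs, ← hA]
    exact ⟨fun q => ⟨A.memV q, q.2.1⟩, fun q => A.isV q.1 q.2⟩
  rw [s2] at s1
  have tf : ∀ (ψ : ℝ → ℤ) (D : ℤ), (∀ a, |ψ a| ≤ 2 * B + 2) → |D| ≤ 2 * B + 2 → ψ 0 = 0 →
      (∀ (ι : Type) (s : Finset ι) (f : ι → ℝ), s.card ≤ K + 2 → (∀ i ∈ s, f i ≠ 0 ∧ f i ∈ G) →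
        ∑ i ∈ s, f i = 1 → ∑ i ∈ s, ψ (f i) = 2 * D) →
      (∀ a b, a ≠ 0 → b ≠ 0 → a ∉ G → b ∉ G → a + b = 1 → ψ a + ψ b = 2 * D) →
      ∑ v ∈ A.V, ψ (T.th v) = D * (Fintype.card T.J - 2 * Fintype.card C) := by
    intro ψ D b1 b2 p0 p1 p2
    let δ : E → ℝ := fun w => 2 * D * T.th w - ψ (T.th w)
    have d0 : ∀ x, ∑ i, δ (T.g i x) = (2 * D - ∑ i ∈ Finset.univ.filter
        fun i => T.th (T.g i x) ≠ 0, ψ (T.th (T.g i x)) : ℤ) := fun x => by
      rw [Finset.sum_subset (f := fun i => ψ (T.th (T.g i x))) (Finset.filter_subset _ _)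
        fun i _ hi => by rw [show T.th (T.g i x) = 0 by simpa using hi, p0]]
      simp only [δ]
      rw [Finset.sum_sub_distrib, ← Finset.mul_sum, T.loc3]
      simp
    have d1 : ∀ x : E, ‖x‖ = 1 → ¬Bad x → ∑ i, δ (T.g i x) = 0 := fun x hx hb => by
      rw [d0]
      set s := Finset.univ.filter fun i => T.th (T.g i x) ≠ 0 with hs
      have s0 : ∀ i ∈ s, T.th (T.g i x) ≠ 0 := fun i hi => (Finset.mem_filter.1 hi).2
      have s1 : ∑ i ∈ s, T.th (T.g i x) = 1 := by rw [Finset.sum_filter_ne_zero, T.loc3]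
      have s2 := fun a (b : ∀ i ∈ s, T.th (T.g i x) ∈ G) =>
        p1 I s _ a (fun i hi => ⟨s0 i hi, b i hi⟩) s1
      have s3 : ∑ i ∈ s, ψ (T.th (T.g i x)) = 2 * D := by
        rcases h ⟨x, by simpa using hx⟩ s hb s0 with k | ⟨k, q⟩
        · obtain k | k | k : s.card = 0 ∨ s.card = 1 ∨ s.card = 2 := by omega
          · simp [Finset.card_eq_zero.1 k] at s1
          · refine s2 (by omega) fun i hi => ?_
            obtain ⟨a, e⟩ := Finset.card_eq_one.1 k
            rw [e] at s1 hi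
            rw [Finset.mem_singleton.1 hi, show T.th (T.g a x) = 1 by simpa using s1]
            simp [hG]
          · obtain ⟨a, b, n, e⟩ := Finset.card_eq_two.1 k
            have a0 := s0 a (by simp [e])
            have b0 := s0 b (by simp [e])
            have s4 := s1
            rw [e, Finset.sum_pair n] at s4
            by_cases c : T.th (T.g a x) ∈ G
            · refine s2 (by omega) fun i hi => ?_
              rw [e, Finset.mem_insert, Finset.mem_singleton] at hi
              rcases hi with rfl | rfl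
              exacts [c, sy _ _ s4 b0 c]
            · rw [e, Finset.sum_pair n]
              exact p2 _ _ a0 b0 c (fun q => c (sy _ _ (by linarith) a0 q)) s4
        · refine s2 (by omega) fun i hi => ?_
          rcases q i hi with e | e
          · rw [e]; simp [hG]
          · simp [hG, e]
      simp [s3]
    have d2 : ∀ w : E, ‖w‖ = 1 → w ∉ A.V → δ w = 0 := fun w hw k => by
      obtain ⟨n, e⟩ := T.th_half hw fun c hc => k (A.memV (c := c) (hA ▸ hc))
      have h1 := Finset.single_le_sum (f := fun j => T.th (T.g j ((T.g i0).symm w)))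
        (fun j _ => T.th_nonneg _) (Finset.mem_univ i0)
      simp only [LinearIsometryEquiv.apply_symm_apply, T.loc3, e] at h1
      have e5 : n ≤ 2 := by
        have : (n : ℝ) ≤ 2 := by linarith
        exact_mod_cast this
      have y1 := p1 Unit Finset.univ (fun _ => 1) (by simp) (by simp [hG]) (by simp)
      have y2 := p1 Bool Finset.univ (fun _ => 1 / 2) (by simp) (by simp [hG]) (by simp)
      simp only [δ, e]
      interval_cases n
      · simp [p0]
      · have : ψ (1 / 2) = D := by simpa using y2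
        rw [Nat.cast_one, this]; ring
      · have : ψ 1 = 2 * D := by simpa using y1
        simp [this]
    have d3 : ∀ i, ∑ x ∈ X, δ (T.g i x) = ∑ v ∈ A.V, δ v := fun i => by
      rw [← Finset.sum_subset (s₁ := A.V.image (T.g i).symm)
        (Finset.subset_biUnion_of_mem (fun i => A.V.image (T.g i).symm) (Finset.mem_univ i))
        fun x hx k => d2 _ (by rw [LinearIsometryEquiv.norm_map, n2 x hx]) fun q =>
          k (Finset.mem_image.2 ⟨_, q, by simp⟩), Finset.sum_image (T.g i).symm.injective.injOn]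
      simp
    have d4 : |∑ x ∈ X, ∑ i, δ (T.g i x)| ≤ 3 * (2 * B + 2) * w := by
      rw [← Finset.sum_subset (Finset.filter_subset Bad X) fun x a b =>
        d1 x (n2 x a) fun c => b (Finset.mem_filter.2 ⟨a, c⟩)]
      have := hw (X.filter Bad) fun x hx => (Finset.mem_filter.1 hx).imp_left (n2 x)
      refine (Finset.abs_sum_le_sum_abs _ _).trans (le_trans ?_ (mul_le_mul_of_nonneg_left
        (Nat.cast_le.2 this) (by positivity)))
      rw [Nat.cast_sum, Finset.mul_sum]
      refine Finset.sum_le_sum fun x _ => ?_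
      rw [d0]
      set s := Finset.univ.filter fun i => T.th (T.g i x) ≠ 0 with hs
      have s1 : ∑ i ∈ s, T.th (T.g i x) = 1 := by rw [Finset.sum_filter_ne_zero, T.loc3]
      have s2 : (1 : ℤ) ≤ s.card := by
        exact_mod_cast Finset.card_pos.2 (Finset.nonempty_of_sum_ne_zero (s1 ▸ one_ne_zero))
      have s3 := (Finset.abs_sum_le_sum_abs (fun i => ψ (T.th (T.g i x))) s).trans
        (Finset.sum_le_card_nsmul _ _ _ fun i _ => b1 _)
      have s4 := abs_sub (2 * D) (∑ i ∈ s, ψ (T.th (T.g i x)))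
      rw [abs_mul, abs_two] at s4
      rw [nsmul_eq_mul] at s3
      have : |2 * D - ∑ i ∈ s, ψ (T.th (T.g i x))| ≤ 3 * (2 * B + 2) * s.card := by nlinarith
      exact_mod_cast this
    rw [Finset.sum_comm, Finset.sum_congr rfl fun i _ => d3 i, Finset.sum_const, nsmul_eq_mul,
      Finset.card_univ] at d4
    simp only [δ] at d4
    rw [Finset.sum_sub_distrib, ← Finset.mul_sum, s1, ← Int.cast_sum] at d4
    set Z := D * (Fintype.card T.J - 2 * Fintype.card C) - ∑ v ∈ A.V, ψ (T.th v) with hZ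
    have e : |Fintype.card I * Z + 4 * D| ≤ 3 * (2 * B + 2) * w := by
      have : (2 : ℝ) / Fintype.card I * Fintype.card I = 2 := by field_simp
      rw [← Int.cast_le (R := ℝ)]
      push_cast [hZ] at d4 ⊢
      refine le_of_eq_of_le (congrArg abs ?_) d4
      linear_combination -2 * D * this
    by_contra k
    have z1 := Int.one_le_abs (sub_ne_zero.2 (Ne.symm k))
    have z2 := abs_sub (Fintype.card I * Z + 4 * D) (4 * D)
    rw [add_sub_cancel_right, abs_mul, abs_mul, Nat.abs_cast, abs_of_pos (by norm_num : (0 : ℤ) < 4)] at z2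
    have z3 : (4 * (2 * B + 2) * (w + 1) : ℤ) < Fintype.card I := by exact_mod_cast hN
    have z4 := mul_le_mul_of_nonneg_left z1 (Int.natCast_nonneg (Fintype.card I))
    have z5 : (0 : ℤ) ≤ (2 * B + 2) * w := by positivity
    nlinarith
  set V' := A.V.filter fun v => T.th v ∉ G with hV
  have o1 : ∑ v ∈ V', (2 * T.th v - 1) = 0 := by
    set L := V'.image T.th ∪ V'.image fun v => 1 - T.th v with hL
    have l1 : ∀ s ∈ L, s ≠ 0 ∧ s ∉ G := fun s hs => by
      rcases Finset.mem_union.1 hs with k | k <;> obtain ⟨v, hv, rfl⟩ := Finset.mem_image.1 k <;>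
        obtain ⟨p, q⟩ := Finset.mem_filter.1 hv
      · exact ⟨(n1 v p).2, q⟩
      · exact ⟨fun e => q (by simp [hG, ← sub_eq_zero.1 e]),
          fun e => q (sy _ _ (by ring) (n1 v p).2 e)⟩
    have l2 : ∀ s ∈ L, ∑ v ∈ A.V,
        ((if T.th v = s then 1 else 0) - if T.th v = 1 - s then 1 else 0 : ℤ) = 0 := fun s hs => by
      obtain ⟨p, q⟩ := l1 s hs
      have r : ∀ a ∈ G, a ≠ s ∧ a ≠ 1 - s := fun a ha =>
        ⟨fun e => q (e ▸ ha), fun e => q (sy a s (by linarith) p ha)⟩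
      simpa using tf (fun a => (if a = s then 1 else 0) - if a = 1 - s then 1 else 0) 0
        (fun a => by split_ifs <;> simp <;> omega) (by simp; omega) (by
          have := (r 1 (by simp [hG])).1
          rw [if_neg p.symm, if_neg fun e => this (by linarith), sub_zero])
        (fun _ _ f _ b _ => Finset.sum_eq_zero fun i hi => by simp [r _ (b i hi).2])
        fun a b _ _ _ _ e => by
          have e1 : b = s ↔ a = 1 - s := by constructor <;> intro <;> linarith
          have e2 : b = 1 - s ↔ a = s := by constructor <;> intro <;> linarith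
          simp only [e1, e2]
          ring
    have l3 := Finset.sum_eq_zero fun s hs => (congrArg (fun z : ℤ => s * (z : ℝ)) (l2 s hs)).trans
      (by simp)
    push_cast at l3
    simp only [Finset.mul_sum] at l3
    rw [Finset.sum_comm] at l3
    rw [← l3, hV, Finset.sum_filter]
    refine Finset.sum_congr rfl fun v hv => ?_
    have e : ∀ s, T.th v = 1 - s ↔ 1 - T.th v = s := fun s => by constructor <;> intro <;> linarith
    simp only [mul_sub, mul_ite, mul_one, mul_zero, Finset.sum_sub_distrib, e, Finset.sum_ite_eq]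
    by_cases a : T.th v ∈ G
    · rw [if_neg (not_not.2 a), if_neg fun f => (l1 _ f).2 a,
        if_neg fun k => (l1 _ k).2 (sy _ _ (by ring) (l1 _ k).1 a), sub_zero]
    · have m : v ∈ V' := Finset.mem_filter.2 ⟨hv, a⟩
      rw [if_pos a, if_pos (Finset.mem_union_left _ (Finset.mem_image_of_mem _ m)),
        if_pos (Finset.mem_union_right _ (Finset.mem_image_of_mem _ m))]
      ring
  have o2 := H G ((Finset.card_union_le _ _).trans (add_le_add ((Finset.card_union_le _ _).trans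
    (add_le_add hF (Finset.card_image_le.trans hF))) Finset.card_le_two)) E
    (A.V.filter fun v => ¬T.th v ∉ G) T.th (Fintype.card T.J - 2 * Fintype.card C - V'.card)
    (fun v hv => not_not.1 (Finset.mem_filter.1 hv).2) fun y D b1 b2 hy => by
      have := tf (fun s => if s = 0 then 0 else if s ∈ G then 2 * y s else D) D
        (fun a => by
          have := b1 a
          split_ifs
          · simp; omega
          · rw [abs_mul, abs_two]; omega
          · omega) (by omega) (by simp)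
        (fun ι s f a b c => by
          rw [← hy ι s f a (fun i hi => (b i hi).2) c, Finset.mul_sum]
          exact Finset.sum_congr rfl fun i hi => by simp [b i hi])
        fun a b p q r t _ => by simp only [if_neg p, if_neg q, if_neg r, if_neg t, two_mul]
      rw [← Finset.sum_filter_add_sum_filter_not A.V fun v => T.th v ∉ G,
        Finset.sum_congr rfl (g := fun _ => D) fun v hv => by
          simp [(n1 v (Finset.mem_filter.1 hv).1).2, (Finset.mem_filter.1 hv).2],
        Finset.sum_congr rfl (g := fun v => 2 * y (T.th v)) (s₂ := A.V.filter fun v => ¬T.th v ∉ G)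
          fun v hv => by
            simp [(n1 v (Finset.mem_filter.1 hv).1).2, not_not.1 (Finset.mem_filter.1 hv).2],
        ← Finset.mul_sum, Finset.sum_const, nsmul_eq_mul] at this
      linear_combination this
  rw [← Finset.sum_filter_add_sum_filter_not A.V fun v => T.th v ∉ G] at s1
  rw [Finset.sum_sub_distrib, ← Finset.mul_sum, Finset.sum_const, nsmul_eq_mul] at o1
  push_cast at o2
  have : (0 : ℝ) < 2 / Fintype.card I := by positivity
  linarith

lemma arc_conn {a b : E} (h : ∀ α β : ℝ, α • a + β • b = 0 → α = 0 ∧ β = 0) :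
    IsPreconnected {x : S | (x : E) ∈ Cn a b} := by
  rw [← IsInducing.subtypeVal.isPreconnected_image]
  have h0 : ∀ z ∈ segment ℝ a b, z ≠ 0 := by
    rintro _ ⟨s, t, -, -, e, rfl⟩ k
    obtain ⟨rfl, rfl⟩ := h s t k
    simp at e
  have : Subtype.val '' {x : S | (x : E) ∈ Cn a b} = (fun z : E => ‖z‖⁻¹ • z) '' segment ℝ a b := by
    ext z
    constructor
    · rintro ⟨x, ⟨s, t, p, q, e⟩, rfl⟩
      have k : 0 < s + t := (add_nonneg p q).lt_of_ne fun k => S_ne x (by
        rw [e, show s = 0 by linarith, show t = 0 by linarith]; simp)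
      refine ⟨(s + t)⁻¹ • x, ⟨(s + t)⁻¹ * s, (s + t)⁻¹ * t, by positivity, by positivity,
        by field_simp, by rw [e]; module⟩, ?_⟩
      simp [norm_smul, abs_of_pos k, smul_smul, k.ne']
    · rintro ⟨w, hw, rfl⟩
      refine ⟨nz w (h0 w hw), Cn_smul ?_ (by positivity), rfl⟩
      obtain ⟨s, t, p, q, -, e⟩ := hw
      exact ⟨s, t, p, q, e.symm⟩
  rw [this]
  exact (convex_segment a b).isPreconnected.image _ (ContinuousOn.smul
    (continuous_norm.continuousOn.inv₀ fun z hz => by simpa using h0 z hz) continuousOn_id)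

namespace Pol

variable {I : Type} [Fintype I] {n : ℕ} [NeZero n] (P : Pol I n)

lemma fr_conn (i : I) : IsPreconnected (frontier (P.T i)) := by
  have : frontier (P.T i) = ⋃ k : ℕ, {x : S | (x : E) ∈ P.Ed i k true} := ext fun x => by
    rw [P.fr, mem_iUnion]
    exact (ZMod.natCast_zmod_surjective.exists (p := fun j => (x : E) ∈ P.Ed i j true))
  rw [this]
  refine IsPreconnected.iUnion_of_chain (fun k => arc_conn (li2 i (k : ZMod n) true)) fun k =>
    ⟨P.V i (k + 1), by rw [mem_ofPred_eq, Ed, Cn_comm]; exact Cn_left _ _, ?_⟩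
  rw [Order.succ_eq_add_one, Nat.cast_add, Nat.cast_one]
  exact Cn_left _ _

lemma adj {i l : I} (h : (P.T i ∩ P.T l).Nonempty) :
    (∃ y ∈ P.T l, P.Tr y ∧ y ∈ P.T i) ∨ P.V l 0 ∈ P.T i := by
  by_cases e : l = i
  · exact Or.inr (e ▸ V_T l 0)
  refine or_iff_not_imp_left.2 fun k => ?_
  have k2 : ∀ y ∈ P.T l, y ∈ P.T i → y ∉ ⋃ m : {m // m ≠ i ∧ m ≠ l}, P.T m := fun y a b c => by
    obtain ⟨m, hm⟩ := mem_iUnion.1 c
    exact k ⟨y, a, ⟨l, i, m, e, m.2.2.symm, m.2.1.symm, a, b, hm⟩, b⟩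
  obtain ⟨x, a, b⟩ := h
  refine (isPreconnected_iff_subset_of_disjoint_closed.1 (P.fr_conn l) _ _ (P.cl i)
    (isClosed_iUnion_of_finite fun m : {m // m ≠ i ∧ m ≠ l} => P.cl m) (fun y hy => ?_)
    (eq_empty_of_forall_notMem fun y hy =>
      k2 y ((P.cl l).frontier_subset hy.1) hy.2.1 hy.2.2)).resolve_right
    (fun q => k2 x b a (q (fr_two e b a))) ((P.fr _ _).2 ⟨0, Cn_left _ _⟩)
  obtain ⟨m, p, q⟩ := other hy
  by_cases c : m = i
  · exact Or.inl (c ▸ q)
  · exact Or.inr (mem_iUnion.2 ⟨⟨m, c, p⟩, q⟩)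

def Gd (good : I → Prop) : ℕ → I → Prop
  | 0, i => good i
  | t + 1, i => Gd good t i ∧ ∀ l, (P.T i ∩ P.T l).Nonempty → Gd good t l

lemma Gd_good {good : I → Prop} {i : I} : ∀ {t}, P.Gd good t i → good i
  | 0, h => h
  | _ + 1, h => Gd_good h.1

open Classical in
lemma wt {W : I → Finset S} (hW : ∀ i x, x ∈ W i ↔ x ∈ P.T i ∧ P.Tr x) {K : ℕ} {good : I → Prop}
    (hg : ∀ i, good i → (W i).card ≤ K ∧
      ∀ x ∈ W i, (Finset.univ.filter fun l => x ∈ P.T l).card ≤ K) (t : ℕ) :
    ∑ i ∈ Finset.univ.filter fun i => ¬P.Gd good t i, ((W i).card + 1) ≤ (1 + (K + 1) * (K + 2)) ^ t *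
      ∑ i ∈ Finset.univ.filter fun i => ¬good i, ((W i).card + 1) := by
  induction t with
  | zero => simp [Gd]
  | succ t ih =>
    set B := Finset.univ.filter fun i => ¬P.Gd good t i with hB
    set Nb := B.biUnion fun l => (insert (P.V l 0) (W l)).biUnion fun y =>
      Finset.univ.filter fun i => good i ∧ y ∈ P.T i with hN
    have h1 : Nb.card ≤ ∑ l ∈ B, ((W l).card + 1) * (K + 2) :=
      Finset.card_biUnion_le.trans (Finset.sum_le_sum fun l _ =>
        (Finset.card_biUnion_le_card_mul _ _ _ fun y _ => by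
          rcases (Finset.univ.filter fun i => good i ∧ y ∈ P.T i).eq_empty_or_nonempty with e | ⟨i, hi⟩
          · simp [e]
          refine (Finset.card_le_card (t := Finset.univ.filter fun l => y ∈ P.T l) fun a ha =>
            Finset.mem_filter.2 ⟨Finset.mem_univ _, (Finset.mem_filter.1 ha).2.2⟩).trans ?_
          obtain ⟨-, p, q⟩ := Finset.mem_filter.1 hi
          by_cases c : P.Tr y
          · exact ((hg i p).2 y ((hW _ _).2 ⟨q, c⟩)).trans (by omega)
          · refine le_trans (not_lt.1 fun k => c ?_) (Nat.le_add_left 2 K)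
            obtain ⟨a, b, c, p, q, r, h⟩ := Finset.two_lt_card_iff.1 k
            exact ⟨a, b, c, h.1, h.2.1, h.2.2, by simpa using p, by simpa using q,
              by simpa using r⟩).trans (Nat.mul_le_mul_right _ (Finset.card_insert_le _ _)))
    have h2 : ∑ i ∈ Nb, ((W i).card + 1) ≤ Nb.card * (K + 1) :=
      Finset.sum_le_card_nsmul _ _ _ fun i hi => by
        obtain ⟨l, -, hl⟩ := Finset.mem_biUnion.1 hi
        obtain ⟨y, -, hy⟩ := Finset.mem_biUnion.1 hl
        exact Nat.succ_le_succ (hg i (Finset.mem_filter.1 hy).2.1).1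
    have h3 : (Finset.univ.filter fun i => ¬P.Gd good (t + 1) i) ⊆ B ∪ Nb := fun i hi => by
      by_cases c : P.Gd good t i
      · obtain ⟨l, p, q⟩ : ∃ l, (P.T i ∩ P.T l).Nonempty ∧ ¬P.Gd good t l := by
          by_contra k
          exact (Finset.mem_filter.1 hi).2 ⟨c, fun l a => by_contra fun b => k ⟨l, a, b⟩⟩
        refine Finset.mem_union_right _ (Finset.mem_biUnion.2 ⟨l, by simpa [hB] using q, ?_⟩)
        rcases P.adj p with ⟨y, a, b, d⟩ | d
        · exact Finset.mem_biUnion.2 ⟨y, Finset.mem_insert_of_mem ((hW _ _).2 ⟨a, b⟩),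
            Finset.mem_filter.2 ⟨Finset.mem_univ _, P.Gd_good c, d⟩⟩
        · exact Finset.mem_biUnion.2 ⟨_, Finset.mem_insert_self _ _,
            Finset.mem_filter.2 ⟨Finset.mem_univ _, P.Gd_good c, d⟩⟩
      · exact Finset.mem_union_left _ (by simpa [hB] using c)
    have h4 := Finset.sum_le_sum_of_subset (f := fun i => (W i).card + 1) h3
    have h5 := Finset.sum_union_inter (s₁ := B) (s₂ := Nb) (f := fun i => (W i).card + 1)
    rw [← Finset.sum_mul] at h1
    have h6 := Nat.mul_le_mul_right (K + 1) h1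
    calc _ ≤ ∑ i ∈ B, ((W i).card + 1) + (∑ i ∈ B, ((W i).card + 1)) * (K + 2) * (K + 1) := by omega
      _ = (1 + (K + 1) * (K + 2)) * ∑ i ∈ B, ((W i).card + 1) := by ring
      _ ≤ _ := by rw [pow_succ', mul_assoc]; exact Nat.mul_le_mul_left _ ih

end Pol

open Classical in
theorem sparse (K : ℕ) : ∃ M : ℕ, ∀ (N : ℕ) (T : Fin N → Set S), (⋃ i, T i) = univ →
    (∀ i, IsClosed (T i)) → (∀ i, Metric.diam (T i) < 1) →
    (∀ i j, ∃ g : E ≃ₗᵢ[ℝ] E, g '' (Subtype.val '' T i) = Subtype.val '' T j) →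
    (Pairwise fun i j => Disjoint (interior (T i)) (interior (T j))) → ∀ i,
    T i ⊆ closure (interior (T i)) →
    ∀ (n : ℕ) [NeZero n] (v : ZMod n → S), Function.Injective v →
    (∀ j, LinearIndependent ℝ ![(v (j - 1) : E), v j, v (j + 1)]) →
    (∀ j k, j ≠ k → ∀ x : S, (x : E) ∈ Cn (v j) (v (j + 1)) → (x : E) ∈ Cn (v k) (v (k + 1)) →
      x = v j ∨ x = v (j + 1)) →
    (∀ x : S, x ∈ frontier (T i) ↔ ∃ j, (x : E) ∈ Cn (v j) (v (j + 1))) →
    ∀ B : Finset (Fin N), (∀ j ∉ B, {x ∈ T j | 3 ≤ {l | x ∈ T l}.ncard}.ncard ≤ K ∧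
      ∀ x ∈ T j, {l | x ∈ T l}.ncard ≤ K) →
    N ≤ M * (1 + ∑ j ∈ B, ({x ∈ T j | 3 ≤ {l | x ∈ T l}.ncard}.ncard + 1)) := by
  obtain ⟨C, t, H2⟩ := labels2 K
  obtain ⟨D, H3⟩ := sp_core C K
  refine ⟨D * (1 + (K + 1) * (K + 2)) ^ (t + 1),
    fun N T hcov hcl hd1 hg hdis i0 hr n _ v h1 h2 h3 h4 B hK => ?_⟩
  have : ∀ i, ∃ g : E ≃ₗᵢ[ℝ] E, g '' (Subtype.val '' T i) = Subtype.val '' T i0 ∧
      (i = i0 → ∀ z, g z = z) := fun i => by
    by_cases e : i = i0
    · exact ⟨.refl ℝ E, by simp [e], fun _ _ => rfl⟩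
    · exact (hg i i0).imp fun g h => ⟨h, fun k => absurd k e⟩
  choose g hg g0 using this
  have tr : ∀ i (x y : S), g i x = y → (x ∈ T i ↔ y ∈ T i0) := by
    intro i x y e
    rw [← Subtype.val_injective.mem_set_image (s := T i0), ← hg i, ← e,
      (g i).injective.mem_set_image, Subtype.val_injective.mem_set_image]
  have pre : ∀ i, T i = hom (g i) ⁻¹' T i0 := fun i => ext fun x => tr i x _ rfl
  let u : ZMod n → E := fun j => cr (v j) (v (j + 1))
  have hu : ∀ t, u t ≠ 0 := fun t e => by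
    have := det_ne (h2 (t + 1))
    rw [add_sub_cancel_right, show cr _ _ = 0 from e] at this
    simp at this
  have hf : frontier (T i0) ⊆ {x | ∃ t, ⟪u t, (x : E)⟫ = 0} := fun x hx => by
    obtain ⟨j, hj⟩ := (h4 x).1 hx
    exact ⟨j, real_inner_comm (u j) _ ▸ Cn_perp hj (real_inner_comm (u j) _ ▸ cr_left _ _)
      (real_inner_comm (u j) _ ▸ cr_right _ _)⟩
  obtain ⟨TT, t1, t2⟩ := mk_til hcov hd1 hdis (hcl i0) g tr hu hf
  have ffr : ∀ i x, x ∈ frontier (T i) ↔ hom (g i) x ∈ frontier (T i0) := fun i x => by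
    rw [pre i, ← Homeomorph.preimage_frontier]; rfl
  have reg : ∀ i, T i ⊆ closure (interior (T i)) := fun i => by
    rw [pre i, ← Homeomorph.preimage_interior, ← Homeomorph.preimage_closure]
    exact preimage_mono hr
  let P : Pol (Fin N) n :=
    { T := T, V := fun i j => (hom (g i)).symm (v j), cl := hcl, dis := hdis, reg := reg
      cov := fun x => mem_iUnion.1 (hcov.symm ▸ mem_univ x)
      inj := fun i => (hom (g i)).symm.injective.comp h1
      li := fun i j => by
        have := (h2 j).map' (g i).symm.toLinearEquiv.toLinearMap (LinearEquiv.ker _)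
        refine (congrArg (fun f : Fin 3 → E => LinearIndependent ℝ f) (funext fun k => ?_)).mp this
        fin_cases k <;> rfl
      sim := fun i j k e x a b => by
        rw [Homeomorph.eq_symm_apply, Homeomorph.eq_symm_apply]
        exact h3 j k e _ ((Cn_map _ _ _ _).1 a) ((Cn_map _ _ _ _).1 b)
      fr := fun i x => by
        rw [ffr, h4]
        exact exists_congr fun j => (Cn_map _ _ _ _).symm
      θ := fun j => TT.th (v j)
      lam := fun j k => ⟪(v j : E), (v k : E)⟫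
      hlam := fun i j k => (g i).symm.inner_map_map _ _
      τ := fun i x => TT.th (g i x)
      τpos := fun i x hx => by
        have := closure_minimal (s := interior (T i0))
          (t := ⋃ c : Cel u (T i0), {y : S | (y : E) ∈ Kc (sg u c.1)})
          (fun y hy => mem_iUnion.2 (cel_cov hu (hcl i0) hf (S_ne y) (by rwa [nz_unit])))
          (isClosed_iUnion_of_finite fun c => isClosed_Kc.preimage continuous_subtype_val)
          (hr ((tr i x (hom (g i) x) rfl).1 hx))
        obtain ⟨c, hc⟩ := mem_iUnion.1 this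
        exact TT.th_pos (c := c) (by rw [t2]; exact hc)
      τzero := fun i x hx => Finset.sum_eq_zero fun c hc => by
        have := (Finset.mem_filter.1 hc).2
        rw [t2] at this
        exact absurd ((tr i x (hom (g i) x) rfl).2 (closure_minimal interior_subset (hcl i0)
          (cel_clos c this))) hx
      τsum := fun x => t1 ▸ TT.loc3 x
      τV := fun i j => congrArg TT.th ((g i).apply_symm_apply _) }
  have tr3 : ∀ x, P.Tr x ↔ 3 ≤ {l | x ∈ T l}.ncard := fun x =>
    ⟨fun ⟨a, b, c, q1, q2, q3, r1, r2, r3⟩ =>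
      (two_lt_ncard (toFinite _)).2 ⟨a, r1, b, r2, c, r3, q1, q2, q3⟩, fun h => by
      obtain ⟨a, r1, b, r2, c, r3, q1, q2, q3⟩ := (two_lt_ncard (toFinite _)).1 h
      exact ⟨a, b, c, q1, q2, q3, r1, r2, r3⟩⟩
  have half : ∀ i x, P.Tr x → x ∈ T i → (¬∃ j, x = P.V i j) → P.τ i x = 1 / 2 := by
    intro i x t m q
    obtain ⟨l, l1, l2⟩ : ∃ l, i ≠ l ∧ x ∈ T l := by
      obtain ⟨a, b, -, p, -, -, r1, r2, -⟩ := t
      by_cases e : i = a
      exacts [⟨b, e ▸ p, r2⟩, ⟨a, e, r1⟩]
    have fx := (ffr i x).1 (Pol.fr_two (P := P) l1 m l2)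
    obtain ⟨f, a, b, c⟩ := P.edge_loc (i := i0) fx fun j e => q ⟨j, by
      rw [Homeomorph.eq_symm_apply, e]
      exact Subtype.ext ((g i0).symm_apply_eq.2 (g0 i0 rfl _).symm)⟩
    have := th_edge hu (hcl i0) hf hr TT t2 fx a b c
    exact this
  have fin : ∀ i, {x ∈ T i | 3 ≤ {l | x ∈ T l}.ncard}.Finite := fun i =>
    (finite_range fun p : Fin N × ZMod n => P.V p.1 p.2).subset fun x hx => by_contra fun k => by
      have t := (tr3 x).2 hx.2
      have ⟨a, b, _, p, _, _, r1, r2, _⟩ := t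
      have := Pol.τ_three t p
      rw [half a x t r1 fun ⟨j, e⟩ => k ⟨(a, j), e.symm⟩,
        half b x t r2 fun ⟨j, e⟩ => k ⟨(b, j), e.symm⟩] at this
      norm_num at this
  have hW : ∀ i x, x ∈ (fin i).toFinset ↔ x ∈ P.T i ∧ P.Tr x := fun i x => by
    rw [Finite.mem_toFinset, tr3]; rfl
  have cd : ∀ x, (Finset.univ.filter fun l => x ∈ T l).card = {l | x ∈ T l}.ncard := fun x => by
    rw [← ncard_coe_finset]; simp
  have hg' : ∀ i ∉ B, (fin i).toFinset.card ≤ K ∧
      ∀ x ∈ (fin i).toFinset, (Finset.univ.filter fun l => x ∈ P.T l).card ≤ K := fun i hi =>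
    ⟨ncard_eq_toFinset_card _ (fin i) ▸ (hK i hi).1,
      fun x hx => (cd x).trans_le ((hK i hi).2 x ((hW i x).1 hx).1)⟩
  obtain ⟨F, f1, f2⟩ := H2 _ n P (P.Gd (· ∉ B)) (fun _ _ h => h) fun i hi =>
    ⟨_, (hg' i hi).1, fun x a b => (hW i x).2 ⟨a, b⟩⟩
  have w1 := P.wt hW hg' (t + 1)
  simp only [not_not, Finset.filter_mem_eq_inter, Finset.univ_inter] at w1
  obtain ⟨-, c0, -⟩ := TT.hcov 0
  have : Nonempty (Cel u (T i0)) := ⟨c0⟩
  obtain ⟨w0, hw0⟩ := c0.2.1
  obtain ⟨A, hA⟩ := mk_arr hu (hcl i0) (hd1 i0) (interior_subset (cel_int c0 (Ko_ne hw0) hw0))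
  refine ((Fintype.card_fin N).symm.le.trans (H3 _ _ _ TT A (hA.trans t2.symm) F f1
      (fun z => ∃ x : S, (x : E) = z ∧ P.Tr x ∧ ∃ i, x ∈ T i ∧ ¬P.Gd (· ∉ B) t i) _
      (fun X hX => le_trans ?_ w1) fun x s hb hs => ?_)).trans ?_
  · simp only [Finset.card_filter]
    rw [Finset.sum_comm, Finset.sum_filter]
    refine Finset.sum_le_sum fun i _ => ?_
    rw [← Finset.card_filter]
    have m : ∀ z ∈ X.filter fun z => TT.th (TT.g i z) ≠ 0, ∃ x : S, (x : E) = z ∧ x ∈ T i ∧
        P.Tr x ∧ ¬P.Gd (· ∉ B) (t + 1) i := fun z hz => by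
      obtain ⟨p, q⟩ := Finset.mem_filter.1 hz
      obtain ⟨-, x, rfl, a, l, b, c⟩ := hX z p
      have : x ∈ T i := by_contra fun k => q (t1 ▸ P.τzero i x k)
      exact ⟨x, rfl, this, a, fun k => c (k.2 l ⟨x, this, b⟩)⟩
    split_ifs with c
    swap
    · refine (Finset.card_le_card (t := (fin i).toFinset.image Subtype.val) fun z hz => ?_).trans
        (Finset.card_image_le.trans (Nat.le_succ _))
      obtain ⟨x, rfl, a, b, -⟩ := m z hz
      exact Finset.mem_image_of_mem _ ((hW i x).2 ⟨a, b⟩)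
    · refine (Finset.card_eq_zero.2 (Finset.eq_empty_of_forall_notMem fun z hz => ?_)).le
      obtain ⟨x, -, -, -, a⟩ := m z hz
      exact a c
  swap
  · simp only [← ncard_eq_toFinset_card]
    rw [mul_assoc, mul_add _ 1, mul_one, add_comm]
    exact Nat.mul_le_mul_left _ (Nat.add_le_add_right (Nat.one_le_pow _ _ (by omega)) _)
  · rw [t1] at hs ⊢
    have m : ∀ i ∈ s, x ∈ T i := fun i hi => by_contra fun k => hs i hi (P.τzero i x k)
    by_cases t : P.Tr x
    · obtain ⟨j, hj⟩ := P.cov x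
      have gd : ∀ i, x ∈ T i → P.Gd (· ∉ B) _ i := fun i hi =>
        by_contra fun k => hb ⟨x, rfl, t, i, hi, k⟩
      refine Or.inr ⟨le_trans ?_ ((hK j (P.Gd_good (gd j hj))).2 x hj), fun i hi => ?_⟩
      · rw [← ncard_coe_finset]
        exact ncard_le_ncard (fun l hl => m l hl) (toFinite _)
      · by_cases q : ∃ j, x = P.V i j
        · obtain ⟨j, rfl⟩ := q
          exact Or.inr ((P.τV i j).symm ▸ f2 i (gd i (m i hi)) j t : P.τ i _ ∈ F)
        · exact Or.inl (half i x t (m i hi) q)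
    · refine Or.inl (not_lt.1 fun k => t ?_)
      obtain ⟨a, b, c, p, q, r, h⟩ := Finset.two_lt_card_iff.1 k
      exact ⟨a, b, c, h.1, h.2.1, h.2.2, m a p, m b q, m c r⟩

end Pool.Agent.Lib.MP_e5885b_co
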