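import Pool.Agent.Lib.MP_e5885b_co.Sparse

set_option autoImplicit false

namespace Pool.Agent.Lib.MP_e5885b_co.SparseDefectsOld

variable {V : Type} [NormedAddCommGroup V] [InnerProductSpace ℝ V]

/-- closed, pairwise congruent tiles of diameter < ε with disjoint interiors covering the sphere -/
def IsTiling (ε : ℝ) {N : ℕ} (T : Fin N → Set (Metric.sphere (0 : V) 1)) : Prop :=
  (⋃ i, T i) = Set.univ ∧ (∀ i, IsClosed (T i)) ∧ (∀ i, Metric.diam (T i) < ε) ∧
    (∀ i j, ∃ g : V ≃ₗᵢ[ℝ] V, g '' (Subtype.val '' T i) = Subtype.val '' T j) ∧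
    Pairwise fun i j => Disjoint (interior (T i)) (interior (T j))

/-- the minor great circle arc from x to y -/
def Arc (x y : Metric.sphere (0 : V) 1) : Set (Metric.sphere (0 : V) 1) :=
  {z | ∃ a b : ℝ, 0 ≤ a ∧ 0 ≤ b ∧ z.val = a • x.val + b • y.val}

/-- a region bounded by a simple closed polygon, with any number of sides -/
def SimplePolygon (T : Set (Metric.sphere (0 : V) 1)) : Prop :=
  T ⊆ closure (interior T) ∧
    ∃ (n : ℕ) (v : ZMod (n + 3) → Metric.sphere (0 : V) 1), Function.Injective v ∧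
      (∀ j, LinearIndependent ℝ ![(v (j - 1)).val, (v j).val, (v (j + 1)).val]) ∧
      (∀ j k, j ≠ k → Arc (v j) (v (j + 1)) ∩ Arc (v k) (v (k + 1)) ⊆ {v j, v (j + 1)}) ∧
      frontier T = ⋃ j, Arc (v j) (v (j + 1))

/-- the number of tiles containing x -/
noncomputable def deg {N : ℕ} (T : Fin N → Set (Metric.sphere (0 : V) 1))
    (x : Metric.sphere (0 : V) 1) : ℕ := {l | x ∈ T l}.ncard

/-- the number of vertices of the tiling (points in at least three tiles) on tile j -/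
noncomputable def val {N : ℕ} (T : Fin N → Set (Metric.sphere (0 : V) 1)) (j : Fin N) : ℕ :=
  {x ∈ T j | 3 ≤ deg T x}.ncard

theorem result (K : ℕ) : ∃ M : ℕ,
    ∀ (N : ℕ) (T : Fin N → Set (Metric.sphere (0 : EuclideanSpace ℝ (Fin 3)) 1)),
      IsTiling 1 T → (∃ i, SimplePolygon (T i)) → ∀ B : Finset (Fin N),
        (∀ j ∉ B, val T j ≤ K ∧ ∀ x ∈ T j, deg T x ≤ K) →
          N ≤ M * (1 + ∑ j ∈ B, (val T j + 1)) := by
  obtain ⟨M, h⟩ := Pool.Agent.Lib.MP_e5885b_co.sparse K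
  refine ⟨M, fun N T hT ⟨i, h1, n, v, h3, h4, h5, h6⟩ B hK => ?_⟩
  exact h N T hT.1 hT.2.1 hT.2.2.1 hT.2.2.2.1 hT.2.2.2.2 i h1 (n + 3) v h3 h4
    (fun j k e x a b => h5 j k e ⟨a, b⟩) (fun x => by rw [h6, Set.mem_iUnion]; rfl) B hK

end Pool.Agent.Lib.MP_e5885b_co.SparseDefectsOld
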