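import Pool.Agent.Lib.MP_e5885b_co.Core

set_option autoImplicit false
set_option linter.unusedSectionVars false

open MeasureTheory Set Filter Topology
open scoped RealInnerProductSpace Pointwise

namespace Pool.Agent.Lib.MP_e5885b_co

theorem core2 (k : ℕ) : ∃ ε : ℝ, 0 < ε ∧ ∀ (I C : Type) [Fintype I] [Fintype C]
    (g : I → E ≃ₗᵢ[ℝ] E) (U : C → Set E), Fintype.card C ≤ k → (∀ c, IsOpen (U c)) →
    (∀ c, Convex ℝ (U c)) → (∀ c, (U c).Nonempty) →
    (∀ c, ∀ z ∈ U c, ∀ t : ℝ, 0 < t → t • z ∈ U c) →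
    (∀ c c', ∀ x ∈ U c, ∀ y ∈ U c', ‖x‖ = 1 → ‖y‖ = 1 → ‖x - y‖ ≤ ε) →
    (∀ᵐ z ∂(volume : Measure E), ∃ i c, g i z ∈ U c) →
    (∀ i c i' c' z, g i z ∈ U c → g i' z ∈ U c' → i = i' ∧ c = c') → False := by
  obtain ⟨ε, h0, h1, H⟩ := core k (6 * k)
  refine ⟨ε, h0, fun I C _ _ g U hk hO hC hne hs hd hcov hdis => ?_⟩
  obtain ⟨-, i0, -⟩ := hcov.exists
  have hd' : ∀ c c', ∀ x ∈ U c, ∀ y ∈ U c', ‖‖y‖ • x - ‖x‖ • y‖ ≤ ε * (‖x‖ * ‖y‖) := by
    intro c c' x hx y hy
    by_cases x0 : x = 0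
    · simp [x0]
    by_cases y0 : y = 0
    · simp [y0]
    have := hd c c' _ (hs c x hx ‖x‖⁻¹ (by positivity)) _ (hs c' y hy ‖y‖⁻¹ (by positivity))
      (norm_smul_inv_norm x0) (norm_smul_inv_norm y0)
    have e : ‖y‖ • x - ‖x‖ • y = (‖x‖ * ‖y‖) • (‖x‖⁻¹ • x - ‖y‖⁻¹ • y) := by
      rw [smul_sub, smul_smul, smul_smul]; congr 2 <;> field_simp
    rw [e, norm_smul, Real.norm_of_nonneg (by positivity), mul_comm]
    gcongr
  have ex : ∀ (c : C) (q : I × C), ∃ φ : E, φ ≠ 0 ∧ (∀ z ∈ U c, 0 ≤ ⟪φ, z⟫) ∧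
      (q ≠ (i0, c) → ∀ z, g q.1 ((g i0).symm z) ∈ U q.2 → ⟪φ, z⟫ ≤ 0) := by
    intro c q
    by_cases hq : q = (i0, c)
    · obtain ⟨w, hw⟩ := (dense_compl_singleton (0 : E)).inter_open_nonempty _ (hO c) (hne c)
      refine ⟨w, hw.2, fun z hz => ?_, fun h => absurd hq h⟩
      have a := hd' c c w hw.1 z hz
      have b := norm_sub_sq_real (‖z‖ • w) (‖w‖ • z)
      rw [norm_smul, norm_smul, inner_smul_left, inner_smul_right, norm_norm, norm_norm,
        conj_trivial] at b
      have a2 : ‖‖z‖ • w - ‖w‖ • z‖ ^ 2 ≤ (‖w‖ * ‖z‖) ^ 2 := by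
        refine pow_le_pow_left₀ (norm_nonneg _) (a.trans ?_) 2
        exact mul_le_of_le_one_left (by positivity) h1
      by_cases z0 : z = 0
      · simp [z0]
      have p : 0 < ‖w‖ * ‖z‖ := mul_pos (norm_pos_iff.2 hw.2) (norm_pos_iff.2 z0)
      by_contra k
      push Not at k
      nlinarith
    · let G := (g i0).symm.trans (g q.1)
      obtain ⟨φ, p1, p2, p3⟩ := sep_cones ((hO q.2).preimage G.continuous) (hO c)
        ((hC q.2).linear_preimage G.toLinearEquiv.toLinearMap) (hC c)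
        ((hne q.2).preimage G.surjective) (hne c)
        (fun z hz t ht => by simpa using hs _ _ hz t ht) (hs c)
        (disjoint_left.2 fun z a b => by
          have := hdis q.1 q.2 i0 c ((g i0).symm z) a (by simpa using b)
          exact hq (Prod.ext this.1 this.2))
      exact ⟨φ, fun e => by simp [e] at p1, p3, fun _ z hz => p2 z hz⟩
  choose ℓ l1 l2 l3 using ex
  have sub1 : ∀ c, U c ⊆ Ko (ℓ c) := fun c z hz q =>
    (l2 c q z hz).lt_of_ne fun e => l1 c q (zero_of_open (hO c) hz e.symm (l2 c q))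
  have sub2 : ∀ c, Ko (ℓ c) ⊆ U c := by
    intro c
    have a : ∀ᵐ z ∂(volume : Measure E), z ∈ Ko (ℓ c) → z ∈ U c := by
      filter_upwards [(g i0).symm.measurePreserving.quasiMeasurePreserving.ae hcov] with z hz hz'
      obtain ⟨i, c', h⟩ := hz
      by_cases e : (i, c') = (i0, c)
      · obtain ⟨rfl, rfl⟩ := Prod.mk.inj e
        simpa using h
      · exact absurd (hz' (i, c')) (not_lt.2 (l3 c (i, c') e z h))
    have b : Ko (ℓ c) ⊆ closure (U c) := by
      refine ((Measure.dense_of_ae a).open_subset_closure_inter isOpen_Ko).trans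
        (closure_mono fun z hz => hz.2 hz.1)
    have := interior_maximal b isOpen_Ko
    rwa [(hC c).interior_closure_eq_interior_of_nonempty_interior
      (by rw [(hO c).interior_eq]; exact hne c), (hO c).interior_eq] at this
  let T : Til I C (I × C) ε :=
    { g := g
      ℓ := ℓ
      hl := l1
      hne := fun c => (hne c).mono (sub1 c)
      hd := fun c c' x y hx hy x1 y1 => by
        have a := closure_mono (sub2 c) (Kc_closure ((hne c).mono (sub1 c)) hx)
        have b := closure_mono (sub2 c') (Kc_closure ((hne c').mono (sub1 c')) hy)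
        have m : (x, y) ∈ closure (U c ×ˢ U c') := by rw [closure_prod_eq]; exact ⟨a, b⟩
        have := le_on_closure (f := fun p : E × E => ‖‖p.2‖ • p.1 - ‖p.1‖ • p.2‖)
          (g := fun p : E × E => ε * (‖p.1‖ * ‖p.2‖)) (s := U c ×ˢ U c')
          (fun p hp => hd' c c' _ hp.1 _ hp.2) (by fun_prop) (by fun_prop) m
        simpa [x1, y1] using this
      hcov := fun z => by
        have hcl : IsClosed {z | ∃ i c, g i z ∈ Kc (ℓ c)} := by
          simp only [ofPred_exists]
          exact isClosed_iUnion_of_finite fun i => isClosed_iUnion_of_finite fun c =>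
            isClosed_Kc.preimage (g i).continuous
        have := Measure.dense_of_ae (hcov.mono fun z ⟨i, c, h⟩ =>
          (⟨i, c, Ko_sub (sub1 c h)⟩ : ∃ i c, g i z ∈ Kc (ℓ c)))
        exact hcl.closure_subset (this z)
      hdis := fun i c i' c' z a b => hdis i c i' c' z (sub2 c a) (sub2 c' b) }
  exact H I C (I × C) T hk ((T.six (by linarith)).trans (by omega))

abbrev S := Metric.sphere (0 : E) 1

def cone (K : Set S) : Set E := {z | ∃ x ∈ K, ∃ a : ℝ, 0 ≤ a ∧ z = a • (x : E)}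

lemma unit_mem_cone {K : Set S} {x : S} (h : (x : E) ∈ cone K) : x ∈ K := by
  obtain ⟨y, hy, a, ha, e⟩ := h
  have := congrArg norm e
  rw [norm_smul, norm_eq_of_mem_sphere, norm_eq_of_mem_sphere, Real.norm_of_nonneg ha,
    mul_one] at this
  rw [← this, one_smul] at e
  rwa [Subtype.ext e]

noncomputable def nz (z : E) (h : z ≠ 0) : S :=
  ⟨‖z‖⁻¹ • z, by simpa using norm_smul_inv_norm (𝕜 := ℝ) h⟩

lemma convex_cone {K : Set S} (h : ∀ x ∈ K, ∀ y ∈ K, ∀ (z : S) (a b : ℝ), 0 ≤ a → 0 ≤ b →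
    (z : E) = a • (x : E) + b • (y : E) → z ∈ K) : Convex ℝ (cone K) := by
  rintro _ ⟨x, hx, a, ha, rfl⟩ _ ⟨y, hy, b, hb, rfl⟩ s t hs ht -
  by_cases h0 : s • a • (x : E) + t • b • (y : E) = 0
  · exact ⟨x, hx, 0, le_rfl, by rw [h0, zero_smul]⟩
  · refine ⟨nz _ h0, h x hx y hy _ (‖s • a • (x : E) + t • b • (y : E)‖⁻¹ * (s * a))
      (‖s • a • (x : E) + t • b • (y : E)‖⁻¹ * (t * b)) (by positivity) (by positivity) ?_,
      _, norm_nonneg (s • a • (x : E) + t • b • (y : E)), ?_⟩
    · simp only [nz, smul_add, smul_smul]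
    · exact (smul_inv_smul₀ (norm_ne_zero_iff.2 h0) _).symm

lemma int_cone_smul {K : Set S} {z : E} (hz : z ∈ interior (cone K)) {t : ℝ} (ht : 0 < t) :
    t • z ∈ interior (cone K) := by
  have : t • interior (cone K) ⊆ interior (cone K) := by
    refine interior_maximal ?_ (isOpen_interior.smul₀ ht.ne')
    rintro _ ⟨w, hw, rfl⟩
    obtain ⟨x, hx, a, ha, rfl⟩ := interior_subset hw
    exact ⟨x, hx, t * a, by positivity, by simp [smul_smul]⟩
  exact this ⟨z, hz, rfl⟩

theorem core3 (k : ℕ) : ∃ ε : ℝ, 0 < ε ∧ ∀ (N : ℕ) (T : Fin N → Set S), (⋃ i, T i) = univ →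
    (∀ i, Metric.diam (T i) < ε) →
    (∀ i j, ∃ g : E ≃ₗᵢ[ℝ] E, g '' (Subtype.val '' T i) = Subtype.val '' T j) →
    (Pairwise fun i j => Disjoint (interior (T i)) (interior (T j))) →
    ∀ (i0 : Fin N) (C τ : Type) [Fintype C] [Fintype τ] (K : C → Set S) (u : τ → E),
    Fintype.card C ≤ k → (∀ c, ∀ x ∈ K c, ∀ y ∈ K c, ∀ (z : S) (a b : ℝ), 0 ≤ a → 0 ≤ b →
      (z : E) = a • (x : E) + b • (y : E) → z ∈ K c) →
    (Pairwise fun c c' => Disjoint (interior (K c)) (interior (K c'))) → (∀ c, K c ⊆ T i0) →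
    (∀ t, u t ≠ 0) → (∀ x ∈ T i0, (∃ c, x ∈ K c) ∨ ∃ t, ⟪u t, (x : E)⟫ = 0) → False := by
  classical
  obtain ⟨ε, h0, H⟩ := core2 k
  refine ⟨ε, h0, fun N T hcov hd hg hdis i0 C τ _ _ K u hk hK hKd hKT hu hTK => ?_⟩
  choose g hg using fun i => hg i i0
  have tr : ∀ i (x y : S), g i x = y → (x ∈ T i ↔ y ∈ T i0) := by
    intro i x y e
    rw [← Subtype.val_injective.mem_set_image (s := T i0), ← hg i, ← e,
      (g i).injective.mem_set_image, Subtype.val_injective.mem_set_image]
  let gs : Fin N → S → S := fun i x => ⟨g i x, by simp⟩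
  refine H (Fin N) {c // (interior (cone (K c))).Nonempty} g (fun c => interior (cone (K c)))
    ((Fintype.card_subtype_le _).trans hk) (fun _ => isOpen_interior)
    (fun c => (convex_cone (hK c)).interior) (fun c => c.2) (fun c z hz t ht => int_cone_smul hz ht)
    ?_ ?_ ?_
  · intro c c' x hx y hy x1 y1
    have a := hKT _ (unit_mem_cone (x := ⟨x, by simpa using x1⟩) (interior_subset hx))
    have b := hKT _ (unit_mem_cone (x := ⟨y, by simpa using y1⟩) (interior_subset hy))
    have := Metric.dist_le_diam_of_mem Metric.isBounded_of_compactSpace a b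
    rw [Subtype.dist_eq, dist_eq_norm] at this
    exact this.trans (hd i0).le
  · have a1 : ∀ᵐ z ∂(volume : Measure E), ∀ i, (∀ t, ⟪u t, g i z⟫ ≠ 0) ∧
        ∀ c, g i z ∉ frontier (cone (K c)) := by
      rw [ae_all_iff]
      intro i
      refine (g i).measurePreserving.quasiMeasurePreserving.ae
        (p := fun z => (∀ t, ⟪u t, z⟫ ≠ 0) ∧ ∀ c, z ∉ frontier (cone (K c)))
        ((ae_generic u hu).and (ae_all_iff.2 fun c => ?_))
      exact measure_eq_zero_iff_ae_notMem.1 ((convex_cone (hK c)).addHaar_frontier volume)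
    have a2 : ∀ᵐ z ∂(volume : Measure E), z ≠ 0 := by
      rw [ae_iff]; simp
    filter_upwards [a1, a2] with z h1 h2
    obtain ⟨i, hi⟩ := mem_iUnion.1 (hcov.symm ▸ mem_univ (nz z h2))
    rcases hTK _ ((tr i _ (gs i (nz z h2)) rfl).1 hi) with ⟨c, hc⟩ | ⟨t, ht⟩
    · have m : g i z ∈ cone (K c) := ⟨_, hc, ‖z‖, norm_nonneg _, by
        simp only [gs, nz, map_smul]
        rw [smul_smul, mul_inv_cancel₀ (norm_ne_zero_iff.2 h2), one_smul]⟩
      have m2 : g i z ∈ interior (cone (K c)) := by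
        by_contra k
        exact (h1 i).2 c ⟨subset_closure m, k⟩
      exact ⟨i, ⟨c, _, m2⟩, m2⟩
    · simp only [gs, nz, map_smul, inner_smul_right, mul_eq_zero, inv_eq_zero, norm_eq_zero] at ht
      exact absurd ht (not_or.2 ⟨h2, (h1 i).1 t⟩)
  · intro i c i' c' z a b
    obtain ⟨w, ⟨wa, wb⟩, w0⟩ := (dense_compl_singleton (0 : E)).inter_open_nonempty _
      ((isOpen_interior.preimage (g i).continuous).inter
        (isOpen_interior.preimage (g i').continuous)) ⟨z, a, b⟩
    have wa' : g i (nz w w0) ∈ interior (cone (K c)) := by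
      simpa [nz] using int_cone_smul wa (t := ‖w‖⁻¹) (by simpa using w0)
    have wb' : g i' (nz w w0) ∈ interior (cone (K c')) := by
      simpa [nz] using int_cone_smul wb (t := ‖w‖⁻¹) (by simpa using w0)
    have q : ∀ j d, g j (nz w w0) ∈ interior (cone (K d)) → nz w w0 ∈ interior (T j) := by
      intro j d h
      refine interior_maximal (t := {x : S | g j x ∈ interior (cone (K d))}) (fun x hx => ?_)
        (isOpen_interior.preimage (by fun_prop)) h
      exact (tr j x (gs j x) rfl).2 (hKT d (unit_mem_cone (interior_subset hx)))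
    have e : i = i' := by
      by_contra hn
      exact disjoint_left.1 (hdis hn) (q _ _ wa') (q _ _ wb')
    subst e
    refine ⟨rfl, Subtype.ext ?_⟩
    have q2 : ∀ d, g i (nz w w0) ∈ interior (cone (K d)) → gs i (nz w w0) ∈ interior (K d) := by
      intro d h
      exact interior_maximal (t := {x : S | (x : E) ∈ interior (cone (K d))})
        (fun x hx => unit_mem_cone (interior_subset hx))
        (isOpen_interior.preimage continuous_subtype_val) h
    by_contra hn
    exact disjoint_left.1 (hKd hn) (q2 _ wa') (q2 _ wb')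

lemma precon {τ : Type} [Fintype τ] [Nonempty τ] (ℓ : τ → E) :
    IsPreconnected {x : S | (x : E) ∈ Ko ℓ} := by
  rw [← IsInducing.subtypeVal.isPreconnected_image]
  have h0 : ∀ z ∈ Ko ℓ, z ≠ 0 := fun z hz e => by
    simpa [e] using hz (Classical.arbitrary τ)
  have : Subtype.val '' {x : S | (x : E) ∈ Ko ℓ} = (fun z : E => ‖z‖⁻¹ • z) '' Ko ℓ := by
    ext z
    constructor
    · rintro ⟨x, hx, rfl⟩
      exact ⟨x, hx, by simp⟩
    · rintro ⟨w, hw, rfl⟩
      exact ⟨nz w (h0 w hw), Ko_smul hw (by simpa using h0 w hw), rfl⟩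
  rw [this]
  exact convex_Ko.isPreconnected.image _ (ContinuousOn.smul
    (continuous_norm.continuousOn.inv₀ fun z hz => by simpa using h0 z hz) continuousOn_id)

theorem main (k : ℕ) : ∃ ε : ℝ, 0 < ε ∧ ∀ (N : ℕ) (T : Fin N → Set S), (⋃ i, T i) = univ →
    (∀ i, IsClosed (T i)) → (∀ i, Metric.diam (T i) < ε) →
    (∀ i j, ∃ g : E ≃ₗᵢ[ℝ] E, g '' (Subtype.val '' T i) = Subtype.val '' T j) →
    (Pairwise fun i j => Disjoint (interior (T i)) (interior (T j))) → ∀ i,
    (¬∃ K : Fin k → Set S, (∀ c, ∀ x ∈ K c, ∀ y ∈ K c, ∀ (z : S) (a b : ℝ), 0 ≤ a → 0 ≤ b →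
      (z : E) = a • (x : E) + b • (y : E) → z ∈ K c) ∧
      (Pairwise fun c c' => Disjoint (interior (K c)) (interior (K c'))) ∧ T i = ⋃ c, K c) ∧
    ¬∃ u : Fin k → E, (∀ t, u t ≠ 0) ∧ frontier (T i) ⊆ {x | ∃ t, ⟪u t, (x : E)⟫ = 0} := by
  classical
  obtain ⟨ε, h0, H⟩ := core3 (2 ^ (k + 1))
  refine ⟨ε, h0, fun N T hcov hcl hd hg hdis i => ⟨?_, ?_⟩⟩
  · rintro ⟨K, h1, h2, h3⟩
    refine H N T hcov hd hg hdis i (Fin k) Empty K (fun t => t.elim) ?_ h1 h2
      (fun c => h3 ▸ subset_iUnion K c) (fun t => t.elim) fun x hx => Or.inl ?_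
    · rw [Fintype.card_fin]
      exact (Nat.le_succ k).trans Nat.lt_two_pow_self.le
    · rwa [h3, mem_iUnion] at hx
  · rintro ⟨u, h1, h2⟩
    let u' : Option (Fin k) → E := fun t => t.elim !₂[1, 0, 0] u
    have h1' : ∀ t, u' t ≠ 0 := by
      rintro (_ | t)
      · intro e; simpa [u'] using congrArg (fun a : E => a 0) e
      · exact h1 t
    let ℓ : (Option (Fin k) → Bool) → Option (Fin k) → E := fun σ t => if σ t then u' t else -u' t
    refine H N T hcov hd hg hdis i (Option (Fin k) → Bool) (Option (Fin k))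
      (fun σ => {x | (x : E) ∈ Ko (ℓ σ) ∧ ∀ y : S, (y : E) ∈ Ko (ℓ σ) → y ∈ T i}) u' (by simp)
      ?_ ?_ (fun σ x hx => hx.2 x hx.1) h1' ?_
    · intro σ x hx y hy z a b ha hb e
      refine ⟨fun t => ?_, hx.2⟩
      rw [e, inner_add_right, inner_smul_right, inner_smul_right]
      have p := hx.1 t
      have q := hy.1 t
      rcases ha.eq_or_lt with rfl | ha'
      · rcases hb.eq_or_lt with rfl | hb'
        · have := norm_eq_of_mem_sphere z
          rw [e] at this; simp at this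
        · positivity
      · positivity
    · intro σ σ' hne
      refine disjoint_left.2 fun x a b => hne (funext fun t => ?_)
      have p := (interior_subset a).1 t
      have q := (interior_subset b).1 t
      simp only [ℓ] at p q
      cases e : σ t <;> cases e' : σ' t <;> simp [e, e'] at p q ⊢ <;> linarith
    · intro x hx
      by_contra hn
      push Not at hn
      let σ : Option (Fin k) → Bool := fun t => decide (0 < ⟪u' t, (x : E)⟫)
      have m : (x : E) ∈ Ko (ℓ σ) := fun t => by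
        simp only [ℓ, σ, decide_eq_true_eq]
        split_ifs with e
        · exact e
        · rw [inner_neg_left]; exact neg_pos.2 (lt_of_le_of_ne (not_lt.1 e) (hn.2 t))
      have nf : ∀ y : S, (y : E) ∈ Ko (ℓ σ) → y ∉ frontier (T i) := by
        intro y hy k
        obtain ⟨t, ht⟩ := h2 k
        have := hy (some t)
        simp only [ℓ, u', Option.elim] at this
        split_ifs at this <;> simp [ht] at this
      refine hn.1 σ ⟨m, fun y hy => interior_subset ?_⟩
      refine (precon (ℓ σ)).subset_left_of_subset_union isOpen_interior (hcl i).isOpen_compl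
        (disjoint_compl_right.mono_left interior_subset) (fun z hz => ?_) ⟨x, m, ?_⟩ hy
      · by_cases e : z ∈ T i
        · left; by_contra e'; exact nf z hz ⟨subset_closure e, e'⟩
        · exact Or.inr e
      · by_contra e'; exact nf x m ⟨subset_closure hx, e'⟩

end Pool.Agent.Lib.MP_e5885b_co
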