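import Pool.Agent.Lib.MP_e5885b_co.Euler3

set_option autoImplicit false
set_option linter.unusedSectionVars false

open MeasureTheory Set Filter Topology
open scoped RealInnerProductSpace

namespace Pool.Agent.Lib.MP_e5885b_co

namespace Til

variable {I C τ : Type} [Fintype I] [Fintype C] [Fintype τ] {ε : ℝ} (T : Til I C τ ε)

open Classical in
noncomputable def th (w : E) : ℝ :=
  ∑ c ∈ Finset.univ.filter (fun c => w ∈ Kc (T.ℓ c)), μ.real (Tc (T.ℓ c) w) / v0

lemma th_nonneg (w : E) : 0 ≤ T.th w :=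
  Finset.sum_nonneg fun c _ => (div_pos (T.Tc_pos c w) v0_pos).le

lemma th_pos {w : E} {c : C} (h : w ∈ Kc (T.ℓ c)) : 0 < T.th w := by
  classical
  exact Finset.sum_pos (fun c _ => div_pos (T.Tc_pos c w) v0_pos) ⟨c, by simpa using h⟩

lemma loc3 (x : E) : ∑ i, T.th (T.g i x) = 1 := by
  classical
  have h := T.loc x
  rw [P, Finset.sum_filter, Fintype.sum_prod_type] at h
  simp only [th, ← Finset.sum_div, Finset.sum_filter]
  rw [div_eq_one_iff_eq v0_pos.ne', ← h]

lemma th_one {w : E} (h : ∀ d, ∃ c, w ∈ Kc (T.ℓ c) ∧ d ∈ Tc (T.ℓ c) w) : T.th w = 1 := by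
  classical
  obtain ⟨i, -⟩ := T.hcov 0
  rw [th, ← Finset.sum_div, div_eq_one_iff_eq v0_pos.ne']
  refine part _ (fun c => Tc (T.ℓ c) w) (fun c => To (T.ℓ c) w)
    (fun c => (isClosed_Tc _).measurableSet) ?_ ?_ ?_
  · filter_upwards [ae_generic' (fun p : C × τ => T.ℓ p.1 p.2) fun p => T.hl _ _] with z hz c hc t ht
    exact (hc t ht).lt_of_ne (hz (c, t)).symm
  · intro c hc c' hc' z a b
    exact (T.loc_dis (x := (T.g i).symm w) (z := (T.g i).symm z) (i := i) (i' := i)
      (by simpa using hc) (by simpa using hc') (by simpa using a) (by simpa using b)).2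
  · intro z
    obtain ⟨c, a, b⟩ := h z
    exact ⟨c, by simpa using a, b⟩

lemma th_lt {w d : E} (h : ¬∃ c, w ∈ Kc (T.ℓ c) ∧ d ∈ Tc (T.ℓ c) w) : T.th w < 1 := by
  classical
  obtain ⟨i, -⟩ := T.hcov 0
  obtain ⟨i', c, a, b⟩ := T.loc_cov ((T.g i).symm w) ((T.g i).symm d)
  have hne : i ≠ i' := by
    rintro rfl
    exact h ⟨c, by simpa using a, by simpa using b⟩
  have h1 := T.loc3 ((T.g i).symm w)
  have h2 := Finset.add_le_sum (s := Finset.univ) (f := fun j => T.th (T.g j ((T.g i).symm w)))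
    (fun j _ => T.th_nonneg _) (Finset.mem_univ i) (Finset.mem_univ i') hne
  have h3 := T.th_pos a
  simp only [LinearIsometryEquiv.apply_symm_apply] at h2
  linarith

lemma half_sum {ι : Type} (s : Finset ι) (f : ι → ℝ) (h : ∀ i ∈ s, ∃ n : ℕ, f i = n / 2) :
    ∃ n : ℕ, ∑ i ∈ s, f i = n / 2 :=
  Finset.sum_induction f (fun r => ∃ n : ℕ, r = n / 2)
    (fun _ _ ⟨n, a⟩ ⟨m, b⟩ => ⟨n + m, by rw [a, b]; push_cast; ring⟩) ⟨0, by simp⟩ h

lemma th_half {w : E} (h1 : ‖w‖ = 1) (h : ∀ c, ¬IsV (T.ℓ c) w) : ∃ n : ℕ, T.th w = n / 2 := by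
  classical
  refine half_sum _ _ fun c hc => ?_
  rw [← measureReal_congr (Tc_ae (T.hl _) _)]
  have := v0_pos
  rcases not_V (T.hl _) (T.hne _) h1 (by simpa using hc) (h c) with e | ⟨f, hf, e⟩
  · exact ⟨2, by rw [e]; exact (div_self this.ne').trans (by norm_num)⟩
  · exact ⟨1, by rw [e, μ_half hf]; field_simp; simp⟩

lemma th_tri {v : E} {U : Set E} (h : ∀ z ∈ U, ∃ c, v ∈ Kc (T.ℓ c) ∧ z ∈ Tc (T.ℓ c) v) :
    μ.real U ≤ T.th v * v0 := by
  classical
  rw [th, ← Finset.sum_div, div_mul_cancel₀ _ v0_pos.ne']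
  refine le_trans (measureReal_mono (fun z hz => ?_) (measure_ne_top _ _)) (measureReal_biUnion_finset_le _ _)
  obtain ⟨c, a, b⟩ := h z hz
  exact mem_iUnion₂.2 ⟨c, by simpa using a, b⟩

end Til

theorem spike_core (k : ℕ) : ∃ δ : ℝ, 0 < δ ∧ ∀ (I C τ : Type) [Fintype I] [Fintype C] [Nonempty C]
    [Fintype τ] (T : Til I C τ 1) (A : Arr C τ), A.ℓ = T.ℓ → ∀ R : Finset C, A.Conn R →
    R.card ≤ k → 1 / δ ≤ Fintype.card I → ∃ v ∈ A.V, T.th v ≤ 1 / (δ * Fintype.card I) := by
  classical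
  obtain ⟨δ, h0, H⟩ := arith2 E (2 * k)
  refine ⟨δ, h0, fun I C τ _ _ _ _ T A hA R hR hk hN => ?_⟩
  by_contra hn
  push Not at hn
  have hs : A.VI ⊆ A.V := Finset.filter_subset _ _
  have he := A.euler hR
  have one : ∀ w ∈ A.VI, T.th w = 1 := fun w hw => T.th_one fun d => by
    simpa [Arr.Tan, Arr.At, hA] using (Finset.mem_filter.1 hw).2 d
  refine H {v // v ∈ A.V \ A.VI} (Fintype.card I) (fun j => T.th j)
    (Finset.univ.image fun p : I × {v // v ∈ A.V \ A.VI} => (T.g p.1).symm p.2)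
    (fun x j => (Finset.univ.filter fun i => T.g i x = j).card)
    ((A.V.card + A.VI.card + 2 * Fintype.card C : ℕ) - (∑ c, (Vs (A.ℓ c)).card : ℕ)) (by omega) hN
    (fun j => hn j (Finset.mem_sdiff.1 j.2).1) (fun j => ?_) (fun x hx => ?_) (fun j => ?_) ?_
  · obtain ⟨a, b⟩ := Finset.mem_sdiff.1 j.2
    have : ¬∀ d, A.Tan j d := fun q => b (Finset.mem_filter.2 ⟨a, q⟩)
    obtain ⟨d, hd⟩ := not_forall.1 this
    exact T.th_lt (d := d) (by simpa [Arr.Tan, Arr.At, hA] using hd)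
  · have x1 : ‖x‖ = 1 := by
      obtain ⟨p, -, rfl⟩ := Finset.mem_image.1 hx
      obtain ⟨c, -, hc⟩ := Finset.mem_biUnion.1 (Finset.mem_sdiff.1 p.2.2).1
      rw [LinearIsometryEquiv.norm_map]; exact (mem_Vs.1 hc).1
    have e1 : Sm (fun j : {v // v ∈ A.V \ A.VI} => T.th j)
        (fun j => (Finset.univ.filter fun i => T.g i x = j).card) =
        ∑ i ∈ Finset.univ.filter (fun i => T.g i x ∈ A.V \ A.VI), T.th (T.g i x) := by
      rw [Sm, Finset.sum_coe_sort (A.V \ A.VI) fun j =>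
        ((Finset.univ.filter fun i => T.g i x = j).card : ℝ) * T.th j,
        ← Finset.sum_fiberwise_of_maps_to (g := fun i => T.g i x) (t := A.V \ A.VI)
          fun i hi => (Finset.mem_filter.1 hi).2]
      refine Finset.sum_congr rfl fun j hj => ?_
      rw [Finset.sum_congr rfl fun i hi => congrArg T.th (Finset.mem_filter.1 hi).2,
        Finset.sum_const, nsmul_eq_mul, Finset.filter_filter]
      congr 3
      ext i
      simp only [Finset.mem_filter, Finset.mem_univ, true_and]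
      exact ⟨fun q => ⟨q ▸ hj, q⟩, fun q => q.2⟩
    have e2 := T.loc3 x
    rw [← Finset.sum_filter_add_sum_filter_not _ (fun i => T.g i x ∈ A.V \ A.VI), ← e1] at e2
    obtain ⟨n, e3⟩ := Til.half_sum (Finset.univ.filter fun i => ¬T.g i x ∈ A.V \ A.VI)
      (fun i => T.th (T.g i x)) fun i hi => by
        by_cases q : T.g i x ∈ A.VI
        · exact ⟨2, by rw [one _ q]; norm_num⟩
        · refine T.th_half (by rw [LinearIsometryEquiv.norm_map, x1]) fun c hc => ?_
          exact (Finset.mem_filter.1 hi).2 (Finset.mem_sdiff.2 ⟨A.memV (c := c) (hA ▸ hc), q⟩)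
    rw [e3] at e2
    have e4 : 0 ≤ Sm (fun j : {v // v ∈ A.V \ A.VI} => T.th j)
        (fun j => (Finset.univ.filter fun i => T.g i x = j).card) :=
      Finset.sum_nonneg fun j _ => mul_nonneg (Nat.cast_nonneg _) (T.th_nonneg _)
    have e5 : n ≤ 2 := by
      have : (n : ℝ) ≤ 2 := by linarith
      exact_mod_cast this
    interval_cases n
    · right; right; simpa using e2
    · right; left; push_cast at e2; linarith
    · left; push_cast at e2; linarith
  · rw [← Finset.card_univ, Finset.card_eq_sum_card_fiberwise (f := fun i => (T.g i).symm j)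
      (t := Finset.univ.image fun p : I × {v // v ∈ A.V \ A.VI} => (T.g p.1).symm p.2)
      fun i _ => Finset.mem_coe.2 (Finset.mem_image.2 ⟨(i, j), Finset.mem_univ _, rfl⟩)]
    refine Finset.sum_congr rfl fun x _ => ?_
    congr 1
    ext i
    simp only [Finset.mem_filter, Finset.mem_univ, true_and]
    constructor
    · intro h; rw [← h]; simp
    · intro h; rw [← h]; simp
  · have s1 := T.sum_a (by norm_num)
    have s2 : ∑ j, T.a j = ∑ v ∈ A.V, T.th v := by
      rw [Fintype.sum_sigma]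
      simp only [Til.th, Til.a, Finset.sum_filter]
      rw [Finset.sum_comm]
      refine Finset.sum_congr rfl fun c _ => ?_
      rw [Finset.sum_coe_sort (Vs (T.ℓ c)) fun v => μ.real (Tc (T.ℓ c) v) / v0, ← Finset.sum_filter]
      refine Finset.sum_congr ?_ fun _ _ => rfl
      ext v
      rw [Finset.mem_filter, mem_Vs, ← hA]
      exact ⟨fun q => ⟨A.memV q, q.2.1⟩, fun q => A.isV q.1 q.2⟩
    have s3 : Fintype.card T.J = ∑ c, (Vs (A.ℓ c)).card := by
      rw [Fintype.card_sigma, hA]; simp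
    rw [s2, s3, ← Finset.sum_sdiff hs, Finset.sum_congr rfl one, Finset.sum_const] at s1
    rw [Finset.sum_coe_sort (A.V \ A.VI) T.th, Fintype.card_coe, Finset.card_sdiff_of_subset hs,
      Nat.cast_sub (Finset.card_le_card hs)]
    simp only [nsmul_eq_mul, mul_one] at s1
    have : (4 : ℝ) / Fintype.card I = 2 * (2 / Fintype.card I) := by ring
    push_cast at s1 ⊢
    linarith

end Pool.Agent.Lib.MP_e5885b_co
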