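import Pool.Agent.Lib.MP_e5885b_co.Wedge

set_option autoImplicit false
set_option linter.unusedSectionVars false

open MeasureTheory Set Filter Topology InnerProductGeometry
open scoped RealInnerProductSpace

namespace Pool.Agent.Lib.MP_e5885b_co

lemma open_cone {W : Set S} (hW : IsOpen W) :
    IsOpen {z : E | ∃ h : z ≠ 0, nz z h ∈ W} := by
  obtain ⟨O, hO, rfl⟩ := isOpen_induced_iff.1 hW
  have : {z : E | ∃ h : z ≠ 0, nz z h ∈ Subtype.val ⁻¹' O} =
      {z | z ≠ 0} ∩ (fun z : E => ‖z‖⁻¹ • z) ⁻¹' O := by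
    ext z; simp [nz]
  rw [this]
  exact ContinuousOn.isOpen_inter_preimage (ContinuousOn.smul
    (continuous_norm.continuousOn.inv₀ fun z hz => by simpa using hz) continuousOn_id)
    isOpen_ne hO

lemma nz_unit (x : S) (h : (x : E) ≠ 0) : nz x h = x := Subtype.ext (by simp [nz])

lemma S_ne (x : S) : (x : E) ≠ 0 := ne_zero_of_mem_unit_sphere x

lemma of_nz {τ : Type} [Fintype τ] {ℓ : τ → E} {z : E} (h : z ≠ 0) (k : (nz z h : E) ∈ Kc ℓ) :
    z ∈ Kc ℓ := by
  have := Kc_smul k (norm_nonneg z)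
  rwa [nz, smul_inv_smul₀ (norm_ne_zero_iff.2 h)] at this

section cells

variable {τ : Type} [Fintype τ] [Nonempty τ] (u : τ → E) (P : Set S)

def sg (σ : τ → Bool) : τ → E := fun t => if σ t then u t else -u t

def Cel : Type := {σ : τ → Bool // (Ko (sg u σ)).Nonempty ∧ ∀ y : S, (y : E) ∈ Ko (sg u σ) → y ∈ P}

noncomputable instance : Fintype (Cel u P) := by
  classical
  unfold Cel; infer_instance

variable {u P}

lemma Ko_ne {ℓ : τ → E} {z : E} (hz : z ∈ Ko ℓ) : z ≠ 0 := fun e => by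
  simpa [e] using hz (Classical.arbitrary τ)

lemma cel_int (c : Cel u P) {z : E} (h : z ≠ 0) (hz : z ∈ Ko (sg u c.1)) : nz z h ∈ interior P :=
  interior_maximal (t := {x : S | (x : E) ∈ Ko (sg u c.1)}) c.2.2
    (isOpen_Ko.preimage continuous_subtype_val) (Ko_smul hz (by simpa using h))

lemma cel_clos (c : Cel u P) {x : S} (hx : (x : E) ∈ Kc (sg u c.1)) : x ∈ closure (interior P) := by
  by_contra k
  have hO := open_cone (isClosed_closure (s := interior P)).isOpen_compl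
  obtain ⟨z, ⟨h, a⟩, b⟩ := mem_closure_iff.1 (Kc_closure c.2.1 hx) _ hO
    ⟨S_ne x, by rwa [nz_unit]⟩
  exact a (subset_closure (cel_int c h b))

lemma cel_gen (hc : IsClosed P) (hf : frontier P ⊆ {x | ∃ t, ⟪u t, (x : E)⟫ = 0}) {x : S}
    (hx : x ∈ P) (hg : ∀ t, ⟪u t, (x : E)⟫ ≠ 0) : ∃ c : Cel u P, (x : E) ∈ Ko (sg u c.1) := by
  classical
  let σ : τ → Bool := fun t => decide (0 < ⟪u t, (x : E)⟫)
  have m : (x : E) ∈ Ko (sg u σ) := fun t => by
    simp only [sg, σ, decide_eq_true_eq]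
    split_ifs with e
    · exact e
    · rw [inner_neg_left]; exact neg_pos.2 (lt_of_le_of_ne (not_lt.1 e) (hg t))
  have nf : ∀ y : S, (y : E) ∈ Ko (sg u σ) → y ∉ frontier P := by
    intro y hy k
    obtain ⟨t, ht⟩ := hf k
    have := hy t
    simp only [sg] at this
    split_ifs at this <;> simp [ht] at this
  refine ⟨⟨σ, ⟨_, m⟩, fun y hy => interior_subset ?_⟩, m⟩
  refine (precon (sg u σ)).subset_left_of_subset_union isOpen_interior hc.isOpen_compl
    (disjoint_compl_right.mono_left interior_subset) (fun z hz => ?_) ⟨x, m, ?_⟩ hy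
  · by_cases e : z ∈ P
    · left; by_contra e'; exact nf z hz ⟨subset_closure e, e'⟩
    · exact Or.inr e
  · by_contra e'; exact nf x m ⟨subset_closure hx, e'⟩

lemma cel_cov (hu : ∀ t, u t ≠ 0) (hc : IsClosed P)
    (hf : frontier P ⊆ {x | ∃ t, ⟪u t, (x : E)⟫ = 0}) {z : E} (h : z ≠ 0)
    (hz : nz z h ∈ interior P) : ∃ c : Cel u P, z ∈ Kc (sg u c.1) := by
  have h1 := (Measure.dense_of_ae (ae_generic u hu)).open_subset_closure_inter
    (open_cone (W := interior P) isOpen_interior) ⟨h, hz⟩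
  refine mem_iUnion.1 (closure_minimal ?_ (isClosed_iUnion_of_finite fun c => isClosed_Kc) h1)
  rintro w ⟨⟨w0, a⟩, b⟩
  obtain ⟨c, k⟩ := cel_gen hc hf (interior_subset a) fun t => by
    simpa [nz, inner_smul_right, w0] using b t
  exact mem_iUnion.2 ⟨c, of_nz w0 (Ko_sub k)⟩

lemma cel_tan (hu : ∀ t, u t ≠ 0) (hc : IsClosed P)
    (hf : frontier P ⊆ {x | ∃ t, ⟪u t, (x : E)⟫ = 0}) {v d : E}
    (h : ∀ᶠ s in 𝓝[>] (0 : ℝ), ∃ h : v + s • d ≠ 0, nz _ h ∈ interior P) :
    ∃ c : Cel u P, v ∈ Kc (sg u c.1) ∧ d ∈ Tc (sg u c.1) v := by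
  obtain ⟨c, k⟩ := frequently_exists.1 (h.mono fun s ⟨a, b⟩ => cel_cov hu hc hf a b).frequently
  exact ⟨c, step_back k⟩

lemma sg_ne (hu : ∀ t, u t ≠ 0) (σ : τ → Bool) (t : τ) : sg u σ t ≠ 0 := by
  unfold sg; split_ifs <;> simpa using hu t

lemma mk_arr (hu : ∀ t, u t ≠ 0) (hc : IsClosed P) (hd : Metric.diam P < 1) {o : S} (ho : o ∈ P) :
    ∃ A : Arr (Cel u P) τ, A.ℓ = fun c => sg u c.1 := by
  obtain ⟨e, e1, e2, -⟩ := exists_perp (o : E) o
  obtain ⟨y, y1, y2⟩ := (Measure.dense_of_ae (ae_generic u hu)).inter_open_nonempty _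
    (Metric.isOpen_ball (x := e) (ε := 1 / 10)) ⟨e, by simp⟩
  rw [Metric.mem_ball, dist_eq_norm] at y1
  have o1 : ‖(o : E)‖ = 1 := norm_eq_of_mem_sphere o
  have a1 : |‖y‖ - 1| ≤ 1 / 10 := by
    have := (abs_norm_sub_norm_le y e).trans y1.le
    rwa [e1] at this
  have a2 : |⟪(o : E), y⟫| ≤ 1 / 10 := by
    have := abs_real_inner_le_norm (o : E) (y - e)
    rw [inner_sub_right, e2, sub_zero, o1, one_mul] at this
    linarith
  rw [abs_le] at a1 a2
  set O := ⟪y, y⟫ • (o : E) - ⟪(o : E), y⟫ • y with hO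
  have pos : ∀ x : S, x ∈ P → 0 < ⟪O, (x : E)⟫ := fun x hx => by
    have x1 : ‖(x : E)‖ = 1 := norm_eq_of_mem_sphere x
    have b1 := (Metric.dist_le_diam_of_mem Metric.isBounded_of_compactSpace ho hx).trans_lt hd
    rw [Subtype.dist_eq, dist_eq_norm] at b1
    have b2 := norm_sub_sq_real (o : E) x
    rw [o1, x1] at b2
    have b3 : 1 / 2 ≤ ⟪(o : E), (x : E)⟫ := by nlinarith [norm_nonneg ((o : E) - x)]
    have b4 := abs_real_inner_le_norm y (x : E)
    rw [x1, mul_one, abs_le] at b4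
    rw [hO, inner_sub_left, inner_smul_left, inner_smul_left, real_inner_self_eq_norm_sq]
    simp only [conj_trivial]
    have b5 : 81 / 100 ≤ ‖y‖ ^ 2 := by nlinarith
    nlinarith
  have oy : ⟪O, y⟫ = 0 := by
    rw [hO, inner_sub_left, inner_smul_left, inner_smul_left]; simp only [conj_trivial]; ring
  have O0 : 0 < ⟪O, O⟫ := real_inner_self_pos.2 fun k => by simpa [k] using pos o ho
  have y0 : 0 < ⟪y, y⟫ := real_inner_self_pos.2 fun k => by rw [k, norm_zero] at a1; linarith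
  have ss : 0 < ⟪cr O y, cr O y⟫ := by rw [lagr, oy]; simpa using mul_pos O0 y0
  refine ⟨{ ℓ := fun c => sg u c.1, hl := fun c => sg_ne hu _, hne := fun c => c.2.1
            sgn := fun c c' t => ?_, dif := fun c c' h => ?_, o := O, s := cr O y, y := y
            ho := fun c x hx x0 => ?_, os := by rw [real_inner_comm, cr_left], oy := oy
            sy := cr_right _ _, ss := ss, span := fun d hd => ?_, gen := fun c t => ?_ }, rfl⟩
  · unfold sg; split_ifs <;> simp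
  · obtain ⟨t, ht⟩ := Function.ne_iff.1 fun k => h (Subtype.ext k)
    refine ⟨t, ?_⟩
    unfold sg
    cases e : c.1 t <;> cases e' : c'.1 t <;> simp_all
  · have := pos (nz x x0) (closure_minimal interior_subset hc
      (cel_clos c (Kc_smul hx (by positivity))))
    rw [nz, inner_smul_right] at this
    exact (mul_pos_iff_of_pos_left (by positivity)).1 this
  · have k := expand O y d
    rw [real_inner_comm O d, hd, oy] at k
    refine ⟨⟪cr O y, cr O y⟫⁻¹ * ⟪d, cr O y⟫, ⟪cr O y, cr O y⟫⁻¹ * (⟪d, y⟫ * ⟪O, O⟫), ?_⟩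
    rw [mul_smul, mul_smul, ← smul_add, eq_inv_smul_iff₀ ss.ne', k]; module
  · have := y2 t
    unfold sg; split_ifs <;> simpa using this

lemma conn (hu : ∀ t, u t ≠ 0) (hc : IsClosed P)
    (hf : frontier P ⊆ {x | ∃ t, ⟪u t, (x : E)⟫ = 0}) [Nonempty (Cel u P)] {k : ℕ}
    (U : Fin k → Set S) (h1 : ∀ j, IsPreconnected (U j)) (h2 : interior P = ⋃ j, U j)
    (A : Arr (Cel u P) τ) (hA : A.ℓ = fun c => sg u c.1) : ∃ R, A.Conn R ∧ R.card ≤ k := by
  classical
  have hU : ∀ j, ∀ x ∈ U j, x ∈ interior P := fun j x hx => h2 ▸ mem_iUnion.2 ⟨j, hx⟩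
  have cv : ∀ x ∈ interior P, ∃ c : Cel u P, (x : E) ∈ Kc (sg u c.1) := fun x hx =>
    cel_cov hu hc hf (S_ne x) (by rwa [nz_unit])
  have : ∀ j, ∃ r : Cel u P, (U j).Nonempty → ∃ x ∈ U j, (x : E) ∈ Kc (sg u r.1) := fun j => by
    rcases (U j).eq_empty_or_nonempty with e | ⟨x, hx⟩
    · exact ⟨Classical.arbitrary _, by simp [e]⟩
    · obtain ⟨c, k⟩ := cv x (hU j x hx)
      exact ⟨c, fun _ => ⟨x, hx, k⟩⟩
  choose r hr using this
  refine ⟨Finset.univ.image r, fun ψ hψ c => ?_, Finset.card_image_le.trans (by simp)⟩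
  obtain ⟨w, hw⟩ := c.2.1
  have a := cel_int c (Ko_ne hw) hw
  rw [h2] at a
  obtain ⟨j, hj⟩ := mem_iUnion.1 a
  obtain ⟨x, hx, k⟩ := hr j ⟨_, hj⟩
  refine ⟨r j, by simp, cover (h1 j) (fun e : Cel u P => {x : S | (x : E) ∈ Kc (sg u e.1)})
    (fun e => isClosed_Kc.preimage continuous_subtype_val) (fun x hx => cv x (hU j x hx)) ψ
    (fun x hx e e' p q => hψ x (S_ne x) (fun d => ?_) e e' (hA ▸ p) (hA ▸ q)) hj hx
    (Kc_smul (Ko_sub hw) (by positivity)) k⟩
  have : ContinuousAt (fun s : ℝ => (x : E) + s • d) 0 := by fun_prop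
  obtain ⟨c, p⟩ := cel_tan hu hc hf (v := x) (d := d) (nhdsWithin_le_nhds (this.eventually
    ((open_cone (W := interior P) isOpen_interior).mem_nhds
      ⟨by simpa using S_ne x, by simpa [nz_unit] using hU j x hx⟩)))
  exact ⟨c, by simpa [Arr.At, hA] using p⟩

end cells

lemma tri_int {P : Set S} {v y z : S} (h : LinearIndependent ℝ ![(v : E), y, z])
    (hT : ∀ w : S, (∃ a b c : ℝ, 0 ≤ a ∧ 0 ≤ b ∧ 0 ≤ c ∧ (w : E) = a • (v : E) + b • y + c • z) →
      w ∈ P) {a b c : ℝ} (ha : 0 < a) (hb : 0 < b) (hc : 0 < c) :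
    ∃ k : a • (v : E) + b • (y : E) + c • (z : E) ≠ 0, nz _ k ∈ interior P := by
  have hD := det_ne h
  set D := ⟪cr v y, (z : E)⟫ with hD'
  have D2 : 0 < D * D := mul_self_pos.2 hD
  let ℓ : Fin 3 → E := ![D • cr y z, D • cr z v, D • cr v y]
  have m : a • (v : E) + b • (y : E) + c • (z : E) ∈ Ko ℓ := by
    have e : ∀ t, ⟪ℓ t, a • (v : E) + b • (y : E) + c • (z : E)⟫ = D * D * ![a, b, c] t := by
      intro t
      fin_cases t <;> simp only [ℓ, Fin.zero_eta, Fin.mk_one, Fin.reduceFinMk, Matrix.cons_val_zero,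
        Matrix.cons_val_one, Matrix.cons_val, inner_smul_left, conj_trivial, mul_assoc] <;>
        congr 1 <;> simp only [hD', inn, cr0, cr1, cr2, PiLp.add_apply, PiLp.smul_apply,
          smul_eq_mul] <;> ring
    intro t
    rw [e]
    refine mul_pos D2 ?_
    fin_cases t <;> simpa
  refine ⟨Ko_ne m, interior_maximal (t := {x : S | (x : E) ∈ Ko ℓ}) (fun x hx => hT x
    ⟨(D * D)⁻¹ * ⟪ℓ 0, (x : E)⟫, (D * D)⁻¹ * ⟪ℓ 1, (x : E)⟫, (D * D)⁻¹ * ⟪ℓ 2, (x : E)⟫,
      mul_nonneg (by positivity) (hx 0).le, mul_nonneg (by positivity) (hx 1).le,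
      mul_nonneg (by positivity) (hx 2).le, ?_⟩)
    (isOpen_Ko.preimage continuous_subtype_val) (Ko_smul m (by simpa using Ko_ne m))⟩
  rw [mul_smul, mul_smul, mul_smul, ← smul_add, ← smul_add, eq_inv_smul_iff₀ D2.ne']
  simp only [ℓ, Matrix.cons_val_zero, Matrix.cons_val_one, Matrix.cons_val, inner_smul_left,
    conj_trivial, mul_smul, ← smul_add]
  congr 1
  apply ext3 <;> simp only [hD', inn, cr0, cr1, cr2, PiLp.add_apply, PiLp.smul_apply,
    smul_eq_mul] <;> ring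

theorem thin (k : ℕ) : ∃ K : ℝ, ∀ (N : ℕ) (T : Fin N → Set S), (⋃ i, T i) = univ →
    (∀ i, IsClosed (T i)) → (∀ i, Metric.diam (T i) < 1) →
    (∀ i j, ∃ g : E ≃ₗᵢ[ℝ] E, g '' (Subtype.val '' T i) = Subtype.val '' T j) →
    (Pairwise fun i j => Disjoint (interior (T i)) (interior (T j))) → ∀ i,
    (∃ (n : ℕ) (u : Fin n → E), (∀ t, u t ≠ 0) ∧
      frontier (T i) ⊆ {x | ∃ t, ⟪u t, (x : E)⟫ = 0}) →
    (∃ U : Fin k → Set S, (∀ j, IsPreconnected (U j)) ∧ interior (T i) = ⋃ j, U j) →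
    ∃ x ∈ closure (interior (T i)), ∀ y z : S, LinearIndependent ℝ ![(x : E), y, z] →
      (∀ w : S, (∃ a b c : ℝ, 0 ≤ a ∧ 0 ≤ b ∧ 0 ≤ c ∧ (w : E) = a • (x : E) + b • y + c • z) →
        w ∈ T i) →
      angle ((y : E) - ⟪(x : E), (y : E)⟫ • (x : E)) ((z : E) - ⟪(x : E), (z : E)⟫ • (x : E)) ≤
        K / N := by
  classical
  obtain ⟨δ, h0, H⟩ := spike_core k
  have pi0 := Real.pi_pos
  have hv0 := v0_pos
  refine ⟨Real.pi * (1 + 64 * v0) / δ, fun N T hcov hcl hd hg hdis i0 ⟨n, u0, hu0, hf0⟩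
    ⟨U, hU1, hU2⟩ => ?_⟩
  let u : Option (Fin n) → E := fun t => t.elim !₂[1, 0, 0] u0
  have hu : ∀ t, u t ≠ 0 := by
    rintro (_ | t)
    · intro e; simpa [u] using congrArg (fun a : E => a 0) e
    · exact hu0 t
  have hf : frontier (T i0) ⊆ {x | ∃ t, ⟪u t, (x : E)⟫ = 0} := fun x hx => by
    obtain ⟨t, ht⟩ := hf0 hx
    exact ⟨some t, ht⟩
  choose g hg using fun i => hg i i0
  have tr : ∀ i (x y : S), g i x = y → (x ∈ T i ↔ y ∈ T i0) := by
    intro i x y e
    rw [← Subtype.val_injective.mem_set_image (s := T i0), ← hg i, ← e,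
      (g i).injective.mem_set_image, Subtype.val_injective.mem_set_image]
  let gs : Fin N → S → S := fun i x => ⟨g i x, by simp⟩
  have cov : ∀ z, ∃ i, ∃ c : Cel u (T i0), g i z ∈ Kc (sg u c.1) := by
    have a1 : ∀ᵐ z ∂(volume : Measure E), ∀ i t, ⟪u t, g i z⟫ ≠ 0 := by
      rw [ae_all_iff]
      intro i
      exact (g i).measurePreserving.quasiMeasurePreserving.ae
        (p := fun z => ∀ t, ⟪u t, z⟫ ≠ 0) (ae_generic u hu)
    have a2 : ∀ᵐ z ∂(volume : Measure E), z ≠ 0 := by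
      rw [ae_iff]; simp
    have a3 : ∀ᵐ z ∂(volume : Measure E), z ∈ ⋃ p : Fin N × Cel u (T i0),
        g p.1 ⁻¹' Kc (sg u p.2.1) := by
      filter_upwards [a1, a2] with z h1 h2
      obtain ⟨i, hi⟩ := mem_iUnion.1 (hcov.symm ▸ mem_univ (nz z h2))
      obtain ⟨c, hc⟩ := cel_gen (hcl i0) hf ((tr i _ (gs i (nz z h2)) rfl).1 hi) fun t => by
        simpa [gs, nz, inner_smul_right, h2] using h1 i t
      refine mem_iUnion.2 ⟨(i, c), ?_⟩
      have := Kc_smul (Ko_sub hc) (norm_nonneg z)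
      simpa [gs, nz, smul_inv_smul₀ (norm_ne_zero_iff.2 h2)] using this
    intro z
    have := (Measure.dense_of_ae a3) z
    rw [show {x | x ∈ ⋃ p : Fin N × Cel u (T i0), g p.1 ⁻¹' Kc (sg u p.2.1)} =
      ⋃ p : Fin N × Cel u (T i0), g p.1 ⁻¹' Kc (sg u p.2.1) from rfl,
      (isClosed_iUnion_of_finite fun p => isClosed_Kc.preimage (g _).continuous).closure_eq] at this
    obtain ⟨p, hp⟩ := mem_iUnion.1 this
    exact ⟨p.1, p.2, hp⟩
  have inT : ∀ (c : Cel u (T i0)) (x : S), (x : E) ∈ Kc (sg u c.1) → x ∈ T i0 := fun c x hx =>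
    closure_minimal interior_subset (hcl i0) (cel_clos c hx)
  let TT : Til (Fin N) (Cel u (T i0)) (Option (Fin n)) 1 :=
    { g := g, ℓ := fun c => sg u c.1, hl := fun c => sg_ne hu _, hne := fun c => c.2.1
      hd := fun c c' x y a b x1 y1 => by
        have := Metric.dist_le_diam_of_mem Metric.isBounded_of_compactSpace
          (inT c ⟨x, by simpa using x1⟩ a) (inT c' ⟨y, by simpa using y1⟩ b)
        rw [Subtype.dist_eq, dist_eq_norm] at this
        exact this.trans (hd i0).le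
      hcov := cov
      hdis := fun i c i' c' z a b => by
        have z0 : z ≠ 0 := fun e => Ko_ne a (by simp [e])
        have q : ∀ j (d : Cel u (T i0)), g j z ∈ Ko (sg u d.1) → nz z z0 ∈ interior (T j) := by
          intro j d h
          refine interior_maximal (t := {x : S | g j x ∈ Ko (sg u d.1)}) (fun x hx => ?_)
            (isOpen_Ko.preimage (by fun_prop)) ?_
          · exact (tr j x (gs j x) rfl).2 (d.2.2 _ hx)
          · simpa [nz] using Ko_smul h (a := ‖z‖⁻¹) (by simpa using z0)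
        have e : i = i' := by
          by_contra hn
          exact disjoint_left.1 (hdis hn) (q _ _ a) (q _ _ b)
        subst e
        refine ⟨rfl, Subtype.ext (funext fun t => ?_)⟩
        have p := a t
        have q := b t
        simp only [sg] at p q
        cases e : c.1 t <;> cases e' : c'.1 t <;> simp [e, e'] at p q ⊢ <;> linarith }
  obtain ⟨-, c0, -⟩ := cov 0
  have : Nonempty (Cel u (T i0)) := ⟨c0⟩
  obtain ⟨w0, hw0⟩ := c0.2.1
  have N0 : (0 : ℝ) < N := by exact_mod_cast i0.pos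
  rcases le_or_gt (1 / δ) N with hN | hN
  · obtain ⟨A, hA⟩ := mk_arr hu (hcl i0) (hd i0) (interior_subset (cel_int c0 (Ko_ne hw0) hw0))
    obtain ⟨R, r1, r2⟩ := conn hu (hcl i0) hf U hU1 hU2 A hA
    obtain ⟨v, hv, hth⟩ := H (Fin N) _ _ TT A hA R r1 r2 (by simpa using hN)
    obtain ⟨c, -, hc⟩ := Finset.mem_biUnion.1 hv
    obtain ⟨v1, v2, -⟩ := mem_Vs.1 hc
    rw [hA] at v2
    refine ⟨⟨v, by simpa using v1⟩, cel_clos c v2, fun y z hl hT => ?_⟩
    obtain ⟨W, w1, w2⟩ := wedge v1 hl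
    have := w1.trans (TT.th_tri (v := v) fun w hw => by
      obtain ⟨α, β, γ, p, q, e⟩ := w2 w hw
      refine cel_tan hu (hcl i0) hf ?_
      filter_upwards [ev_pos (a := 1) (b := α) one_pos, self_mem_nhdsWithin] with s s1 s2
      have s3 : 0 < s := s2
      have e' : v + s • w = (1 + s * α) • v + (s * β) • (y : E) + (s * γ) • (z : E) := by
        rw [e]; module
      rw [e']
      exact tri_int hl hT s1 (by positivity) (by positivity))
    rw [Fintype.card_fin] at hth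
    have h2 := this.trans (mul_le_mul_of_nonneg_right hth hv0.le)
    rw [div_div, div_le_iff₀ (by positivity)] at h2
    refine h2.trans ?_
    rw [div_div, le_div_iff₀ (by positivity)]
    field_simp
    linarith
  · refine ⟨_, subset_closure (cel_int c0 (Ko_ne hw0) hw0), fun y z _ _ =>
      (angle_le_pi _ _).trans ?_⟩
    rw [lt_div_iff₀ h0] at hN
    rw [div_div, le_div_iff₀ (by positivity)]
    gcongr
    linarith

end Pool.Agent.Lib.MP_e5885b_co
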