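import Pool.Agent.Lib.MP_e5885b_co.Girard
import Pool.Agent.Lib.MP_e5885b_co.Count
import Pool.Agent.Lib.MP_e5885b_co.Arith

set_option autoImplicit false
set_option linter.unusedSectionVars false

open MeasureTheory Set Filter Topology
open scoped RealInnerProductSpace

namespace Pool.Agent.Lib.MP_e5885b_co

lemma part {ι : Type} (s : Finset ι) (F O : ι → Set E) (hF : ∀ p, MeasurableSet (F p))
    (hae : ∀ᵐ z ∂μ, ∀ p, z ∈ F p → z ∈ O p)
    (hdis : ∀ p ∈ s, ∀ q ∈ s, ∀ z, z ∈ O p → z ∈ O q → p = q) (hcov : ∀ z, ∃ p ∈ s, z ∈ F p) :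
    ∑ p ∈ s, μ.real (F p) = v0 := by
  rw [← measureReal_biUnion_finset₀ ?_ fun p _ => (hF p).nullMeasurableSet, v0]
  · congr 1
    exact eq_univ_of_forall fun z => mem_iUnion₂.2 (by simpa using hcov z)
  · intro p hp q hq hne
    rw [Function.onFun, AEDisjoint, measure_eq_zero_iff_ae_notMem]
    filter_upwards [hae] with z hz k
    exact hne (hdis p hp q hq z (hz p k.1) (hz q k.2))

structure Til (I C τ : Type) [Fintype τ] (ε : ℝ) where
  g : I → E ≃ₗᵢ[ℝ] E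
  ℓ : C → τ → E
  hl : ∀ c t, ℓ c t ≠ 0
  hne : ∀ c, (Ko (ℓ c)).Nonempty
  hd : ∀ c c' x y, x ∈ Kc (ℓ c) → y ∈ Kc (ℓ c') → ‖x‖ = 1 → ‖y‖ = 1 → ‖x - y‖ ≤ ε
  hcov : ∀ z, ∃ i c, g i z ∈ Kc (ℓ c)
  hdis : ∀ i c i' c' z, g i z ∈ Ko (ℓ c) → g i' z ∈ Ko (ℓ c') → i = i' ∧ c = c'

namespace Til

variable {I C τ : Type} [Fintype I] [Fintype C] [Fintype τ] {ε : ℝ} (T : Til I C τ ε)

lemma gen : ∀ᵐ z ∂μ, ∀ i c t, ⟪T.ℓ c t, T.g i z⟫ ≠ 0 := by
  filter_upwards [ae_generic' (fun p : I × C × τ => (T.g p.1).symm (T.ℓ p.2.1 p.2.2))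
    fun p => by simpa using T.hl _ _] with z hz i c t
  have := hz (i, c, t)
  rwa [← (T.g i).inner_map_map, LinearIsometryEquiv.apply_symm_apply] at this

lemma pointed (hε : ε < 2) (c : C) : ∀ x ∈ Kc (T.ℓ c), -x ∈ Kc (T.ℓ c) → x = 0 := by
  intro x h1 h2
  by_contra h0
  have n1 : ‖‖x‖⁻¹ • x‖ = 1 := norm_smul_inv_norm h0
  have := T.hd c c _ _ (Kc_smul h1 (a := ‖x‖⁻¹) (by positivity))
    (Kc_smul h2 (a := ‖x‖⁻¹) (by positivity)) n1 (by rw [smul_neg, norm_neg, n1])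
  rw [smul_neg, sub_neg_eq_add, ← two_smul ℝ, norm_smul, n1] at this
  norm_num at this
  linarith

lemma total : (Fintype.card I : ℝ) * ∑ c, μ.real (Kc (T.ℓ c)) = v0 := by
  rw [← part (Finset.univ : Finset (I × C)) (fun p => T.g p.1 ⁻¹' Kc (T.ℓ p.2))
    (fun p => T.g p.1 ⁻¹' Ko (T.ℓ p.2))
    (fun p => (T.g p.1).continuous.measurable isClosed_Kc.measurableSet) ?_ ?_ ?_]
  · simp only [μ_iso _ isClosed_Kc.measurableSet]
    rw [Fintype.sum_prod_type]; simp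
  · filter_upwards [T.gen] with z hz p hp t
    exact (hp t).lt_of_ne (hz _ _ _).symm
  · intro p _ q _ z h1 h2
    exact Prod.ext (T.hdis _ _ _ _ z h1 h2).1 (T.hdis _ _ _ _ z h1 h2).2
  · intro z
    obtain ⟨i, c, h⟩ := T.hcov z
    exact ⟨(i, c), Finset.mem_univ _, h⟩

include T in
lemma N_pos : 0 < Fintype.card I := by
  obtain ⟨i, -⟩ := T.hcov 0
  exact Fintype.card_pos_iff.2 ⟨i⟩

lemma loc_dis {x z : E} {i i' : I} {c c' : C} (h1 : T.g i x ∈ Kc (T.ℓ c))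
    (h2 : T.g i' x ∈ Kc (T.ℓ c')) (k1 : T.g i z ∈ To (T.ℓ c) (T.g i x))
    (k2 : T.g i' z ∈ To (T.ℓ c') (T.g i' x)) : i = i' ∧ c = c' := by
  obtain ⟨s, a, b⟩ := ((step_Ko h1 k1).and (step_Ko h2 k2)).exists
  exact T.hdis i c i' c' (x + s • z) (by simpa using a) (by simpa using b)

lemma loc_cov (x z : E) : ∃ i c, T.g i x ∈ Kc (T.ℓ c) ∧ T.g i z ∈ Tc (T.ℓ c) (T.g i x) := by
  have : ∃ᶠ s in 𝓝[>] (0 : ℝ), ∃ p : I × C, T.g p.1 x + s • T.g p.1 z ∈ Kc (T.ℓ p.2) :=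
    Eventually.frequently (Eventually.of_forall fun s => by
      obtain ⟨i, c, h⟩ := T.hcov (x + s • z)
      exact ⟨(i, c), by simpa using h⟩)
  obtain ⟨p, hp⟩ := frequently_exists.1 this
  exact ⟨p.1, p.2, step_back hp⟩

open Classical in
noncomputable def P (x : E) : Finset (I × C) := Finset.univ.filter fun p => T.g p.1 x ∈ Kc (T.ℓ p.2)

lemma mem_P {x : E} {p : I × C} : p ∈ T.P x ↔ T.g p.1 x ∈ Kc (T.ℓ p.2) := by simp [P]

lemma loc (x : E) : ∑ p ∈ T.P x, μ.real (Tc (T.ℓ p.2) (T.g p.1 x)) = v0 := by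
  rw [← part (T.P x) (fun p => T.g p.1 ⁻¹' Tc (T.ℓ p.2) (T.g p.1 x))
    (fun p => T.g p.1 ⁻¹' To (T.ℓ p.2) (T.g p.1 x))
    (fun p => (T.g p.1).continuous.measurable (isClosed_Tc _).measurableSet) ?_ ?_ ?_]
  · simp only [μ_iso _ (isClosed_Tc _).measurableSet]
  · filter_upwards [T.gen] with z hz p hp t ht
    exact (hp t ht).lt_of_ne (hz _ _ _).symm
  · intro p hp q hq z h1 h2
    have := T.loc_dis (T.mem_P.1 hp) (T.mem_P.1 hq) h1 h2
    exact Prod.ext this.1 this.2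
  · intro z
    obtain ⟨i, c, h, h'⟩ := T.loc_cov x z
    exact ⟨(i, c), T.mem_P.2 h, h'⟩

abbrev J := Σ c : C, {v // v ∈ Vs (T.ℓ c)}

noncomputable instance : DecidableEq T.J := Classical.decEq _

noncomputable def a (j : T.J) : ℝ := μ.real (Tc (T.ℓ j.1) j.2) / v0

open Classical in
noncomputable def m (x : E) (j : T.J) : ℕ := (Finset.univ.filter fun i => T.g i x = j.2).card

open Classical in
noncomputable def X : Finset E := Finset.univ.image fun p : I × T.J => (T.g p.1).symm p.2.2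

lemma Tc_pos (c : C) (x : E) : 0 < μ.real (Tc (T.ℓ c) x) := by
  rw [← measureReal_congr (Tc_ae (T.hl c) x)]
  exact μ_pos (isOpen_To x) ((T.hne c).mono (Ko_To x)) fun z hz t ht => To_smul hz ht

lemma a_pos (j : T.J) : 0 < T.a j := div_pos (T.Tc_pos _ _) v0_pos

lemma a_lt (j : T.J) : T.a j < 1 / 2 := by
  obtain ⟨c, v, hv⟩ := j
  obtain ⟨-, -, s, t, hs, ht, hst⟩ := mem_Vs.1 hv
  rw [a, div_lt_iff₀ v0_pos, ← measureReal_congr (Tc_ae (T.hl c) v)]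
  set A := T.ℓ c s
  set B := T.ℓ c t
  have hO : IsOpen {z : E | 0 < ⟪A, z⟫ ∧ ⟪B, z⟫ < 0} :=
    IsOpen.inter (isOpen_lt (g := fun z : E => ⟪A, z⟫) continuous_const (by fun_prop))
      (isOpen_lt (f := fun z : E => ⟪B, z⟫) (by fun_prop) continuous_const)
  have p1 : 0 < ⟪A, A⟫ * ⟪B, B⟫ - ⟪A, B⟫ ^ 2 := by
    refine lt_of_le_of_ne ?_ hst.symm
    rw [← lagr]; exact real_inner_self_nonneg
  have p2 : 0 < μ.real {z : E | 0 < ⟪A, z⟫ ∧ ⟪B, z⟫ < 0} := by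
    refine μ_pos hO ⟨(⟪B, B⟫ • A - ⟪A, B⟫ • B) - (⟪A, A⟫ • B - ⟪A, B⟫ • A), ?_⟩ ?_
    · simp only [mem_ofPred_eq, inner_sub_right, inner_smul_right, real_inner_comm A B]
      constructor <;> nlinarith
    · rintro z ⟨h1, h2⟩ u hu
      simp only [mem_ofPred_eq, inner_smul_right]
      exact ⟨mul_pos hu h1, mul_neg_of_pos_of_neg hu h2⟩
  have p3 : μ.real (To (T.ℓ c) v ∪ {z : E | 0 < ⟪A, z⟫ ∧ ⟪B, z⟫ < 0}) ≤
      μ.real {z : E | 0 < ⟪A, z⟫} := by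
    refine measureReal_mono ?_
    rintro z (h | h)
    exacts [h s hs, h.1]
  have p4 : Disjoint (To (T.ℓ c) v) {z : E | 0 < ⟪A, z⟫ ∧ ⟪B, z⟫ < 0} :=
    disjoint_left.2 fun z h1 h2 => lt_asymm (h1 t ht) h2.2
  rw [measureReal_union p4 hO.measurableSet, μ_half (T.hl c s)] at p3
  linarith

lemma sum_a (hε : ε < 2) :
    ∑ j, T.a j = (Fintype.card T.J / 2 - Fintype.card C) + 2 / Fintype.card I := by
  have h1 := Finset.sum_congr (rfl : (Finset.univ : Finset C) = _)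
    fun c _ => girard (T.hl c) (T.hne c) (T.pointed hε c)
  have h2 : ∑ j : T.J, (v0 - 2 * μ.real (Tc (T.ℓ j.1) j.2)) =
      ∑ c, ∑ v ∈ Vs (T.ℓ c), (v0 - 2 * μ.real (Tc (T.ℓ c) v)) := by
    rw [Fintype.sum_sigma]
    exact Finset.sum_congr rfl fun c _ =>
      Finset.sum_coe_sort (Vs (T.ℓ c)) fun v => v0 - 2 * μ.real (Tc (T.ℓ c) v)
  rw [← h2, ← Finset.mul_sum, Finset.sum_sub_distrib, Finset.sum_sub_distrib, ← Finset.mul_sum,
    ← Finset.mul_sum] at h1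
  simp only [Finset.sum_const, Finset.card_univ, nsmul_eq_mul] at h1
  have h3 := T.total
  have h4 : (0 : ℝ) < Fintype.card I := by exact_mod_cast T.N_pos
  have h5 := v0_pos
  simp only [a]
  rw [← Finset.sum_div, div_eq_iff h5.ne']
  field_simp
  linear_combination (-Fintype.card I : ℝ) * h1 + 4 * h3

lemma sum_m (j : T.J) : ∑ x ∈ T.X, T.m x j = Fintype.card I := by
  classical
  rw [← Finset.card_univ, Finset.card_eq_sum_card_fiberwise (f := fun i => (T.g i).symm j.2)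
    (t := T.X) fun i _ => by
      simp only [X, Finset.coe_image, Finset.coe_univ, image_univ]; exact ⟨(i, j), rfl⟩]
  refine Finset.sum_congr rfl fun x _ => ?_
  unfold m
  congr 1
  ext i
  simp only [Finset.mem_filter, Finset.mem_univ, true_and]
  constructor
  · intro h; rw [← h]; simp
  · intro h; rw [← h]; simp

open Classical in
noncomputable def Cor (x : E) (A : Finset T.J) : Finset (I × T.J) :=
  Finset.univ.filter fun p => T.g p.1 x = p.2.2 ∧ p.2 ∈ A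

lemma mem_Cor {x : E} {A : Finset T.J} {p : I × T.J} :
    p ∈ T.Cor x A ↔ T.g p.1 x = p.2.2 ∧ p.2 ∈ A := by simp [Cor]

lemma sum_Cor (x : E) (A : Finset T.J) (f : T.J → ℝ) :
    ∑ p ∈ T.Cor x A, f p.2 = ∑ j ∈ A, (T.m x j : ℝ) * f j := by
  classical
  rw [← Finset.sum_fiberwise_of_maps_to (g := fun p : I × T.J => p.2) (t := A)
    fun p hp => (T.mem_Cor.1 hp).2]
  refine Finset.sum_congr rfl fun j hj => ?_
  rw [Finset.sum_congr rfl fun p hp => congrArg f (Finset.mem_filter.1 hp).2, Finset.sum_const,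
    nsmul_eq_mul]
  congr 2
  unfold m
  refine Finset.card_bij (fun p _ => p.1) ?_ ?_ ?_
  · intro p hp
    obtain ⟨h1, rfl⟩ := Finset.mem_filter.1 hp
    simpa using (T.mem_Cor.1 h1).1
  · intro p hp q hq e
    exact Prod.ext e ((Finset.mem_filter.1 hp).2.trans (Finset.mem_filter.1 hq).2.symm)
  · intro i hi
    exact ⟨(i, j), Finset.mem_filter.2 ⟨T.mem_Cor.2 ⟨by simpa using hi, hj⟩, rfl⟩, rfl⟩

lemma card_Cor (x : E) (A : Finset T.J) : ((T.Cor x A).card : ℝ) = ∑ j ∈ A, (T.m x j : ℝ) := by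
  simpa using T.sum_Cor x A fun _ => 1

open Classical in
noncomputable def NV (x : E) : Finset (I × C) :=
  (T.P x).filter fun p => ¬IsV (T.ℓ p.2) (T.g p.1 x)

lemma J_ext {j j' : T.J} (h1 : j.1 = j'.1) (h2 : (j.2 : E) = j'.2) : j = j' := by
  obtain ⟨c, v, hv⟩ := j
  obtain ⟨c', v', hv'⟩ := j'
  simp only at h1 h2
  subst h1; subst h2; rfl

lemma loc2 (x : E) : ∑ j, (T.m x j : ℝ) * T.a j +
    ∑ p ∈ T.NV x, μ.real (Tc (T.ℓ p.2) (T.g p.1 x)) / v0 = 1 := by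
  classical
  have h := T.loc x
  rw [← Finset.sum_filter_add_sum_filter_not (T.P x) fun p => IsV (T.ℓ p.2) (T.g p.1 x)] at h
  have e : ∑ p ∈ T.Cor x Finset.univ, μ.real (Tc (T.ℓ p.2.1) p.2.2) =
      ∑ p ∈ (T.P x).filter fun p => IsV (T.ℓ p.2) (T.g p.1 x),
        μ.real (Tc (T.ℓ p.2) (T.g p.1 x)) := by
    refine Finset.sum_bij (fun p _ => (p.1, p.2.1)) ?_ ?_ ?_ ?_
    · intro p hp
      have h1 := (T.mem_Cor.1 hp).1
      have h2 := mem_Vs.1 p.2.2.2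
      rw [← h1] at h2
      exact Finset.mem_filter.2 ⟨T.mem_P.2 h2.2.1, h2⟩
    · intro p hp q hq e
      simp only [Prod.mk.injEq] at e
      refine Prod.ext e.1 (T.J_ext e.2 ?_)
      rw [← (T.mem_Cor.1 hp).1, ← (T.mem_Cor.1 hq).1, e.1]
    · intro p hp
      exact ⟨(p.1, ⟨p.2, _, mem_Vs.2 (Finset.mem_filter.1 hp).2⟩),
        T.mem_Cor.2 ⟨rfl, Finset.mem_univ _⟩, rfl⟩
    · intro p hp
      rw [(T.mem_Cor.1 hp).1]
  rw [← T.sum_Cor x Finset.univ T.a]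
  simp only [a]
  rw [← Finset.sum_div, ← Finset.sum_div, e, ← add_div, div_eq_one_iff_eq v0_pos.ne', ← h]
  congr 1

lemma norm_X {x : E} (hx : x ∈ T.X) : ‖x‖ = 1 ∧ ∃ j, 0 < T.m x j := by
  classical
  simp only [X, Finset.mem_image, Finset.mem_univ, true_and] at hx
  obtain ⟨p, rfl⟩ := hx
  refine ⟨by rw [LinearIsometryEquiv.norm_map]; exact (mem_Vs.1 p.2.2.2).1, p.2, ?_⟩
  exact Finset.card_pos.2 ⟨p.1, by simp⟩

lemma sig {x : E} (hx : x ∈ T.X) : (T.NV x).card ≤ 1 ∧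
    (∑ j, (T.m x j : ℝ) * T.a j = 1 / 2 ∨ ∑ j, (T.m x j : ℝ) * T.a j = 1) := by
  classical
  obtain ⟨h1, j, hj⟩ := T.norm_X hx
  have h2 : 0 < ∑ j, (T.m x j : ℝ) * T.a j :=
    Finset.sum_pos' (fun l _ => mul_nonneg (Nat.cast_nonneg _) (T.a_pos l).le)
      ⟨j, Finset.mem_univ _, mul_pos (by exact_mod_cast hj) (T.a_pos j)⟩
  have h3 : ∀ p ∈ T.NV x, μ.real (Tc (T.ℓ p.2) (T.g p.1 x)) / v0 = 1 / 2 ∨
      μ.real (Tc (T.ℓ p.2) (T.g p.1 x)) / v0 = 1 := by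
    intro p hp
    unfold NV at hp
    rw [Finset.mem_filter] at hp
    rw [← measureReal_congr (Tc_ae (T.hl _) _)]
    have := v0_pos
    rcases not_V (T.hl _) (T.hne _) (by rw [LinearIsometryEquiv.norm_map, h1]) (T.mem_P.1 hp.1) hp.2
      with e | ⟨f, hf, e⟩
    · right; rw [e]; exact div_self this.ne'
    · left; rw [e, μ_half hf]; field_simp
  have h4 := T.loc2 x
  have h5 : ((T.NV x).card : ℝ) * (1 / 2) ≤
      ∑ p ∈ T.NV x, μ.real (Tc (T.ℓ p.2) (T.g p.1 x)) / v0 := by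
    rw [← nsmul_eq_mul]
    exact Finset.card_nsmul_le_sum _ _ _ fun p hp => by rcases h3 p hp with e | e <;> linarith
  have h6 : (T.NV x).card ≤ 1 := by
    have : ((T.NV x).card : ℝ) < 2 := by linarith
    have : (T.NV x).card < 2 := by exact_mod_cast this
    omega
  refine ⟨h6, ?_⟩
  rcases (T.NV x).eq_empty_or_nonempty with e | ⟨p, hp⟩
  · rw [e] at h4; right; simpa using h4
  · have e : T.NV x = {p} := Finset.eq_singleton_iff_unique_mem.2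
      ⟨hp, fun q hq => Finset.card_le_one.1 h6 q hq p hp⟩
    have := h3 p hp
    rw [e, Finset.sum_singleton] at h4
    rcases this with k | k
    · left; linarith
    · linarith

end Til

end Pool.Agent.Lib.MP_e5885b_co
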