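import Mathlib

set_option autoImplicit false

open MeasureTheory Set
open scoped RealInnerProductSpace

namespace Pool.Agent.Lib.MP_e5885b_co

abbrev E := EuclideanSpace ℝ (Fin 3)

lemma inn (a b : E) : ⟪a, b⟫ = a 0 * b 0 + a 1 * b 1 + a 2 * b 2 := by
  simp [PiLp.inner_apply, Fin.sum_univ_three]; ring

lemma nsq (a : E) : ‖a‖ ^ 2 = a 0 * a 0 + a 1 * a 1 + a 2 * a 2 := by
  rw [← real_inner_self_eq_norm_sq, inn]

noncomputable def cr (a b : E) : E :=
  !₂[a 1 * b 2 - a 2 * b 1, a 2 * b 0 - a 0 * b 2, a 0 * b 1 - a 1 * b 0]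

@[simp] lemma cr0 (a b : E) : cr a b 0 = a 1 * b 2 - a 2 * b 1 := rfl
@[simp] lemma cr1 (a b : E) : cr a b 1 = a 2 * b 0 - a 0 * b 2 := rfl
@[simp] lemma cr2 (a b : E) : cr a b 2 = a 0 * b 1 - a 1 * b 0 := rfl

lemma ext3 {a b : E} (h0 : a 0 = b 0) (h1 : a 1 = b 1) (h2 : a 2 = b 2) : a = b := by
  ext i; fin_cases i <;> assumption

lemma cr_left (a b : E) : ⟪cr a b, a⟫ = 0 := by simp only [inn, cr0, cr1, cr2]; ring
lemma cr_right (a b : E) : ⟪cr a b, b⟫ = 0 := by simp only [inn, cr0, cr1, cr2]; ring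

lemma lagr (a b : E) : ⟪cr a b, cr a b⟫ = ⟪a, a⟫ * ⟪b, b⟫ - ⟪a, b⟫ ^ 2 := by
  simp only [inn, cr0, cr1, cr2]; ring

lemma cr_sub (x a b : E) : cr x a - cr x b = cr x (a - b) := by
  apply ext3 <;> simp <;> ring

/-- dual basis expansion -/
lemma expand (h y w : E) : ⟪cr h y, cr h y⟫ • w = ⟪w, cr h y⟫ • cr h y +
    ⟪w, h⟫ • (⟪y, y⟫ • h - ⟪h, y⟫ • y) + ⟪w, y⟫ • (⟪h, h⟫ • y - ⟪h, y⟫ • h) := by
  apply ext3 <;> simp only [inn, cr0, cr1, cr2, PiLp.add_apply, PiLp.sub_apply, PiLp.smul_apply,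
    smul_eq_mul] <;> ring

lemma inner_one {a : E} (h : ‖a‖ = 1) : ⟪a, a⟫ = 1 := by
  rw [real_inner_self_eq_norm_sq, h]; norm_num

lemma norm_one_of_inner {a : E} (h : ⟪a, a⟫ = 1) : ‖a‖ = 1 := by
  rw [real_inner_self_eq_norm_sq] at h
  nlinarith [norm_nonneg a]

lemma norm_cr {a b : E} (ha : ‖a‖ = 1) (hab : ⟪a, b⟫ = 0) : ‖cr a b‖ = ‖b‖ := by
  have := lagr a b
  rw [inner_one ha, hab, real_inner_self_eq_norm_sq, real_inner_self_eq_norm_sq] at this
  exact (sq_eq_sq₀ (norm_nonneg _) (norm_nonneg _)).1 (by linarith)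

lemma expand_on {a b : E} (ha : ‖a‖ = 1) (hb : ‖b‖ = 1) (hab : ⟪a, b⟫ = 0) (w : E) :
    w = ⟪w, a⟫ • a + ⟪w, b⟫ • b + ⟪w, cr a b⟫ • cr a b := by
  have := expand a b w
  rw [lagr, inner_one ha, inner_one hb, hab] at this
  simp only [mul_one, ne_eq, OfNat.ofNat_ne_zero, not_false_eq_true, zero_pow, sub_zero, one_smul,
    zero_smul] at this
  conv_lhs => rw [this]
  abel

lemma iso_cr (g : E ≃ₗᵢ[ℝ] E) {a b : E} (ha : ‖a‖ = 1) (hb : ‖b‖ = 1) (hab : ⟪a, b⟫ = 0) :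
    g (cr a b) = cr (g a) (g b) ∨ g (cr a b) = -cr (g a) (g b) := by
  have h1 : ‖g a‖ = 1 := by rw [g.norm_map, ha]
  have h2 : ‖g b‖ = 1 := by rw [g.norm_map, hb]
  have h3 : ⟪g a, g b⟫ = 0 := by rw [g.inner_map_map, hab]
  have e := expand_on h1 h2 h3 (g (cr a b))
  rw [g.inner_map_map, g.inner_map_map, cr_left, cr_right, zero_smul, zero_smul, zero_add,
    zero_add] at e
  have n := congrArg norm e
  rw [norm_smul, g.norm_map, norm_cr ha hab, norm_cr h1 h3, hb, h2, mul_one, Real.norm_eq_abs,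
    eq_comm, abs_eq zero_le_one] at n
  rcases n with n | n <;> rw [n] at e
  · left; rw [e, one_smul]
  · right; rw [e, neg_one_smul]

/-- volume of a box in an orthonormal frame -/
lemma vol_box {a b : E} (ha : ‖a‖ = 1) (hb : ‖b‖ = 1) (hab : ⟪a, b⟫ = 0) (A B C : Set ℝ)
    (hA : MeasurableSet A) (hB : MeasurableSet B) (hC : MeasurableSet C) :
    volume {z : E | ⟪z, a⟫ ∈ A ∧ ⟪z, b⟫ ∈ B ∧ ⟪z, cr a b⟫ ∈ C} = volume A * volume B * volume C := by
  have hc : ‖cr a b‖ = 1 := by rw [norm_cr ha hab, hb]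
  have hon : Orthonormal ℝ ![a, b, cr a b] := by
    rw [orthonormal_iff_ite]
    intro i j
    have e1 := cr_left a b
    have e2 := cr_right a b
    have e3 : ⟪a, cr a b⟫ = 0 := by rw [real_inner_comm, e1]
    have e4 : ⟪b, cr a b⟫ = 0 := by rw [real_inner_comm, e2]
    have e5 : ⟪b, a⟫ = 0 := by rw [real_inner_comm, hab]
    fin_cases i <;> fin_cases j <;> simp [ha, hb, hc, e1, e2, e3, e4, e5, hab]
  let B0 : OrthonormalBasis (Fin 3) ℝ E := OrthonormalBasis.mk hon (by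
    intro w _
    rw [expand_on ha hb hab w]
    refine Submodule.add_mem _ (Submodule.add_mem _ ?_ ?_) ?_ <;>
      refine Submodule.smul_mem _ _ (Submodule.subset_span ?_)
    exacts [⟨0, rfl⟩, ⟨1, rfl⟩, ⟨2, rfl⟩])
  have mp : MeasurePreserving (fun z : E => (WithLp.ofLp (B0.repr z) : Fin 3 → ℝ)) volume volume :=
    (PiLp.volume_preserving_ofLp (Fin 3)).comp B0.measurePreserving_repr
  have hm : MeasurableSet (Set.univ.pi ![A, B, C]) :=
    MeasurableSet.univ_pi fun i => by fin_cases i <;> simpa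
  have e := mp.measure_preimage hm.nullMeasurableSet
  rw [volume_pi_pi, Fin.prod_univ_three] at e
  simp only [Matrix.cons_val_zero, Matrix.cons_val_one, Matrix.cons_val] at e
  rw [← e]
  congr 1
  ext z
  simp only [mem_ofPred_eq, mem_preimage, mem_pi, mem_univ, true_implies, Fin.forall_fin_succ,
    OrthonormalBasis.repr_apply_apply, B0, OrthonormalBasis.coe_mk]
  simp [real_inner_comm]

lemma null_plane {f : E} (hf : f ≠ 0) : volume {z : E | ⟪f, z⟫ = 0} = 0 := by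
  have : {z : E | ⟪f, z⟫ = 0} = ((ℝ ∙ f)ᗮ : Submodule ℝ E) := by
    ext z; simp [Submodule.mem_orthogonal_singleton_iff_inner_right]
  rw [this]
  refine Measure.addHaar_submodule _ _ fun h => hf ?_
  have : f ∈ ((ℝ ∙ f)ᗮ : Submodule ℝ E) := by rw [h]; trivial
  rwa [Submodule.mem_orthogonal_singleton_iff_inner_right, inner_self_eq_zero] at this

/-- Lebesgue measure on the unit ball -/
noncomputable def μ : Measure E := volume.restrict (Metric.ball 0 1)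

instance : IsFiniteMeasure μ := ⟨by
  unfold μ; rw [Measure.restrict_apply_univ]; exact measure_ball_lt_top⟩

noncomputable def v0 : ℝ := μ.real univ

lemma μ_pos {U : Set E} (hU : IsOpen U) (hne : U.Nonempty)
    (hs : ∀ z ∈ U, ∀ t : ℝ, 0 < t → t • z ∈ U) : 0 < μ.real U := by
  refine ENNReal.toReal_pos ?_ (measure_ne_top _ _)
  unfold μ
  rw [Measure.restrict_apply hU.measurableSet]
  refine ((hU.inter Metric.isOpen_ball).measure_pos _ ?_).ne'
  obtain ⟨z, hz⟩ := hne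
  refine ⟨(1 / (‖z‖ + 1)) • z, hs z hz _ (by positivity), ?_⟩
  rw [mem_ball_zero_iff, norm_smul, Real.norm_of_nonneg (by positivity), one_div,
    inv_mul_lt_iff₀ (by positivity)]
  linarith

lemma v0_pos : 0 < v0 := μ_pos isOpen_univ univ_nonempty fun _ _ _ _ => trivial

lemma μ_iso (g : E ≃ₗᵢ[ℝ] E) {S : Set E} (hS : MeasurableSet S) : μ.real (g ⁻¹' S) = μ.real S := by
  unfold Measure.real μ
  congr 1
  rw [Measure.restrict_apply hS, Measure.restrict_apply (g.continuous.measurable hS),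
    ← g.measurePreserving.measure_preimage (hS.inter measurableSet_ball).nullMeasurableSet]
  congr 1
  ext z; simp

lemma ae_generic {τ : Type} [Countable τ] (ℓ : τ → E) (h : ∀ t, ℓ t ≠ 0) :
    ∀ᵐ z ∂(volume : Measure E), ∀ t, ⟪ℓ t, z⟫ ≠ 0 := by
  rw [ae_all_iff]
  intro t
  rw [ae_iff]; simpa using null_plane (h t)

lemma ae_generic' {τ : Type} [Countable τ] (ℓ : τ → E) (h : ∀ t, ℓ t ≠ 0) :
    ∀ᵐ z ∂μ, ∀ t, ⟪ℓ t, z⟫ ≠ 0 := ae_restrict_of_ae (ae_generic ℓ h)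

lemma μ_le_box {a b : E} (ha : ‖a‖ = 1) (hb : ‖b‖ = 1) (hab : ⟪a, b⟫ = 0) {S : Set E}
    {p q r p' q' r' : ℝ} (hp : p ≤ p') (hq : q ≤ q') (hr : r ≤ r')
    (h : ∀ z ∈ S, ‖z‖ < 1 → ⟪z, a⟫ ∈ Icc p p' ∧ ⟪z, b⟫ ∈ Icc q q' ∧ ⟪z, cr a b⟫ ∈ Icc r r') :
    μ.real S ≤ (p' - p) * (q' - q) * (r' - r) := by
  have e := vol_box ha hb hab (Icc p p') (Icc q q') (Icc r r') measurableSet_Icc measurableSet_Icc
    measurableSet_Icc
  simp only [Real.volume_Icc] at e
  refine ENNReal.toReal_le_of_le_ofReal (by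
    have := sub_nonneg.2 hp; have := sub_nonneg.2 hq; have := sub_nonneg.2 hr; positivity) ?_
  rw [ENNReal.ofReal_mul (mul_nonneg (sub_nonneg.2 hp) (sub_nonneg.2 hq)),
    ENNReal.ofReal_mul (sub_nonneg.2 hp), ← e]
  unfold μ
  rw [Measure.restrict_apply' measurableSet_ball]
  exact measure_mono fun z hz => h z hz.1 (mem_ball_zero_iff.1 hz.2)

lemma exists_perp (a b : E) : ∃ e : E, ‖e‖ = 1 ∧ ⟪a, e⟫ = 0 ∧ ⟪b, e⟫ = 0 := by
  have h : ((Submodule.span ℝ {a, b})ᗮ : Submodule ℝ E) ≠ ⊥ := by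
    intro h
    rw [Submodule.orthogonal_eq_bot_iff] at h
    have h1 := finrank_span_le_card (R := ℝ) ({a, b} : Set E)
    rw [h, finrank_top, finrank_euclideanSpace_fin] at h1
    have h2 : ({a, b} : Set E).toFinset.card ≤ 2 := by
      rw [Set.toFinset_insert, Set.toFinset_singleton]; exact Finset.card_le_two
    omega
  obtain ⟨e, he, h0⟩ := Submodule.exists_mem_ne_zero_of_ne_bot h
  rw [Submodule.mem_orthogonal] at he
  refine ⟨‖e‖⁻¹ • e, norm_smul_inv_norm h0, ?_, ?_⟩ <;>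
    rw [inner_smul_right, he _ (Submodule.subset_span (by simp)), mul_zero]

end Pool.Agent.Lib.MP_e5885b_co
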