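import Pool.Agent.Lib.MP_e5885b_co.Spike
import Pool.Agent.Lib.MP_e5885b_co.Sphere

set_option autoImplicit false
set_option linter.unusedSectionVars false

open MeasureTheory Set Filter Topology InnerProductGeometry
open scoped RealInnerProductSpace

namespace Pool.Agent.Lib.MP_e5885b_co

lemma wedge0 {v y z : E} (hv : ‖v‖ = 1) (hD : 0 < ⟪cr v y, z⟫) : ∃ U : Set E,
    angle (y - ⟪v, y⟫ • v) (z - ⟪v, z⟫ • v) / Real.pi / 64 ≤ μ.real U ∧
    ∀ w ∈ U, ∃ α β γ : ℝ, 0 < β ∧ 0 < γ ∧ w = α • v + β • y + γ • z := by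
  set p := y - ⟪v, y⟫ • v with hp
  set q := z - ⟪v, z⟫ • v with hq
  set φ := angle p q with hφ
  have pi0 := Real.pi_pos
  rcases (angle_nonneg p q).eq_or_lt with k0 | k0
  · exact ⟨∅, by rw [hφ, ← k0]; simp, by simp⟩
  have vp : ⟪v, p⟫ = 0 := by rw [hp, inner_sub_right, inner_smul_right, inner_one hv]; ring
  have vq : ⟪v, q⟫ = 0 := by rw [hq, inner_sub_right, inner_smul_right, inner_one hv]; ring
  have e1 : ⟪q, cr v p⟫ = ⟪cr v y, z⟫ := by
    simp only [hp, hq, inn, cr0, cr1, cr2, PiLp.sub_apply, PiLp.smul_apply, smul_eq_mul]; ring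
  have p0 : p ≠ 0 := fun k => by
    rw [← e1, k] at hD
    simp [inn] at hD
  have q0 : q ≠ 0 := fun k => by rw [← e1, k] at hD; simp at hD
  have np : 0 < ‖p‖ := norm_pos_iff.2 p0
  have nq : 0 < ‖q‖ := norm_pos_iff.2 q0
  set d := ‖p‖⁻¹ • p with hd
  have d1 : ‖d‖ = 1 := norm_smul_inv_norm p0
  have vd : ⟪v, d⟫ = 0 := by rw [hd, inner_smul_right, vp, mul_zero]
  have qn : 0 < ⟪q, cr v d⟫ := by
    have : ⟪q, cr v d⟫ = ‖p‖⁻¹ * ⟪q, cr v p⟫ := by
      simp only [hd, inn, cr0, cr1, cr2, PiLp.smul_apply, smul_eq_mul]; ring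
    rw [this, e1]; positivity
  have eq1 := expand_on hv d1 vd q
  have eq2 := inner_on hv d1 vd q q
  rw [real_inner_comm v q, vq] at eq1 eq2
  rw [real_inner_self_eq_norm_sq] at eq2
  have hc : Real.cos φ * ‖q‖ = ⟪q, d⟫ := by
    rw [hφ, cos_angle, hd, inner_smul_right, real_inner_comm p q]; field_simp
  have hs : Real.sin φ * ‖q‖ = ⟪q, cr v d⟫ := by
    refine (sq_eq_sq₀ (mul_nonneg (Real.sin_nonneg_of_nonneg_of_le_pi k0.le (angle_le_pi p q))
      nq.le) qn.le).1 ?_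
    rw [mul_pow, Real.sin_sq, sub_mul, ← mul_pow, hc]; linarith
  refine ⟨Bx v d (φ / Real.pi), (μ_Bx hv d1 vd (by positivity)
    ((div_le_one pi0).2 (angle_le_pi p q))).ge, ?_⟩
  rintro w ⟨-, ⟨b1, -⟩, c1, c2⟩
  have ew := expand_on hv d1 vd w
  set u := ⟪w, d⟫
  set t := ⟪w, cr v d⟫
  set a := ⟪q, d⟫
  set b := ⟪q, cr v d⟫
  have key : t * a < u * b := by
    rcases le_or_gt a 0 with k | k
    · nlinarith
    · have c0 : 0 < Real.cos φ := by
        by_contra j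
        push Not at j
        nlinarith
      have h2 : φ ≤ Real.pi / 2 := by
        by_contra j
        push Not at j
        exact absurd c0 (not_lt.2 (Real.cos_nonpos_of_pi_div_two_le_of_le j.le
          (by linarith [angle_le_pi p q])))
      have h3 := Real.mul_le_sin k0.le h2
      have h4 : a ≤ ‖q‖ := by nlinarith [Real.cos_le_one φ]
      have h5 : 2 / Real.pi * φ = 2 * (φ / Real.pi) := by ring
      have h6 : 0 < φ / Real.pi := by positivity
      have h7 : 2 * (φ / Real.pi) * ‖q‖ ≤ b := by rw [← hs, ← h5]; gcongr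
      have h8 : t * a ≤ φ / Real.pi / 16 * ‖q‖ := by gcongr
      have h9 := mul_pos h6 nq
      nlinarith
  have en : cr v d = b⁻¹ • (q - a • d) := by
    rw [eq_inv_smul_iff₀ qn.ne']
    conv_rhs => rw [eq1]
    module
  refine ⟨⟪w, v⟫ - (u - t * a / b) * ‖p‖⁻¹ * ⟪v, y⟫ - t / b * ⟪v, z⟫, (u - t * a / b) * ‖p‖⁻¹,
    t / b, ?_, by positivity, ?_⟩
  · refine mul_pos (sub_pos.2 ?_) (by positivity)
    rwa [div_lt_iff₀ qn]
  · conv_lhs => rw [ew, en, hd, hp, hq]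
    simp only [div_eq_mul_inv]
    module

lemma det_ne {v y z : E} (h : LinearIndependent ℝ ![v, y, z]) : ⟪cr v y, z⟫ ≠ 0 := by
  intro k
  rw [Fintype.linearIndependent_iff] at h
  have e := expand v y z
  rw [real_inner_comm (cr v y) z, k] at e
  have h1 := h ![⟪z, v⟫ * ⟪y, y⟫ - ⟪z, y⟫ * ⟪v, y⟫, ⟪z, y⟫ * ⟪v, v⟫ - ⟪z, v⟫ * ⟪v, y⟫,
    -⟪cr v y, cr v y⟫] (by
      simp only [Fin.sum_univ_three, Matrix.cons_val_zero, Matrix.cons_val_one, Matrix.cons_val]
      rw [neg_smul, e]; module) 2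
  have h2 : ⟪cr v y, cr v y⟫ = 0 := by simpa using h1
  rw [lagr] at h2
  have h3 := h ![-⟪v, y⟫, ⟪v, v⟫, 0] (by
    simp only [Fin.sum_univ_three, Matrix.cons_val_zero, Matrix.cons_val_one, Matrix.cons_val,
      zero_smul, add_zero]
    rw [← inner_self_eq_zero (𝕜 := ℝ)]
    simp only [inner_add_left, inner_add_right, inner_smul_left, inner_smul_right,
      real_inner_comm v y, conj_trivial]
    linear_combination ⟪v, v⟫ * h2) 1
  have h4 : v = 0 := by simpa using h3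
  have := h ![1, 0, 0] (by simp [Fin.sum_univ_three, h4]) 0
  simp at this

lemma wedge {v y z : E} (hv : ‖v‖ = 1) (h : LinearIndependent ℝ ![v, y, z]) : ∃ U : Set E,
    angle (y - ⟪v, y⟫ • v) (z - ⟪v, z⟫ • v) / Real.pi / 64 ≤ μ.real U ∧
    ∀ w ∈ U, ∃ α β γ : ℝ, 0 < β ∧ 0 < γ ∧ w = α • v + β • y + γ • z := by
  rcases (det_ne h).lt_or_gt with k | k
  · obtain ⟨U, a, b⟩ := wedge0 (v := v) (y := z) (z := y) hv (by
      have : ⟪cr v z, y⟫ = -⟪cr v y, z⟫ := by simp only [inn, cr0, cr1, cr2]; ring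
      linarith)
    refine ⟨U, by rwa [angle_comm], fun w hw => ?_⟩
    obtain ⟨α, β, γ, p, q, e⟩ := b w hw
    exact ⟨α, γ, β, q, p, by rw [e]; abel⟩
  · exact wedge0 hv k

end Pool.Agent.Lib.MP_e5885b_co
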